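import Pool.Agent.Lib.MP_caf32e_co.Defs

/-! Row K2: list colouring from a bipartite orientation with small out-degrees. -/

namespace TorGrid

open Finset

private theorem k2_kernel {V : Type*} [DecidableEq V] (A : V → Prop) (R : V → V → Prop)
    (hR : ∀ u v, R u v → (A u ↔ ¬ A v)) (n : ℕ) : ∀ S : Finset V, S.card ≤ n →
    ∃ K ⊆ S, (∀ u ∈ K, ∀ v ∈ K, ¬ R u v) ∧ ∀ u ∈ S, u ∉ K → ∃ v ∈ K, R u v := by
  classical
  induction n with
  | zero =>
    intro S hS
    have : S = ∅ := Finset.card_eq_zero.1 (Nat.le_zero.1 hS)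
    subst this
    exact ⟨∅, Finset.Subset.refl _, by simp, by simp⟩
  | succ n ih =>
    intro S hS
    by_cases hv : ∃ v ∈ S, ∀ w ∈ S, ¬ R v w
    · obtain ⟨v, hvS, hvR⟩ := hv
      obtain ⟨K, hKS, hK1, hK2⟩ := ih (S.filter (fun u => u ≠ v ∧ ¬ R u v)) (by
        have h1 : (S.filter (fun u => u ≠ v ∧ ¬ R u v)).card < S.card := by
          apply Finset.card_lt_card
          refine ⟨Finset.filter_subset _ _, fun h => ?_⟩
          have h2 := h hvS
          rw [Finset.mem_filter] at h2
          exact h2.2.1 rfl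
        omega)
      refine ⟨insert v K, ?_, ?_, ?_⟩
      · intro u hu
        rcases Finset.mem_insert.1 hu with rfl | hu
        · exact hvS
        · exact (Finset.mem_filter.1 (hKS hu)).1
      · intro u hu w hw
        rcases Finset.mem_insert.1 hu with hu' | hu'
        · rw [hu']
          apply hvR
          rcases Finset.mem_insert.1 hw with hw' | hw'
          · rw [hw']; exact hvS
          · exact (Finset.mem_filter.1 (hKS hw')).1
        · rcases Finset.mem_insert.1 hw with hw' | hw'
          · rw [hw']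
            exact (Finset.mem_filter.1 (hKS hu')).2.2
          · exact hK1 u hu' w hw'
      · intro u hu huK
        by_cases hRu : R u v
        · exact ⟨v, Finset.mem_insert_self _ _, hRu⟩
        · have huv : u ≠ v := fun h => huK (h ▸ Finset.mem_insert_self _ _)
          obtain ⟨w, hw, hRw⟩ := hK2 u (Finset.mem_filter.2 ⟨hu, huv, hRu⟩)
            (fun h => huK (Finset.mem_insert_of_mem h))
          exact ⟨w, Finset.mem_insert_of_mem hw, hRw⟩
    · push Not at hv
      refine ⟨S.filter A, Finset.filter_subset _ _, ?_, ?_⟩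
      · intro u hu w hw hRuw
        exact (hR u w hRuw).1 (Finset.mem_filter.1 hu).2 (Finset.mem_filter.1 hw).2
      · intro u hu huK
        obtain ⟨w, hw, hRw⟩ := hv u hu
        have hAu : ¬ A u := fun h => huK (Finset.mem_filter.2 ⟨hu, h⟩)
        have hAw : A w := by
          by_contra h
          exact hAu ((hR u w hRw).2 h)
        exact ⟨w, Finset.mem_filter.2 ⟨hw, hAw⟩, hRw⟩

open Classical in
private theorem k2_aux {V : Type*} [DecidableEq V] (A : V → Prop) (R : V → V → Prop)
    (hR : ∀ u v, R u v → (A u ↔ ¬ A v)) (n : ℕ) : ∀ (X : Finset V) (L : V → Finset ℕ),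
    X.card ≤ n → (∀ v ∈ X, (X.filter (fun w => R v w)).card < (L v).card) →
    ∃ c : V → ℕ, (∀ v ∈ X, c v ∈ L v) ∧ ∀ u ∈ X, ∀ v ∈ X, R u v → c u ≠ c v := by
  induction n with
  | zero =>
    intro X L hX _
    have : X = ∅ := Finset.card_eq_zero.1 (Nat.le_zero.1 hX)
    subst this
    exact ⟨fun _ => 0, by simp, by simp⟩
  | succ n ih =>
    intro X L hX hdeg
    rcases X.eq_empty_or_nonempty with rfl | ⟨v0, hv0⟩
    · exact ⟨fun _ => 0, by simp, by simp⟩
    have hne : (L v0).Nonempty := by
      rw [← Finset.card_pos]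
      have := hdeg v0 hv0
      omega
    obtain ⟨a, ha⟩ := hne
    obtain ⟨K, hKS, hK1, hK2⟩ := k2_kernel A R hR _ (X.filter (fun v => a ∈ L v)) le_rfl
    have hKX : K ⊆ X := hKS.trans (Finset.filter_subset _ _)
    have hKne : K.Nonempty := by
      by_cases h : v0 ∈ K
      · exact ⟨v0, h⟩
      · obtain ⟨w, hw, _⟩ := hK2 v0 (Finset.mem_filter.2 ⟨hv0, ha⟩) h
        exact ⟨w, hw⟩
    obtain ⟨c, hc1, hc2⟩ := ih (X \ K) (fun v => (L v).erase a) (by
        have h1 : (X \ K).card < X.card := by
          apply Finset.card_lt_card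
          obtain ⟨k, hk⟩ := hKne
          refine ⟨Finset.sdiff_subset, fun h => ?_⟩
          exact (Finset.mem_sdiff.1 (h (hKX hk))).2 hk
        omega) (by
        intro v hv
        obtain ⟨hvX, hvK⟩ := Finset.mem_sdiff.1 hv
        have hd := hdeg v hvX
        have hsub : (X \ K).filter (fun w => R v w) ⊆ X.filter (fun w => R v w) :=
          Finset.filter_subset_filter _ Finset.sdiff_subset
        by_cases hav : a ∈ L v
        · obtain ⟨w, hw, hRw⟩ := hK2 v (Finset.mem_filter.2 ⟨hvX, hav⟩) hvK
          have hlt : ((X \ K).filter (fun w => R v w)).card <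
              (X.filter (fun w => R v w)).card := by
            apply Finset.card_lt_card
            refine ⟨hsub, fun h => ?_⟩
            have h1 := h (Finset.mem_filter.2 ⟨hKX hw, hRw⟩)
            exact (Finset.mem_sdiff.1 (Finset.mem_filter.1 h1).1).2 hw
          rw [Finset.card_erase_of_mem hav]
          omega
        · rw [Finset.erase_eq_of_notMem hav]
          exact lt_of_le_of_lt (Finset.card_le_card hsub) hd)
    refine ⟨fun v => if v ∈ K then a else c v, ?_, ?_⟩
    · intro v hv
      by_cases hvK : v ∈ K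
      · simp only [if_pos hvK]
        exact (Finset.mem_filter.1 (hKS hvK)).2
      · simp only [if_neg hvK]
        exact Finset.mem_of_mem_erase (hc1 v (Finset.mem_sdiff.2 ⟨hv, hvK⟩))
    · intro u hu v hv hRuv
      by_cases huK : u ∈ K
      · by_cases hvK : v ∈ K
        · exact absurd hRuv (hK1 u huK v hvK)
        · simp only [if_pos huK, if_neg hvK]
          intro h
          exact Finset.notMem_erase a (L v) (h ▸ hc1 v (Finset.mem_sdiff.2 ⟨hv, hvK⟩))
      · by_cases hvK : v ∈ K
        · simp only [if_neg huK, if_pos hvK]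
          intro h
          exact Finset.notMem_erase a (L u) (h ▸ hc1 u (Finset.mem_sdiff.2 ⟨hu, huK⟩))
        · simp only [if_neg huK, if_neg hvK]
          exact hc2 u (Finset.mem_sdiff.2 ⟨hu, huK⟩) v (Finset.mem_sdiff.2 ⟨hv, hvK⟩) hRuv

open Classical in
/-- K2. Colouring from an orientation with out-degrees smaller than the list sizes. -/
theorem col_of_orient {V : Type*} [DecidableEq V] (A : V → Prop) (R : V → V → Prop)
    (hR : ∀ u v, R u v → (A u ↔ ¬ A v)) (X : Finset V) (L : V → Finset ℕ)
    (hdeg : ∀ v ∈ X, (X.filter (fun w => R v w)).card < (L v).card) :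
    ∃ c : V → ℕ, (∀ v ∈ X, c v ∈ L v) ∧ ∀ u ∈ X, ∀ v ∈ X, R u v → c u ≠ c v :=
  k2_aux A R hR _ X L le_rfl hdeg

end TorGrid
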