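import Pool.Agent.Lib.MP_caf32e_co.Defs

/-! Row K3: orientation with prescribed out-degree bounds, from Hall's theorem. -/

namespace TorGrid

open Finset

open Classical in
/-- K3. Hall: orientation with prescribed bounds on the out-degrees. -/
theorem orient_of_hall {V : Type*} [DecidableEq V] (G : SimpleGraph V) (X : Finset V) (b : V → ℕ)
    (H : ∀ W ⊆ X, dIn G W ≤ 2 * ∑ v ∈ W, b v) :
    ∃ R : V → V → Prop, (∀ u v, R u v → u ∈ X ∧ v ∈ X ∧ G.Adj u v) ∧
      (∀ u ∈ X, ∀ v ∈ X, G.Adj u v → R u v ∨ R v u) ∧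
      ∀ v ∈ X, (X.filter (fun w => R v w)).card ≤ b v := by
  let E : Finset (Sym2 V) :=
    ((X ×ˢ X).filter (fun p => G.Adj p.1 p.2)).image (fun p => s(p.1, p.2))
  have hE : ∀ u v, s(u, v) ∈ E ↔ u ∈ X ∧ v ∈ X ∧ G.Adj u v := by
    intro u v
    simp only [E, mem_image, mem_filter, mem_product]
    constructor
    · rintro ⟨⟨a, c⟩, ⟨⟨h1, h2⟩, h3⟩, h4⟩
      simp only [Sym2.eq_iff] at h4
      rcases h4 with ⟨rfl, rfl⟩ | ⟨rfl, rfl⟩
      · exact ⟨h1, h2, h3⟩
      · exact ⟨h2, h1, h3.symm⟩
    · rintro ⟨h1, h2, h3⟩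
      exact ⟨(u, v), ⟨⟨h1, h2⟩, h3⟩, rfl⟩
  let t : {e : Sym2 V // e ∈ E} → Finset (Σ _ : V, ℕ) :=
    fun e => (X.filter (fun v => v ∈ e.1)).sigma (fun v => range (b v))
  have hall : ∀ s : Finset {e : Sym2 V // e ∈ E}, s.card ≤ (s.biUnion t).card := by
    intro s
    let W := X.filter (fun v => ∃ e ∈ s, v ∈ e.1)
    have hW : W ⊆ X := filter_subset _ _
    have h1 : s.biUnion t = W.sigma (fun v => range (b v)) := by
      ext ⟨v, i⟩
      simp only [t, W, mem_biUnion, mem_sigma, mem_filter, mem_range]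
      constructor
      · rintro ⟨e, he, ⟨hv, hve⟩, hi⟩
        exact ⟨⟨hv, e, he, hve⟩, hi⟩
      · rintro ⟨⟨hv, e, he, hve⟩, hi⟩
        exact ⟨e, he, ⟨hv, hve⟩, hi⟩
    have h2 : (s.biUnion t).card = ∑ v ∈ W, b v := by
      rw [h1, card_sigma]
      simp
    have h3 : 2 * s.card ≤ dIn G W := by
      unfold dIn
      have h4 : (s.biUnion (fun e => ((W ×ˢ W).filter (fun p => G.Adj p.1 p.2)).filter
          (fun p => s(p.1, p.2) = e.1))).card ≤
          ((W ×ˢ W).filter (fun p => G.Adj p.1 p.2)).card := by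
        apply card_le_card
        intro p hp
        simp only [mem_biUnion, mem_filter] at hp
        obtain ⟨e, _, hp, _⟩ := hp
        simpa using hp
      have h5 : (s.biUnion (fun e => ((W ×ˢ W).filter (fun p => G.Adj p.1 p.2)).filter
          (fun p => s(p.1, p.2) = e.1))).card =
          ∑ e ∈ s, (((W ×ˢ W).filter (fun p => G.Adj p.1 p.2)).filter
            (fun p => s(p.1, p.2) = e.1)).card := by
        apply card_biUnion
        intro e _ e' _ hne
        rw [Function.onFun, disjoint_left]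
        intro p hp hp'
        simp only [mem_filter] at hp hp'
        exact hne (Subtype.ext (hp.2.symm.trans hp'.2))
      have h6 : ∀ e ∈ s, 2 ≤ (((W ×ˢ W).filter (fun p => G.Adj p.1 p.2)).filter
            (fun p => s(p.1, p.2) = e.1)).card := by
        rintro ⟨e, he⟩ hes
        induction e using Sym2.ind with
        | _ u v =>
          obtain ⟨hu, hv, huv⟩ := (hE u v).1 he
          have hu' : u ∈ W := by
            simp only [W, mem_filter]
            exact ⟨hu, _, hes, by simp⟩
          have hv' : v ∈ W := by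
            simp only [W, mem_filter]
            exact ⟨hv, _, hes, by simp⟩
          have hne : (u, v) ≠ (v, u) := by
            intro h
            exact huv.ne (Prod.ext_iff.1 h).1
          have hsub : ({(u, v), (v, u)} : Finset (V × V)) ⊆
              ((W ×ˢ W).filter (fun p => G.Adj p.1 p.2)).filter
                (fun p => s(p.1, p.2) = s(u, v)) := by
            intro p hp
            simp only [mem_insert, mem_singleton] at hp
            simp only [mem_filter, mem_product]
            rcases hp with rfl | rfl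
            · exact ⟨⟨⟨hu', hv'⟩, huv⟩, rfl⟩
            · exact ⟨⟨⟨hv', hu'⟩, huv.symm⟩, Sym2.eq_swap⟩
          have := card_le_card hsub
          rwa [card_pair hne] at this
      have h7 : s.card * 2 ≤ ∑ e ∈ s, (((W ×ˢ W).filter (fun p => G.Adj p.1 p.2)).filter
            (fun p => s(p.1, p.2) = e.1)).card := by
        rw [← smul_eq_mul]
        exact card_nsmul_le_sum _ _ _ h6
      calc 2 * s.card = s.card * 2 := by ring
        _ ≤ _ := h7
        _ = _ := h5.symm
        _ ≤ _ := by convert h4 using 2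
    have h8 := H W hW
    omega
  obtain ⟨f, hf, hft⟩ := (Finset.all_card_le_biUnion_card_iff_exists_injective t).1 hall
  have hmem : ∀ e, (f e).1 ∈ X ∧ (f e).1 ∈ e.1 ∧ (f e).2 < b (f e).1 := by
    intro e
    have := hft e
    simp only [t, mem_sigma, mem_filter, mem_range] at this
    exact ⟨this.1.1, this.1.2, this.2⟩
  refine ⟨fun u v => ∃ h : s(u, v) ∈ E, (f ⟨s(u, v), h⟩).1 = u, ?_, ?_, ?_⟩
  · rintro u v ⟨h, _⟩
    exact (hE u v).1 h
  · intro u hu v hv huv
    have he : s(u, v) ∈ E := (hE u v).2 ⟨hu, hv, huv⟩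
    have h1 := (hmem ⟨s(u, v), he⟩).2.1
    simp only [Sym2.mem_iff] at h1
    rcases h1 with h1 | h1
    · exact Or.inl ⟨he, h1⟩
    · right
      have he' : s(v, u) ∈ E := by rw [Sym2.eq_swap]; exact he
      refine ⟨he', ?_⟩
      have : (⟨s(v, u), he'⟩ : {e : Sym2 V // e ∈ E}) = ⟨s(u, v), he⟩ := Subtype.ext Sym2.eq_swap
      rw [this]
      exact h1
  · intro v _
    rw [← card_range (b v)]
    apply card_le_card_of_injOn
      (fun w => if h : s(v, w) ∈ E then (f ⟨s(v, w), h⟩).2 else 0)
    · intro w hw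
      simp only [coe_filter, Set.mem_setOf_eq] at hw
      obtain ⟨_, h, h1⟩ := hw
      simp only [h, dite_true, coe_range, Set.mem_Iio]
      have := (hmem ⟨s(v, w), h⟩).2.2
      rwa [h1] at this
    · intro w hw w' hw' hww
      simp only [coe_filter, Set.mem_setOf_eq] at hw hw'
      obtain ⟨_, h, h1⟩ := hw
      obtain ⟨_, h', h1'⟩ := hw'
      simp only [h, h', dite_true] at hww
      have h2 : f ⟨s(v, w), h⟩ = f ⟨s(v, w'), h'⟩ := by
        apply Sigma.ext
        · rw [h1, h1']
        · exact heq_of_eq hww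
      have h3 := Subtype.ext_iff.1 (hf h2)
      simp only [Sym2.congr_right] at h3
      exact h3

end TorGrid
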