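import Pool.Agent.Lib.MP_caf32e_co.Defs
import Pool.Agent.Lib.MP_caf32e_co.K2
import Pool.Agent.Lib.MP_caf32e_co.K3

/-! Row K4 (helper90). -/

namespace TorGrid

open Finset

/-- K4. Bipartite list colouring from the surplus condition. -/
theorem bip_col {V : Type*} [DecidableEq V] (G : SimpleGraph V) (A : V → Prop)
    (L : V → Finset ℕ) (X : Finset V)
    (hbip : ∀ u ∈ X, ∀ v ∈ X, G.Adj u v → (A u ↔ ¬ A v))
    (H : ∀ W ⊆ X, 0 ≤ h2 G L W) : ColOn G L X := by
  classical
  have hpos : ∀ v ∈ X, 1 ≤ (L v).card := by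
    intro v hv
    have h := H {v} (Finset.singleton_subset_iff.mpr hv)
    unfold h2 at h
    rw [Finset.sum_singleton] at h
    have h0 : (0 : ℤ) ≤ (dIn G {v} : ℤ) := Int.natCast_nonneg _
    omega
  obtain ⟨R, hR1, hR2, hR3⟩ := orient_of_hall G X (fun v => (L v).card - 1) (by
    intro W hW
    have h := H W hW
    unfold h2 at h
    have hs : ((2 * ∑ v ∈ W, ((L v).card - 1) : ℕ) : ℤ) = ∑ v ∈ W, (2 * ((L v).card : ℤ) - 2) := by
      rw [Nat.cast_mul, Nat.cast_sum, Finset.mul_sum]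
      refine Finset.sum_congr rfl fun v hv => ?_
      have := hpos v (hW hv)
      push_cast [Nat.cast_sub this]
      ring
    have : (dIn G W : ℤ) ≤ ((2 * ∑ v ∈ W, ((L v).card - 1) : ℕ) : ℤ) := by
      rw [hs]; linarith
    exact_mod_cast this)
  obtain ⟨c, hc1, hc2⟩ := col_of_orient A R
    (fun u v h => hbip u (hR1 u v h).1 v (hR1 u v h).2.1 (hR1 u v h).2.2) X L (by
      intro v hv
      have h1 := hR3 v hv
      have h2 := hpos v hv
      refine lt_of_le_of_lt h1 ?_
      show (L v).card - 1 < (L v).card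
      omega)
  refine ⟨c, hc1, fun u hu v hv huv => ?_⟩
  rcases hR2 u hu v hv huv with h | h
  · exact hc2 u hu v hv h
  · exact (hc2 v hv u hu h).symm

end TorGrid
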