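import Pool.Agent.Lib.MP_caf32e_co.Defs

/-! Row K6. -/

namespace TorGrid

open Finset

/-- K6. A minimal non-colourable set is connected: it has no proper part closed under adjacency. -/
theorem crit_connected {V : Type*} [DecidableEq V] (G : SimpleGraph V)
    (L : V → Finset ℕ) (X : Finset V) (hX : ¬ ColOn G L X) (hmin : ∀ Y, Y ⊂ X → ColOn G L Y)
    (Y : Finset V) (hY : Y ⊆ X) (hne : Y.Nonempty)
    (hcl : ∀ u ∈ Y, ∀ v ∈ X, G.Adj u v → v ∈ Y) : Y = X := by
  by_contra hYX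
  have h1 : Y ⊂ X := Finset.ssubset_iff_subset_ne.2 ⟨hY, hYX⟩
  have h2 : X \ Y ⊂ X := by
    refine Finset.ssubset_iff_subset_ne.2 ⟨sdiff_subset, fun h => ?_⟩
    obtain ⟨y, hy⟩ := hne
    have : y ∈ X \ Y := by rw [h]; exact hY hy
    exact (mem_sdiff.1 this).2 hy
  obtain ⟨c1, hc1, hc1'⟩ := hmin Y h1
  obtain ⟨c2, hc2, hc2'⟩ := hmin _ h2
  apply hX
  refine ⟨fun v => if v ∈ Y then c1 v else c2 v, ?_, ?_⟩
  · intro v hv
    by_cases hvY : v ∈ Y
    · simp only [hvY, if_true]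
      exact hc1 v hvY
    · simp only [hvY, if_false]
      exact hc2 v (mem_sdiff.2 ⟨hv, hvY⟩)
  · intro u hu v hv huv
    by_cases huY : u ∈ Y
    · have hvY := hcl u huY v hv huv
      simp only [huY, hvY, if_true]
      exact hc1' u huY v hvY huv
    · by_cases hvY : v ∈ Y
      · exact absurd (hcl v hvY u hu huv.symm) huY
      · simp only [huY, hvY, if_false]
        exact hc2' u (mem_sdiff.2 ⟨hu, huY⟩) v (mem_sdiff.2 ⟨hv, hvY⟩) huv

end TorGrid
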