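import Pool.Agent.Lib.MP_caf32e_co.CertTbl

namespace TorGrid

/-- lemmas 502 to 505 -/
def cB175 : List CLem := [
  ⟨(5, 0x20872082208123882080, 1, 8325), 0, 1599455, 76, 0xbf0cfc46aa9d0c6eb141144e00007e19bedd0412bf27043ebed2fc22bd250c0abed10412becd0412b6a4fc3abdd0fc12bdccfc12b64cfc02bf2afc3abf050412bf1d040200008201bddcfc12b85cfc12b6990c1600008209bf2d043ebc430c0abf21042abf1b042ab1430bf6bee2fc12beeefc02beeafc02becefc26bec2fc3a00037e1900007e15be6d0c5e00002180bf1104120000218400008211bec8fc3abf190416bf2efc02bf12fc0200007e09bd9efc12b1530c5ebdd50c4ebd910412bf2d043a00008219b1530bf6b1430c4ebedefc3a00002188bee4fc02bec8fc12bec2fc12bed2fc26bed6fc2600037e0900037e11bf01040a00027e0d0001820d00008205bc5cfc5abda8fc02bf0d0416bf08fc1200001f84bf110416bf1d040a00001f8000037e050000208000037e01, [(0x300000000, 0x870000880, 8, 0xe0000c1100a12008140060d0040a0023f00008), (0x200000200, 0x870000480, 4, 0x6000040a00a0c01008), (0x4000000280000000, 0xd200010000046b0, 2, 0x14000126f), (0x200000000, 0x870000480, 26, 0x3a000384b0366e0344c09c75032700301c02e6202c7d02a780287e0267a0246402266020440060d01e4801c0800c1109a12098400040a01a16018760166a0023f),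 (0x200000400, 0xe4000001100042e0, 18, 0x52000506f04e6c04c7304a700486601a160187604644044460166a0023f0423a0403c01e1003e4903c6800609), (0x200000000, 0x870000080, 26, 0x68000664e064480a01d03c6802c79062740607e05e7c05c7a05a6005862048660564c01c100541a0464401012006090080c09e150984001a16018760040a0023f), (1168, 0x870000000, 4, 0x460006a45000400023f), (0x680000400, 0x800000040000830, 6, 0x720004c730707006e740200c06c6c), (0x300000000, 0x880000870000000, 7, 0x4e0004c7307870076740506d074680166a), (0x200000400, 0x970000000, 8, 0xa60006a450a40801a16018760a20f0023f0040a), (0x200000000, 0x870000410, 12, 0x4c000807407e7000a0c07c720040a07a1301a16018760a20f0166a0023f), (0x200000000, 0x870000000, 25, 0x96000944b0924e050690901c08eaa06c6c01e4808c4508a8400c110541a08818010120ac090aa14086ac084a80a8400826e01a16018760a20f0166a0023f)], 1, 44544⟩,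
  ⟨(4, 0x2183208220812080, 1, 8324), 0, 1599390, 22, 0xbf430c0abf090c16bf490c16bd010c5ebf470c0a47010c2abf4b0c1600002180bf19040200001f80b7a50c2ebd050c5ebf6b0c2e00037e01bf0b0c1600002184450104020003820dbf0d0402bf4104120000820100002080, [(0x200001000000000000000, 0x4800000700000200000000, 13, 0x180001646014440120f0104000ea500ca900ab0008ae006aa004e9002a000077), (0x4000001000000000000000, 0x800000700000000000000, 9, 0x22000202000ea801e59006aa01ca301aa400077002a0), (0x200001000000000000000, 0x8800000700000000000000, 7, 0x240000ab002c43006aa004e902eac002a0), (0x1000000000000000, 0x800000700000000000000, 10, 0x2a0000cab02020028a802659030a2008ae0007702eac002a0)], 1, 12800⟩,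
  ⟨(4, 0x2183208220812080, 0, 0), 0, 1599390, 11, 0xb6a50bea000281fd0000207c0000208400002080bf990406bf8d0406bf810406bf990402bf8d0402bf810402, [(0, 0x800000700000000000000, 11, 0x14000129e0106f00e7f00c7700a6c0086a006680047c0027a00078)], 1, 5632⟩,
  ⟨(1, 8320, 1, 8324), 1, 1599390, 1, 0xbfc10412, [], 1, 0⟩]

theorem cB175_ok : checkFrom true tblAll 765 cB175 = true := by
  decide +kernel

end TorGrid
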