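import Pool.Agent.Lib.MP_caf32e_co.CertFin
import Pool.Agent.Lib.MP_caf32e_co.CertC
import Pool.Agent.Lib.MP_caf32e_co.CertS1
import Pool.Agent.Lib.MP_caf32e_co.CertS2
import Pool.Agent.Lib.MP_caf32e_co.CertS3
import Pool.Agent.Lib.MP_caf32e_co.CertS4
import Pool.Agent.Lib.MP_caf32e_co.CertB01
import Pool.Agent.Lib.MP_caf32e_co.CertB02
import Pool.Agent.Lib.MP_caf32e_co.CertB03
import Pool.Agent.Lib.MP_caf32e_co.CertB04
import Pool.Agent.Lib.MP_caf32e_co.CertB05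
import Pool.Agent.Lib.MP_caf32e_co.CertB06
import Pool.Agent.Lib.MP_caf32e_co.CertB07
import Pool.Agent.Lib.MP_caf32e_co.CertB08
import Pool.Agent.Lib.MP_caf32e_co.CertB09
import Pool.Agent.Lib.MP_caf32e_co.CertB10
import Pool.Agent.Lib.MP_caf32e_co.CertB11
import Pool.Agent.Lib.MP_caf32e_co.CertB12
import Pool.Agent.Lib.MP_caf32e_co.CertB13
import Pool.Agent.Lib.MP_caf32e_co.CertB14
import Pool.Agent.Lib.MP_caf32e_co.CertB15
import Pool.Agent.Lib.MP_caf32e_co.CertB16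
import Pool.Agent.Lib.MP_caf32e_co.CertB17
import Pool.Agent.Lib.MP_caf32e_co.CertB18
import Pool.Agent.Lib.MP_caf32e_co.CertB19
import Pool.Agent.Lib.MP_caf32e_co.CertB20
import Pool.Agent.Lib.MP_caf32e_co.CertB21
import Pool.Agent.Lib.MP_caf32e_co.CertB22
import Pool.Agent.Lib.MP_caf32e_co.CertB23

/-! The certificate theorems from the checked data. -/

namespace TorGrid

theorem chainS (tbl : List Pat) (df : Bool) (l : List CST) (b b' : ℕ)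
    (h : checkST tbl b l = true) (hb : b + l.length = b')
    (h0 : ∀ p ∈ tbl.take b, p.ok = true ∧ Imp df 60 p) :
    ∀ p ∈ tbl.take b', p.ok = true ∧ Imp df 60 p := by
  rw [← hb]
  exact checkST_sound tbl df l b h h0

theorem chainB (tbl : List Pat) (df : Bool) (l : List CLem) (b b' : ℕ)
    (h : checkFrom df tbl b l = true) (hb : b + l.length = b')
    (h0 : ∃ r : ℕ, 60 ≤ r ∧ ∀ p ∈ tbl.take b, p.ok = true ∧ Imp df r p) :
    ∃ r : ℕ, 60 ≤ r ∧ ∀ p ∈ tbl.take b', p.ok = true ∧ Imp df r p := by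
  obtain ⟨r, hr, h1⟩ := h0
  refine ⟨r + 40 * l.length, by omega, ?_⟩
  rw [← hb]
  exact checkFrom_sound tbl df l b r hr h h1

theorem types0 (df : Bool) : ∀ p ∈ tblAll.take 0, p.ok = true ∧ Imp df 60 p := by
  intro p hp
  simp at hp

theorem types1 (df : Bool) : ∀ p ∈ tblAll.take 17, p.ok = true ∧ Imp df 60 p :=
  chainS tblAll df cS00 0 17 cS00_ok rfl (types0 df)

theorem types2 (df : Bool) : ∀ p ∈ tblAll.take 34, p.ok = true ∧ Imp df 60 p :=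
  chainS tblAll df cS01 17 34 cS01_ok rfl (types1 df)

theorem types3 (df : Bool) : ∀ p ∈ tblAll.take 51, p.ok = true ∧ Imp df 60 p :=
  chainS tblAll df cS02 34 51 cS02_ok rfl (types2 df)

theorem types4 (df : Bool) : ∀ p ∈ tblAll.take 68, p.ok = true ∧ Imp df 60 p :=
  chainS tblAll df cS03 51 68 cS03_ok rfl (types3 df)

theorem types5 (df : Bool) : ∀ p ∈ tblAll.take 85, p.ok = true ∧ Imp df 60 p :=
  chainS tblAll df cS04 68 85 cS04_ok rfl (types4 df)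

theorem types6 (df : Bool) : ∀ p ∈ tblAll.take 102, p.ok = true ∧ Imp df 60 p :=
  chainS tblAll df cS05 85 102 cS05_ok rfl (types5 df)

theorem types7 (df : Bool) : ∀ p ∈ tblAll.take 119, p.ok = true ∧ Imp df 60 p :=
  chainS tblAll df cS06 102 119 cS06_ok rfl (types6 df)

theorem types8 (df : Bool) : ∀ p ∈ tblAll.take 136, p.ok = true ∧ Imp df 60 p :=
  chainS tblAll df cS07 119 136 cS07_ok rfl (types7 df)

theorem types9 (df : Bool) : ∀ p ∈ tblAll.take 153, p.ok = true ∧ Imp df 60 p :=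
  chainS tblAll df cS08 136 153 cS08_ok rfl (types8 df)

theorem types10 (df : Bool) : ∀ p ∈ tblAll.take 170, p.ok = true ∧ Imp df 60 p :=
  chainS tblAll df cS09 153 170 cS09_ok rfl (types9 df)

theorem types11 (df : Bool) : ∀ p ∈ tblAll.take 187, p.ok = true ∧ Imp df 60 p :=
  chainS tblAll df cS10 170 187 cS10_ok rfl (types10 df)

theorem types12 (df : Bool) : ∀ p ∈ tblAll.take 204, p.ok = true ∧ Imp df 60 p :=
  chainS tblAll df cS11 187 204 cS11_ok rfl (types11 df)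

theorem types13 (df : Bool) : ∀ p ∈ tblAll.take 221, p.ok = true ∧ Imp df 60 p :=
  chainS tblAll df cS12 204 221 cS12_ok rfl (types12 df)

theorem types14 (df : Bool) : ∀ p ∈ tblAll.take 238, p.ok = true ∧ Imp df 60 p :=
  chainS tblAll df cS13 221 238 cS13_ok rfl (types13 df)

theorem types15 (df : Bool) : ∀ p ∈ tblAll.take 255, p.ok = true ∧ Imp df 60 p :=
  chainS tblAll df cS14 238 255 cS14_ok rfl (types14 df)

theorem types16 (df : Bool) : ∀ p ∈ tblAll.take 263, p.ok = true ∧ Imp df 60 p :=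
  chainS tblAll df cS15 255 263 cS15_ok rfl (types15 df)

theorem lems000 : ∃ r : ℕ, 60 ≤ r ∧ ∀ p ∈ tblAll.take 263, p.ok = true ∧ Imp true r p :=
  ⟨60, le_rfl, types16 true⟩

theorem lems001 : ∃ r : ℕ, 60 ≤ r ∧ ∀ p ∈ tblAll.take 284, p.ok = true ∧ Imp true r p :=
  chainB tblAll true cB000 263 284 cB000_ok rfl lems000

theorem lems002 : ∃ r : ℕ, 60 ≤ r ∧ ∀ p ∈ tblAll.take 323, p.ok = true ∧ Imp true r p :=
  chainB tblAll true cB001 284 323 cB001_ok rfl lems001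

theorem lems003 : ∃ r : ℕ, 60 ≤ r ∧ ∀ p ∈ tblAll.take 345, p.ok = true ∧ Imp true r p :=
  chainB tblAll true cB002 323 345 cB002_ok rfl lems002

theorem lems004 : ∃ r : ℕ, 60 ≤ r ∧ ∀ p ∈ tblAll.take 349, p.ok = true ∧ Imp true r p :=
  chainB tblAll true cB003 345 349 cB003_ok rfl lems003

theorem lems005 : ∃ r : ℕ, 60 ≤ r ∧ ∀ p ∈ tblAll.take 354, p.ok = true ∧ Imp true r p :=
  chainB tblAll true cB004 349 354 cB004_ok rfl lems004

theorem lems006 : ∃ r : ℕ, 60 ≤ r ∧ ∀ p ∈ tblAll.take 357, p.ok = true ∧ Imp true r p :=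
  chainB tblAll true cB005 354 357 cB005_ok rfl lems005

theorem lems007 : ∃ r : ℕ, 60 ≤ r ∧ ∀ p ∈ tblAll.take 358, p.ok = true ∧ Imp true r p :=
  chainB tblAll true cB006 357 358 cB006_ok rfl lems006

theorem lems008 : ∃ r : ℕ, 60 ≤ r ∧ ∀ p ∈ tblAll.take 365, p.ok = true ∧ Imp true r p :=
  chainB tblAll true cB007 358 365 cB007_ok rfl lems007

theorem lems009 : ∃ r : ℕ, 60 ≤ r ∧ ∀ p ∈ tblAll.take 382, p.ok = true ∧ Imp true r p :=
  chainB tblAll true cB008 365 382 cB008_ok rfl lems008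

theorem lems010 : ∃ r : ℕ, 60 ≤ r ∧ ∀ p ∈ tblAll.take 384, p.ok = true ∧ Imp true r p :=
  chainB tblAll true cB009 382 384 cB009_ok rfl lems009

theorem lems011 : ∃ r : ℕ, 60 ≤ r ∧ ∀ p ∈ tblAll.take 390, p.ok = true ∧ Imp true r p :=
  chainB tblAll true cB010 384 390 cB010_ok rfl lems010

theorem lems012 : ∃ r : ℕ, 60 ≤ r ∧ ∀ p ∈ tblAll.take 391, p.ok = true ∧ Imp true r p :=
  chainB tblAll true cB011 390 391 cB011_ok rfl lems011

theorem lems013 : ∃ r : ℕ, 60 ≤ r ∧ ∀ p ∈ tblAll.take 393, p.ok = true ∧ Imp true r p :=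
  chainB tblAll true cB012 391 393 cB012_ok rfl lems012

theorem lems014 : ∃ r : ℕ, 60 ≤ r ∧ ∀ p ∈ tblAll.take 396, p.ok = true ∧ Imp true r p :=
  chainB tblAll true cB013 393 396 cB013_ok rfl lems013

theorem lems015 : ∃ r : ℕ, 60 ≤ r ∧ ∀ p ∈ tblAll.take 399, p.ok = true ∧ Imp true r p :=
  chainB tblAll true cB014 396 399 cB014_ok rfl lems014

theorem lems016 : ∃ r : ℕ, 60 ≤ r ∧ ∀ p ∈ tblAll.take 400, p.ok = true ∧ Imp true r p :=
  chainB tblAll true cB015 399 400 cB015_ok rfl lems015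

theorem lems017 : ∃ r : ℕ, 60 ≤ r ∧ ∀ p ∈ tblAll.take 401, p.ok = true ∧ Imp true r p :=
  chainB tblAll true cB016 400 401 cB016_ok rfl lems016

theorem lems018 : ∃ r : ℕ, 60 ≤ r ∧ ∀ p ∈ tblAll.take 407, p.ok = true ∧ Imp true r p :=
  chainB tblAll true cB017 401 407 cB017_ok rfl lems017

theorem lems019 : ∃ r : ℕ, 60 ≤ r ∧ ∀ p ∈ tblAll.take 420, p.ok = true ∧ Imp true r p :=
  chainB tblAll true cB018 407 420 cB018_ok rfl lems018

theorem lems020 : ∃ r : ℕ, 60 ≤ r ∧ ∀ p ∈ tblAll.take 436, p.ok = true ∧ Imp true r p :=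
  chainB tblAll true cB019 420 436 cB019_ok rfl lems019

theorem lems021 : ∃ r : ℕ, 60 ≤ r ∧ ∀ p ∈ tblAll.take 439, p.ok = true ∧ Imp true r p :=
  chainB tblAll true cB020 436 439 cB020_ok rfl lems020

theorem lems022 : ∃ r : ℕ, 60 ≤ r ∧ ∀ p ∈ tblAll.take 445, p.ok = true ∧ Imp true r p :=
  chainB tblAll true cB021 439 445 cB021_ok rfl lems021

theorem lems023 : ∃ r : ℕ, 60 ≤ r ∧ ∀ p ∈ tblAll.take 448, p.ok = true ∧ Imp true r p :=
  chainB tblAll true cB022 445 448 cB022_ok rfl lems022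

theorem lems024 : ∃ r : ℕ, 60 ≤ r ∧ ∀ p ∈ tblAll.take 450, p.ok = true ∧ Imp true r p :=
  chainB tblAll true cB023 448 450 cB023_ok rfl lems023

theorem lems025 : ∃ r : ℕ, 60 ≤ r ∧ ∀ p ∈ tblAll.take 451, p.ok = true ∧ Imp true r p :=
  chainB tblAll true cB024 450 451 cB024_ok rfl lems024

theorem lems026 : ∃ r : ℕ, 60 ≤ r ∧ ∀ p ∈ tblAll.take 452, p.ok = true ∧ Imp true r p :=
  chainB tblAll true cB025 451 452 cB025_ok rfl lems025

theorem lems027 : ∃ r : ℕ, 60 ≤ r ∧ ∀ p ∈ tblAll.take 453, p.ok = true ∧ Imp true r p :=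
  chainB tblAll true cB026 452 453 cB026_ok rfl lems026

theorem lems028 : ∃ r : ℕ, 60 ≤ r ∧ ∀ p ∈ tblAll.take 454, p.ok = true ∧ Imp true r p :=
  chainB tblAll true cB027 453 454 cB027_ok rfl lems027

theorem lems029 : ∃ r : ℕ, 60 ≤ r ∧ ∀ p ∈ tblAll.take 456, p.ok = true ∧ Imp true r p :=
  chainB tblAll true cB028 454 456 cB028_ok rfl lems028

theorem lems030 : ∃ r : ℕ, 60 ≤ r ∧ ∀ p ∈ tblAll.take 462, p.ok = true ∧ Imp true r p :=
  chainB tblAll true cB029 456 462 cB029_ok rfl lems029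

theorem lems031 : ∃ r : ℕ, 60 ≤ r ∧ ∀ p ∈ tblAll.take 465, p.ok = true ∧ Imp true r p :=
  chainB tblAll true cB030 462 465 cB030_ok rfl lems030

theorem lems032 : ∃ r : ℕ, 60 ≤ r ∧ ∀ p ∈ tblAll.take 472, p.ok = true ∧ Imp true r p :=
  chainB tblAll true cB031 465 472 cB031_ok rfl lems031

theorem lems033 : ∃ r : ℕ, 60 ≤ r ∧ ∀ p ∈ tblAll.take 475, p.ok = true ∧ Imp true r p :=
  chainB tblAll true cB032 472 475 cB032_ok rfl lems032

theorem lems034 : ∃ r : ℕ, 60 ≤ r ∧ ∀ p ∈ tblAll.take 477, p.ok = true ∧ Imp true r p :=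
  chainB tblAll true cB033 475 477 cB033_ok rfl lems033

theorem lems035 : ∃ r : ℕ, 60 ≤ r ∧ ∀ p ∈ tblAll.take 478, p.ok = true ∧ Imp true r p :=
  chainB tblAll true cB034 477 478 cB034_ok rfl lems034

theorem lems036 : ∃ r : ℕ, 60 ≤ r ∧ ∀ p ∈ tblAll.take 480, p.ok = true ∧ Imp true r p :=
  chainB tblAll true cB035 478 480 cB035_ok rfl lems035

theorem lems037 : ∃ r : ℕ, 60 ≤ r ∧ ∀ p ∈ tblAll.take 483, p.ok = true ∧ Imp true r p :=
  chainB tblAll true cB036 480 483 cB036_ok rfl lems036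

theorem lems038 : ∃ r : ℕ, 60 ≤ r ∧ ∀ p ∈ tblAll.take 494, p.ok = true ∧ Imp true r p :=
  chainB tblAll true cB037 483 494 cB037_ok rfl lems037

theorem lems039 : ∃ r : ℕ, 60 ≤ r ∧ ∀ p ∈ tblAll.take 495, p.ok = true ∧ Imp true r p :=
  chainB tblAll true cB038 494 495 cB038_ok rfl lems038

theorem lems040 : ∃ r : ℕ, 60 ≤ r ∧ ∀ p ∈ tblAll.take 496, p.ok = true ∧ Imp true r p :=
  chainB tblAll true cB039 495 496 cB039_ok rfl lems039

theorem lems041 : ∃ r : ℕ, 60 ≤ r ∧ ∀ p ∈ tblAll.take 503, p.ok = true ∧ Imp true r p :=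
  chainB tblAll true cB040 496 503 cB040_ok rfl lems040

theorem lems042 : ∃ r : ℕ, 60 ≤ r ∧ ∀ p ∈ tblAll.take 505, p.ok = true ∧ Imp true r p :=
  chainB tblAll true cB041 503 505 cB041_ok rfl lems041

theorem lems043 : ∃ r : ℕ, 60 ≤ r ∧ ∀ p ∈ tblAll.take 508, p.ok = true ∧ Imp true r p :=
  chainB tblAll true cB042 505 508 cB042_ok rfl lems042

theorem lems044 : ∃ r : ℕ, 60 ≤ r ∧ ∀ p ∈ tblAll.take 510, p.ok = true ∧ Imp true r p :=
  chainB tblAll true cB043 508 510 cB043_ok rfl lems043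

theorem lems045 : ∃ r : ℕ, 60 ≤ r ∧ ∀ p ∈ tblAll.take 513, p.ok = true ∧ Imp true r p :=
  chainB tblAll true cB044 510 513 cB044_ok rfl lems044

theorem lems046 : ∃ r : ℕ, 60 ≤ r ∧ ∀ p ∈ tblAll.take 516, p.ok = true ∧ Imp true r p :=
  chainB tblAll true cB045 513 516 cB045_ok rfl lems045

theorem lems047 : ∃ r : ℕ, 60 ≤ r ∧ ∀ p ∈ tblAll.take 517, p.ok = true ∧ Imp true r p :=
  chainB tblAll true cB046 516 517 cB046_ok rfl lems046

theorem lems048 : ∃ r : ℕ, 60 ≤ r ∧ ∀ p ∈ tblAll.take 518, p.ok = true ∧ Imp true r p :=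
  chainB tblAll true cB047 517 518 cB047_ok rfl lems047

theorem lems049 : ∃ r : ℕ, 60 ≤ r ∧ ∀ p ∈ tblAll.take 519, p.ok = true ∧ Imp true r p :=
  chainB tblAll true cB048 518 519 cB048_ok rfl lems048

theorem lems050 : ∃ r : ℕ, 60 ≤ r ∧ ∀ p ∈ tblAll.take 521, p.ok = true ∧ Imp true r p :=
  chainB tblAll true cB049 519 521 cB049_ok rfl lems049

theorem lems051 : ∃ r : ℕ, 60 ≤ r ∧ ∀ p ∈ tblAll.take 523, p.ok = true ∧ Imp true r p :=
  chainB tblAll true cB050 521 523 cB050_ok rfl lems050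

theorem lems052 : ∃ r : ℕ, 60 ≤ r ∧ ∀ p ∈ tblAll.take 524, p.ok = true ∧ Imp true r p :=
  chainB tblAll true cB051 523 524 cB051_ok rfl lems051

theorem lems053 : ∃ r : ℕ, 60 ≤ r ∧ ∀ p ∈ tblAll.take 526, p.ok = true ∧ Imp true r p :=
  chainB tblAll true cB052 524 526 cB052_ok rfl lems052

theorem lems054 : ∃ r : ℕ, 60 ≤ r ∧ ∀ p ∈ tblAll.take 528, p.ok = true ∧ Imp true r p :=
  chainB tblAll true cB053 526 528 cB053_ok rfl lems053

theorem lems055 : ∃ r : ℕ, 60 ≤ r ∧ ∀ p ∈ tblAll.take 532, p.ok = true ∧ Imp true r p :=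
  chainB tblAll true cB054 528 532 cB054_ok rfl lems054

theorem lems056 : ∃ r : ℕ, 60 ≤ r ∧ ∀ p ∈ tblAll.take 533, p.ok = true ∧ Imp true r p :=
  chainB tblAll true cB055 532 533 cB055_ok rfl lems055

theorem lems057 : ∃ r : ℕ, 60 ≤ r ∧ ∀ p ∈ tblAll.take 534, p.ok = true ∧ Imp true r p :=
  chainB tblAll true cB056 533 534 cB056_ok rfl lems056

theorem lems058 : ∃ r : ℕ, 60 ≤ r ∧ ∀ p ∈ tblAll.take 547, p.ok = true ∧ Imp true r p :=
  chainB tblAll true cB057 534 547 cB057_ok rfl lems057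

theorem lems059 : ∃ r : ℕ, 60 ≤ r ∧ ∀ p ∈ tblAll.take 548, p.ok = true ∧ Imp true r p :=
  chainB tblAll true cB058 547 548 cB058_ok rfl lems058

theorem lems060 : ∃ r : ℕ, 60 ≤ r ∧ ∀ p ∈ tblAll.take 554, p.ok = true ∧ Imp true r p :=
  chainB tblAll true cB059 548 554 cB059_ok rfl lems059

theorem lems061 : ∃ r : ℕ, 60 ≤ r ∧ ∀ p ∈ tblAll.take 558, p.ok = true ∧ Imp true r p :=
  chainB tblAll true cB060 554 558 cB060_ok rfl lems060

theorem lems062 : ∃ r : ℕ, 60 ≤ r ∧ ∀ p ∈ tblAll.take 560, p.ok = true ∧ Imp true r p :=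
  chainB tblAll true cB061 558 560 cB061_ok rfl lems061

theorem lems063 : ∃ r : ℕ, 60 ≤ r ∧ ∀ p ∈ tblAll.take 562, p.ok = true ∧ Imp true r p :=
  chainB tblAll true cB062 560 562 cB062_ok rfl lems062

theorem lems064 : ∃ r : ℕ, 60 ≤ r ∧ ∀ p ∈ tblAll.take 563, p.ok = true ∧ Imp true r p :=
  chainB tblAll true cB063 562 563 cB063_ok rfl lems063

theorem lems065 : ∃ r : ℕ, 60 ≤ r ∧ ∀ p ∈ tblAll.take 564, p.ok = true ∧ Imp true r p :=
  chainB tblAll true cB064 563 564 cB064_ok rfl lems064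

theorem lems066 : ∃ r : ℕ, 60 ≤ r ∧ ∀ p ∈ tblAll.take 566, p.ok = true ∧ Imp true r p :=
  chainB tblAll true cB065 564 566 cB065_ok rfl lems065

theorem lems067 : ∃ r : ℕ, 60 ≤ r ∧ ∀ p ∈ tblAll.take 567, p.ok = true ∧ Imp true r p :=
  chainB tblAll true cB066 566 567 cB066_ok rfl lems066

theorem lems068 : ∃ r : ℕ, 60 ≤ r ∧ ∀ p ∈ tblAll.take 568, p.ok = true ∧ Imp true r p :=
  chainB tblAll true cB067 567 568 cB067_ok rfl lems067

theorem lems069 : ∃ r : ℕ, 60 ≤ r ∧ ∀ p ∈ tblAll.take 572, p.ok = true ∧ Imp true r p :=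
  chainB tblAll true cB068 568 572 cB068_ok rfl lems068

theorem lems070 : ∃ r : ℕ, 60 ≤ r ∧ ∀ p ∈ tblAll.take 574, p.ok = true ∧ Imp true r p :=
  chainB tblAll true cB069 572 574 cB069_ok rfl lems069

theorem lems071 : ∃ r : ℕ, 60 ≤ r ∧ ∀ p ∈ tblAll.take 577, p.ok = true ∧ Imp true r p :=
  chainB tblAll true cB070 574 577 cB070_ok rfl lems070

theorem lems072 : ∃ r : ℕ, 60 ≤ r ∧ ∀ p ∈ tblAll.take 579, p.ok = true ∧ Imp true r p :=
  chainB tblAll true cB071 577 579 cB071_ok rfl lems071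

theorem lems073 : ∃ r : ℕ, 60 ≤ r ∧ ∀ p ∈ tblAll.take 580, p.ok = true ∧ Imp true r p :=
  chainB tblAll true cB072 579 580 cB072_ok rfl lems072

theorem lems074 : ∃ r : ℕ, 60 ≤ r ∧ ∀ p ∈ tblAll.take 581, p.ok = true ∧ Imp true r p :=
  chainB tblAll true cB073 580 581 cB073_ok rfl lems073

theorem lems075 : ∃ r : ℕ, 60 ≤ r ∧ ∀ p ∈ tblAll.take 582, p.ok = true ∧ Imp true r p :=
  chainB tblAll true cB074 581 582 cB074_ok rfl lems074

theorem lems076 : ∃ r : ℕ, 60 ≤ r ∧ ∀ p ∈ tblAll.take 595, p.ok = true ∧ Imp true r p :=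
  chainB tblAll true cB075 582 595 cB075_ok rfl lems075

theorem lems077 : ∃ r : ℕ, 60 ≤ r ∧ ∀ p ∈ tblAll.take 597, p.ok = true ∧ Imp true r p :=
  chainB tblAll true cB076 595 597 cB076_ok rfl lems076

theorem lems078 : ∃ r : ℕ, 60 ≤ r ∧ ∀ p ∈ tblAll.take 598, p.ok = true ∧ Imp true r p :=
  chainB tblAll true cB077 597 598 cB077_ok rfl lems077

theorem lems079 : ∃ r : ℕ, 60 ≤ r ∧ ∀ p ∈ tblAll.take 603, p.ok = true ∧ Imp true r p :=
  chainB tblAll true cB078 598 603 cB078_ok rfl lems078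

theorem lems080 : ∃ r : ℕ, 60 ≤ r ∧ ∀ p ∈ tblAll.take 604, p.ok = true ∧ Imp true r p :=
  chainB tblAll true cB079 603 604 cB079_ok rfl lems079

theorem lems081 : ∃ r : ℕ, 60 ≤ r ∧ ∀ p ∈ tblAll.take 607, p.ok = true ∧ Imp true r p :=
  chainB tblAll true cB080 604 607 cB080_ok rfl lems080

theorem lems082 : ∃ r : ℕ, 60 ≤ r ∧ ∀ p ∈ tblAll.take 611, p.ok = true ∧ Imp true r p :=
  chainB tblAll true cB081 607 611 cB081_ok rfl lems081

theorem lems083 : ∃ r : ℕ, 60 ≤ r ∧ ∀ p ∈ tblAll.take 614, p.ok = true ∧ Imp true r p :=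
  chainB tblAll true cB082 611 614 cB082_ok rfl lems082

theorem lems084 : ∃ r : ℕ, 60 ≤ r ∧ ∀ p ∈ tblAll.take 617, p.ok = true ∧ Imp true r p :=
  chainB tblAll true cB083 614 617 cB083_ok rfl lems083

theorem lems085 : ∃ r : ℕ, 60 ≤ r ∧ ∀ p ∈ tblAll.take 619, p.ok = true ∧ Imp true r p :=
  chainB tblAll true cB084 617 619 cB084_ok rfl lems084

theorem lems086 : ∃ r : ℕ, 60 ≤ r ∧ ∀ p ∈ tblAll.take 621, p.ok = true ∧ Imp true r p :=
  chainB tblAll true cB085 619 621 cB085_ok rfl lems085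

theorem lems087 : ∃ r : ℕ, 60 ≤ r ∧ ∀ p ∈ tblAll.take 622, p.ok = true ∧ Imp true r p :=
  chainB tblAll true cB086 621 622 cB086_ok rfl lems086

theorem lems088 : ∃ r : ℕ, 60 ≤ r ∧ ∀ p ∈ tblAll.take 623, p.ok = true ∧ Imp true r p :=
  chainB tblAll true cB087 622 623 cB087_ok rfl lems087

theorem lems089 : ∃ r : ℕ, 60 ≤ r ∧ ∀ p ∈ tblAll.take 624, p.ok = true ∧ Imp true r p :=
  chainB tblAll true cB088 623 624 cB088_ok rfl lems088

theorem lems090 : ∃ r : ℕ, 60 ≤ r ∧ ∀ p ∈ tblAll.take 625, p.ok = true ∧ Imp true r p :=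
  chainB tblAll true cB089 624 625 cB089_ok rfl lems089

theorem lems091 : ∃ r : ℕ, 60 ≤ r ∧ ∀ p ∈ tblAll.take 627, p.ok = true ∧ Imp true r p :=
  chainB tblAll true cB090 625 627 cB090_ok rfl lems090

theorem lems092 : ∃ r : ℕ, 60 ≤ r ∧ ∀ p ∈ tblAll.take 630, p.ok = true ∧ Imp true r p :=
  chainB tblAll true cB091 627 630 cB091_ok rfl lems091

theorem lems093 : ∃ r : ℕ, 60 ≤ r ∧ ∀ p ∈ tblAll.take 638, p.ok = true ∧ Imp true r p :=
  chainB tblAll true cB092 630 638 cB092_ok rfl lems092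

theorem lems094 : ∃ r : ℕ, 60 ≤ r ∧ ∀ p ∈ tblAll.take 642, p.ok = true ∧ Imp true r p :=
  chainB tblAll true cB093 638 642 cB093_ok rfl lems093

theorem lems095 : ∃ r : ℕ, 60 ≤ r ∧ ∀ p ∈ tblAll.take 645, p.ok = true ∧ Imp true r p :=
  chainB tblAll true cB094 642 645 cB094_ok rfl lems094

theorem lems096 : ∃ r : ℕ, 60 ≤ r ∧ ∀ p ∈ tblAll.take 648, p.ok = true ∧ Imp true r p :=
  chainB tblAll true cB095 645 648 cB095_ok rfl lems095

theorem lems097 : ∃ r : ℕ, 60 ≤ r ∧ ∀ p ∈ tblAll.take 649, p.ok = true ∧ Imp true r p :=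
  chainB tblAll true cB096 648 649 cB096_ok rfl lems096

theorem lems098 : ∃ r : ℕ, 60 ≤ r ∧ ∀ p ∈ tblAll.take 650, p.ok = true ∧ Imp true r p :=
  chainB tblAll true cB097 649 650 cB097_ok rfl lems097

theorem lems099 : ∃ r : ℕ, 60 ≤ r ∧ ∀ p ∈ tblAll.take 651, p.ok = true ∧ Imp true r p :=
  chainB tblAll true cB098 650 651 cB098_ok rfl lems098

theorem lems100 : ∃ r : ℕ, 60 ≤ r ∧ ∀ p ∈ tblAll.take 653, p.ok = true ∧ Imp true r p :=
  chainB tblAll true cB099 651 653 cB099_ok rfl lems099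

theorem lems101 : ∃ r : ℕ, 60 ≤ r ∧ ∀ p ∈ tblAll.take 654, p.ok = true ∧ Imp true r p :=
  chainB tblAll true cB100 653 654 cB100_ok rfl lems100

theorem lems102 : ∃ r : ℕ, 60 ≤ r ∧ ∀ p ∈ tblAll.take 655, p.ok = true ∧ Imp true r p :=
  chainB tblAll true cB101 654 655 cB101_ok rfl lems101

theorem lems103 : ∃ r : ℕ, 60 ≤ r ∧ ∀ p ∈ tblAll.take 656, p.ok = true ∧ Imp true r p :=
  chainB tblAll true cB102 655 656 cB102_ok rfl lems102

theorem lems104 : ∃ r : ℕ, 60 ≤ r ∧ ∀ p ∈ tblAll.take 658, p.ok = true ∧ Imp true r p :=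
  chainB tblAll true cB103 656 658 cB103_ok rfl lems103

theorem lems105 : ∃ r : ℕ, 60 ≤ r ∧ ∀ p ∈ tblAll.take 663, p.ok = true ∧ Imp true r p :=
  chainB tblAll true cB104 658 663 cB104_ok rfl lems104

theorem lems106 : ∃ r : ℕ, 60 ≤ r ∧ ∀ p ∈ tblAll.take 665, p.ok = true ∧ Imp true r p :=
  chainB tblAll true cB105 663 665 cB105_ok rfl lems105

theorem lems107 : ∃ r : ℕ, 60 ≤ r ∧ ∀ p ∈ tblAll.take 666, p.ok = true ∧ Imp true r p :=
  chainB tblAll true cB106 665 666 cB106_ok rfl lems106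

theorem lems108 : ∃ r : ℕ, 60 ≤ r ∧ ∀ p ∈ tblAll.take 668, p.ok = true ∧ Imp true r p :=
  chainB tblAll true cB107 666 668 cB107_ok rfl lems107

theorem lems109 : ∃ r : ℕ, 60 ≤ r ∧ ∀ p ∈ tblAll.take 671, p.ok = true ∧ Imp true r p :=
  chainB tblAll true cB108 668 671 cB108_ok rfl lems108

theorem lems110 : ∃ r : ℕ, 60 ≤ r ∧ ∀ p ∈ tblAll.take 672, p.ok = true ∧ Imp true r p :=
  chainB tblAll true cB109 671 672 cB109_ok rfl lems109

theorem lems111 : ∃ r : ℕ, 60 ≤ r ∧ ∀ p ∈ tblAll.take 674, p.ok = true ∧ Imp true r p :=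
  chainB tblAll true cB110 672 674 cB110_ok rfl lems110

theorem lems112 : ∃ r : ℕ, 60 ≤ r ∧ ∀ p ∈ tblAll.take 675, p.ok = true ∧ Imp true r p :=
  chainB tblAll true cB111 674 675 cB111_ok rfl lems111

theorem lems113 : ∃ r : ℕ, 60 ≤ r ∧ ∀ p ∈ tblAll.take 676, p.ok = true ∧ Imp true r p :=
  chainB tblAll true cB112 675 676 cB112_ok rfl lems112

theorem lems114 : ∃ r : ℕ, 60 ≤ r ∧ ∀ p ∈ tblAll.take 677, p.ok = true ∧ Imp true r p :=
  chainB tblAll true cB113 676 677 cB113_ok rfl lems113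

theorem lems115 : ∃ r : ℕ, 60 ≤ r ∧ ∀ p ∈ tblAll.take 679, p.ok = true ∧ Imp true r p :=
  chainB tblAll true cB114 677 679 cB114_ok rfl lems114

theorem lems116 : ∃ r : ℕ, 60 ≤ r ∧ ∀ p ∈ tblAll.take 680, p.ok = true ∧ Imp true r p :=
  chainB tblAll true cB115 679 680 cB115_ok rfl lems115

theorem lems117 : ∃ r : ℕ, 60 ≤ r ∧ ∀ p ∈ tblAll.take 681, p.ok = true ∧ Imp true r p :=
  chainB tblAll true cB116 680 681 cB116_ok rfl lems116

theorem lems118 : ∃ r : ℕ, 60 ≤ r ∧ ∀ p ∈ tblAll.take 683, p.ok = true ∧ Imp true r p :=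
  chainB tblAll true cB117 681 683 cB117_ok rfl lems117

theorem lems119 : ∃ r : ℕ, 60 ≤ r ∧ ∀ p ∈ tblAll.take 684, p.ok = true ∧ Imp true r p :=
  chainB tblAll true cB118 683 684 cB118_ok rfl lems118

theorem lems120 : ∃ r : ℕ, 60 ≤ r ∧ ∀ p ∈ tblAll.take 685, p.ok = true ∧ Imp true r p :=
  chainB tblAll true cB119 684 685 cB119_ok rfl lems119

theorem lems121 : ∃ r : ℕ, 60 ≤ r ∧ ∀ p ∈ tblAll.take 686, p.ok = true ∧ Imp true r p :=
  chainB tblAll true cB120 685 686 cB120_ok rfl lems120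

theorem lems122 : ∃ r : ℕ, 60 ≤ r ∧ ∀ p ∈ tblAll.take 687, p.ok = true ∧ Imp true r p :=
  chainB tblAll true cB121 686 687 cB121_ok rfl lems121

theorem lems123 : ∃ r : ℕ, 60 ≤ r ∧ ∀ p ∈ tblAll.take 688, p.ok = true ∧ Imp true r p :=
  chainB tblAll true cB122 687 688 cB122_ok rfl lems122

theorem lems124 : ∃ r : ℕ, 60 ≤ r ∧ ∀ p ∈ tblAll.take 689, p.ok = true ∧ Imp true r p :=
  chainB tblAll true cB123 688 689 cB123_ok rfl lems123

theorem lems125 : ∃ r : ℕ, 60 ≤ r ∧ ∀ p ∈ tblAll.take 692, p.ok = true ∧ Imp true r p :=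
  chainB tblAll true cB124 689 692 cB124_ok rfl lems124

theorem lems126 : ∃ r : ℕ, 60 ≤ r ∧ ∀ p ∈ tblAll.take 696, p.ok = true ∧ Imp true r p :=
  chainB tblAll true cB125 692 696 cB125_ok rfl lems125

theorem lems127 : ∃ r : ℕ, 60 ≤ r ∧ ∀ p ∈ tblAll.take 698, p.ok = true ∧ Imp true r p :=
  chainB tblAll true cB126 696 698 cB126_ok rfl lems126

theorem lems128 : ∃ r : ℕ, 60 ≤ r ∧ ∀ p ∈ tblAll.take 699, p.ok = true ∧ Imp true r p :=
  chainB tblAll true cB127 698 699 cB127_ok rfl lems127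

theorem lems129 : ∃ r : ℕ, 60 ≤ r ∧ ∀ p ∈ tblAll.take 701, p.ok = true ∧ Imp true r p :=
  chainB tblAll true cB128 699 701 cB128_ok rfl lems128

theorem lems130 : ∃ r : ℕ, 60 ≤ r ∧ ∀ p ∈ tblAll.take 703, p.ok = true ∧ Imp true r p :=
  chainB tblAll true cB129 701 703 cB129_ok rfl lems129

theorem lems131 : ∃ r : ℕ, 60 ≤ r ∧ ∀ p ∈ tblAll.take 705, p.ok = true ∧ Imp true r p :=
  chainB tblAll true cB130 703 705 cB130_ok rfl lems130

theorem lems132 : ∃ r : ℕ, 60 ≤ r ∧ ∀ p ∈ tblAll.take 706, p.ok = true ∧ Imp true r p :=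
  chainB tblAll true cB131 705 706 cB131_ok rfl lems131

theorem lems133 : ∃ r : ℕ, 60 ≤ r ∧ ∀ p ∈ tblAll.take 707, p.ok = true ∧ Imp true r p :=
  chainB tblAll true cB132 706 707 cB132_ok rfl lems132

theorem lems134 : ∃ r : ℕ, 60 ≤ r ∧ ∀ p ∈ tblAll.take 711, p.ok = true ∧ Imp true r p :=
  chainB tblAll true cB133 707 711 cB133_ok rfl lems133

theorem lems135 : ∃ r : ℕ, 60 ≤ r ∧ ∀ p ∈ tblAll.take 712, p.ok = true ∧ Imp true r p :=
  chainB tblAll true cB134 711 712 cB134_ok rfl lems134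

theorem lems136 : ∃ r : ℕ, 60 ≤ r ∧ ∀ p ∈ tblAll.take 713, p.ok = true ∧ Imp true r p :=
  chainB tblAll true cB135 712 713 cB135_ok rfl lems135

theorem lems137 : ∃ r : ℕ, 60 ≤ r ∧ ∀ p ∈ tblAll.take 714, p.ok = true ∧ Imp true r p :=
  chainB tblAll true cB136 713 714 cB136_ok rfl lems136

theorem lems138 : ∃ r : ℕ, 60 ≤ r ∧ ∀ p ∈ tblAll.take 715, p.ok = true ∧ Imp true r p :=
  chainB tblAll true cB137 714 715 cB137_ok rfl lems137

theorem lems139 : ∃ r : ℕ, 60 ≤ r ∧ ∀ p ∈ tblAll.take 716, p.ok = true ∧ Imp true r p :=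
  chainB tblAll true cB138 715 716 cB138_ok rfl lems138

theorem lems140 : ∃ r : ℕ, 60 ≤ r ∧ ∀ p ∈ tblAll.take 717, p.ok = true ∧ Imp true r p :=
  chainB tblAll true cB139 716 717 cB139_ok rfl lems139

theorem lems141 : ∃ r : ℕ, 60 ≤ r ∧ ∀ p ∈ tblAll.take 718, p.ok = true ∧ Imp true r p :=
  chainB tblAll true cB140 717 718 cB140_ok rfl lems140

theorem lems142 : ∃ r : ℕ, 60 ≤ r ∧ ∀ p ∈ tblAll.take 720, p.ok = true ∧ Imp true r p :=
  chainB tblAll true cB141 718 720 cB141_ok rfl lems141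

theorem lems143 : ∃ r : ℕ, 60 ≤ r ∧ ∀ p ∈ tblAll.take 721, p.ok = true ∧ Imp true r p :=
  chainB tblAll true cB142 720 721 cB142_ok rfl lems142

theorem lems144 : ∃ r : ℕ, 60 ≤ r ∧ ∀ p ∈ tblAll.take 722, p.ok = true ∧ Imp true r p :=
  chainB tblAll true cB143 721 722 cB143_ok rfl lems143

theorem lems145 : ∃ r : ℕ, 60 ≤ r ∧ ∀ p ∈ tblAll.take 724, p.ok = true ∧ Imp true r p :=
  chainB tblAll true cB144 722 724 cB144_ok rfl lems144

theorem lems146 : ∃ r : ℕ, 60 ≤ r ∧ ∀ p ∈ tblAll.take 725, p.ok = true ∧ Imp true r p :=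
  chainB tblAll true cB145 724 725 cB145_ok rfl lems145

theorem lems147 : ∃ r : ℕ, 60 ≤ r ∧ ∀ p ∈ tblAll.take 726, p.ok = true ∧ Imp true r p :=
  chainB tblAll true cB146 725 726 cB146_ok rfl lems146

theorem lems148 : ∃ r : ℕ, 60 ≤ r ∧ ∀ p ∈ tblAll.take 727, p.ok = true ∧ Imp true r p :=
  chainB tblAll true cB147 726 727 cB147_ok rfl lems147

theorem lems149 : ∃ r : ℕ, 60 ≤ r ∧ ∀ p ∈ tblAll.take 728, p.ok = true ∧ Imp true r p :=
  chainB tblAll true cB148 727 728 cB148_ok rfl lems148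

theorem lems150 : ∃ r : ℕ, 60 ≤ r ∧ ∀ p ∈ tblAll.take 729, p.ok = true ∧ Imp true r p :=
  chainB tblAll true cB149 728 729 cB149_ok rfl lems149

theorem lems151 : ∃ r : ℕ, 60 ≤ r ∧ ∀ p ∈ tblAll.take 737, p.ok = true ∧ Imp true r p :=
  chainB tblAll true cB150 729 737 cB150_ok rfl lems150

theorem lems152 : ∃ r : ℕ, 60 ≤ r ∧ ∀ p ∈ tblAll.take 738, p.ok = true ∧ Imp true r p :=
  chainB tblAll true cB151 737 738 cB151_ok rfl lems151

theorem lems153 : ∃ r : ℕ, 60 ≤ r ∧ ∀ p ∈ tblAll.take 739, p.ok = true ∧ Imp true r p :=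
  chainB tblAll true cB152 738 739 cB152_ok rfl lems152

theorem lems154 : ∃ r : ℕ, 60 ≤ r ∧ ∀ p ∈ tblAll.take 740, p.ok = true ∧ Imp true r p :=
  chainB tblAll true cB153 739 740 cB153_ok rfl lems153

theorem lems155 : ∃ r : ℕ, 60 ≤ r ∧ ∀ p ∈ tblAll.take 741, p.ok = true ∧ Imp true r p :=
  chainB tblAll true cB154 740 741 cB154_ok rfl lems154

theorem lems156 : ∃ r : ℕ, 60 ≤ r ∧ ∀ p ∈ tblAll.take 742, p.ok = true ∧ Imp true r p :=
  chainB tblAll true cB155 741 742 cB155_ok rfl lems155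

theorem lems157 : ∃ r : ℕ, 60 ≤ r ∧ ∀ p ∈ tblAll.take 743, p.ok = true ∧ Imp true r p :=
  chainB tblAll true cB156 742 743 cB156_ok rfl lems156

theorem lems158 : ∃ r : ℕ, 60 ≤ r ∧ ∀ p ∈ tblAll.take 745, p.ok = true ∧ Imp true r p :=
  chainB tblAll true cB157 743 745 cB157_ok rfl lems157

theorem lems159 : ∃ r : ℕ, 60 ≤ r ∧ ∀ p ∈ tblAll.take 746, p.ok = true ∧ Imp true r p :=
  chainB tblAll true cB158 745 746 cB158_ok rfl lems158

theorem lems160 : ∃ r : ℕ, 60 ≤ r ∧ ∀ p ∈ tblAll.take 747, p.ok = true ∧ Imp true r p :=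
  chainB tblAll true cB159 746 747 cB159_ok rfl lems159

theorem lems161 : ∃ r : ℕ, 60 ≤ r ∧ ∀ p ∈ tblAll.take 749, p.ok = true ∧ Imp true r p :=
  chainB tblAll true cB160 747 749 cB160_ok rfl lems160

theorem lems162 : ∃ r : ℕ, 60 ≤ r ∧ ∀ p ∈ tblAll.take 750, p.ok = true ∧ Imp true r p :=
  chainB tblAll true cB161 749 750 cB161_ok rfl lems161

theorem lems163 : ∃ r : ℕ, 60 ≤ r ∧ ∀ p ∈ tblAll.take 751, p.ok = true ∧ Imp true r p :=
  chainB tblAll true cB162 750 751 cB162_ok rfl lems162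

theorem lems164 : ∃ r : ℕ, 60 ≤ r ∧ ∀ p ∈ tblAll.take 752, p.ok = true ∧ Imp true r p :=
  chainB tblAll true cB163 751 752 cB163_ok rfl lems163

theorem lems165 : ∃ r : ℕ, 60 ≤ r ∧ ∀ p ∈ tblAll.take 753, p.ok = true ∧ Imp true r p :=
  chainB tblAll true cB164 752 753 cB164_ok rfl lems164

theorem lems166 : ∃ r : ℕ, 60 ≤ r ∧ ∀ p ∈ tblAll.take 754, p.ok = true ∧ Imp true r p :=
  chainB tblAll true cB165 753 754 cB165_ok rfl lems165

theorem lems167 : ∃ r : ℕ, 60 ≤ r ∧ ∀ p ∈ tblAll.take 756, p.ok = true ∧ Imp true r p :=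
  chainB tblAll true cB166 754 756 cB166_ok rfl lems166

theorem lems168 : ∃ r : ℕ, 60 ≤ r ∧ ∀ p ∈ tblAll.take 757, p.ok = true ∧ Imp true r p :=
  chainB tblAll true cB167 756 757 cB167_ok rfl lems167

theorem lems169 : ∃ r : ℕ, 60 ≤ r ∧ ∀ p ∈ tblAll.take 758, p.ok = true ∧ Imp true r p :=
  chainB tblAll true cB168 757 758 cB168_ok rfl lems168

theorem lems170 : ∃ r : ℕ, 60 ≤ r ∧ ∀ p ∈ tblAll.take 759, p.ok = true ∧ Imp true r p :=
  chainB tblAll true cB169 758 759 cB169_ok rfl lems169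

theorem lems171 : ∃ r : ℕ, 60 ≤ r ∧ ∀ p ∈ tblAll.take 760, p.ok = true ∧ Imp true r p :=
  chainB tblAll true cB170 759 760 cB170_ok rfl lems170

theorem lems172 : ∃ r : ℕ, 60 ≤ r ∧ ∀ p ∈ tblAll.take 761, p.ok = true ∧ Imp true r p :=
  chainB tblAll true cB171 760 761 cB171_ok rfl lems171

theorem lems173 : ∃ r : ℕ, 60 ≤ r ∧ ∀ p ∈ tblAll.take 762, p.ok = true ∧ Imp true r p :=
  chainB tblAll true cB172 761 762 cB172_ok rfl lems172

theorem lems174 : ∃ r : ℕ, 60 ≤ r ∧ ∀ p ∈ tblAll.take 763, p.ok = true ∧ Imp true r p :=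
  chainB tblAll true cB173 762 763 cB173_ok rfl lems173

theorem lems175 : ∃ r : ℕ, 60 ≤ r ∧ ∀ p ∈ tblAll.take 765, p.ok = true ∧ Imp true r p :=
  chainB tblAll true cB174 763 765 cB174_ok rfl lems174

theorem lems176 : ∃ r : ℕ, 60 ≤ r ∧ ∀ p ∈ tblAll.take 769, p.ok = true ∧ Imp true r p :=
  chainB tblAll true cB175 765 769 cB175_ok rfl lems175

/-- CB. (certificate) In a defect-free box without spots the lists are constant. -/
theorem certB : ∃ r : ℕ, ∀ L : P2 → Finset ℕ, (∀ v, (L v).card = 3) → NoSp L (0, 0) r →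
    DFb L (0, 0) r → L (0, 0) = L (1, 0) := by
  obtain ⟨r, _, h⟩ := lems176
  have h1 : tblAll[768]? = some ⟨[(0, 0, 0)], [(0, 1, 0)]⟩ := by decide +kernel
  have h2 : (⟨[(0, 0, 0)], [(0, 1, 0)]⟩ : Pat) ∈ tblAll.take 769 := by
    rw [List.mem_iff_getElem?]
    refine ⟨768, ?_⟩
    rw [List.getElem?_take_of_lt (by norm_num)]
    exact h1
  exact ⟨r, fun L hL h3 h4 => edge_eq r (h _ h2).2 L hL h3 h4⟩

/-- CH. (certificate) growth next to the middle of a side of a constant block -/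
theorem certH : ∃ r : ℕ, ∀ L : P2 → Finset ℕ, (∀ v, (L v).card = 3) → NoSp L (0, 0) r →
    ∀ A : Finset ℕ, (∀ x y : ℤ, -3 ≤ x → x ≤ -1 → -3 ≤ y → y ≤ 3 → L (x, y) = A) →
    L (0, 0) = A := by
  refine ⟨100, fun L hL h1 A hA => ?_⟩
  refine growth_of lemCH.dec (tblAll.take 263)
    (fun v => -3 ≤ v.1 ∧ v.1 ≤ -1 ∧ -3 ≤ v.2 ∧ v.2 ≤ 3) lemCH_ok (types16 false)
    (by decide +kernel) (by decide +kernel) L hL h1 A (by norm_num) ?_
  rintro ⟨x, y⟩ ⟨h2, h3, h4, h5⟩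
  exact hA x y h2 h3 h4 h5

/-- C2. (certificate) -/
theorem cert2 : ∃ r : ℕ, ∀ L : P2 → Finset ℕ, (∀ v, (L v).card = 3) → NoSp L (0, 0) r →
    ∀ A : Finset ℕ, (∀ x y : ℤ, -3 ≤ x → x ≤ -1 → -3 ≤ y → y ≤ 2 → L (x, y) = A) →
    (∀ y : ℤ, -3 ≤ y → y ≤ -1 → L (0, y) = A) → L (0, 0) = A := by
  refine ⟨100, fun L hL h1 A hA hB => ?_⟩
  refine growth_of lemC2.dec (tblAll.take 263)
    (fun v => (-3 ≤ v.1 ∧ v.1 ≤ -1 ∧ -3 ≤ v.2 ∧ v.2 ≤ 2) ∨ (v.1 = 0 ∧ -3 ≤ v.2 ∧ v.2 ≤ -1))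
    lemC2_ok (types16 false) (by decide +kernel) (by decide +kernel) L hL h1 A (by norm_num) ?_
  rintro ⟨x, y⟩ h
  rcases h with ⟨h2, h3, h4, h5⟩ | ⟨h2, h3, h4⟩
  · exact hA x y h2 h3 h4 h5
  · simp only at h2
    subst h2
    exact hB y h3 h4

/-- C1. (certificate) -/
theorem cert1 : ∃ r : ℕ, ∀ L : P2 → Finset ℕ, (∀ v, (L v).card = 3) → NoSp L (0, 0) r →
    ∀ A : Finset ℕ, (∀ x y : ℤ, -3 ≤ x → x ≤ -1 → -3 ≤ y → y ≤ 1 → L (x, y) = A) →
    (∀ y : ℤ, -3 ≤ y → y ≤ -1 → L (0, y) = A) → L (-3, 2) = A → L (0, 0) = A := by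
  refine ⟨100, fun L hL h1 A hA hB hC => ?_⟩
  refine growth_of lemC1.dec (tblAll.take 263)
    (fun v => (-3 ≤ v.1 ∧ v.1 ≤ -1 ∧ -3 ≤ v.2 ∧ v.2 ≤ 1) ∨ (v.1 = 0 ∧ -3 ≤ v.2 ∧ v.2 ≤ -1) ∨
      (v.1 = -3 ∧ v.2 = 2))
    lemC1_ok (types16 false) (by decide +kernel) (by decide +kernel) L hL h1 A (by norm_num) ?_
  rintro ⟨x, y⟩ h
  rcases h with ⟨h2, h3, h4, h5⟩ | ⟨h2, h3, h4⟩ | ⟨h2, h3⟩
  · exact hA x y h2 h3 h4 h5
  · simp only at h2
    subst h2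
    exact hB y h3 h4
  · simp only at h2 h3
    subst h2 h3
    exact hC

/-- C0. (certificate) -/
theorem cert0 : ∃ r : ℕ, ∀ L : P2 → Finset ℕ, (∀ v, (L v).card = 3) → NoSp L (0, 0) r →
    ∀ A : Finset ℕ, (∀ x y : ℤ, -3 ≤ x → x ≤ -1 → -3 ≤ y → y ≤ 0 → L (x, y) = A) →
    (∀ y : ℤ, -3 ≤ y → y ≤ -1 → L (0, y) = A) → L (-3, 1) = A → L (-2, 1) = A →
    L (0, 0) = A := by
  refine ⟨100, fun L hL h1 A hA hB hC hD => ?_⟩
  refine growth_of lemC0.dec (tblAll.take 263)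
    (fun v => (-3 ≤ v.1 ∧ v.1 ≤ -1 ∧ -3 ≤ v.2 ∧ v.2 ≤ 0) ∨ (v.1 = 0 ∧ -3 ≤ v.2 ∧ v.2 ≤ -1) ∨
      (v.1 = -3 ∧ v.2 = 1) ∨ (v.1 = -2 ∧ v.2 = 1))
    lemC0_ok (types16 false) (by decide +kernel) (by decide +kernel) L hL h1 A (by norm_num) ?_
  rintro ⟨x, y⟩ h
  rcases h with ⟨h2, h3, h4, h5⟩ | ⟨h2, h3, h4⟩ | ⟨h2, h3⟩ | ⟨h2, h3⟩
  · exact hA x y h2 h3 h4 h5
  · simp only at h2
    subst h2
    exact hB y h3 h4
  · simp only at h2 h3
    subst h2 h3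
    exact hC
  · simp only at h2 h3
    subst h2 h3
    exact hD

end TorGrid
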