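import Pool.Agent.Lib.MP_caf32e_co.Defs

/-! Row G0: spots are invariant under automorphisms. -/

namespace TorGrid

open Finset

private theorem g0_inv (g : P2 → P2) (hg : IsAut g) (x : P2) : Function.invFun g (g x) = x :=
  Function.leftInverse_invFun hg.1.injective x

private theorem g0_inv' (g : P2 → P2) (hg : IsAut g) (x : P2) : g (Function.invFun g x) = x :=
  Function.rightInverse_invFun hg.1.surjective x

private theorem g0_img (g : P2 → P2) (hg : IsAut g) (Z : Finset P2) :
    (Z.image (Function.invFun g)).image g = Z := by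
  rw [Finset.image_image]
  have h1 : g ∘ Function.invFun g = id := by
    funext x
    exact g0_inv' g hg x
  rw [h1, Finset.image_id]

private theorem g0_lost (g : P2 → P2) (hg : IsAut g) (L : P2 → Finset ℕ) (U : Finset P2)
    (φ : P2 → ℕ) (v : P2) :
    lost L (U.image g) (fun w => φ (Function.invFun g w)) (g v) = lost (fun w => L (g w)) U φ v := by
  unfold lost
  rw [← hg.2 v, ← Finset.image_inter _ _ hg.1.injective, Finset.image_image]
  have h1 : (fun w => φ (Function.invFun g w)) ∘ g = φ := by
    funext x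
    simp only [Function.comp]
    rw [g0_inv g hg x]
  rw [h1]

private theorem g0_bd (g : P2 → P2) (hg : IsAut g) (Z : Finset P2) : bd (Z.image g) = bd Z := by
  unfold bd
  rw [Finset.sum_image (fun x _ y _ h => hg.1.injective h)]
  apply Finset.sum_congr rfl
  intro v _
  rw [← hg.2 v, ← Finset.image_sdiff _ _ hg.1.injective,
    Finset.card_image_of_injective _ hg.1.injective]

private theorem g0_biU (g : P2 → P2) (hg : IsAut g) (U Z : Finset P2) :
    ((U.image g).biUnion nb) \ (Z.image g) = ((U.biUnion nb) \ Z).image g := by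
  rw [Finset.image_sdiff _ _ hg.1.injective]
  congr 1
  rw [Finset.image_biUnion, Finset.biUnion_image]
  apply Finset.biUnion_congr rfl
  intro v _
  exact (hg.2 v).symm

/-- G0. Spots are invariant under automorphisms. -/
theorem spot_aut (g : P2 → P2) (hg : IsAut g) (L : P2 → Finset ℕ) (U : Finset P2) (φ : P2 → ℕ)
    (h : Spot (fun v => L (g v)) U φ) :
    Spot L (U.image g) (fun v => φ (Function.invFun g v)) := by
  have hinj := hg.1.injective
  constructor
  · intro u hu
    obtain ⟨u0, hu0, rfl⟩ := Finset.mem_image.1 hu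
    rw [g0_inv g hg]
    exact h.mem u0 hu0
  · intro u hu v hv hvu
    obtain ⟨u0, hu0, rfl⟩ := Finset.mem_image.1 hu
    obtain ⟨v0, hv0, rfl⟩ := Finset.mem_image.1 hv
    rw [g0_inv g hg, g0_inv g hg]
    apply h.prop u0 hu0 v0 hv0
    rw [← hg.2 u0] at hvu
    obtain ⟨w, hw, hw1⟩ := Finset.mem_image.1 hvu
    rw [← hinj hw1]
    exact hw
  · intro Z' hZ'
    rw [← g0_img g hg Z'] at hZ' ⊢
    set Z := Z'.image (Function.invFun g) with hZ
    have hUZ : U ⊆ Z := by
      intro u hu
      have h1 := hZ' (Finset.mem_image_of_mem g hu)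
      obtain ⟨w, hw, hw1⟩ := Finset.mem_image.1 h1
      rw [← hinj hw1]
      exact hw
    rw [g0_biU g hg, g0_bd g hg, Finset.sum_image (fun x _ y _ h => hinj h)]
    have h2 := h.S1 Z hUZ
    have h3 : ∑ v ∈ U.biUnion nb \ Z, lost L (U.image g) (fun w => φ (Function.invFun g w)) (g v)
        = ∑ v ∈ U.biUnion nb \ Z, lost (fun w => L (g w)) U φ v :=
      Finset.sum_congr rfl (fun v _ => g0_lost g hg L U φ v)
    rw [h3]
    exact h2
  · intro X' hX'
    rw [← g0_img g hg X'] at hX' ⊢
    set X := X'.image (Function.invFun g) with hX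
    have hUX : Disjoint X U := by
      rw [Finset.disjoint_left] at hX' ⊢
      intro a ha hau
      exact hX' (Finset.mem_image_of_mem g ha) (Finset.mem_image_of_mem g hau)
    rw [g0_bd g hg, Finset.sum_image (fun x _ y _ h => hinj h)]
    have h2 := h.S2 X hUX
    have h3 : ∑ v ∈ X, lost L (U.image g) (fun w => φ (Function.invFun g w)) (g v)
        = ∑ v ∈ X, lost (fun w => L (g w)) U φ v :=
      Finset.sum_congr rfl (fun v _ => g0_lost g hg L U φ v)
    rw [h3]
    exact h2

end TorGrid
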