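import Pool.Agent.Lib.MP_caf32e_co.D5
import Pool.Agent.Lib.MP_caf32e_co.G0
import Pool.Agent.Lib.MP_caf32e_co.CertMain

/-! Row G1: a constant block in a big box without spots (uses exists_DF, spot_aut, certB). -/

namespace TorGrid

open Finset

theorem g1_isAut_trans (c : P2) : IsAut (fun p : P2 => (c.1 + p.1, c.2 + p.2)) := by
  refine ⟨⟨?_, ?_⟩, ?_⟩
  · rintro ⟨a, b⟩ ⟨a', b'⟩ h
    simp only [Prod.mk.injEq] at h
    ext <;> simp <;> omega
  · rintro ⟨a, b⟩
    exact ⟨(a - c.1, b - c.2), by ext <;> simp⟩
  · rintro ⟨a, b⟩
    ext ⟨x, y⟩
    simp only [nb, mem_image, mem_insert, mem_singleton, Prod.mk.injEq, Prod.exists]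
    constructor
    · rintro ⟨s, t, h, h1, h2⟩
      omega
    · intro h
      refine ⟨x - c.1, y - c.2, ?_, by ring, by ring⟩
      omega

theorem g1_isAut_swap (c : P2) : IsAut (fun p : P2 => (c.1 + p.2, c.2 + p.1)) := by
  refine ⟨⟨?_, ?_⟩, ?_⟩
  · rintro ⟨a, b⟩ ⟨a', b'⟩ h
    simp only [Prod.mk.injEq] at h
    ext <;> simp <;> omega
  · rintro ⟨a, b⟩
    exact ⟨(b - c.2, a - c.1), by ext <;> simp⟩
  · rintro ⟨a, b⟩
    ext ⟨x, y⟩
    simp only [nb, mem_image, mem_insert, mem_singleton, Prod.mk.injEq, Prod.exists]
    constructor
    · rintro ⟨s, t, h, h1, h2⟩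
      omega
    · intro h
      refine ⟨y - c.2, x - c.1, ?_, by ring, by ring⟩
      omega

theorem g1_noSp (L : P2 → Finset ℕ) (N r : ℕ) (c : P2) (g : P2 → P2) (hg : IsAut g)
    (hgr : ∀ p : P2, InB (0, 0) r p → InB c r (g p)) (hc : InB (0, 0) ((N : ℤ) - r) c)
    (h : NoSp L (0, 0) N) : NoSp (fun p => L (g p)) (0, 0) r := by
  intro U φ hU hs
  refine h (U.image g) _ ?_ (spot_aut g hg L U φ hs)
  intro u hu
  obtain ⟨p, hp, rfl⟩ := mem_image.1 hu
  have h1 := hgr p (hU p hp)
  unfold InB at *
  simp only [sub_zero] at *
  rw [abs_le, abs_le] at *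
  omega

/-- G1. Constant block in a big box without spots. -/
theorem const_box (K : ℕ) : ∃ N : ℕ, K + 2 ≤ N ∧ ∀ L : P2 → Finset ℕ, (∀ v, (L v).card = 3) →
    NoSp L (0, 0) N → ∃ z : P2, InB (0, 0) ((N : ℤ) - K - 2) z ∧
      ∀ v, InB z K v → L v = L z := by
  obtain ⟨r, hr⟩ := certB
  obtain ⟨N, hN, hD⟩ := exists_DF (K + r)
  refine ⟨N, by omega, fun L hL hno => ?_⟩
  obtain ⟨z, hz, hdf⟩ := hD L hL hno
  have hz' : |z.1| ≤ (N : ℤ) - (K + r) - 2 ∧ |z.2| ≤ (N : ℤ) - (K + r) - 2 := by
    have := hz
    unfold InB at this
    simpa using this
  rw [abs_le, abs_le] at hz'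
  refine ⟨z, ?_, ?_⟩
  · unfold InB
    simp only [sub_zero]
    rw [abs_le, abs_le]
    omega
  · have hin : ∀ v, InB z K v → InB (0, 0) ((N : ℤ) - r) v := by
      intro v hv
      unfold InB at *
      simp only [sub_zero] at *
      rw [abs_le, abs_le] at *
      omega
    have hx : ∀ v, InB z K v → L v = L (v.1 + 1, v.2) := by
      intro v hv
      have h1 := hr (fun p => L (v.1 + p.1, v.2 + p.2)) (fun p => hL _)
        (g1_noSp L N r v _ (g1_isAut_trans v) (fun p hp => by
          unfold InB at *
          simp only [sub_zero] at hp
          simpa using hp) (hin v hv) hno) (by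
          intro x y hxy
          have h2 := hdf (v.1 + x) (v.2 + y) (by
            unfold InB at *
            simp only [sub_zero] at *
            push_cast
            rw [abs_le, abs_le] at *
            omega)
          unfold DFf at *
          simpa [add_assoc] using h2)
      simpa using h1
    have hy : ∀ v, InB z K v → L v = L (v.1, v.2 + 1) := by
      intro v hv
      have h1 := hr (fun p => L (v.1 + p.2, v.2 + p.1)) (fun p => hL _)
        (g1_noSp L N r v _ (g1_isAut_swap v) (fun p hp => by
          unfold InB at *
          simp only [sub_zero] at hp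
          simpa using hp.symm) (hin v hv) hno) (by
          intro x y hxy
          have h2 := hdf (v.1 + y) (v.2 + x) (by
            unfold InB at *
            simp only [sub_zero] at *
            push_cast
            rw [abs_le, abs_le] at *
            omega)
          unfold DFf at *
          simp only [add_assoc] at h2 ⊢
          rw [h2, union_comm])
      simpa using h1
    -- horizontal lines
    have hX : ∀ k : ℕ, (k : ℤ) ≤ K → ∀ y : ℤ, |y - z.2| ≤ K →
        L (z.1 + k, y) = L (z.1, y) ∧ L (z.1 - k, y) = L (z.1, y) := by
      intro k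
      induction k with
      | zero => intro _ y _; simp
      | succ k ih =>
        intro hk y hy'
        push_cast at hk ⊢
        obtain ⟨h1, h2⟩ := ih (by omega) y hy'
        constructor
        · rw [← h1]
          have := hx (z.1 + k, y) (by
            unfold InB
            refine ⟨?_, hy'⟩
            simp only
            rw [abs_le]
            omega)
          rw [this]
          simp [add_assoc]
        · rw [← h2]
          have := hx (z.1 - (k + 1), y) (by
            unfold InB
            refine ⟨?_, hy'⟩
            simp only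
            rw [abs_le]
            omega)
          rw [this]
          congr 2
          ring
    have hY : ∀ k : ℕ, (k : ℤ) ≤ K →
        L (z.1, z.2 + k) = L z ∧ L (z.1, z.2 - k) = L z := by
      intro k
      induction k with
      | zero => intro _; simp
      | succ k ih =>
        intro hk
        push_cast at hk ⊢
        obtain ⟨h1, h2⟩ := ih (by omega)
        constructor
        · rw [← h1]
          have := hy (z.1, z.2 + k) (by
            unfold InB
            simp only [sub_self, abs_zero]
            refine ⟨by omega, ?_⟩
            rw [abs_le]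
            omega)
          rw [this]
          simp [add_assoc]
        · rw [← h2]
          have := hy (z.1, z.2 - (k + 1)) (by
            unfold InB
            simp only [sub_self, abs_zero]
            refine ⟨by omega, ?_⟩
            rw [abs_le]
            omega)
          rw [this]
          congr 2
          ring
    rintro ⟨x, y⟩ ⟨h1, h2⟩
    simp only at h1 h2
    have e1 : L (x, y) = L (z.1, y) := by
      rcases le_total z.1 x with h | h
      · have := (hX (x - z.1).toNat (by rw [abs_le] at h1; omega) y h2).1
        rw [← this]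
        congr 2
        omega
      · have := (hX (z.1 - x).toNat (by rw [abs_le] at h1; omega) y h2).2
        rw [← this]
        congr 2
        omega
    have e2 : L (z.1, y) = L z := by
      rcases le_total z.2 y with h | h
      · have := (hY (y - z.2).toNat (by rw [abs_le] at h2; omega)).1
        rw [← this]
        congr 2
        omega
      · have := (hY (z.2 - y).toNat (by rw [abs_le] at h2; omega)).2
        rw [← this]
        congr 2
        omega
    rw [e1, e2]

end TorGrid
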