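import Pool.Agent.Lib.MP_caf32e_co.G0
import Pool.Agent.Lib.MP_caf32e_co.CertMain

/-! Row G2: growth of a constant box to the right (uses spot_aut and the certificates). -/

namespace TorGrid

open Finset

theorem G2_isAut_trans (c : P2) : IsAut (fun p : P2 => (c.1 + p.1, c.2 + p.2)) := by
  refine ⟨⟨?_, ?_⟩, ?_⟩
  · rintro ⟨a, b⟩ ⟨a', b'⟩ h
    simp only [Prod.mk.injEq] at h
    ext <;> simp <;> omega
  · rintro ⟨a, b⟩
    exact ⟨(a - c.1, b - c.2), by ext <;> simp⟩
  · rintro ⟨a, b⟩
    ext ⟨x, y⟩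
    simp only [nb, mem_image, mem_insert, mem_singleton, Prod.mk.injEq, Prod.exists]
    constructor
    · rintro ⟨s, t, h, h1, h2⟩
      omega
    · intro h
      refine ⟨x - c.1, y - c.2, ?_, by ring, by ring⟩
      omega

theorem G2_isAut_swap (c : P2) : IsAut (fun p : P2 => (c.1 + p.2, c.2 + p.1)) := by
  refine ⟨⟨?_, ?_⟩, ?_⟩
  · rintro ⟨a, b⟩ ⟨a', b'⟩ h
    simp only [Prod.mk.injEq] at h
    ext <;> simp <;> omega
  · rintro ⟨a, b⟩
    exact ⟨(b - c.2, a - c.1), by ext <;> simp⟩
  · rintro ⟨a, b⟩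
    ext ⟨x, y⟩
    simp only [nb, mem_image, mem_insert, mem_singleton, Prod.mk.injEq, Prod.exists]
    constructor
    · rintro ⟨s, t, h, h1, h2⟩
      omega
    · intro h
      refine ⟨y - c.2, x - c.1, ?_, by ring, by ring⟩
      omega

theorem G2_isAut_refl : IsAut (fun p : P2 => (p.1, -p.2)) := by
  refine ⟨⟨?_, ?_⟩, ?_⟩
  · rintro ⟨a, b⟩ ⟨a', b'⟩ h
    simp only [Prod.mk.injEq] at h
    ext <;> simp <;> omega
  · rintro ⟨a, b⟩
    exact ⟨(a, -b), by ext <;> simp⟩
  · rintro ⟨a, b⟩
    ext ⟨x, y⟩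
    simp only [nb, mem_image, mem_insert, mem_singleton, Prod.mk.injEq, Prod.exists]
    constructor
    · rintro ⟨s, t, h, h1, h2⟩
      omega
    · intro h
      refine ⟨x, -y, ?_, by ring, by ring⟩
      omega

theorem G2_noSp (L : P2 → Finset ℕ) (r : ℕ) (z z' : P2) (g : P2 → P2) (hg : IsAut g)
    (hgr : ∀ p : P2, InB z r p → InB z' r (g p))
    (h : NoSp L z' r) : NoSp (fun p => L (g p)) z r := by
  intro U φ hU hs
  refine h (U.image g) _ ?_ (spot_aut g hg L U φ hs)
  intro u hu
  obtain ⟨p, hp, rfl⟩ := mem_image.1 hu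
  exact hgr p (hU p hp)

theorem G2_mono (L : P2 → Finset ℕ) (z : P2) (r r' : ℕ) (hr : r ≤ r') (h : NoSp L z r') :
    NoSp L z r := by
  intro U φ hU hs
  refine h U φ (fun u hu => ?_) hs
  have h1 := hU u hu
  have h2 : (r : ℤ) ≤ r' := by exact_mod_cast hr
  exact ⟨h1.1.trans h2, h1.2.trans h2⟩

theorem G2_tr (L : P2 → Finset ℕ) (r : ℕ) (z : P2) (h : NoSp L z r) :
    NoSp (fun p => L (z.1 + p.1, z.2 + p.2)) (0, 0) r := by
  refine G2_noSp L r (0, 0) z _ (G2_isAut_trans z) ?_ h
  intro p hp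
  unfold InB at *
  simp only [sub_zero] at *
  rw [abs_le, abs_le] at *
  omega

theorem G2_sw (L : P2 → Finset ℕ) (r : ℕ) (z : P2) (h : NoSp L z r) :
    NoSp (fun p => L (z.1 + p.2, z.2 + p.1)) (0, 0) r := by
  refine G2_noSp L r (0, 0) z _ (G2_isAut_swap z) ?_ h
  intro p hp
  unfold InB at *
  simp only [sub_zero] at *
  rw [abs_le, abs_le] at *
  omega

theorem G2_rf (L : P2 → Finset ℕ) (r : ℕ) (z : P2) (h : NoSp L (z.1, -z.2) r) :
    NoSp (fun p => L (p.1, -p.2)) z r := by
  refine G2_noSp L r z (z.1, -z.2) _ G2_isAut_refl ?_ h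
  intro p hp
  unfold InB at *
  simp only at *
  rw [abs_le, abs_le] at *
  omega

/-- the upper part of the new column -/
theorem G2_up (r : ℕ)
    (HH : ∀ L : P2 → Finset ℕ, (∀ v, (L v).card = 3) → NoSp L (0, 0) r →
      ∀ A : Finset ℕ, (∀ x y : ℤ, -3 ≤ x → x ≤ -1 → -3 ≤ y → y ≤ 3 → L (x, y) = A) →
      L (0, 0) = A)
    (H2 : ∀ L : P2 → Finset ℕ, (∀ v, (L v).card = 3) → NoSp L (0, 0) r →
      ∀ A : Finset ℕ, (∀ x y : ℤ, -3 ≤ x → x ≤ -1 → -3 ≤ y → y ≤ 2 → L (x, y) = A) →
      (∀ y : ℤ, -3 ≤ y → y ≤ -1 → L (0, y) = A) → L (0, 0) = A)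
    (H1 : ∀ L : P2 → Finset ℕ, (∀ v, (L v).card = 3) → NoSp L (0, 0) r →
      ∀ A : Finset ℕ, (∀ x y : ℤ, -3 ≤ x → x ≤ -1 → -3 ≤ y → y ≤ 1 → L (x, y) = A) →
      (∀ y : ℤ, -3 ≤ y → y ≤ -1 → L (0, y) = A) → L (-3, 2) = A → L (0, 0) = A)
    (H0 : ∀ L : P2 → Finset ℕ, (∀ v, (L v).card = 3) → NoSp L (0, 0) r →
      ∀ A : Finset ℕ, (∀ x y : ℤ, -3 ≤ x → x ≤ -1 → -3 ≤ y → y ≤ 0 → L (x, y) = A) →
      (∀ y : ℤ, -3 ≤ y → y ≤ -1 → L (0, y) = A) → L (-3, 1) = A → L (-2, 1) = A →
      L (0, 0) = A)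
    (L : P2 → Finset ℕ) (hL : ∀ v, (L v).card = 3) (a b c d : ℤ) (A : Finset ℕ)
    (hab : a + 8 ≤ b) (hcd : c + 8 ≤ d)
    (hA : ∀ x y : ℤ, a ≤ x → x ≤ b → c ≤ y → y ≤ d → L (x, y) = A)
    (hN : ∀ x y : ℤ, a ≤ x → x ≤ b + 1 → c ≤ y → y ≤ d + 1 → NoSp L (x, y) r) :
    ∀ y : ℤ, c + 3 ≤ y → y ≤ d → L (b + 1, y) = A := by
  -- step 1: the middle of the new column
  have s1 : ∀ y : ℤ, c + 3 ≤ y → y ≤ d - 3 → L (b + 1, y) = A := by
    intro y h1 h2
    have := HH _ (fun v => hL _) (G2_tr L r (b + 1, y)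
      (hN _ _ (by omega) (by omega) (by omega) (by omega))) A
      (fun x' y' h3 h4 h5 h6 => hA _ _ (by simp only; omega) (by simp only; omega)
        (by simp only; omega) (by simp only; omega))
    simpa using this
  -- step 2: the middle of the new top row
  have s2 : ∀ x : ℤ, a + 3 ≤ x → x ≤ b - 3 → L (x, d + 1) = A := by
    intro x h1 h2
    have := HH _ (fun v => hL _) (G2_sw L r (x, d + 1)
      (hN _ _ (by omega) (by omega) (by omega) (by omega))) A
      (fun x' y' h3 h4 h5 h6 => hA _ _ (by simp only; omega) (by simp only; omega)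
        (by simp only; omega) (by simp only; omega))
    simpa using this
  -- step 3
  have s3 : L (b + 1, d - 2) = A := by
    have := H2 _ (fun v => hL _) (G2_tr L r (b + 1, d - 2)
      (hN _ _ (by omega) (by omega) (by omega) (by omega))) A
      (fun x' y' h3 h4 h5 h6 => hA _ _ (by simp only; omega) (by simp only; omega)
        (by simp only; omega) (by simp only; omega))
      (fun y' h3 h4 => by
        have := s1 (d - 2 + y') (by omega) (by omega)
        simpa using this)
    simpa using this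
  have s4 : L (b - 2, d + 1) = A := by
    have := H2 _ (fun v => hL _) (G2_sw L r (b - 2, d + 1)
      (hN _ _ (by omega) (by omega) (by omega) (by omega))) A
      (fun x' y' h3 h4 h5 h6 => hA _ _ (by simp only; omega) (by simp only; omega)
        (by simp only; omega) (by simp only; omega))
      (fun y' h3 h4 => by
        have := s2 (b - 2 + y') (by omega) (by omega)
        simpa using this)
    simpa using this
  -- step 4
  have s5 : L (b + 1, d - 1) = A := by
    have := H1 _ (fun v => hL _) (G2_tr L r (b + 1, d - 1)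
      (hN _ _ (by omega) (by omega) (by omega) (by omega))) A
      (fun x' y' h3 h4 h5 h6 => hA _ _ (by simp only; omega) (by simp only; omega)
        (by simp only; omega) (by simp only; omega))
      (fun y' h3 h4 => by
        by_cases h5 : y' = -1
        · subst h5
          have e : d - 1 + -1 = d - 2 := by ring
          simp only [add_zero, e]
          exact s3
        · have := s1 (d - 1 + y') (by omega) (by omega)
          simpa using this)
      (by
        have e1 : b + 1 + -3 = b - 2 := by ring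
        have e2 : d - 1 + 2 = d + 1 := by ring
        simp only [e1, e2]
        exact s4)
    simpa using this
  have s6 : L (b - 1, d + 1) = A := by
    have := H1 _ (fun v => hL _) (G2_sw L r (b - 1, d + 1)
      (hN _ _ (by omega) (by omega) (by omega) (by omega))) A
      (fun x' y' h3 h4 h5 h6 => hA _ _ (by simp only; omega) (by simp only; omega)
        (by simp only; omega) (by simp only; omega))
      (fun y' h3 h4 => by
        by_cases h5 : y' = -1
        · subst h5
          have e : b - 1 + -1 = b - 2 := by ring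
          simp only [add_zero, e]
          exact s4
        · have := s2 (b - 1 + y') (by omega) (by omega)
          simpa using this)
      (by
        have e1 : b - 1 + 2 = b + 1 := by ring
        have e2 : d + 1 + -3 = d - 2 := by ring
        simp only [e1, e2]
        exact s3)
    simpa using this
  -- step 5
  have s7 : L (b + 1, d) = A := by
    have := H0 _ (fun v => hL _) (G2_tr L r (b + 1, d)
      (hN _ _ (by omega) (by omega) (by omega) (by omega))) A
      (fun x' y' h3 h4 h5 h6 => hA _ _ (by simp only; omega) (by simp only; omega)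
        (by simp only; omega) (by simp only; omega))
      (fun y' h3 h4 => by
        by_cases h5 : y' = -1
        · subst h5
          have e : d + -1 = d - 1 := by ring
          simp only [add_zero, e]
          exact s5
        · by_cases h6 : y' = -2
          · subst h6
            have e : d + -2 = d - 2 := by ring
            simp only [add_zero, e]
            exact s3
          · have := s1 (d + y') (by omega) (by omega)
            simpa using this)
      (by
        have e1 : b + 1 + -3 = b - 2 := by ring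
        simp only [e1]
        exact s4)
      (by
        have e1 : b + 1 + -2 = b - 1 := by ring
        simp only [e1]
        exact s6)
    simpa using this
  intro y h1 h2
  by_cases h3 : y ≤ d - 3
  · exact s1 y h1 h3
  · have h4 : y = d - 2 ∨ y = d - 1 ∨ y = d := by omega
    rcases h4 with rfl | rfl | rfl
    · exact s3
    · exact s5
    · exact s7

/-- G2. Growth of a constant box to the right. `r` is the radius of the certificates. -/
theorem grow_right : ∃ r : ℕ, ∀ L : P2 → Finset ℕ, (∀ v, (L v).card = 3) →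
    ∀ (a b c d : ℤ) (A : Finset ℕ), a + 8 ≤ b → c + 8 ≤ d →
    (∀ v : P2, a ≤ v.1 → v.1 ≤ b → c ≤ v.2 → v.2 ≤ d → L v = A) →
    (∀ v : P2, a ≤ v.1 → v.1 ≤ b + 1 → c - 1 ≤ v.2 → v.2 ≤ d + 1 → NoSp L v r) →
    (∀ v : P2, a ≤ v.1 → v.1 ≤ b + 1 → c ≤ v.2 → v.2 ≤ d → L v = A) := by
  obtain ⟨rH, HH⟩ := certH
  obtain ⟨r2, H2⟩ := cert2
  obtain ⟨r1, H1⟩ := cert1
  obtain ⟨r0, H0⟩ := cert0
  have hH : rH ≤ rH + r2 + r1 + r0 := by omega
  have h2 : r2 ≤ rH + r2 + r1 + r0 := by omega
  have h1 : r1 ≤ rH + r2 + r1 + r0 := by omega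
  have h0 : r0 ≤ rH + r2 + r1 + r0 := by omega
  have key := G2_up (rH + r2 + r1 + r0)
    (fun L hL hN => HH L hL (G2_mono L _ _ _ hH hN))
    (fun L hL hN => H2 L hL (G2_mono L _ _ _ h2 hN))
    (fun L hL hN => H1 L hL (G2_mono L _ _ _ h1 hN))
    (fun L hL hN => H0 L hL (G2_mono L _ _ _ h0 hN))
  refine ⟨rH + r2 + r1 + r0, ?_⟩
  intro L hL a b c d A hab hcd hA hN
  rintro ⟨x, y⟩ hx1 hx2 hy1 hy2
  simp only at hx1 hx2 hy1 hy2
  by_cases hx : x ≤ b
  · exact hA _ hx1 hx hy1 hy2
  obtain rfl : x = b + 1 := by omega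
  by_cases hy : c + 3 ≤ y
  · exact key L hL a b c d A hab hcd (fun x y q1 q2 q3 q4 => hA (x, y) q1 q2 q3 q4)
      (fun x y q1 q2 q3 q4 => hN (x, y) q1 q2 (by simp only; omega) q4) y hy hy2
  · have := key (fun p => L (p.1, -p.2)) (fun v => hL _) a b (-d) (-c) A hab (by omega)
      (fun x y q1 q2 q3 q4 => hA (x, -y) q1 q2 (by simp only; omega) (by simp only; omega))
      (fun x y q1 q2 q3 q4 => G2_rf L _ (x, y)
        (hN (x, -y) q1 q2 (by simp only; omega) (by simp only; omega)))
      (-y) (by omega) (by omega)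
    simpa using this

end TorGrid
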