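import Pool.Agent.Lib.MP_caf32e_co.G0
import Pool.Agent.Lib.MP_caf32e_co.G1
import Pool.Agent.Lib.MP_caf32e_co.G2

/-! Row G3: the local lemma (uses const_box, grow_right, spot_aut). -/

namespace TorGrid

open Finset

/-- reflection of the first coordinate -/
theorem G3_isAut_refl : IsAut (fun p : P2 => (-p.1, p.2)) := by
  refine ⟨⟨?_, ?_⟩, ?_⟩
  · rintro ⟨a, b⟩ ⟨a', b'⟩ h
    simp only [Prod.mk.injEq] at h
    ext <;> simp <;> omega
  · rintro ⟨a, b⟩
    exact ⟨(-a, b), by ext <;> simp⟩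
  · rintro ⟨a, b⟩
    ext ⟨x, y⟩
    simp only [nb, mem_image, mem_insert, mem_singleton, Prod.mk.injEq, Prod.exists]
    constructor
    · rintro ⟨s, t, h, h1, h2⟩
      omega
    · intro h
      refine ⟨-x, y, ?_, by ring, rfl⟩
      omega

/-- the swap of the coordinates -/
theorem G3_isAut_swap : IsAut (fun p : P2 => (p.2, p.1)) := by
  refine ⟨⟨?_, ?_⟩, ?_⟩
  · rintro ⟨a, b⟩ ⟨a', b'⟩ h
    simp only [Prod.mk.injEq] at h
    ext <;> simp <;> omega
  · rintro ⟨a, b⟩
    exact ⟨(b, a), rfl⟩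
  · rintro ⟨a, b⟩
    ext ⟨x, y⟩
    simp only [nb, mem_image, mem_insert, mem_singleton, Prod.mk.injEq, Prod.exists]
    constructor
    · rintro ⟨s, t, h, h1, h2⟩
      omega
    · intro h
      refine ⟨y, x, ?_, rfl, rfl⟩
      omega

/-- pull back of the absence of spots -/
theorem G3_noSp_pull (g : P2 → P2) (hg : IsAut g) (L : P2 → Finset ℕ) (v w : P2) (r : ℤ)
    (hB : ∀ u, InB v r u → InB w r (g u)) (h : NoSp L w r) : NoSp (fun u => L (g u)) v r := by
  intro U φ hU hS
  refine h (U.image g) (fun u => φ (Function.invFun g u)) ?_ (spot_aut g hg L U φ hS)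
  intro u hu
  obtain ⟨u', hu', rfl⟩ := mem_image.1 hu
  exact hB u' (hU u' hu')

/-- growth to the right by `j` steps inside the radius `M` -/
theorem G3_grow_right_many {r : ℕ}
    (hr : ∀ L : P2 → Finset ℕ, (∀ v, (L v).card = 3) →
      ∀ (a b c d : ℤ) (A : Finset ℕ), a + 8 ≤ b → c + 8 ≤ d →
      (∀ v : P2, a ≤ v.1 → v.1 ≤ b → c ≤ v.2 → v.2 ≤ d → L v = A) →
      (∀ v : P2, a ≤ v.1 → v.1 ≤ b + 1 → c - 1 ≤ v.2 → v.2 ≤ d + 1 → NoSp L v r) →
      (∀ v : P2, a ≤ v.1 → v.1 ≤ b + 1 → c ≤ v.2 → v.2 ≤ d → L v = A))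
    (L : P2 → Finset ℕ) (hL : ∀ v, (L v).card = 3) (M : ℤ)
    (hM : ∀ v : P2, |v.1| ≤ M → |v.2| ≤ M → NoSp L v r)
    (a b c d : ℤ) (A : Finset ℕ) (hab : a + 8 ≤ b) (hcd : c + 8 ≤ d)
    (ha : -M ≤ a) (hc : -M + 1 ≤ c) (hd : d ≤ M - 1)
    (hA : ∀ v : P2, a ≤ v.1 → v.1 ≤ b → c ≤ v.2 → v.2 ≤ d → L v = A) (j : ℕ)
    (hj : b + j ≤ M) :
    ∀ v : P2, a ≤ v.1 → v.1 ≤ b + j → c ≤ v.2 → v.2 ≤ d → L v = A := by
  induction j with
  | zero => simpa using hA
  | succ j ih =>
    have h1 := ih (by push_cast at hj; omega)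
    have h2 := hr L hL a (b + j) c d A (by omega) hcd h1 (by
      intro v hv1 hv2 hv3 hv4
      apply hM
      · rw [abs_le]; push_cast at hj; omega
      · rw [abs_le]; omega)
    intro v hv1 hv2 hv3 hv4
    exact h2 v hv1 (by push_cast at hv2; omega) hv3 hv4

/-- G3. The local lemma. -/
theorem local_lemma : ∃ R : ℕ, ∀ L : P2 → Finset ℕ, (∀ v, (L v).card = 3) →
    NoSp L (0, 0) R →
      L (0, 0) = L (1, 0) ∧ L (0, 0) = L (-1, 0) ∧ L (0, 0) = L (0, 1) ∧ L (0, 0) = L (0, -1) := by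
  obtain ⟨r, hr⟩ := grow_right
  obtain ⟨N, hN, hbox⟩ := const_box 4
  refine ⟨N + r + 1, ?_⟩
  intro L hL hno
  -- absence of spots at all centres of norm at most `N + 1`
  have hM : ∀ v : P2, |v.1| ≤ (N : ℤ) + 1 → |v.2| ≤ (N : ℤ) + 1 → NoSp L v r := by
    intro v hv1 hv2 U φ hU
    apply hno
    intro u hu
    have h := hU u hu
    unfold InB at h ⊢
    simp only [abs_le] at h hv1 hv2 ⊢
    push_cast
    constructor <;> constructor <;> linarith [h.1.1, h.1.2, h.2.1, h.2.2]
  obtain ⟨z, hz, hc⟩ := hbox L hL (by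
    intro U φ hU
    apply hno
    intro u hu
    have h := hU u hu
    unfold InB at h ⊢
    push_cast
    constructor <;> linarith [h.1, h.2])
  have hz' : |z.1| ≤ (N : ℤ) - 6 ∧ |z.2| ≤ (N : ℤ) - 6 := by
    unfold InB at hz
    simp only [sub_zero] at hz
    push_cast at hz
    constructor <;> linarith [hz.1, hz.2]
  have hz1 := abs_le.1 hz'.1
  have hz2 := abs_le.1 hz'.2
  set A := L z with hAdef
  -- the first box
  have h0 : ∀ v : P2, z.1 - 4 ≤ v.1 → v.1 ≤ z.1 + 4 → z.2 - 4 ≤ v.2 → v.2 ≤ z.2 + 4 →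
      L v = A := by
    intro v h1 h2 h3 h4
    apply hc
    unfold InB
    rw [abs_le, abs_le]
    push_cast
    omega
  -- to the right
  have h1 : ∀ v : P2, z.1 - 4 ≤ v.1 → v.1 ≤ (N : ℤ) → z.2 - 4 ≤ v.2 → v.2 ≤ z.2 + 4 →
      L v = A := by
    have := G3_grow_right_many hr L hL ((N : ℤ) + 1) hM (z.1 - 4) (z.1 + 4) (z.2 - 4) (z.2 + 4) A
      (by omega) (by omega) (by omega) (by omega) (by omega) h0 ((N : ℤ) - (z.1 + 4)).toNat
      (by rw [Int.toNat_of_nonneg (by omega)]; omega)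
    intro v g1 g2 g3 g4
    exact this v g1 (by rw [Int.toNat_of_nonneg (by omega)]; omega) g3 g4
  -- to the left
  have h2 : ∀ v : P2, -(N : ℤ) ≤ v.1 → v.1 ≤ (N : ℤ) → z.2 - 4 ≤ v.2 → v.2 ≤ z.2 + 4 →
      L v = A := by
    have := G3_grow_right_many hr (fun u => L (-u.1, u.2)) (fun v => hL _) ((N : ℤ) + 1) (by
        intro v hv1 hv2
        refine G3_noSp_pull (fun p : P2 => (-p.1, p.2)) G3_isAut_refl L v (-v.1, v.2) r ?_
          (hM _ (by simpa using hv1) hv2)
        intro u hu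
        unfold InB at hu ⊢
        refine ⟨?_, hu.2⟩
        have : (-u.1 - -v.1) = -(u.1 - v.1) := by ring
        simp only [this, abs_neg]
        exact hu.1)
      (-(N : ℤ)) (-(z.1 - 4)) (z.2 - 4) (z.2 + 4) A
      (by omega) (by omega) (by omega) (by omega) (by omega)
      (by
        intro v g1 g2 g3 g4
        exact h1 (-v.1, v.2) (by simp only; omega) (by simp only; omega) g3 g4)
      ((N : ℤ) - (-(z.1 - 4))).toNat
      (by rw [Int.toNat_of_nonneg (by omega)]; omega)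
    intro v g1 g2 g3 g4
    have h := this (-v.1, v.2) (by simp only; omega)
      (by rw [Int.toNat_of_nonneg (by omega)]; simp only; omega) g3 g4
    simpa using h
  -- up
  have h3 : ∀ v : P2, -(N : ℤ) ≤ v.1 → v.1 ≤ (N : ℤ) → z.2 - 4 ≤ v.2 → v.2 ≤ (N : ℤ) →
      L v = A := by
    have := G3_grow_right_many hr (fun u => L (u.2, u.1)) (fun v => hL _) ((N : ℤ) + 1) (by
        intro v hv1 hv2
        refine G3_noSp_pull (fun p : P2 => (p.2, p.1)) G3_isAut_swap L v (v.2, v.1) r ?_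
          (hM _ hv2 hv1)
        intro u hu
        exact ⟨hu.2, hu.1⟩)
      (z.2 - 4) (z.2 + 4) (-(N : ℤ)) (N : ℤ) A
      (by omega) (by omega) (by omega) (by omega) (by omega)
      (by
        intro v g1 g2 g3 g4
        exact h2 (v.2, v.1) g3 g4 g1 g2)
      ((N : ℤ) - (z.2 + 4)).toNat
      (by rw [Int.toNat_of_nonneg (by omega)]; omega)
    intro v g1 g2 g3 g4
    exact this (v.2, v.1) g3
      (by rw [Int.toNat_of_nonneg (by omega)]; simp only; omega) g1 g2
  -- down
  have h4 : ∀ v : P2, -(N : ℤ) ≤ v.1 → v.1 ≤ (N : ℤ) → -(N : ℤ) ≤ v.2 → v.2 ≤ (N : ℤ) →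
      L v = A := by
    have hauto : IsAut (fun p : P2 => (p.2, -p.1)) := by
      have h1 := G3_isAut_refl
      have h2 := G3_isAut_swap
      refine ⟨?_, ?_⟩
      · have := h2.1.comp h1.1
        exact this
      · intro v
        have e1 := h1.2 v
        have e2 := h2.2 (-v.1, v.2)
        have : (fun p : P2 => (p.2, -p.1)) = (fun p : P2 => (p.2, p.1)) ∘ (fun p : P2 => (-p.1, p.2)) := rfl
        rw [this, ← image_image, e1]
        exact e2
    have := G3_grow_right_many hr (fun u => L (u.2, -u.1)) (fun v => hL _) ((N : ℤ) + 1) (by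
        intro v hv1 hv2
        refine G3_noSp_pull (fun p : P2 => (p.2, -p.1)) hauto L v (v.2, -v.1) r ?_
          (hM _ hv2 (by simpa using hv1))
        intro u hu
        unfold InB at hu ⊢
        refine ⟨hu.2, ?_⟩
        have : (-u.1 - -v.1) = -(u.1 - v.1) := by ring
        simp only [this, abs_neg]
        exact hu.1)
      (-(N : ℤ)) (-(z.2 - 4)) (-(N : ℤ)) (N : ℤ) A
      (by omega) (by omega) (by omega) (by omega) (by omega)
      (by
        intro v g1 g2 g3 g4
        exact h3 (v.2, -v.1) g3 g4 (by simp only; omega) (by simp only; omega))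
      ((N : ℤ) - (-(z.2 - 4))).toNat
      (by rw [Int.toNat_of_nonneg (by omega)]; omega)
    intro v g1 g2 g3 g4
    have h := this (-v.2, v.1) (by simp only; omega)
      (by rw [Int.toNat_of_nonneg (by omega)]; simp only; omega) g1 g2
    simpa using h
  have hN' : (1 : ℤ) ≤ N := by omega
  have e0 := h4 (0, 0) (by simp only; omega) (by simp only; omega) (by simp only; omega)
    (by simp only; omega)
  have e1 := h4 (1, 0) (by simp only; omega) (by simp only; omega) (by simp only; omega)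
    (by simp only; omega)
  have e2 := h4 (-1, 0) (by simp only; omega) (by simp only; omega) (by simp only; omega)
    (by simp only; omega)
  have e3 := h4 (0, 1) (by simp only; omega) (by simp only; omega) (by simp only; omega)
    (by simp only; omega)
  have e4 := h4 (0, -1) (by simp only; omega) (by simp only; omega) (by simp only; omega)
    (by simp only; omega)
  exact ⟨e0.trans e1.symm, e0.trans e2.symm, e0.trans e3.symm, e0.trans e4.symm⟩

end TorGrid
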