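import Pool.Agent.Lib.MP_caf32e_co.Defs

/-! Definitions of the certificate checker. Everything is computed by the kernel. -/

namespace TorGrid

/-- literal: colour index and position -/
abbrev Lt := ℕ × ℤ × ℤ

/-- A pattern: colours present and colours absent at given positions. -/
structure Pat where
  P : List Lt
  N : List Lt
deriving DecidableEq

/-- the pattern occurs in `L` with the colour names `f` -/
def Occ (L : P2 → Finset ℕ) (f : ℕ → ℕ) (p : Pat) : Prop :=
  (∀ t ∈ p.P, f t.1 ∈ L t.2) ∧ (∀ t ∈ p.N, f t.1 ∉ L t.2)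

/-- the pattern cannot occur in lists without spots (and without defects if `df`) in the box of
radius `r` -/
def Imp (df : Bool) (r : ℕ) (p : Pat) : Prop :=
  ∀ L : P2 → Finset ℕ, (∀ v, (L v).card = 3) → NoSp L (0, 0) r →
    (df = true → DFb L (0, 0) r) →
    ∀ f : ℕ → ℕ, (∀ i < 4, ∀ j < 4, f i = f j → i = j) → ¬ Occ L f p

/-! ### Transformations -/

/-- reflection / swap number `s < 8`, translation, colour permutation -/
structure Tf where
  s : ℕ
  dx : ℤ
  dy : ℤ
  c : List ℕ

/-- the geometric part -/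
def Tf.ap (t : Tf) (p : P2) : P2 :=
  let x := if t.s % 2 = 1 then - p.1 else p.1
  let y := if (t.s / 2) % 2 = 1 then - p.2 else p.2
  if (t.s / 4) % 2 = 1 then (y + t.dx, x + t.dy) else (x + t.dx, y + t.dy)

/-- colour map -/
def Tf.col (t : Tf) (k : ℕ) : ℕ := t.c.getD k 0

/-- image of a pattern -/
def Pat.map (t : Tf) (p : Pat) : Pat :=
  ⟨p.P.map (fun a => (t.col a.1, t.ap a.2)), p.N.map (fun a => (t.col a.1, t.ap a.2))⟩

/-- the transformation is legal: the colour map is a permutation of `0, 1, 2, 3` and the translation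
is at most `30` -/
def Tf.ok (t : Tf) : Bool :=
  decide (t.c.length = 4) && t.c.all (fun k => decide (k < 4)) && decide t.c.Nodup &&
    decide (-30 ≤ t.dx) && decide (t.dx ≤ 30) && decide (-30 ≤ t.dy) && decide (t.dy ≤ 30)

/-- all colour indices are at most 3 and all coordinates at most 30 -/
def Pat.ok (p : Pat) : Bool :=
  p.P.all (fun a => decide (a.1 < 4) && decide (-30 ≤ a.2.1) && decide (a.2.1 ≤ 30) &&
    decide (-30 ≤ a.2.2) && decide (a.2.2 ≤ 30)) &&
  p.N.all (fun a => decide (a.1 < 4) && decide (-30 ≤ a.2.1) && decide (a.2.1 ≤ 30) &&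
    decide (-30 ≤ a.2.2) && decide (a.2.2 ≤ 30))

/-! ### Spot types with flows -/

/-- A flow given by finitely many rows and columns, extended constantly to infinity.
Horizontal: `h` is a list of rows (`y = y0 + j`), entry `i` of a row is the flow on the edge from
`x0 - 1 + i` to `x0 + i`. Vertical: `g` is a list of columns (`x = x0 + i`), entry `j` of a column is
the flow on the edge from `y0 - 1 + j` to `y0 + j`. -/
structure Flo where
  x0 : ℤ
  y0 : ℤ
  w : ℕ
  hh : ℕ
  h : List (List ℤ)
  g : List (List ℤ)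

/-- clamped access -/
def clampGet (l : List ℤ) (i : ℤ) : ℤ := l.getD (min i.toNat (l.length - 1)) 0

/-- flow on the edge from `(x, y)` to `(x + 1, y)` -/
def Flo.fh (F : Flo) (v : P2) : ℤ :=
  if 0 ≤ v.2 - F.y0 ∧ v.2 - F.y0 < F.hh then
    clampGet (F.h.getD (v.2 - F.y0).toNat []) (v.1 + 1 - F.x0) else 0

/-- flow on the edge from `(x, y)` to `(x, y + 1)` -/
def Flo.fg (F : Flo) (v : P2) : ℤ :=
  if 0 ≤ v.1 - F.x0 ∧ v.1 - F.x0 < F.w then
    clampGet (F.g.getD (v.1 - F.x0).toNat []) (v.2 + 1 - F.y0) else 0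

/-- divergence -/
def Flo.div (F : Flo) (v : P2) : ℤ :=
  F.fh v - F.fh (v.1 - 1, v.2) + F.fg v - F.fg (v.1, v.2 - 1)

/-- shape and size of the entries -/
def Flo.ok (F : Flo) : Bool :=
  decide (F.h.length = F.hh) && decide (F.g.length = F.w) &&
  F.h.all (fun r => decide (r.length = F.w + 1) && r.all (fun a => decide (-1 ≤ a) && decide (a ≤ 1))) &&
  F.g.all (fun r => decide (r.length = F.hh + 1) && r.all (fun a => decide (-1 ≤ a) && decide (a ≤ 1)))

/-- adjacency of positions, as a Boolean -/
def adjb (p q : P2) : Bool :=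
  (decide (p.1 = q.1) && (decide (p.2 = q.2 + 1) || decide (q.2 = p.2 + 1))) ||
  (decide (p.2 = q.2) && (decide (p.1 = q.1 + 1) || decide (q.1 = p.1 + 1)))

/-- upper bound for the losses at `v` -/
def lm (p : Pat) (v : P2) : ℕ :=
  ((((p.P.filter (fun a => adjb a.2 v)).map Prod.fst).dedup).filter
    (fun k => !decide ((k, v) ∈ p.N))).length

/-- is `v` coloured by the pattern -/
def inU (p : Pat) (v : P2) : Bool := p.P.any (fun a => decide (a.2 = v))

/-- the cells of the window of a flow -/
def Flo.cells (F : Flo) : List P2 :=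
  (List.range F.w).flatMap (fun (i : ℕ) => (List.range F.hh).map (fun (j : ℕ) => (F.x0 + (i : ℤ), F.y0 + (j : ℤ))))

/-- spot type: pattern (present = coloured) with the two flows -/
structure SType where
  p : Pat
  F1 : Flo
  F2 : Flo

/-- The check of a spot type. -/
def SType.ok (t : SType) : Bool :=
  t.p.ok && t.F1.ok && t.F2.ok &&
  decide (t.F1.x0 = t.F2.x0 ∧ t.F1.y0 = t.F2.y0 ∧ t.F1.w = t.F2.w ∧ t.F1.hh = t.F2.hh) &&
  -- positions distinct, coloured cells inside the window with margin one
  decide ((t.p.P.map Prod.snd).Nodup) &&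
  t.p.P.all (fun a => decide (t.F1.x0 < a.2.1) && decide (a.2.1 + 1 < t.F1.x0 + t.F1.w) &&
    decide (t.F1.y0 < a.2.2) && decide (a.2.2 + 1 < t.F1.y0 + t.F1.hh)) &&
  -- proper
  t.p.P.all (fun a => t.p.P.all (fun b => !(adjb a.2 b.2) || !decide (a.1 = b.1))) &&
  -- first flow: absorbs at most 2 lm outside U
  t.F1.cells.all (fun v => inU t.p v || decide (-(2 * (lm t.p v : ℤ)) ≤ t.F1.div v)) &&
  decide ((2 : ℤ) + 2 * ((t.F1.cells.filter (fun v => !inU t.p v)).map (fun v => (lm t.p v : ℤ))).sum ≤
    ((t.p.P.map Prod.snd).map (fun v => t.F1.div v)).sum) &&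
  -- second flow: emits at least 2 lm outside U
  t.F2.cells.all (fun v => inU t.p v || decide (2 * (lm t.p v : ℤ) ≤ t.F2.div v))

/-! ### Refutations -/

/-- a window of positions; the variable of `(k, x, y)` is `k + 4 * ((x - x0) + w * (y - y0))` -/
structure Win where
  x0 : ℤ
  y0 : ℤ
  w : ℕ
  hh : ℕ

/-- the window is inside the box of radius 30 and not empty -/
def Win.ok (W : Win) : Bool :=
  decide (-30 ≤ W.x0) && decide (-30 ≤ W.y0) && decide (W.x0 + W.w ≤ 30) &&
    decide (W.y0 + W.hh ≤ 30) && decide (0 < W.w)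

/-- is the literal inside the window -/
def Win.inside (W : Win) (t : Lt) : Bool :=
  decide (t.1 < 4) && decide (0 ≤ t.2.1 - W.x0) && decide (t.2.1 - W.x0 < W.w) &&
    decide (0 ≤ t.2.2 - W.y0) && decide (t.2.2 - W.y0 < W.hh)

/-- the index of a literal -/
def Win.ix (W : Win) (t : Lt) : ℕ :=
  t.1 + 4 * ((t.2.1 - W.x0).toNat + W.w * (t.2.2 - W.y0).toNat)

/-- the valuation -/
def Win.val (W : Win) (L : P2 → Finset ℕ) (f : ℕ → ℕ) (i : ℕ) : Prop :=
  f (i % 4) ∈ L (W.x0 + (((i / 4) % W.w : ℕ) : ℤ), W.y0 + (((i / 4) / W.w : ℕ) : ℤ))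

/-- mask of a list of literals; a literal outside the window gives `none` -/
def Win.mask (W : Win) : List Lt → Option ℕ
  | [] => some 0
  | t :: l => match W.mask l with
    | none => none
    | some a => if W.inside t then some (a ||| 2 ^ (W.ix t)) else none

/-- axioms -/
inductive Ax where
  | v (x y : ℤ) : Ax
  | d (k : ℕ) (x y : ℤ) (i : ℕ) : Ax
  | s (j : ℕ) (t : Tf) : Ax

/-- the pattern forbidden by an axiom -/
def Ax.pat (tbl : List Pat) (df : Bool) : Ax → Option Pat
  | .v x y => some ⟨[(0, x, y), (1, x, y), (2, x, y), (3, x, y)], []⟩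
  | .d k x y i =>
    if df then
      match i with
      | 0 => some ⟨[(k, x, y)], [(k, x + 1, y), (k, x, y + 1)]⟩
      | 1 => some ⟨[(k, x + 1, y)], [(k, x, y), (k, x + 1, y + 1)]⟩
      | 2 => some ⟨[(k, x + 1, y + 1)], [(k, x + 1, y), (k, x, y + 1)]⟩
      | 3 => some ⟨[(k, x, y + 1)], [(k, x, y), (k, x + 1, y + 1)]⟩
      | _ => none
    else none
  | .s j t => if t.ok then (tbl[j]?).map (fun p => p.map t) else none

/-- the clause `(positive mask, negative mask)` of an axiom -/
def Ax.cl (tbl : List Pat) (df : Bool) (W : Win) (a : Ax) : Option (ℕ × ℕ) :=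
  match a.pat tbl df with
  | none => none
  | some p => match W.mask p.N, W.mask p.P with
    | some a, some b => some (a, b)
    | _, _ => none

/-- a binary tree of clauses (Braun tree, index 0 at the root) -/
inductive Tr where
  | lf : Tr
  | nd (c : ℕ × ℕ) (l r : Tr) : Tr

/-- access, with the always true clause as default -/
def Tr.get : Tr → ℕ → ℕ × ℕ
  | .lf, _ => (1, 1)
  | .nd c l r, i => if i = 0 then c else if i % 2 = 1 then l.get (i / 2) else r.get (i / 2 - 1)

/-- write at an index (at most one past the end is used) -/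
def Tr.set : Tr → ℕ → ℕ × ℕ → Tr
  | .lf, _, c' => .nd c' .lf .lf
  | .nd c l r, i, c' =>
    if i = 0 then .nd c' l r else if i % 2 = 1 then .nd c (l.set (i / 2) c') r
      else .nd c l (r.set (i / 2 - 1) c')

/-- unit propagation along hints `(clause, literal)`; literal `2 i` makes variable `i` true,
`2 i + 1` makes it false. `true` means that a conflict was reached. -/
def runH (D : Tr) : List (ℕ × ℕ) → ℕ → ℕ → Bool
  | [], _, _ => false
  | (c, l) :: rest, T, F =>
    let q := D.get c
    let P' := q.1 ^^^ (q.1 &&& F)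
    let N' := q.2 ^^^ (q.2 &&& T)
    if P' = 0 ∧ N' = 0 then true
    else if l % 2 = 0 then
      (if N' = 0 ∧ P' = 2 ^ (l / 2) then runH D rest (T ||| P') F else false)
    else
      (if P' = 0 ∧ N' = 2 ^ (l / 2) then runH D rest T (F ||| N') else false)

/-- adding the axioms -/
def addAx (tbl : List Pat) (df : Bool) (W : Win) : List Ax → Tr → ℕ → Option (Tr × ℕ)
  | [], D, n => some (D, n)
  | a :: l, D, n => match a.cl tbl df W with
    | none => none
    | some c => addAx tbl df W l (D.set n c) (n + 1)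

/-- adding the derived clauses -/
def addSt : List (ℕ × ℕ × List (ℕ × ℕ)) → Tr → ℕ → Option (Tr × ℕ)
  | [], D, n => some (D, n)
  | (P, N, hs) :: l, D, n =>
    if runH D hs N P then addSt l (D.set n (P, N)) (n + 1) else none

/-- A lemma with its refutation. `kind = 0`: plain. `kind = y + 1`: the pattern uses only colour `0`,
contains `0` present at `(0, y)` and absent at `(1, y)`, and the refutation may use the names
`1, 2` for the other colours of `L (0, y)` and `3` for a colour of `L (1, y)` not in `L (0, y)`. -/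
structure Lem where
  pat : Pat
  kind : ℕ
  W : Win
  axs : List Ax
  steps : List (ℕ × ℕ × List (ℕ × ℕ))
  fin : List (ℕ × ℕ)

/-- the pattern that is refuted -/
def Lem.full (l : Lem) : Pat :=
  if l.kind = 0 then l.pat else
    ⟨(1, 0, (l.kind : ℤ) - 1) :: (2, 0, (l.kind : ℤ) - 1) :: (3, 1, (l.kind : ℤ) - 1) :: l.pat.P,
      (3, 0, (l.kind : ℤ) - 1) :: l.pat.N⟩

/-- the check of one lemma -/
def Lem.ok (tbl : List Pat) (df : Bool) (l : Lem) : Bool :=
  l.W.ok && l.pat.ok &&
  (decide (l.kind = 0) ||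
    (l.pat.P.all (fun a => decide (a.1 = 0)) && l.pat.N.all (fun a => decide (a.1 = 0)) &&
      decide ((0, 0, (l.kind : ℤ) - 1) ∈ l.pat.P) && decide ((0, 1, (l.kind : ℤ) - 1) ∈ l.pat.N))) &&
  match addAx tbl df l.W l.axs .lf 0 with
  | none => false
  | some (D, n) => match addSt l.steps D n with
    | none => false
    | some (D', _) => match l.W.mask l.full.P, l.W.mask l.full.N with
      | some T, some F => runH D' l.fin T F
      | _, _ => false

/-- check of a list of lemmas, each may use the earlier ones -/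
def checkAll (df : Bool) : List Pat → List Lem → Bool
  | _, [] => true
  | tbl, l :: rest => l.ok tbl df && checkAll df (tbl ++ [l.pat]) rest

end TorGrid
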