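import Pool.Agent.Lib.MP_caf32e_co.CertDefs

/-! Compact encoding of the certificate data. -/

namespace TorGrid

/-- the `n` lowest digits of `x` in base `b` -/
def unpack (b : ℕ) : ℕ → ℕ → List ℕ
  | 0, _ => []
  | n + 1, x => (x % b) :: unpack b n (x / b)

/-- the 24 permutations -/
def perms4 : List (List ℕ) :=
  [[0,1,2,3],[0,1,3,2],[0,2,1,3],[0,2,3,1],[0,3,1,2],[0,3,2,1],
   [1,0,2,3],[1,0,3,2],[1,2,0,3],[1,2,3,0],[1,3,0,2],[1,3,2,0],
   [2,0,1,3],[2,0,3,1],[2,1,0,3],[2,1,3,0],[2,3,0,1],[2,3,1,0],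
   [3,0,1,2],[3,0,2,1],[3,1,0,2],[3,1,2,0],[3,2,0,1],[3,2,1,0]]

/-- decoding of an axiom reference (32 bits) -/
def decAx (c : ℕ) : Ax :=
  if c % 4 = 0 then .v (((c / 4) % 64 : ℕ) - 32 : ℤ) (((c / 256) % 64 : ℕ) - 32 : ℤ)
  else if c % 4 = 1 then
    .d ((c / 4) % 4) (((c / 16) % 64 : ℕ) - 32 : ℤ) (((c / 1024) % 64 : ℕ) - 32 : ℤ)
      ((c / 65536) % 4)
  else
    .s (c / 4194304) ⟨(c / 4) % 8, (((c / 32) % 64 : ℕ) - 32 : ℤ), (((c / 2048) % 64 : ℕ) - 32 : ℤ),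
      perms4.getD ((c / 131072) % 32) [0,1,2,3]⟩

/-- decoding of a literal (16 bits): colour, x, y -/
def decLt (c : ℕ) : Lt := (c % 4, (((c / 4) % 64 : ℕ) - 32 : ℤ), (((c / 256) % 64 : ℕ) - 32 : ℤ))

/-- decoding of a pattern -/
def decPat (np p nn q : ℕ) : Pat :=
  ⟨(unpack 65536 np p).map decLt, (unpack 65536 nn q).map decLt⟩

/-- decoding of hints (20 bits each) -/
def decH (n x : ℕ) : List (ℕ × ℕ) := (unpack 1048576 n x).map (fun c => (c / 512, c % 512))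

/-- compact lemma -/
structure CLem where
  pat : ℕ × ℕ × ℕ × ℕ
  kind : ℕ
  w : ℕ
  na : ℕ
  a : ℕ
  st : List (ℕ × ℕ × ℕ × ℕ)
  nf : ℕ
  f : ℕ

/-- decoding; the window is packed as `x0 + 32, y0 + 32, w, h` in base 64 -/
def CLem.dec (l : CLem) : Lem where
  pat := decPat l.pat.1 l.pat.2.1 l.pat.2.2.1 l.pat.2.2.2
  kind := l.kind
  W := ⟨((l.w % 64 : ℕ) - 32 : ℤ), (((l.w / 64) % 64 : ℕ) - 32 : ℤ), (l.w / 4096) % 64,
    (l.w / 262144) % 64⟩
  axs := (unpack 4294967296 l.na l.a).map decAx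
  steps := l.st.map (fun s => (s.1, s.2.1, decH s.2.2.1 s.2.2.2))
  fin := decH l.nf l.f

/-- check of a chunk of lemmas against the fixed table; lemma number `b` is entry `b` of the table -/
def checkFrom (df : Bool) (tbl : List Pat) : ℕ → List CLem → Bool
  | _, [] => true
  | b, l :: rest => l.dec.ok (tbl.take b) df && decide (tbl[b]? = some l.dec.pat) &&
      checkFrom df tbl (b + 1) rest

end TorGrid
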