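import Pool.Agent.Lib.MP_caf32e_co.ClT

/-! Row S3. -/

namespace TorGrid

private theorem S3_xor (a b i : ℕ) :
    (a ^^^ (a &&& b)).testBit i = (a.testBit i && !b.testBit i) := by
  rw [Nat.testBit_xor, Nat.testBit_and]
  cases a.testBit i <;> cases b.testBit i <;> rfl

/-- S3. Soundness of the unit propagation. -/
theorem runH_sound (v : ℕ → Prop) (D : Tr) (hD : ∀ i, ClT v (D.get i)) (hs : List (ℕ × ℕ))
    (T F : ℕ) (hT : ∀ i, T.testBit i = true → v i) (hF : ∀ i, F.testBit i = true → ¬ v i) :
    runH D hs T F = false := by
  induction hs generalizing T F with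
  | nil => rfl
  | cons a rest ih =>
    obtain ⟨c, l⟩ := a
    have hq := hD c
    have key : ∃ i, (((D.get c).1 ^^^ ((D.get c).1 &&& F)).testBit i = true ∧ v i) ∨
        (((D.get c).2 ^^^ ((D.get c).2 &&& T)).testBit i = true ∧ ¬ v i) := by
      obtain ⟨i, hi | hi⟩ := hq
      · refine ⟨i, Or.inl ⟨?_, hi.2⟩⟩
        rw [S3_xor, hi.1]
        have : F.testBit i = false := by
          by_contra h
          exact hF i (by simpa using h) hi.2
        rw [this]; rfl
      · refine ⟨i, Or.inr ⟨?_, hi.2⟩⟩
        rw [S3_xor, hi.1]
        have : T.testBit i = false := by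
          by_contra h
          exact hi.2 (hT i (by simpa using h))
        rw [this]; rfl
    simp only [runH]
    generalize (D.get c).1 ^^^ ((D.get c).1 &&& F) = P' at key ⊢
    generalize (D.get c).2 ^^^ ((D.get c).2 &&& T) = N' at key ⊢
    split_ifs with h1 h2 h3 h4
    · exfalso
      obtain ⟨i, hi | hi⟩ := key
      · rw [h1.1, Nat.zero_testBit] at hi
        exact absurd hi.1 (by simp)
      · rw [h1.2, Nat.zero_testBit] at hi
        exact absurd hi.1 (by simp)
    · have hv : v (l / 2) := by
        obtain ⟨i, hi | hi⟩ := key
        · rw [h3.2, Nat.testBit_two_pow] at hi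
          have : l / 2 = i := by simpa using hi.1
          rw [this]
          exact hi.2
        · rw [h3.1, Nat.zero_testBit] at hi
          exact absurd hi.1 (by simp)
      refine ih _ _ ?_ hF
      intro i hi
      rw [Nat.testBit_or, h3.2, Nat.testBit_two_pow] at hi
      simp only [Bool.or_eq_true, decide_eq_true_eq] at hi
      rcases hi with hi | hi
      · exact hT i hi
      · rw [← hi]; exact hv
    · rfl
    · have hv : ¬ v (l / 2) := by
        obtain ⟨i, hi | hi⟩ := key
        · rw [h4.1, Nat.zero_testBit] at hi
          exact absurd hi.1 (by simp)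
        · rw [h4.2, Nat.testBit_two_pow] at hi
          have : l / 2 = i := by simpa using hi.1
          rw [this]
          exact hi.2
      refine ih _ _ hT ?_
      intro i hi
      rw [Nat.testBit_or, h4.2, Nat.testBit_two_pow] at hi
      simp only [Bool.or_eq_true, decide_eq_true_eq] at hi
      rcases hi with hi | hi
      · exact hF i hi
      · rw [← hi]; exact hv
    · rfl

private theorem S3_one (v : ℕ → Prop) : ClT v (1, 1) := by
  refine ⟨0, ?_⟩
  by_cases h : v 0
  · exact Or.inl ⟨by decide, h⟩
  · exact Or.inr ⟨by decide, h⟩

/-- S3b. All clauses of the tree stay true when a true clause is written. -/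
theorem set_sound (v : ℕ → Prop) (D : Tr) (hD : ∀ i, ClT v (D.get i)) (n : ℕ) (c : ℕ × ℕ)
    (hc : ClT v c) : ∀ i, ClT v ((D.set n c).get i) := by
  induction D generalizing n with
  | lf =>
    intro i
    simp only [Tr.set, Tr.get]
    split_ifs
    · exact hc
    · exact S3_one v
    · exact S3_one v
  | nd c0 l r ihl ihr =>
    have h0 : ClT v c0 := by simpa [Tr.get] using hD 0
    have hl : ∀ j, ClT v (l.get j) := by
      intro j
      have := hD (2 * j + 1)
      simp only [Tr.get] at this
      rw [if_neg (by omega), if_pos (by omega)] at this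
      have h2 : (2 * j + 1) / 2 = j := by omega
      rwa [h2] at this
    have hr : ∀ j, ClT v (r.get j) := by
      intro j
      have := hD (2 * j + 2)
      simp only [Tr.get] at this
      rw [if_neg (by omega), if_neg (by omega)] at this
      have h2 : (2 * j + 2) / 2 - 1 = j := by omega
      rwa [h2] at this
    intro i
    simp only [Tr.set]
    split_ifs with h1 h2
    · simp only [Tr.get]
      split_ifs
      · exact hc
      · exact hl _
      · exact hr _
    · simp only [Tr.get]
      split_ifs
      · exact h0
      · exact ihl hl _ _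
      · exact hr _
    · simp only [Tr.get]
      split_ifs
      · exact h0
      · exact hl _
      · exact ihr hr _ _

end TorGrid
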