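import Pool.Agent.Lib.MP_caf32e_co.ClT

/-! Row S4: an axiom whose pattern does not occur gives a true clause. -/

namespace TorGrid

theorem S4_ix_val (W : Win) (L : P2 → Finset ℕ) (f : ℕ → ℕ) (t : Lt) (ht : W.inside t = true) :
    W.val L f (W.ix t) ↔ f t.1 ∈ L t.2 := by
  obtain ⟨k, x, y⟩ := t
  simp only [Win.inside, Bool.and_eq_true, decide_eq_true_eq] at ht
  obtain ⟨⟨⟨⟨h1, h2⟩, h3⟩, h4⟩, h5⟩ := ht
  obtain ⟨a, ha⟩ : ∃ a : ℕ, x - W.x0 = a := ⟨(x - W.x0).toNat, by omega⟩
  obtain ⟨b, hb⟩ : ∃ b : ℕ, y - W.y0 = b := ⟨(y - W.y0).toNat, by omega⟩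
  have haw : a < W.w := by omega
  have hw : 0 < W.w := by omega
  have e1 : W.ix (k, x, y) = k + 4 * (a + W.w * b) := by
    simp only [Win.ix, ha, hb, Int.toNat_natCast]
  have e2 : (k + 4 * (a + W.w * b)) % 4 = k := by omega
  have e3 : (k + 4 * (a + W.w * b)) / 4 = a + W.w * b := by omega
  have e4 : (a + W.w * b) % W.w = a := by
    rw [Nat.add_mul_mod_self_left, Nat.mod_eq_of_lt haw]
  have e5 : (a + W.w * b) / W.w = b := by
    rw [Nat.add_mul_div_left _ _ hw, Nat.div_eq_of_lt haw, Nat.zero_add]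
  have e6 : W.x0 + ((a : ℕ) : ℤ) = x := by omega
  have e7 : W.y0 + ((b : ℕ) : ℤ) = y := by omega
  unfold Win.val
  rw [e1, e2, e3, e4, e5, e6, e7]

theorem S4_mask (W : Win) : ∀ (l : List Lt) (a : ℕ), W.mask l = some a →
    ∀ t ∈ l, W.inside t = true ∧ a.testBit (W.ix t) = true := by
  intro l
  induction l with
  | nil =>
    intro a _ t ht
    simp at ht
  | cons s l ih =>
    intro a h t ht
    cases hm : W.mask l with
    | none => simp [Win.mask, hm] at h
    | some b =>
      simp only [Win.mask, hm] at h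
      by_cases hs : W.inside s = true
      · rw [if_pos hs, Option.some.injEq] at h
        subst h
        rcases List.mem_cons.1 ht with rfl | ht
        · exact ⟨hs, by simp⟩
        · obtain ⟨h1, h2⟩ := ih b hm t ht
          exact ⟨h1, by simp [h2]⟩
      · rw [if_neg hs] at h
        exact absurd h (by simp)

/-- S4. An axiom whose pattern does not occur gives a true clause. -/
theorem ax_sound (tbl : List Pat) (df : Bool) (W : Win) (a : Ax) (p : Pat) (c : ℕ × ℕ)
    (hp : a.pat tbl df = some p) (hc : a.cl tbl df W = some c) (L : P2 → Finset ℕ) (f : ℕ → ℕ)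
    (h : ¬ Occ L f p) : ClT (W.val L f) c := by
  unfold Ax.cl at hc
  rw [hp] at hc
  cases hN : W.mask p.N with
  | none => simp [hN] at hc
  | some u =>
    cases hP : W.mask p.P with
    | none => simp [hN, hP] at hc
    | some w =>
      simp only [hN, hP, Option.some.injEq] at hc
      subst hc
      unfold Occ at h
      by_cases h1 : ∀ t ∈ p.P, f t.1 ∈ L t.2
      · have h2 : ¬ ∀ t ∈ p.N, f t.1 ∉ L t.2 := fun h2 => h ⟨h1, h2⟩
        push Not at h2
        obtain ⟨t, ht, hf⟩ := h2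
        obtain ⟨hi, hb⟩ := S4_mask W _ _ hN t ht
        exact ⟨W.ix t, Or.inl ⟨hb, (S4_ix_val W L f t hi).2 hf⟩⟩
      · push Not at h1
        obtain ⟨t, ht, hf⟩ := h1
        obtain ⟨hi, hb⟩ := S4_mask W _ _ hP t ht
        exact ⟨W.ix t, Or.inr ⟨hb, fun hv => hf ((S4_ix_val W L f t hi).1 hv)⟩⟩

end TorGrid
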