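import Pool.Agent.Lib.MP_caf32e_co.S2
import Pool.Agent.Lib.MP_caf32e_co.S3
import Pool.Agent.Lib.MP_caf32e_co.S4

/-! Row S5: soundness of one lemma of the certificate. -/

namespace TorGrid

/-- the valuation at the index of a literal inside the window -/
theorem S5_ix_val (W : Win) (L : P2 → Finset ℕ) (f : ℕ → ℕ) (t : Lt) (ht : W.inside t = true) :
    W.val L f (W.ix t) ↔ f t.1 ∈ L t.2 := by
  obtain ⟨k, x, y⟩ := t
  simp only [Win.inside, Bool.and_eq_true, decide_eq_true_eq] at ht
  obtain ⟨⟨⟨⟨h1, h2⟩, h3⟩, h4⟩, h5⟩ := ht
  obtain ⟨a, ha⟩ : ∃ a : ℕ, x - W.x0 = a := ⟨(x - W.x0).toNat, by omega⟩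
  obtain ⟨b, hb⟩ : ∃ b : ℕ, y - W.y0 = b := ⟨(y - W.y0).toNat, by omega⟩
  have haw : a < W.w := by omega
  have hw : 0 < W.w := by omega
  have e1 : W.ix (k, x, y) = k + 4 * (a + W.w * b) := by
    simp only [Win.ix, ha, hb, Int.toNat_natCast]
  have e2 : (k + 4 * (a + W.w * b)) % 4 = k := by omega
  have e3 : (k + 4 * (a + W.w * b)) / 4 = a + W.w * b := by omega
  have e4 : (a + W.w * b) % W.w = a := by
    rw [Nat.add_mul_mod_self_left, Nat.mod_eq_of_lt haw]
  have e5 : (a + W.w * b) / W.w = b := by
    rw [Nat.add_mul_div_left _ _ hw, Nat.div_eq_of_lt haw, zero_add]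
  unfold Win.val
  rw [e1, e2, e3, e4, e5]
  have e6 : W.x0 + ((a : ℕ) : ℤ) = x := by omega
  have e7 : W.y0 + ((b : ℕ) : ℤ) = y := by omega
  rw [e6, e7]

theorem S5_mask (W : Win) : ∀ (l : List Lt) (a : ℕ), W.mask l = some a →
    (∀ t ∈ l, W.inside t = true) ∧ ∀ i, a.testBit i = true → ∃ t ∈ l, W.ix t = i := by
  intro l
  induction l with
  | nil =>
    intro a h
    simp only [Win.mask, Option.some.injEq] at h
    subst h
    refine ⟨by simp, ?_⟩
    intro i hi
    simp at hi
  | cons t l ih =>
    intro a h
    simp only [Win.mask] at h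
    cases hm : W.mask l with
    | none => simp [hm] at h
    | some b =>
      simp only [hm] at h
      by_cases hin : W.inside t = true
      · rw [if_pos hin, Option.some.injEq] at h
        obtain ⟨h1, h2⟩ := ih b hm
        refine ⟨?_, ?_⟩
        · intro u hu
          rcases List.mem_cons.1 hu with rfl | hu
          · exact hin
          · exact h1 u hu
        · intro i hi
          rw [← h, Nat.testBit_or, Bool.or_eq_true] at hi
          rcases hi with hi | hi
          · obtain ⟨u, hu, hui⟩ := h2 i hi
            exact ⟨u, List.mem_cons_of_mem _ hu, hui⟩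
          · rw [Nat.testBit_two_pow] at hi
            exact ⟨t, List.mem_cons_self, by simpa using hi⟩
      · rw [if_neg hin] at h
        exact absurd h (by simp)

/-- an axiom of a checked lemma does not occur -/
theorem S5_ax (tbl : List Pat) (df : Bool) (r : ℕ) (hr : 60 ≤ r)
    (htbl : ∀ p ∈ tbl, p.ok = true ∧ Imp df r p) (W : Win) (hW : W.ok = true)
    (L : P2 → Finset ℕ) (hL : ∀ v, (L v).card = 3) (hNo : NoSp L (0, 0) ((r + 40 : ℕ) : ℤ))
    (hDF : df = true → DFb L (0, 0) ((r + 40 : ℕ) : ℤ)) (f : ℕ → ℕ)
    (hf : ∀ i < 4, ∀ j < 4, f i = f j → i = j) (a : Ax) (c : ℕ × ℕ)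
    (hc : a.cl tbl df W = some c) : ClT (W.val L f) c := by
  cases hp : a.pat tbl df with
  | none =>
    unfold Ax.cl at hc
    rw [hp] at hc
    exact absurd hc (by simp)
  | some p =>
    refine ax_sound tbl df W a p c hp hc L f ?_
    -- masks
    have hmask : (∀ t ∈ p.P, W.inside t = true) ∧ (∀ t ∈ p.N, W.inside t = true) := by
      unfold Ax.cl at hc
      simp only [hp] at hc
      cases hN : W.mask p.N with
      | none => simp [hN] at hc
      | some b =>
        cases hP : W.mask p.P with
        | none => simp [hN, hP] at hc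
        | some d => exact ⟨(S5_mask W _ _ hP).1, (S5_mask W _ _ hN).1⟩
    simp only [Win.ok, Bool.and_eq_true, decide_eq_true_eq] at hW
    obtain ⟨⟨⟨⟨w1, w2⟩, w3⟩, w4⟩, w5⟩ := hW
    have hbd : ∀ k x y, W.inside (k, x, y) = true → -30 ≤ x ∧ x ≤ 30 ∧ -30 ≤ y ∧ y ≤ 30 := by
      intro k x y h
      simp only [Win.inside, Bool.and_eq_true, decide_eq_true_eq] at h
      omega
    rintro ⟨hoP, hoN⟩
    cases a with
    | v x y =>
      simp only [Ax.pat, Option.some.injEq] at hp
      subst hp
      have m0 := hoP (0, x, y) (by simp)
      have m1 := hoP (1, x, y) (by simp)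
      have m2 := hoP (2, x, y) (by simp)
      have m3 := hoP (3, x, y) (by simp)
      simp only at m0 m1 m2 m3
      have hsub : (Finset.range 4).image f ⊆ L (x, y) := by
        intro z hz
        obtain ⟨i, hi, rfl⟩ := Finset.mem_image.1 hz
        rw [Finset.mem_range] at hi
        interval_cases i
        · exact m0
        · exact m1
        · exact m2
        · exact m3
      have hcard : ((Finset.range 4).image f).card = 4 := by
        rw [Finset.card_image_of_injOn, Finset.card_range]
        intro i hi j hj hij
        simp only [Finset.coe_range, Set.mem_Iio] at hi hj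
        exact hf i hi j hj hij
      have := Finset.card_le_card hsub
      rw [hcard, hL] at this
      omega
    | d k x y i =>
      cases df with
      | false => simp [Ax.pat] at hp
      | true =>
        have hface : InB (0, 0) ((r + 40 : ℕ) : ℤ) (x, y) → DFf L x y := hDF rfl x y
        have hin : -30 ≤ x → x ≤ 30 → -30 ≤ y → y ≤ 30 → DFf L x y := by
          intro h1 h2 h3 h4
          apply hface
          simp only [InB]
          constructor
          · rw [abs_le]; push_cast; constructor <;> linarith
          · rw [abs_le]; push_cast; constructor <;> linarith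
        match i, hp with
        | 0, hp =>
          simp only [Ax.pat, Option.some.injEq, if_true] at hp
          subst hp
          obtain ⟨b1, b2, b3, b4⟩ := hbd _ _ _ (hmask.1 (k, x, y) (by simp))
          have hd := hin b1 b2 b3 b4
          have m0 := hoP (k, x, y) (by simp)
          have m1 := hoN (k, x + 1, y) (by simp)
          have m2 := hoN (k, x, y + 1) (by simp)
          simp only at m0 m1 m2
          have : f k ∈ L (x, y) ∪ L (x + 1, y + 1) := Finset.mem_union_left _ m0
          rw [hd] at this
          rcases Finset.mem_union.1 this with h | h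
          · exact m1 h
          · exact m2 h
        | 1, hp =>
          simp only [Ax.pat, Option.some.injEq, if_true] at hp
          subst hp
          obtain ⟨b1, b2, b3, b4⟩ := hbd _ _ _ (hmask.2 (k, x, y) (by simp))
          have hd := hin b1 b2 b3 b4
          have m0 := hoP (k, x + 1, y) (by simp)
          have m1 := hoN (k, x, y) (by simp)
          have m2 := hoN (k, x + 1, y + 1) (by simp)
          simp only at m0 m1 m2
          have : f k ∈ L (x + 1, y) ∪ L (x, y + 1) := Finset.mem_union_left _ m0
          rw [← hd] at this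
          rcases Finset.mem_union.1 this with h | h
          · exact m1 h
          · exact m2 h
        | 2, hp =>
          simp only [Ax.pat, Option.some.injEq, if_true] at hp
          subst hp
          have b := hbd _ _ _ (hmask.2 (k, x + 1, y) (by simp))
          have b' := hbd _ _ _ (hmask.2 (k, x, y + 1) (by simp))
          have hd := hin b'.1 b'.2.1 b.2.2.1 b.2.2.2
          have m0 := hoP (k, x + 1, y + 1) (by simp)
          have m1 := hoN (k, x + 1, y) (by simp)
          have m2 := hoN (k, x, y + 1) (by simp)
          simp only at m0 m1 m2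
          have : f k ∈ L (x, y) ∪ L (x + 1, y + 1) := Finset.mem_union_right _ m0
          rw [hd] at this
          rcases Finset.mem_union.1 this with h | h
          · exact m1 h
          · exact m2 h
        | 3, hp =>
          simp only [Ax.pat, Option.some.injEq, if_true] at hp
          subst hp
          obtain ⟨b1, b2, b3, b4⟩ := hbd _ _ _ (hmask.2 (k, x, y) (by simp))
          have hd := hin b1 b2 b3 b4
          have m0 := hoP (k, x, y + 1) (by simp)
          have m1 := hoN (k, x, y) (by simp)
          have m2 := hoN (k, x + 1, y + 1) (by simp)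
          simp only at m0 m1 m2
          have : f k ∈ L (x + 1, y) ∪ L (x, y + 1) := Finset.mem_union_right _ m0
          rw [← hd] at this
          rcases Finset.mem_union.1 this with h | h
          · exact m1 h
          · exact m2 h
        | (j + 4), hp =>
          simp [Ax.pat] at hp
    | s j t =>
      simp only [Ax.pat] at hp
      by_cases ht : t.ok = true
      · rw [if_pos ht] at hp
        cases hj : tbl[j]? with
        | none => simp [hj] at hp
        | some q =>
          simp only [hj, Option.map_some, Option.some.injEq] at hp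
          have hq : q ∈ tbl := List.mem_of_getElem? hj
          obtain ⟨h1, h2⟩ := htbl q hq
          have h3 := imp_map df r q h1 h2 t ht
          rw [hp] at h3
          exact h3 L hL hNo hDF f hf ⟨hoP, hoN⟩
      · rw [if_neg ht] at hp
        exact absurd hp (by simp)

/-- all clauses stay true when the axioms are added -/
theorem S5_addAx (tbl : List Pat) (df : Bool) (W : Win) (v : ℕ → Prop)
    (H : ∀ (a : Ax) (c : ℕ × ℕ), a.cl tbl df W = some c → ClT v c) :
    ∀ (l : List Ax) (D : Tr) (n : ℕ) (D' : Tr) (n' : ℕ), (∀ i, ClT v (D.get i)) →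
      addAx tbl df W l D n = some (D', n') → ∀ i, ClT v (D'.get i) := by
  intro l
  induction l with
  | nil =>
    intro D n D' n' hD h
    simp only [addAx, Option.some.injEq, Prod.mk.injEq] at h
    obtain ⟨rfl, _⟩ := h
    exact hD
  | cons a l ih =>
    intro D n D' n' hD h
    simp only [addAx] at h
    cases hc : a.cl tbl df W with
    | none => simp [hc] at h
    | some c =>
      simp only [hc] at h
      exact ih _ _ _ _ (set_sound v D hD n c (H a c hc)) h

/-- all clauses stay true when the derived clauses are added -/
theorem S5_addSt (v : ℕ → Prop) :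
    ∀ (l : List (ℕ × ℕ × List (ℕ × ℕ))) (D : Tr) (n : ℕ) (D' : Tr) (n' : ℕ),
      (∀ i, ClT v (D.get i)) → addSt l D n = some (D', n') → ∀ i, ClT v (D'.get i) := by
  intro l
  induction l with
  | nil =>
    intro D n D' n' hD h
    simp only [addSt, Option.some.injEq, Prod.mk.injEq] at h
    obtain ⟨rfl, _⟩ := h
    exact hD
  | cons a l ih =>
    intro D n D' n' hD h
    obtain ⟨P, N, hs⟩ := a
    simp only [addSt] at h
    by_cases hr : runH D hs N P = true
    · rw [if_pos hr] at h
      refine ih _ _ _ _ (set_sound v D hD n (P, N) ?_) h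
      by_contra hcl
      have hcl' : ∀ i, ¬ ((P.testBit i = true ∧ v i) ∨ (N.testBit i = true ∧ ¬ v i)) := by
        intro i hi
        exact hcl ⟨i, hi⟩
      have := runH_sound v D hD hs N P
        (fun i hi => by
          by_contra hv
          exact hcl' i (Or.inr ⟨hi, hv⟩))
        (fun i hi hv => hcl' i (Or.inl ⟨hi, hv⟩))
      rw [this] at hr
      exact absurd hr (by simp)
    · rw [if_neg hr] at h
      exact absurd h (by simp)

/-- the main step: the full pattern does not occur -/
theorem S5_core (tbl : List Pat) (df : Bool) (r : ℕ) (hr : 60 ≤ r)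
    (htbl : ∀ p ∈ tbl, p.ok = true ∧ Imp df r p)
    (l : Lem) (h : l.ok tbl df = true)
    (L : P2 → Finset ℕ) (hL : ∀ v, (L v).card = 3) (hNo : NoSp L (0, 0) ((r + 40 : ℕ) : ℤ))
    (hDF : df = true → DFb L (0, 0) ((r + 40 : ℕ) : ℤ)) (f : ℕ → ℕ)
    (hf : ∀ i < 4, ∀ j < 4, f i = f j → i = j) (hocc : Occ L f l.full) : False := by
  unfold Lem.ok at h
  rw [Bool.and_eq_true, Bool.and_eq_true, Bool.and_eq_true] at h
  obtain ⟨⟨⟨hW, _⟩, _⟩, h⟩ := h
  have H : ∀ (a : Ax) (c : ℕ × ℕ), a.cl tbl df l.W = some c → ClT (l.W.val L f) c :=
    fun a c hc => S5_ax tbl df r hr htbl l.W hW L hL hNo hDF f hf a c hc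
  have h0 : ∀ i, ClT (l.W.val L f) (Tr.lf.get i) := by
    intro i
    refine ⟨0, ?_⟩
    simp only [Tr.get]
    by_cases hv : l.W.val L f 0
    · exact Or.inl ⟨by decide, hv⟩
    · exact Or.inr ⟨by decide, hv⟩
  cases h1 : addAx tbl df l.W l.axs .lf 0 with
  | none => simp [h1] at h
  | some q =>
    obtain ⟨D, n⟩ := q
    simp only [h1] at h
    have hD := S5_addAx tbl df l.W _ H l.axs .lf 0 D n h0 h1
    cases h2 : addSt l.steps D n with
    | none => simp [h2] at h
    | some q =>
      obtain ⟨D', n'⟩ := q
      simp only [h2] at h
      have hD' := S5_addSt _ l.steps D n D' n' hD h2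
      cases h3 : l.W.mask l.full.P with
      | none => simp [h3] at h
      | some T =>
        cases h4 : l.W.mask l.full.N with
        | none => simp [h3, h4] at h
        | some F =>
          simp only [h3, h4] at h
          obtain ⟨i3, m3⟩ := S5_mask l.W _ _ h3
          obtain ⟨i4, m4⟩ := S5_mask l.W _ _ h4
          have := runH_sound (l.W.val L f) D' hD' l.fin T F
            (fun i hi => by
              obtain ⟨t, ht, hti⟩ := m3 i hi
              rw [← hti, S5_ix_val l.W L f t (i3 t ht)]
              exact hocc.1 t ht)
            (fun i hi => by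
              obtain ⟨t, ht, hti⟩ := m4 i hi
              rw [← hti, S5_ix_val l.W L f t (i4 t ht)]
              exact hocc.2 t ht)
          rw [this] at h
          exact absurd h (by simp)

/-- S5. Soundness of one lemma. -/
theorem lem_sound (tbl : List Pat) (df : Bool) (r : ℕ) (hr : 60 ≤ r)
    (htbl : ∀ p ∈ tbl, p.ok = true ∧ Imp df r p)
    (l : Lem) (h : l.ok tbl df = true) : Imp df (r + 40) l.pat := by
  intro L hL hNo hDF f hf hocc
  by_cases hk : l.kind = 0
  · refine S5_core tbl df r hr htbl l h L hL hNo hDF f hf ?_
    unfold Lem.full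
    rw [if_pos hk]
    exact hocc
  · have h' := h
    unfold Lem.ok at h'
    rw [Bool.and_eq_true, Bool.and_eq_true, Bool.and_eq_true] at h'
    obtain ⟨⟨⟨_, _⟩, hkk⟩, _⟩ := h'
    rw [Bool.or_eq_true, decide_eq_true_eq] at hkk
    rcases hkk with hkk | hkk
    · exact absurd hkk hk
    · rw [Bool.and_eq_true, Bool.and_eq_true, Bool.and_eq_true, List.all_eq_true,
        List.all_eq_true, decide_eq_true_eq, decide_eq_true_eq] at hkk
      obtain ⟨⟨⟨c1, c2⟩, c3⟩, c4⟩ := hkk
      set y : ℤ := (l.kind : ℤ) - 1 with hy
      have m0 : f 0 ∈ L (0, y) := hocc.1 _ c3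
      have m1 : f 0 ∉ L (1, y) := hocc.2 _ c4
      -- the other two colours
      have hc2 : ((L (0, y)).erase (f 0)).card = 2 := by
        rw [Finset.card_erase_of_mem m0, hL]
      obtain ⟨a, b, hab, hset⟩ := Finset.card_eq_two.1 hc2
      have ha : a ∈ (L (0, y)).erase (f 0) := by rw [hset]; simp
      have hb : b ∈ (L (0, y)).erase (f 0) := by rw [hset]; simp
      rw [Finset.mem_erase] at ha hb
      have hns : ¬ L (1, y) ⊆ L (0, y) := by
        intro hs
        have := Finset.eq_of_subset_of_card_le hs (by rw [hL, hL])
        rw [this] at m1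
        exact m1 m0
      obtain ⟨d, hd1, hd0⟩ := Finset.not_subset.1 hns
      have hd_f : d ≠ f 0 := by rintro rfl; exact hd0 m0
      have hd_a : d ≠ a := by rintro rfl; exact hd0 ha.2
      have hd_b : d ≠ b := by rintro rfl; exact hd0 hb.2
      set g : ℕ → ℕ := fun i => match i with
        | 0 => f 0
        | 1 => a
        | 2 => b
        | _ => d with hg
      have g0 : g 0 = f 0 := rfl
      have g1 : g 1 = a := rfl
      have g2 : g 2 = b := rfl
      have g3 : g 3 = d := rfl
      have hginj : ∀ i < 4, ∀ j < 4, g i = g j → i = j := by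
        intro i hi j hj hij
        interval_cases i <;> interval_cases j <;> simp only [g0, g1, g2, g3] at hij <;>
          first
          | rfl
          | exact absurd hij (Ne.symm ha.1)
          | exact absurd hij (Ne.symm hb.1)
          | exact absurd hij (Ne.symm hd_f)
          | exact absurd hij ha.1
          | exact absurd hij hab
          | exact absurd hij (Ne.symm hd_a)
          | exact absurd hij hb.1
          | exact absurd hij hab.symm
          | exact absurd hij (Ne.symm hd_b)
          | exact absurd hij hd_f
          | exact absurd hij hd_a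
          | exact absurd hij hd_b
      refine S5_core tbl df r hr htbl l h L hL hNo hDF g hginj ?_
      unfold Lem.full
      rw [if_neg hk]
      constructor
      · intro t ht
        simp only [List.mem_cons] at ht
        rcases ht with rfl | rfl | rfl | ht
        · exact ha.2
        · exact hb.2
        · exact hd1
        · have h0 : t.1 = 0 := by simpa using c1 t ht
          have := hocc.1 t ht
          rw [h0] at this ⊢
          exact this
      · intro t ht
        simp only [List.mem_cons] at ht
        rcases ht with rfl | ht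
        · exact hd0
        · have h0 : t.1 = 0 := by simpa using c2 t ht
          have := hocc.2 t ht
          rw [h0] at this ⊢
          exact this

end TorGrid
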