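import Pool.Agent.Lib.MP_caf32e_co.CertST
import Pool.Agent.Lib.MP_caf32e_co.CertSnd

/-! From the checked data to the certificate theorems: generic part. -/

namespace TorGrid

theorem checkST_sound (tbl : List Pat) (df : Bool) : ∀ (l : List CST) (b : ℕ),
    checkST tbl b l = true → (∀ p ∈ tbl.take b, p.ok = true ∧ Imp df 60 p) →
    ∀ p ∈ tbl.take (b + l.length), p.ok = true ∧ Imp df 60 p := by
  intro l
  induction l with
  | nil => intro b _ h; simpa using h
  | cons c rest ih =>
    intro b h h0
    simp only [checkST, Bool.and_eq_true, decide_eq_true_eq] at h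
    obtain ⟨⟨h1, h2⟩, h3⟩ := h
    have h4 : ∀ p ∈ tbl.take (b + 1), p.ok = true ∧ Imp df 60 p := by
      intro p hp
      rw [List.take_add_one, List.mem_append] at hp
      rcases hp with hp | hp
      · exact h0 p hp
      · rw [h2] at hp
        simp only [Option.toList_some, List.mem_singleton] at hp
        subst hp
        refine ⟨?_, stype_sound _ h1 df⟩
        have := h1
        unfold SType.ok at this
        simp only [Bool.and_eq_true] at this
        tauto
    have h5 := ih (b + 1) h3 h4
    have : b + (c :: rest).length = b + 1 + rest.length := by simp; ring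
    rw [this]
    exact h5

theorem lem_ok_pat (tbl : List Pat) (df : Bool) (l : Lem) (h : l.ok tbl df = true) :
    l.pat.ok = true := by
  unfold Lem.ok at h
  simp only [Bool.and_eq_true] at h
  tauto

theorem checkFrom_sound (tbl : List Pat) (df : Bool) : ∀ (l : List CLem) (b r : ℕ), 60 ≤ r →
    checkFrom df tbl b l = true → (∀ p ∈ tbl.take b, p.ok = true ∧ Imp df r p) →
    ∀ p ∈ tbl.take (b + l.length), p.ok = true ∧ Imp df (r + 40 * l.length) p := by
  intro l
  induction l with
  | nil => intro b r _ _ h; simpa using h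
  | cons c rest ih =>
    intro b r hr h h0
    simp only [checkFrom, Bool.and_eq_true, decide_eq_true_eq] at h
    obtain ⟨⟨h1, h2⟩, h3⟩ := h
    have h4 : ∀ p ∈ tbl.take (b + 1), p.ok = true ∧ Imp df (r + 40) p := by
      intro p hp
      rw [List.take_add_one, List.mem_append] at hp
      rcases hp with hp | hp
      · exact ⟨(h0 p hp).1, imp_mono df r (r + 40) (by omega) p (h0 p hp).2⟩
      · rw [h2] at hp
        simp only [Option.toList_some, List.mem_singleton] at hp
        subst hp
        exact ⟨lem_ok_pat _ _ _ h1, lem_sound _ df r hr h0 _ h1⟩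
    have h5 := ih (b + 1) (r + 40) (by omega) h3 h4
    have e1 : b + (c :: rest).length = b + 1 + rest.length := by simp; ring
    have e2 : r + 40 * (c :: rest).length = r + 40 + 40 * rest.length := by simp; ring
    rw [e1, e2]
    exact h5

/-- the one-colour edge pattern gives equality of the lists -/
theorem edge_eq (r : ℕ) (h : Imp true r ⟨[(0, 0, 0)], [(0, 1, 0)]⟩) (L : P2 → Finset ℕ)
    (hL : ∀ v, (L v).card = 3) (h1 : NoSp L (0, 0) r) (h2 : DFb L (0, 0) r) :
    L (0, 0) = L (1, 0) := by
  apply Finset.eq_of_subset_of_card_le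
  · intro a ha
    by_contra hb
    refine h L hL h1 (fun _ => h2) (fun i => a + i) (fun i _ j _ e => by simpa using e) ?_
    refine ⟨?_, ?_⟩
    · intro t ht
      simp only [List.mem_singleton] at ht
      subst ht
      simpa using ha
    · intro t ht
      simp only [List.mem_singleton] at ht
      subst ht
      simpa using hb
  · rw [hL, hL]

/-- four names for a list of size three and a further colour -/
theorem four_names (A B : Finset ℕ) (hA : A.card = 3) (hB : B.card = 3) (hne : B ≠ A) :
    ∃ f : ℕ → ℕ, (∀ i < 4, ∀ j < 4, f i = f j → i = j) ∧ f 0 ∈ A ∧ f 1 ∈ A ∧ f 2 ∈ A ∧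
      f 3 ∉ A ∧ f 2 ∉ B ∧ f 3 ∈ B := by
  have h1 : ¬ A ⊆ B := fun h => hne (Finset.eq_of_subset_of_card_le h (by omega)).symm
  have h2 : ¬ B ⊆ A := fun h => hne (Finset.eq_of_subset_of_card_le h (by omega))
  obtain ⟨c, hcA, hcB⟩ := Finset.not_subset.mp h1
  obtain ⟨d, hdB, hdA⟩ := Finset.not_subset.mp h2
  have h3 : (A.erase c).card = 2 := by rw [Finset.card_erase_of_mem hcA, hA]
  obtain ⟨a, b, hab, he⟩ := Finset.card_eq_two.mp h3
  have ha : a ∈ A.erase c := by rw [he]; simp
  have hb : b ∈ A.erase c := by rw [he]; simp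
  rw [Finset.mem_erase] at ha hb
  have had : a ≠ d := fun e => hdA (e ▸ ha.2)
  have hbd : b ≠ d := fun e => hdA (e ▸ hb.2)
  have hcd : c ≠ d := fun e => hdA (e ▸ hcA)
  refine ⟨fun i => if i = 0 then a else if i = 1 then b else if i = 2 then c else d, ?_, ?_⟩
  · intro i hi j hj e
    interval_cases i <;> interval_cases j <;> simp_all
  · simp_all

/-- growth certificates -/
theorem growth_of (l : Lem) (tbl : List Pat) (K : P2 → Prop) [DecidablePred K]
    (hl : l.ok tbl false = true) (htbl : ∀ p ∈ tbl, p.ok = true ∧ Imp false 60 p)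
    (hP : ∀ t ∈ l.pat.P, (t.1 < 3 ∧ K t.2) ∨ t = (3, 0, 0))
    (hN : ∀ t ∈ l.pat.N, (t.1 = 3 ∧ K t.2) ∨ t = (2, 0, 0))
    (L : P2 → Finset ℕ) (hL : ∀ v, (L v).card = 3) (h1 : NoSp L (0, 0) 100) (A : Finset ℕ)
    (hne : K (-1, 0)) (hA : ∀ v, K v → L v = A) : L (0, 0) = A := by
  by_contra hb
  have hA3 : A.card = 3 := by rw [← hA _ hne]; exact hL _
  obtain ⟨f, hf, f0, f1, f2, f3, g2, g3⟩ := four_names A (L (0, 0)) hA3 (hL _) hb
  have h := lem_sound tbl false 60 le_rfl htbl l hl
  refine h L hL (by simpa using h1) (by simp) f hf ⟨?_, ?_⟩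
  · intro t ht
    rcases hP t ht with ⟨h3, h4⟩ | h3
    · rw [hA _ h4]
      have : t.1 = 0 ∨ t.1 = 1 ∨ t.1 = 2 := by omega
      rcases this with e | e | e <;> rw [e] <;> assumption
    · subst h3; exact g3
  · intro t ht
    rcases hN t ht with ⟨h3, h4⟩ | h3
    · rw [hA _ h4, h3]; exact f3
    · subst h3; exact g2

end TorGrid
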