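import Pool.Agent.Lib.MP_caf32e_co.CertTbl

namespace TorGrid

/-- compact spot type -/
structure CST where
  pat : ℕ × ℕ × ℕ × ℕ
  w : ℕ
  h1 : ℕ
  g1 : ℕ
  h2 : ℕ
  g2 : ℕ

/-- decoding of an array with `n` rows of length `m` -/
def decArr (n m x : ℕ) : List (List ℤ) :=
  (List.range n).map (fun j => (unpack 4 m (x / 4 ^ (j * m))).map (fun c => (c : ℤ) - 1))

/-- decoding -/
def CST.dec (c : CST) : SType where
  p := decPat c.pat.1 c.pat.2.1 c.pat.2.2.1 c.pat.2.2.2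
  F1 := ⟨((c.w % 64 : ℕ) - 32 : ℤ), (((c.w / 64) % 64 : ℕ) - 32 : ℤ), (c.w / 4096) % 64,
    (c.w / 262144) % 64,
    decArr ((c.w / 262144) % 64) ((c.w / 4096) % 64 + 1) c.h1,
    decArr ((c.w / 4096) % 64) ((c.w / 262144) % 64 + 1) c.g1⟩
  F2 := ⟨((c.w % 64 : ℕ) - 32 : ℤ), (((c.w / 64) % 64 : ℕ) - 32 : ℤ), (c.w / 4096) % 64,
    (c.w / 262144) % 64,
    decArr ((c.w / 262144) % 64) ((c.w / 4096) % 64 + 1) c.h2,
    decArr ((c.w / 4096) % 64) ((c.w / 262144) % 64 + 1) c.g2⟩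

/-- check of a list of spot types against the table from entry `b` on -/
def checkST (tbl : List Pat) : ℕ → List CST → Bool
  | _, [] => true
  | b, c :: rest => c.dec.ok && decide (tbl[b]? = some c.dec.p) && checkST tbl (b + 1) rest

end TorGrid
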