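import Pool.Agent.Lib.MP_caf32e_co.CertDefs

/-! Truth of a clause. -/

namespace TorGrid

/-- the clause is true under the valuation `v` -/
def ClT (v : ℕ → Prop) (c : ℕ × ℕ) : Prop :=
  ∃ i, (c.1.testBit i = true ∧ v i) ∨ (c.2.testBit i = true ∧ ¬ v i)

end TorGrid
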