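import Pool.Agent.Lib.MP_caf32e_co.Defs

/-! Row D1: the flow bound. -/

namespace TorGrid

open Finset

theorem D1_nb_symm (v w : P2) : w ∈ nb v ↔ v ∈ nb w := by
  obtain ⟨a, b⟩ := v
  obtain ⟨c, d⟩ := w
  simp only [nb, mem_insert, mem_singleton, Prod.mk.injEq]
  omega

/-- D1. Flow bound: an antisymmetric flow of size at most one on every edge. -/
theorem flow_bound (f : P2 → P2 → ℤ) (anti : ∀ v w, f v w = - f w v) (le : ∀ v w, f v w ≤ 1)
    (X : Finset P2) : ∑ v ∈ X, ∑ w ∈ nb v, f v w ≤ (bd X : ℤ) := by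
  have h1 : ∀ v ∈ X, ∑ w ∈ nb v, f v w
      = ∑ w ∈ X, (if w ∈ nb v then f v w else 0) + ∑ w ∈ (nb v) \ X, f v w := by
    intro v _
    rw [← Finset.sum_filter, ← Finset.sum_sdiff (s₁ := (nb v) \ X) (s₂ := nb v) sdiff_subset]
    congr 1
    apply Finset.sum_congr _ (fun _ _ => rfl)
    ext w
    simp only [mem_sdiff, mem_filter]
    tauto
  rw [Finset.sum_congr rfl h1, Finset.sum_add_distrib]
  have h2 : ∑ v ∈ X, ∑ w ∈ X, (if w ∈ nb v then f v w else 0) = 0 := by
    have h3 : ∑ v ∈ X, ∑ w ∈ X, (if w ∈ nb v then f v w else 0)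
        = - ∑ v ∈ X, ∑ w ∈ X, (if w ∈ nb v then f v w else 0) := by
      conv_lhs => rw [Finset.sum_comm]
      rw [← Finset.sum_neg_distrib]
      apply Finset.sum_congr rfl
      intro v _
      rw [← Finset.sum_neg_distrib]
      apply Finset.sum_congr rfl
      intro w _
      by_cases h : w ∈ nb v
      · rw [if_pos h, if_pos ((D1_nb_symm v w).1 h), anti w v]
      · rw [if_neg h, if_neg (fun h' => h ((D1_nb_symm v w).2 h')), neg_zero]
    omega
  rw [h2, zero_add]
  unfold bd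
  push_cast
  apply Finset.sum_le_sum
  intro v _
  calc ∑ w ∈ (nb v) \ X, f v w ≤ ∑ _w ∈ (nb v) \ X, (1 : ℤ) := Finset.sum_le_sum (fun w _ => le v w)
    _ = (((nb v) \ X).card : ℤ) := by simp

end TorGrid
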