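import Pool.Agent.Lib.MP_caf32e_co.Defs

/-! Row D2. -/

namespace TorGrid

open Finset

private theorem D2_count (Z : Finset P2) (r h : P2 → ℤ) (s : P2 → P2) (hr : ∀ v, r (s v) = r v)
    (hh : ∀ v, h (s v) = h v + 1) (k : ℕ) (p : ℕ → P2) (hp : ∀ i ≤ k, p i ∈ Z)
    (hinj : ∀ i j, r (p i) = r (p j) → i = j) :
    k + 1 ≤ (Z.filter (fun v => s v ∉ Z)).card := by
  have h1 : (range (k + 1)).image (fun i => r (p i)) ⊆ (Z.filter (fun v => s v ∉ Z)).image r := by
    intro a ha
    obtain ⟨i, hi, rfl⟩ := mem_image.1 ha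
    have hi' : i ≤ k := by simpa [Nat.lt_succ_iff] using hi
    obtain ⟨v, hv, hmax⟩ := (Z.filter (fun v => r v = r (p i))).exists_max_image h
      ⟨p i, mem_filter.2 ⟨hp i hi', rfl⟩⟩
    rw [mem_filter] at hv
    refine mem_image.2 ⟨v, mem_filter.2 ⟨hv.1, fun hs => ?_⟩, hv.2⟩
    have := hmax (s v) (mem_filter.2 ⟨hs, by rw [hr, hv.2]⟩)
    rw [hh] at this
    omega
  calc k + 1 = (range (k + 1)).card := by simp
    _ = ((range (k + 1)).image (fun i => r (p i))).card :=
        (card_image_of_injective _ (fun i j hij => hinj i j hij)).symm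
    _ ≤ ((Z.filter (fun v => s v ∉ Z)).image r).card := card_le_card h1
    _ ≤ _ := card_image_le

private theorem D2_nb (Z : Finset P2) (v : P2) :
    ((nb v) \ Z).card = (if (v.1 + 1, v.2) ∉ Z then 1 else 0) + (if (v.1 - 1, v.2) ∉ Z then 1 else 0)
      + (if (v.1, v.2 + 1) ∉ Z then 1 else 0) + (if (v.1, v.2 - 1) ∉ Z then 1 else 0) := by
  have h1 : (nb v) \ Z = (nb v).filter (fun w => w ∉ Z) := by
    ext w; simp
  rw [h1, card_filter, nb, sum_insert, sum_insert, sum_insert, sum_singleton]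
  · ring
  · simp only [mem_singleton, Prod.mk.injEq, not_and]
    omega
  · simp only [mem_insert, mem_singleton, Prod.mk.injEq, not_or, not_and]
    omega
  · simp only [mem_insert, mem_singleton, Prod.mk.injEq, not_or, not_and]
    omega

/-- D2. A finite superset of a straight diagonal segment has at least `4 (k + 1)` boundary edges. -/
theorem dg_super (e x y : ℤ) (he : e = 1 ∨ e = -1) (k : ℕ) (Z : Finset P2)
    (hZ : dg e x y k ⊆ Z) : 4 * (k + 1) ≤ bd Z := by
  have hp : ∀ i ≤ k, (x + (i : ℤ), y + e * (i : ℤ)) ∈ Z := by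
    intro i hi
    exact hZ (mem_image.2 ⟨i, by simpa [Nat.lt_succ_iff] using hi, rfl⟩)
  have hi2 : ∀ i j : ℕ, y + e * (i : ℤ) = y + e * (j : ℤ) → i = j := by
    intro i j h
    rcases he with rfl | rfl <;> omega
  have hi1 : ∀ i j : ℕ, x + (i : ℤ) = x + (j : ℤ) → i = j := by
    intro i j h
    omega
  have c1 := D2_count Z (fun v => v.2) (fun v => v.1) (fun v => (v.1 + 1, v.2)) (fun _ => rfl)
    (fun _ => rfl) k (fun i => (x + (i : ℤ), y + e * (i : ℤ))) hp hi2
  have c2 := D2_count Z (fun v => v.2) (fun v => -v.1) (fun v => (v.1 - 1, v.2)) (fun _ => rfl)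
    (fun _ => by simp only; ring) k (fun i => (x + (i : ℤ), y + e * (i : ℤ))) hp hi2
  have c3 := D2_count Z (fun v => v.1) (fun v => v.2) (fun v => (v.1, v.2 + 1)) (fun _ => rfl)
    (fun _ => rfl) k (fun i => (x + (i : ℤ), y + e * (i : ℤ))) hp hi1
  have c4 := D2_count Z (fun v => v.1) (fun v => -v.2) (fun v => (v.1, v.2 - 1)) (fun _ => rfl)
    (fun _ => by simp only; ring) k (fun i => (x + (i : ℤ), y + e * (i : ℤ))) hp hi1
  rw [card_filter] at c1 c2 c3 c4
  unfold bd
  rw [sum_congr rfl (fun v _ => D2_nb Z v), sum_add_distrib, sum_add_distrib, sum_add_distrib]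
  omega

end TorGrid
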