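import Pool.Agent.Lib.MP_caf32e_co.Defs

/-! Row D3: losses outside a straight diagonal segment. -/

namespace TorGrid

open Finset

private theorem D3_sum_shift (X : Finset P2) (F : P2 → ℤ) (hF : ∀ v, |F v| ≤ 1) (a b : ℤ) :
    ∑ v ∈ X, (F v - F (v.1 - a, v.2 - b)) ≤
      ((X.filter (fun v => (v.1 + a, v.2 + b) ∉ X)).card : ℤ) +
      ((X.filter (fun v => (v.1 - a, v.2 - b) ∉ X)).card : ℤ) := by
  rw [Finset.sum_sub_distrib]
  have h1 : ∑ v ∈ X, F v = ∑ v ∈ X.filter (fun v => (v.1 + a, v.2 + b) ∈ X), F v +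
      ∑ v ∈ X.filter (fun v => (v.1 + a, v.2 + b) ∉ X), F v :=
    (Finset.sum_filter_add_sum_filter_not X _ _).symm
  have h2 : ∑ v ∈ X, F (v.1 - a, v.2 - b) =
      ∑ v ∈ X.filter (fun v => (v.1 - a, v.2 - b) ∈ X), F (v.1 - a, v.2 - b) +
      ∑ v ∈ X.filter (fun v => (v.1 - a, v.2 - b) ∉ X), F (v.1 - a, v.2 - b) :=
    (Finset.sum_filter_add_sum_filter_not X _ _).symm
  have h3 : ∑ v ∈ X.filter (fun v => (v.1 + a, v.2 + b) ∈ X), F v =
      ∑ v ∈ X.filter (fun v => (v.1 - a, v.2 - b) ∈ X), F (v.1 - a, v.2 - b) := by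
    refine Finset.sum_bij' (fun v _ => (v.1 + a, v.2 + b)) (fun v _ => (v.1 - a, v.2 - b))
      ?_ ?_ ?_ ?_ ?_
    · intro v hv
      rw [Finset.mem_filter] at hv ⊢
      refine ⟨hv.2, ?_⟩
      simpa using hv.1
    · intro v hv
      rw [Finset.mem_filter] at hv ⊢
      refine ⟨hv.2, ?_⟩
      simpa using hv.1
    · intro v _
      ext <;> simp
    · intro v _
      ext <;> simp
    · intro v _
      congr 1
      ext <;> simp
  have h4 : ∑ v ∈ X.filter (fun v => (v.1 + a, v.2 + b) ∉ X), F v ≤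
      ((X.filter (fun v => (v.1 + a, v.2 + b) ∉ X)).card : ℤ) := by
    have := Finset.sum_le_card_nsmul (X.filter (fun v => (v.1 + a, v.2 + b) ∉ X)) F 1
      (fun v _ => (abs_le.1 (hF v)).2)
    simpa using this
  have h5 : -((X.filter (fun v => (v.1 - a, v.2 - b) ∉ X)).card : ℤ) ≤
      ∑ v ∈ X.filter (fun v => (v.1 - a, v.2 - b) ∉ X), F (v.1 - a, v.2 - b) := by
    have := Finset.card_nsmul_le_sum (X.filter (fun v => (v.1 - a, v.2 - b) ∉ X))
      (fun v => F (v.1 - a, v.2 - b)) (-1) (fun v _ => (abs_le.1 (hF _)).1)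
    simpa using this
  rw [h1, h2, h3]
  linarith

private theorem D3_card_nb (X : Finset P2) (v : P2) :
    ((nb v \ X).card : ℤ) = (if (v.1 + 1, v.2) ∉ X then 1 else 0) +
      (if (v.1 - 1, v.2) ∉ X then 1 else 0) + (if (v.1, v.2 + 1) ∉ X then 1 else 0) +
      (if (v.1, v.2 - 1) ∉ X then 1 else 0) := by
  have h : nb v \ X = (nb v).filter (fun w => w ∉ X) := by
    ext w; simp [Finset.mem_sdiff, Finset.mem_filter]
  rw [h, nb, Finset.card_filter]
  rw [Finset.sum_insert, Finset.sum_insert, Finset.sum_insert, Finset.sum_singleton]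
  · push_cast
    ring
  · simp
    omega
  · simp
    try omega
  · simp
    try omega

private theorem D3_bd (X : Finset P2) :
    (bd X : ℤ) = ((X.filter (fun v => (v.1 + 1, v.2 + 0) ∉ X)).card : ℤ) +
      ((X.filter (fun v => (v.1 - 1, v.2 - 0) ∉ X)).card : ℤ) +
      (((X.filter (fun v => (v.1 + 0, v.2 + 1) ∉ X)).card : ℤ) +
      ((X.filter (fun v => (v.1 - 0, v.2 - 1) ∉ X)).card : ℤ)) := by
  have h : (bd X : ℤ) = ∑ v ∈ X, ((nb v \ X).card : ℤ) := by
    rw [bd]; push_cast; rfl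
  rw [h, Finset.sum_congr rfl (fun v _ => D3_card_nb X v)]
  simp only [Finset.sum_add_distrib, add_zero, sub_zero, Finset.card_filter]
  push_cast
  ring

private def D3g (d : ℤ) : ℤ := if 1 ≤ d ∨ d = -1 then 1 else -1

private theorem D3_mem (e x y : ℤ) (he : e = 1 ∨ e = -1) (k : ℕ) (v : P2) :
    v ∈ dg e x y k ↔ 0 ≤ v.1 - x ∧ v.1 - x ≤ k ∧ v.2 = y + e * (v.1 - x) := by
  rw [dg, Finset.mem_image]
  constructor
  · rintro ⟨i, hi, rfl⟩
    rw [Finset.mem_range] at hi
    refine ⟨by simp, by simp; omega, by simp⟩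
  · rintro ⟨h1, h2, h3⟩
    refine ⟨(v.1 - x).toNat, ?_, ?_⟩
    · rw [Finset.mem_range]; omega
    · have h4 : (((v.1 - x).toNat : ℕ) : ℤ) = v.1 - x := Int.toNat_of_nonneg h1
      ext
      · simp only [h4]; ring
      · simp only [h4]; rw [h3]

theorem dg_S2 (L : P2 → Finset ℕ) (e x y : ℤ) (he : e = 1 ∨ e = -1) (k : ℕ) (φ : P2 → ℕ)
    (X : Finset P2) (hX : Disjoint X (dg e x y k)) :
    2 * ∑ v ∈ X, lost L (dg e x y k) φ v ≤ bd X := by
  classical
  set D := dg e x y k with hD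
  have hmem := D3_mem e x y he k
  rw [← hD] at hmem
  let H : P2 → ℤ := fun v => if 0 ≤ e * (v.2 - y) ∧ e * (v.2 - y) ≤ k then
    D3g (v.1 - x - e * (v.2 - y)) else 0
  let W : P2 → ℤ := fun v => if 0 ≤ v.1 - x ∧ v.1 - x ≤ k then
    D3g (v.2 - y - e * (v.1 - x)) else 0
  have hg : ∀ d, |D3g d| ≤ 1 := by
    intro d; unfold D3g; split_ifs <;> simp
  have hH : ∀ v, |H v| ≤ 1 := by
    intro v
    show |if _ then _ else _| ≤ _
    split_ifs
    · exact hg _
    · simp
  have hW : ∀ v, |W v| ≤ 1 := by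
    intro v
    show |if _ then _ else _| ≤ _
    split_ifs
    · exact hg _
    · simp
  have s1 := D3_sum_shift X H hH 1 0
  have s2 := D3_sum_shift X W hW 0 1
  have hb := D3_bd X
  -- pointwise
  have hpt : ∀ v ∈ X, 2 * (lost L D φ v : ℤ) ≤
      (H v - H (v.1 - 1, v.2 - 0)) + (W v - W (v.1 - 0, v.2 - 1)) := by
    intro v hv
    have hvD : v ∉ D := fun h => (Finset.disjoint_left.1 hX) hv h
    -- lost is at most the number of neighbours in D
    have h1 : lost L D φ v ≤ (nb v ∩ D).card :=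
      (Finset.card_le_card Finset.inter_subset_left).trans Finset.card_image_le
    have h2 : ((nb v ∩ D).card : ℤ) = (if (v.1 + 1, v.2) ∈ D then 1 else 0) +
      (if (v.1 - 1, v.2) ∈ D then 1 else 0) + (if (v.1, v.2 + 1) ∈ D then 1 else 0) +
      (if (v.1, v.2 - 1) ∈ D then 1 else 0) := by
      have h : nb v ∩ D = (nb v).filter (fun w => w ∈ D) := by
        ext w; simp [Finset.mem_filter]
      rw [h, nb, Finset.card_filter]
      rw [Finset.sum_insert, Finset.sum_insert, Finset.sum_insert, Finset.sum_singleton]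
      · push_cast
        ring
      · simp
        try omega
      · simp
        try omega
      · simp
        try omega
    have h3 : (lost L D φ v : ℤ) ≤ ((nb v ∩ D).card : ℤ) := by exact_mod_cast h1
    rw [h2] at h3
    have hr : 2 * ((if (v.1 + 1, v.2) ∈ D then (1 : ℤ) else 0) +
        (if (v.1 - 1, v.2) ∈ D then 1 else 0)) ≤ H v - H (v.1 - 1, v.2 - 0) := by
      rw [hmem] at hvD
      simp only [hmem, H, D3g]
      rcases he with rfl | rfl
      · split_ifs <;> omega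
      · split_ifs <;> omega
    have hc : 2 * ((if (v.1, v.2 + 1) ∈ D then (1 : ℤ) else 0) +
        (if (v.1, v.2 - 1) ∈ D then 1 else 0)) ≤ W v - W (v.1 - 0, v.2 - 1) := by
      rw [hmem] at hvD
      simp only [hmem, W, D3g]
      rcases he with rfl | rfl
      · split_ifs <;> omega
      · split_ifs <;> omega
    linarith
  have hsum := Finset.sum_le_sum hpt
  rw [Finset.sum_add_distrib, ← Finset.mul_sum] at hsum
  have : 2 * ∑ v ∈ X, (lost L D φ v : ℤ) ≤ (bd X : ℤ) := by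
    rw [hb]; linarith
  exact_mod_cast this

end TorGrid
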