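import Pool.Agent.Lib.MP_caf32e_co.Defs
import Pool.Agent.Lib.MP_caf32e_co.D2
import Pool.Agent.Lib.MP_caf32e_co.D3

/-! Row D4: threads along a straight diagonal. -/

namespace TorGrid

open Finset

private lemma D4_step (f : Fin 3 → ℕ) (hf : Function.Injective f) (B : Finset ℕ)
    (hB : B.card = 3) : ∃ g : Fin 3 → ℕ, (Function.Injective g ∧ univ.image g = B) ∧
      ∀ j, f j ∈ B → g j = f j := by
  classical
  obtain ⟨g, hg⟩ := Finset.exists_equiv_extend_of_card_eq (α := Fin 3) (t := B)
    (by rw [hB]; simp) (s := univ.filter (fun j => f j ∈ B)) (f := f)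
    (by
      intro c hc
      obtain ⟨j, hj, rfl⟩ := mem_image.1 hc
      exact (mem_filter.1 hj).2) (hf.injOn)
  refine ⟨fun j => (g j : ℕ), ⟨?_, ?_⟩, ?_⟩
  · intro a b hab
    exact g.injective (Subtype.ext hab)
  · ext c
    rw [mem_image]
    constructor
    · rintro ⟨j, -, rfl⟩
      exact (g j).2
    · intro hc
      exact ⟨g.symm ⟨c, hc⟩, mem_univ _, by simp⟩
  · intro j hj
    exact hg j (mem_filter.2 ⟨mem_univ _, hj⟩)

private lemma D4_seq (L : ℕ → Finset ℕ) (hL : ∀ i, (L i).card = 3) :
    ∃ E : ℕ → Fin 3 → ℕ, (∀ i, Function.Injective (E i)) ∧ (∀ i, univ.image (E i) = L i) ∧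
      ∀ i j, E i j ∈ L (i + 1) → E (i + 1) j = E i j := by
  classical
  obtain ⟨f0, hf0, -⟩ := D4_step (fun j => (j : ℕ)) (fun a b h => Fin.ext h) (L 0) (hL 0)
  have step : ∀ i (f : Fin 3 → ℕ), (Function.Injective f ∧ univ.image f = L i) →
      ∃ g : Fin 3 → ℕ, (Function.Injective g ∧ univ.image g = L (i + 1)) ∧
        ∀ j, f j ∈ L (i + 1) → g j = f j := fun i f hf => D4_step f hf.1 (L (i + 1)) (hL (i + 1))
  choose G hG1 hG2 using step
  let s : (i : ℕ) → {f : Fin 3 → ℕ // Function.Injective f ∧ univ.image f = L i} :=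
    fun i => Nat.rec (motive := fun i => {f : Fin 3 → ℕ // Function.Injective f ∧
      univ.image f = L i}) ⟨f0, hf0⟩ (fun i t => ⟨G i t.1 t.2, hG1 i t.1 t.2⟩) i
  refine ⟨fun i => (s i).1, fun i => (s i).2.1, fun i => (s i).2.2, ?_⟩
  intro i j h
  exact hG2 i (s i).1 (s i).2 j h

/-- membership in the diagonal -/
private lemma D4_mem (e x y : ℤ) (k : ℕ) (w : P2) :
    w ∈ dg e x y k ↔ ∃ a : ℕ, a ≤ k ∧ w = (x + a, y + e * a) := by
  unfold dg
  rw [mem_image]
  constructor
  · rintro ⟨a, ha, rfl⟩
    exact ⟨a, by rw [mem_range] at ha; omega, rfl⟩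
  · rintro ⟨a, ha, rfl⟩
    exact ⟨a, by rw [mem_range]; omega, rfl⟩

private lemma D4_lost_le (L : P2 → Finset ℕ) (U : Finset P2) (φ : P2 → ℕ) (v : P2)
    (T : Finset ℕ) (h : ∀ w, w ∈ nb v → w ∈ U → φ w ∈ T) :
    lost L U φ v ≤ (T ∩ L v).card := by
  unfold lost
  apply card_le_card
  intro c hc
  rw [mem_inter] at hc ⊢
  refine ⟨?_, hc.2⟩
  obtain ⟨w, hw, rfl⟩ := mem_image.1 hc.1
  rw [mem_inter] at hw
  exact h w hw.1 hw.2

private lemma D4_sum_single (E : Fin 3 → ℕ) (hE : Function.Injective E) (A : Finset ℕ)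
    (hA : A.card = 3) : ∑ j, (({E j} : Finset ℕ) ∩ A).card ≤ 3 := by
  classical
  rw [← card_biUnion]
  · refine le_trans (card_le_card ?_) hA.le
    intro c hc
    obtain ⟨j, -, hj⟩ := mem_biUnion.1 hc
    exact (mem_inter.1 hj).2
  · intro a _ b _ hab
    rw [Function.onFun, disjoint_left]
    intro c hc hc'
    rw [mem_inter, mem_singleton] at hc hc'
    exact hab (hE (hc.1.symm.trans hc'.1))

private lemma D4_sum_pair (E F : Fin 3 → ℕ) (hE : Function.Injective E)
    (hF : Function.Injective F) (A B C : Finset ℕ) (hA : univ.image E = A)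
    (hB : univ.image F = B) (h : ∀ j, E j ∈ B → F j = E j) (hC : C.card = 3) :
    ∑ j, (({E j, F j} : Finset ℕ) ∩ C).card + (C \ (A ∪ B)).card ≤ 3 := by
  classical
  rw [← card_biUnion]
  · have h1 : (univ : Finset (Fin 3)).biUnion (fun j => ({E j, F j} : Finset ℕ) ∩ C) ⊆
        C ∩ (A ∪ B) := by
      intro c hc
      obtain ⟨j, -, hj⟩ := mem_biUnion.1 hc
      rw [mem_inter] at hj ⊢
      refine ⟨hj.2, ?_⟩
      rw [mem_union, ← hA, ← hB, mem_image, mem_image]
      have := hj.1
      rw [mem_insert, mem_singleton] at this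
      rcases this with h1 | h1
      · exact Or.inl ⟨j, mem_univ _, h1.symm⟩
      · exact Or.inr ⟨j, mem_univ _, h1.symm⟩
    have h2 := card_le_card h1
    have h3 := card_sdiff_add_card_inter C (A ∪ B)
    omega
  · intro a _ b _ hab
    rw [Function.onFun, disjoint_left]
    intro c hc hc'
    rw [mem_inter, mem_insert, mem_singleton] at hc hc'
    have key : ∀ a b : Fin 3, E a = F b → a = b := by
      intro a b hh
      have h1 : E a ∈ B := by rw [hh, ← hB]; exact mem_image_of_mem _ (mem_univ _)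
      exact hF ((h a h1).trans hh)
    rcases hc.1 with h1 | h1 <;> rcases hc'.1 with h2 | h2
    · exact hab (hE (h1.symm.trans h2))
    · exact hab (key a b (h1.symm.trans h2))
    · exact hab (key b a (h2.symm.trans h1)).symm
    · exact hab (hF (h1.symm.trans h2))

private lemma D4_sum_union_le (f : P2 → ℕ) (A B : Finset P2) :
    ∑ v ∈ A ∪ B, f v ≤ ∑ v ∈ A, f v + ∑ v ∈ B, f v := by
  rw [← sum_union_inter]
  exact Nat.le_add_right _ _

private lemma D4_sum_image_le (f : P2 → ℕ) (g : ℕ → P2) (S : Finset ℕ) :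
    ∑ v ∈ S.image g, f v ≤ ∑ i ∈ S, f (g i) := by
  classical
  induction S using Finset.induction_on with
  | empty => simp
  | insert a S ha ih =>
    rw [image_insert, sum_insert ha]
    by_cases h : g a ∈ S.image g
    · rw [insert_eq_self.2 h]
      omega
    · rw [sum_insert h]
      omega

/-- D4. Threads: without spots the total defect along a straight diagonal is at most 6. -/
theorem dg_threads (L : P2 → Finset ℕ) (hL : ∀ v, (L v).card = 3) (e x y : ℤ)
    (he : e = 1 ∨ e = -1) (k : ℕ) (hno : ∀ φ, ¬ Spot L (dg e x y k) φ) :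
    ∑ i ∈ range k,
      (dfc L (x + i, y + e * i) (x + i + 1, y + e * (i + 1)) (x + i + 1, y + e * i) +
       dfc L (x + i, y + e * i) (x + i + 1, y + e * (i + 1)) (x + i, y + e * (i + 1))) ≤ 6 := by
  classical
  set U := dg e x y k with hU
  set p : ℕ → P2 := fun i => (x + i, y + e * i) with hp
  set q : ℕ → P2 := fun i => (x + i + 1, y + e * i) with hq
  set s : ℕ → P2 := fun i => (x + i, y + e * (i + 1)) with hs
  obtain ⟨E, hE1, hE2, hE3⟩ := D4_seq (fun i => L (p i)) (fun i => hL _)
  set φ : Fin 3 → P2 → ℕ := fun j v => E (v.1 - x).toNat j with hφ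
  have hφp : ∀ j a, φ j (p a) = E a j := by
    intro j a
    simp [hφ, hp]
  have hmem : ∀ w, w ∈ U ↔ ∃ a : ℕ, a ≤ k ∧ w = p a := fun w => D4_mem e x y k w
  -- the ends
  set E1 : P2 := (x - 1, y) with hE1d
  set E2 : P2 := (x, y - e) with hE2d
  set E3 : P2 := (x + k + 1, y + e * k) with hE3d
  set E4 : P2 := (x + k, y + e * (k + 1)) with hE4d
  have hnbU : U.biUnion nb ⊆ ({E1, E2, E3, E4} : Finset P2) ∪ ((range k).image q ∪
      (range k).image s) := by
    intro w hw
    obtain ⟨u, hu, hwu⟩ := mem_biUnion.1 hw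
    obtain ⟨a, ha, rfl⟩ := (hmem u).1 hu
    have h1 : w = (x + a + 1, y + e * a) ∨ w = (x + a - 1, y + e * a) ∨
        w = (x + a, y + e * (a + 1)) ∨ w = (x + a, y + e * (a - 1)) := by
      rw [hp] at hwu
      simp only [nb, mem_insert, mem_singleton] at hwu
      rcases hwu with h | h | h | h
      · exact Or.inl h
      · exact Or.inr (Or.inl h)
      · rcases he with rfl | rfl
        · right; right; left
          rw [h]
          refine Prod.ext rfl ?_
          show y + 1 * (a : ℤ) + 1 = y + 1 * ((a : ℤ) + 1)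
          ring
        · right; right; right
          rw [h]
          refine Prod.ext rfl ?_
          show y + -1 * (a : ℤ) + 1 = y + -1 * ((a : ℤ) - 1)
          ring
      · rcases he with rfl | rfl
        · right; right; right
          rw [h]
          refine Prod.ext rfl ?_
          show y + 1 * (a : ℤ) - 1 = y + 1 * ((a : ℤ) - 1)
          ring
        · right; right; left
          rw [h]
          refine Prod.ext rfl ?_
          show y + -1 * (a : ℤ) - 1 = y + -1 * ((a : ℤ) + 1)
          ring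
    simp only [mem_union, mem_insert, mem_singleton, mem_image, mem_range]
    rcases h1 with h | h | h | h
    · by_cases hak : a = k
      · left; right; right; left
        rw [h, hE3d, hak]
      · right; left
        exact ⟨a, by omega, h.symm⟩
    · by_cases ha0 : a = 0
      · left; left
        rw [h, hE1d, ha0]
        simp
      · right; right
        refine ⟨a - 1, by omega, ?_⟩
        have h2 : ((a - 1 : ℕ) : ℤ) = (a : ℤ) - 1 := by
          rw [Nat.cast_sub (by omega)]; simp
        rw [h]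
        simp only [hs]
        rw [h2]
        refine Prod.ext ?_ ?_
        · show x + ((a : ℤ) - 1) = x + a - 1
          ring
        · show y + e * ((a : ℤ) - 1 + 1) = y + e * a
          ring
    · by_cases hak : a = k
      · left; right; right; right
        rw [h, hE4d, hak]
      · right; right
        exact ⟨a, by omega, h.symm⟩
    · by_cases ha0 : a = 0
      · left; right; left
        rw [h, hE2d, ha0]
        refine Prod.ext ?_ ?_
        · simp
        · show y + e * (((0 : ℕ) : ℤ) - 1) = y - e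
          simp
          ring
      · right; left
        refine ⟨a - 1, by omega, ?_⟩
        have h2 : ((a - 1 : ℕ) : ℤ) = (a : ℤ) - 1 := by
          rw [Nat.cast_sub (by omega)]; simp
        rw [h]
        simp only [hq]
        rw [h2]
        refine Prod.ext ?_ ?_
        · show x + ((a : ℤ) - 1) + 1 = x + a
          ring
        · rfl
  -- bounds for the losses
  have hend : ∀ (v : P2) (b : ℕ), (∀ a : ℕ, a ≤ k → p a ∈ nb v → a = b) →
      ∑ j, lost L U (φ j) v ≤ 3 := by
    intro v b hb
    refine le_trans (sum_le_sum (fun j _ => ?_)) (D4_sum_single (E b) (hE1 b) (L v) (hL v))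
    apply D4_lost_le
    intro w hw hwU
    obtain ⟨a, ha, rfl⟩ := (hmem w).1 hwU
    rw [hφp, hb a ha hw, mem_singleton]
  have hmid : ∀ (v : P2) (b : ℕ), (∀ a : ℕ, a ≤ k → p a ∈ nb v → a = b ∨ a = b + 1) →
      ∑ j, lost L U (φ j) v + dfc L (p b) (p (b + 1)) v ≤ 3 := by
    intro v b hb
    refine le_trans (Nat.add_le_add_right (sum_le_sum (fun j _ => ?_)) _)
      (D4_sum_pair (E b) (E (b + 1)) (hE1 b) (hE1 (b + 1)) (L (p b)) (L (p (b + 1))) (L v)
        (hE2 b) (hE2 (b + 1)) (hE3 b) (hL v))
    apply D4_lost_le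
    intro w hw hwU
    obtain ⟨a, ha, rfl⟩ := (hmem w).1 hwU
    rw [hφp, mem_insert, mem_singleton]
    rcases hb a ha hw with rfl | rfl
    · exact Or.inl rfl
    · exact Or.inr rfl
  have hpn : ∀ (a : ℕ) (v : P2), p a ∈ nb v ↔
      ((x + a = v.1 + 1 ∧ y + e * a = v.2) ∨ (x + a = v.1 - 1 ∧ y + e * a = v.2) ∨
      (x + a = v.1 ∧ y + e * a = v.2 + 1) ∨ (x + a = v.1 ∧ y + e * a = v.2 - 1)) := by
    intro a v
    simp only [hp, nb, mem_insert, mem_singleton, Prod.mk.injEq]
  have b1 : ∑ j, lost L U (φ j) E1 ≤ 3 := hend E1 0 (by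
    intro a ha h
    rw [hpn] at h
    simp only [hE1d] at h
    rcases he with rfl | rfl <;> omega)
  have b2 : ∑ j, lost L U (φ j) E2 ≤ 3 := hend E2 0 (by
    intro a ha h
    rw [hpn] at h
    simp only [hE2d] at h
    rcases he with rfl | rfl <;> omega)
  have b3 : ∑ j, lost L U (φ j) E3 ≤ 3 := hend E3 k (by
    intro a ha h
    rw [hpn] at h
    simp only [hE3d] at h
    rcases he with rfl | rfl <;> omega)
  have b4 : ∑ j, lost L U (φ j) E4 ≤ 3 := hend E4 k (by
    intro a ha h
    rw [hpn] at h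
    simp only [hE4d] at h
    rcases he with rfl | rfl <;> omega)
  have bq : ∀ i, ∑ j, lost L U (φ j) (q i) + dfc L (p i) (p (i + 1)) (q i) ≤ 3 := by
    intro i
    apply hmid
    intro a ha h
    rw [hpn] at h
    simp only [hq] at h
    rcases he with rfl | rfl <;> omega
  have bs : ∀ i, ∑ j, lost L U (φ j) (s i) + dfc L (p i) (p (i + 1)) (s i) ≤ 3 := by
    intro i
    apply hmid
    intro a ha h
    rw [hpn] at h
    simp only [hs] at h
    rcases he with rfl | rfl <;> omega
  -- total loss of a thread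
  set B : Fin 3 → ℕ := fun j => lost L U (φ j) E1 + lost L U (φ j) E2 + lost L U (φ j) E3 +
    lost L U (φ j) E4 + (∑ i ∈ range k, lost L U (φ j) (q i) +
      ∑ i ∈ range k, lost L U (φ j) (s i)) with hB
  have hBlow : ∀ j, 2 * k + 2 ≤ B j := by
    intro j
    by_contra hlt
    apply hno (φ j)
    refine ⟨?_, ?_, ?_, fun X hX => dg_S2 L e x y he k (φ j) X hX⟩
    · intro u hu
      obtain ⟨a, ha, rfl⟩ := (hmem u).1 hu
      rw [hφp, ← hE2 a]
      exact mem_image_of_mem _ (mem_univ _)
    · intro u hu v hv hvu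
      exfalso
      obtain ⟨a, ha, rfl⟩ := (hmem u).1 hu
      obtain ⟨b, hb, rfl⟩ := (hmem v).1 hv
      rw [hpn] at hvu
      simp only [hp] at hvu
      rcases he with rfl | rfl <;> omega
    · intro Z hZ
      have h1 := dg_super e x y he k Z hZ
      have h2 : ∑ v ∈ (U.biUnion nb) \ Z, lost L U (φ j) v ≤ B j := by
        calc ∑ v ∈ (U.biUnion nb) \ Z, lost L U (φ j) v
            ≤ ∑ v ∈ ({E1, E2, E3, E4} : Finset P2) ∪ ((range k).image q ∪ (range k).image s),
              lost L U (φ j) v :=
              sum_le_sum_of_subset (sdiff_subset.trans hnbU)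
          _ ≤ ∑ v ∈ ({E1, E2, E3, E4} : Finset P2), lost L U (φ j) v +
              ∑ v ∈ ((range k).image q ∪ (range k).image s), lost L U (φ j) v :=
              D4_sum_union_le _ _ _
          _ ≤ (lost L U (φ j) E1 + lost L U (φ j) E2 + lost L U (φ j) E3 +
              lost L U (φ j) E4) + (∑ i ∈ range k, lost L U (φ j) (q i) +
              ∑ i ∈ range k, lost L U (φ j) (s i)) := by
              apply Nat.add_le_add
              · have h3 := D4_sum_union_le (fun v => lost L U (φ j) v) {E1} ({E2, E3, E4})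
                have h4 := D4_sum_union_le (fun v => lost L U (φ j) v) {E2} ({E3, E4})
                have h5 := D4_sum_union_le (fun v => lost L U (φ j) v) {E3} ({E4})
                rw [← insert_eq, sum_singleton] at h3 h4 h5
                rw [sum_singleton] at h5
                omega
              · refine (D4_sum_union_le _ _ _).trans ?_
                exact Nat.add_le_add (D4_sum_image_le _ _ _) (D4_sum_image_le _ _ _)
          _ = B j := rfl
      omega
  have hsum : ∑ j, B j = ∑ j, lost L U (φ j) E1 + ∑ j, lost L U (φ j) E2 +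
      ∑ j, lost L U (φ j) E3 + ∑ j, lost L U (φ j) E4 +
      (∑ i ∈ range k, ∑ j, lost L U (φ j) (q i) +
      ∑ i ∈ range k, ∑ j, lost L U (φ j) (s i)) := by
    rw [hB]
    simp only [sum_add_distrib]
    rw [sum_comm (s := (univ : Finset (Fin 3))) (t := range k)
      (f := fun j i => lost L U (φ j) (q i)), sum_comm (s := (univ : Finset (Fin 3)))
      (t := range k) (f := fun j i => lost L U (φ j) (s i))]
  have hlow : 3 * (2 * k + 2) ≤ ∑ j, B j := by
    have h1 : ∑ _j : Fin 3, (2 * k + 2) ≤ ∑ j, B j := sum_le_sum (fun j _ => hBlow j)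
    rw [sum_const, card_univ, Fintype.card_fin, smul_eq_mul] at h1
    exact h1
  have hup : (∑ i ∈ range k, ∑ j, lost L U (φ j) (q i) +
      ∑ i ∈ range k, ∑ j, lost L U (φ j) (s i)) +
      ∑ i ∈ range k, (dfc L (p i) (p (i + 1)) (q i) + dfc L (p i) (p (i + 1)) (s i)) ≤
      6 * k := by
    rw [← sum_add_distrib, ← sum_add_distrib]
    have h1 : ∑ i ∈ range k, ((∑ j, lost L U (φ j) (q i) + ∑ j, lost L U (φ j) (s i)) +
        (dfc L (p i) (p (i + 1)) (q i) + dfc L (p i) (p (i + 1)) (s i))) ≤
        ∑ _i ∈ range k, 6 := by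
      apply sum_le_sum
      intro i _
      have := bq i
      have := bs i
      omega
    rw [sum_const, card_range, smul_eq_mul] at h1
    omega
  have hfin : ∑ i ∈ range k, (dfc L (p i) (p (i + 1)) (q i) + dfc L (p i) (p (i + 1)) (s i)) ≤
      6 := by
    omega
  have hp1 : ∀ i : ℕ, p (i + 1) = (x + i + 1, y + e * (i + 1)) := by
    intro i
    simp only [hp]
    refine Prod.ext ?_ ?_
    · show x + ((i + 1 : ℕ) : ℤ) = x + i + 1
      push_cast
      ring
    · show y + e * ((i + 1 : ℕ) : ℤ) = y + e * (i + 1)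
      push_cast
      ring
  calc ∑ i ∈ range k,
      (dfc L (x + i, y + e * i) (x + i + 1, y + e * (i + 1)) (x + i + 1, y + e * i) +
       dfc L (x + i, y + e * i) (x + i + 1, y + e * (i + 1)) (x + i, y + e * (i + 1)))
      = ∑ i ∈ range k, (dfc L (p i) (p (i + 1)) (q i) + dfc L (p i) (p (i + 1)) (s i)) := by
        apply sum_congr rfl
        intro i _
        rw [hp1]
    _ ≤ 6 := hfin

end TorGrid
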