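import Pool.Agent.Lib.MP_caf32e_co.Defs
import Pool.Agent.Lib.MP_caf32e_co.D4

/-! Row D5: a big box without spots contains a defect-free box. -/

namespace TorGrid

open Finset

/-- defects of the face `(x, y)` on the two diagonals -/
private def d5a (L : P2 → Finset ℕ) (x y : ℤ) : ℕ :=
  dfc L (x, y) (x + 1, y + 1) (x + 1, y) + dfc L (x, y) (x + 1, y + 1) (x, y + 1)

private def d5b (L : P2 → Finset ℕ) (x y : ℤ) : ℕ :=
  dfc L (x, y + 1) (x + 1, y) (x + 1, y + 1) + dfc L (x, y + 1) (x + 1, y) (x, y)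

private theorem d5_face (L : P2 → Finset ℕ) (x y : ℤ) (h : d5a L x y + d5b L x y = 0) :
    DFf L x y := by
  have h1 : dfc L (x, y) (x + 1, y + 1) (x + 1, y) = 0 := by unfold d5a at h; omega
  have h2 : dfc L (x, y) (x + 1, y + 1) (x, y + 1) = 0 := by unfold d5a at h; omega
  have h3 : dfc L (x, y + 1) (x + 1, y) (x + 1, y + 1) = 0 := by unfold d5b at h; omega
  have h4 : dfc L (x, y + 1) (x + 1, y) (x, y) = 0 := by unfold d5b at h; omega
  unfold dfc at h1 h2 h3 h4
  rw [card_eq_zero, sdiff_eq_empty_iff_subset] at h1 h2 h3 h4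
  unfold DFf
  apply subset_antisymm
  · apply union_subset
    · rw [union_comm]; exact h4
    · rw [union_comm]; exact h3
  · exact union_subset h1 h2

private theorem d5_noSp {L : P2 → Finset ℕ} {N : ℕ} (h : NoSp L (0, 0) N) {n : ℕ}
    (hN : 2 * n ≤ N) (e x y : ℤ) (he : (e = 1 ∧ y = 0) ∨ (e = -1 ∧ y = n)) (hx1 : -(n : ℤ) ≤ x)
    (hx2 : x < n) (φ : P2 → ℕ) : ¬ Spot L (dg e x y n) φ := by
  apply h
  intro u hu
  unfold dg at hu
  rw [mem_image] at hu
  obtain ⟨i, hi, rfl⟩ := hu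
  rw [mem_range] at hi
  unfold InB
  simp only [sub_zero, abs_le]
  rcases he with ⟨rfl, rfl⟩ | ⟨rfl, rfl⟩
  · refine ⟨⟨?_, ?_⟩, ?_, ?_⟩ <;> omega
  · refine ⟨⟨?_, ?_⟩, ?_, ?_⟩ <;> omega

private theorem d5_suma {L : P2 → Finset ℕ} (hL : ∀ v, (L v).card = 3) {N : ℕ}
    (h : NoSp L (0, 0) N) {n : ℕ} (hN : 2 * n ≤ N) :
    ∑ v ∈ range n ×ˢ range n, d5a L v.1 v.2 ≤ 12 * n := by
  have key : ∀ c ∈ range (2 * n), ∑ i ∈ range n, d5a L ((c : ℤ) - n + i) i ≤ 6 := by
    intro c hc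
    rw [mem_range] at hc
    have h1 := dg_threads L hL 1 ((c : ℤ) - n) 0 (Or.inl rfl) n
      (fun φ => d5_noSp h hN 1 _ 0 (Or.inl ⟨rfl, rfl⟩) (by omega) (by omega) φ)
    refine le_trans (le_of_eq ?_) h1
    refine sum_congr rfl fun i _ => ?_
    unfold d5a
    simp only [zero_add, one_mul]
  have h2 : ∑ v ∈ range n ×ˢ range n, d5a L v.1 v.2
      ≤ ∑ c ∈ range (2 * n), ∑ i ∈ range n, d5a L ((c : ℤ) - n + i) i := by
    rw [← sum_product']
    have h3 : ∑ v ∈ range n ×ˢ range n, d5a L v.1 v.2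
        = ∑ w ∈ (range n ×ˢ range n).image (fun v : ℕ × ℕ => ((v.1 + n - v.2, v.2) : ℕ × ℕ)),
          d5a L ((w.1 : ℤ) - n + w.2) w.2 := by
      rw [sum_image]
      · refine sum_congr rfl fun v hv => ?_
        simp only [mem_product, mem_range] at hv
        have h4 : (((v.1 + n - v.2 : ℕ) : ℤ)) - n + v.2 = v.1 := by omega
        simp only [h4]
      · intro v hv w hw hvw
        simp only [coe_product, coe_range, Set.mem_prod, Set.mem_Iio] at hv hw
        simp only [Prod.mk.injEq] at hvw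
        apply Prod.ext <;> omega
    rw [h3]
    apply sum_le_sum_of_subset
    intro w hw
    rw [mem_image] at hw
    obtain ⟨v, hv, rfl⟩ := hw
    simp only [mem_product, mem_range] at hv ⊢
    omega
  refine le_trans h2 (le_trans (sum_le_sum key) ?_)
  rw [sum_const, card_range, smul_eq_mul]
  omega

private theorem d5_sumb {L : P2 → Finset ℕ} (hL : ∀ v, (L v).card = 3) {N : ℕ}
    (h : NoSp L (0, 0) N) {n : ℕ} (hN : 2 * n ≤ N) :
    ∑ v ∈ range n ×ˢ range n, d5b L v.1 v.2 ≤ 12 * n := by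
  have key : ∀ c ∈ range (2 * n),
      ∑ i ∈ range n, d5b L ((c : ℤ) - n + i) ((n : ℤ) - i - 1) ≤ 6 := by
    intro c hc
    rw [mem_range] at hc
    have h1 := dg_threads L hL (-1) ((c : ℤ) - n) n (Or.inr rfl) n
      (fun φ => d5_noSp h hN (-1) _ n (Or.inr ⟨rfl, rfl⟩) (by omega) (by omega) φ)
    refine le_trans (le_of_eq ?_) h1
    refine sum_congr rfl fun i _ => ?_
    unfold d5b
    have e1 : (n : ℤ) + -1 * i = n - i - 1 + 1 := by ring
    have e2 : (n : ℤ) + -1 * (i + 1) = n - i - 1 := by ring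
    rw [e1, e2]
  have h2 : ∑ v ∈ range n ×ˢ range n, d5b L v.1 v.2
      ≤ ∑ c ∈ range (2 * n), ∑ i ∈ range n, d5b L ((c : ℤ) - n + i) ((n : ℤ) - i - 1) := by
    rw [← sum_product']
    have h3 : ∑ v ∈ range n ×ˢ range n, d5b L v.1 v.2
        = ∑ w ∈ (range n ×ˢ range n).image (fun v : ℕ × ℕ => ((v.1 + v.2 + 1, n - 1 - v.2) : ℕ × ℕ)),
          d5b L ((w.1 : ℤ) - n + w.2) ((n : ℤ) - w.2 - 1) := by
      rw [sum_image]
      · refine sum_congr rfl fun v hv => ?_
        simp only [mem_product, mem_range] at hv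
        have h4 : (((v.1 + v.2 + 1 : ℕ) : ℤ)) - n + ((n - 1 - v.2 : ℕ) : ℤ) = v.1 := by omega
        have h5 : (n : ℤ) - ((n - 1 - v.2 : ℕ) : ℤ) - 1 = v.2 := by omega
        simp only [h4, h5]
      · intro v hv w hw hvw
        simp only [coe_product, coe_range, Set.mem_prod, Set.mem_Iio] at hv hw
        simp only [Prod.mk.injEq] at hvw
        apply Prod.ext <;> omega
    rw [h3]
    apply sum_le_sum_of_subset
    intro w hw
    rw [mem_image] at hw
    obtain ⟨v, hv, rfl⟩ := hw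
    simp only [mem_product, mem_range] at hv ⊢
    omega
  refine le_trans h2 (le_trans (sum_le_sum key) ?_)
  rw [sum_const, card_range, smul_eq_mul]
  omega

/-- D5. Pigeonhole: a big box without spots contains a defect-free box. -/
theorem exists_DF (K : ℕ) : ∃ N : ℕ, K + 2 ≤ N ∧ ∀ L : P2 → Finset ℕ, (∀ v, (L v).card = 3) →
    NoSp L (0, 0) N → ∃ z : P2, InB (0, 0) ((N : ℤ) - K - 2) z ∧ DFb L z K := by
  obtain ⟨s, hs⟩ : ∃ s, s = 2 * K + 1 := ⟨_, rfl⟩
  obtain ⟨J, hJ⟩ : ∃ J, J = 24 * s + 1 := ⟨_, rfl⟩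
  obtain ⟨n, hn⟩ : ∃ n, n = J * s := ⟨_, rfl⟩
  refine ⟨2 * n + K + 2, by omega, fun L hL hno => ?_⟩
  by_contra hcon
  push Not at hcon
  have hcell : ∀ a < J, a * s + s ≤ n := by
    intro a ha
    have h1 : (a + 1) * s ≤ J * s := Nat.mul_le_mul_right s ha
    rw [hn]
    calc a * s + s = (a + 1) * s := by ring
      _ ≤ J * s := h1
  -- a bad face in every cell
  have hbad : ∀ w : ℕ × ℕ, ∃ v : ℕ × ℕ, w ∈ range J ×ˢ range J →
      (w.1 * s ≤ v.1 ∧ v.1 < w.1 * s + s) ∧ (w.2 * s ≤ v.2 ∧ v.2 < w.2 * s + s) ∧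
        1 ≤ d5a L v.1 v.2 + d5b L v.1 v.2 := by
    intro w
    by_cases hw : w ∈ range J ×ˢ range J
    · simp only [mem_product, mem_range] at hw
      have h1 := hcell _ hw.1
      have h2 := hcell _ hw.2
      have h3 : InB (0, 0) (((2 * n + K + 2 : ℕ) : ℤ) - K - 2)
          (((w.1 * s + K : ℕ) : ℤ), ((w.2 * s + K : ℕ) : ℤ)) := by
        unfold InB
        simp only [sub_zero, abs_le]
        obtain ⟨A, hA⟩ : ∃ A, A = w.1 * s := ⟨_, rfl⟩
        obtain ⟨B, hB⟩ : ∃ B, B = w.2 * s := ⟨_, rfl⟩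
        rw [← hA] at h1 ⊢
        rw [← hB] at h2 ⊢
        refine ⟨⟨?_, ?_⟩, ?_, ?_⟩ <;> omega
      have h4 := hcon _ h3
      unfold DFb at h4
      push Not at h4
      obtain ⟨x, y, hin, hf⟩ := h4
      unfold InB at hin
      simp only [abs_le] at hin
      obtain ⟨A, hA⟩ : ∃ A, A = w.1 * s := ⟨_, rfl⟩
      obtain ⟨B, hB⟩ : ∃ B, B = w.2 * s := ⟨_, rfl⟩
      rw [← hA, ← hB] at hin ⊢
      refine ⟨(x.toNat, y.toNat), fun _ => ⟨⟨?_, ?_⟩, ⟨?_, ?_⟩, ?_⟩⟩
      · simp only; omega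
      · simp only; omega
      · simp only; omega
      · simp only; omega
      · have hx : ((x.toNat : ℕ) : ℤ) = x := Int.toNat_of_nonneg (by omega)
        have hy : ((y.toNat : ℕ) : ℤ) = y := Int.toNat_of_nonneg (by omega)
        simp only [hx, hy]
        by_contra h0
        exact hf (d5_face L x y (by omega))
    · exact ⟨(0, 0), fun h => absurd h hw⟩
  choose f hf using hbad
  have hs0 : 0 < s := by omega
  have hinj : Set.InjOn f (range J ×ˢ range J : Finset (ℕ × ℕ)) := by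
    intro v hv w hw hvw
    have h1 := hf v (mem_coe.1 hv)
    have h2 := hf w (mem_coe.1 hw)
    rw [hvw] at h1
    have key : ∀ a b c : ℕ, a * s ≤ c → c < a * s + s → b * s ≤ c → c < b * s + s → a = b := by
      intro a b c e1 e2 e3 e4
      have f1 : c / s = a := by
        rw [Nat.div_eq_iff hs0]
        constructor
        · exact e1
        · have : a * s + s - 1 = a * s + (s - 1) := by omega
          omega
      have f2 : c / s = b := by
        rw [Nat.div_eq_iff hs0]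
        constructor
        · exact e3
        · have : b * s + s - 1 = b * s + (s - 1) := by omega
          omega
      rw [← f1, f2]
    apply Prod.ext
    · exact key _ _ _ h1.1.1 h1.1.2 h2.1.1 h2.1.2
    · exact key _ _ _ h1.2.1.1 h1.2.1.2 h2.2.1.1 h2.2.1.2
  have hlow : J * J ≤ ∑ v ∈ range n ×ˢ range n, (d5a L v.1 v.2 + d5b L v.1 v.2) := by
    calc J * J = ∑ w ∈ range J ×ˢ range J, 1 := by
          rw [sum_const, card_product, card_range, smul_eq_mul, mul_one]
      _ ≤ ∑ w ∈ range J ×ˢ range J, (d5a L (f w).1 (f w).2 + d5b L (f w).1 (f w).2) :=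
          sum_le_sum fun w hw => (hf w hw).2.2
      _ = ∑ v ∈ (range J ×ˢ range J).image f, (d5a L v.1 v.2 + d5b L v.1 v.2) := by
          rw [sum_image hinj]
      _ ≤ _ := by
          apply sum_le_sum_of_subset
          intro v hv
          rw [mem_image] at hv
          obtain ⟨w, hw, rfl⟩ := hv
          have h1 := hf w hw
          simp only [mem_product, mem_range] at hw ⊢
          have h2 := hcell _ hw.1
          have h3 := hcell _ hw.2
          omega
  have hup : ∑ v ∈ range n ×ˢ range n, (d5a L v.1 v.2 + d5b L v.1 v.2) ≤ 24 * n := by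
    rw [sum_add_distrib]
    have h1 := d5_suma hL hno (n := n) (by omega)
    have h2 := d5_sumb hL hno (n := n) (by omega)
    omega
  have h5 : J * J ≤ 24 * (J * s) := by rw [← hn]; exact le_trans hlow hup
  have h6 : J * J ≤ J * (24 * s) := by
    calc J * J ≤ 24 * (J * s) := h5
      _ = J * (24 * s) := by ring
  have h7 : J ≤ 24 * s := Nat.le_of_mul_le_mul_left h6 (by omega)
  omega

end TorGrid
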