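import Mathlib

/-! Basic definitions for the toroidal grid theorem (C_m box C_n is 3-choosable for large m, n). -/

namespace TorGrid

open Finset

/-! ### Finite graphs with lists -/

/-- number of ordered adjacent pairs inside `X` (twice the number of edges inside `X`) -/
noncomputable def dIn {V : Type*} [DecidableEq V] (G : SimpleGraph V) (X : Finset V) : ℕ := by
  classical exact ((X ×ˢ X).filter (fun p => G.Adj p.1 p.2)).card

/-- `G` restricted to `X` can be properly coloured from the lists `L` -/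
def ColOn {V : Type*} (G : SimpleGraph V) (L : V → Finset ℕ) (X : Finset V) : Prop :=
  ∃ c : V → ℕ, (∀ v ∈ X, c v ∈ L v) ∧ ∀ u ∈ X, ∀ v ∈ X, G.Adj u v → c u ≠ c v

/-- twice the surplus: `2 * (sum of (|L| - 1)) - 2 * edges` -/
noncomputable def h2 {V : Type*} [DecidableEq V] (G : SimpleGraph V) (L : V → Finset ℕ)
    (X : Finset V) : ℤ :=
  ∑ v ∈ X, (2 * ((L v).card : ℤ) - 2) - (dIn G X : ℤ)

/-! ### The plane grid -/

abbrev P2 := ℤ × ℤ

/-- the four neighbours of a vertex of the plane grid -/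
def nb (v : P2) : Finset P2 := {(v.1 + 1, v.2), (v.1 - 1, v.2), (v.1, v.2 + 1), (v.1, v.2 - 1)}

/-- number of boundary edges of a finite set -/
def bd (Z : Finset P2) : ℕ := ∑ v ∈ Z, ((nb v) \ Z).card

/-- number of colours of `L v` used by `φ` on the neighbours of `v` in `U` -/
def lost (L : P2 → Finset ℕ) (U : Finset P2) (φ : P2 → ℕ) (v : P2) : ℕ :=
  ((((nb v) ∩ U).image φ) ∩ (L v)).card

/-- A spot: a finite properly coloured set whose colouring has positive surplus outside. -/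
structure Spot (L : P2 → Finset ℕ) (U : Finset P2) (φ : P2 → ℕ) : Prop where
  mem : ∀ u ∈ U, φ u ∈ L u
  prop : ∀ u ∈ U, ∀ v ∈ U, v ∈ nb u → φ u ≠ φ v
  S1 : ∀ Z : Finset P2, U ⊆ Z → 2 + 2 * ∑ v ∈ (U.biUnion nb) \ Z, lost L U φ v ≤ bd Z
  S2 : ∀ X : Finset P2, Disjoint X U → 2 * ∑ v ∈ X, lost L U φ v ≤ bd X

/-- `v` lies in the box of radius `r` around `z` -/
def InB (z : P2) (r : ℤ) (v : P2) : Prop := |v.1 - z.1| ≤ r ∧ |v.2 - z.2| ≤ r

/-- no spot of `L` lies inside the box of radius `r` around `z` -/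
def NoSp (L : P2 → Finset ℕ) (z : P2) (r : ℤ) : Prop :=
  ∀ U φ, (∀ u ∈ U, InB z r u) → ¬ Spot L U φ

/-- the face condition at the unit square with lower left corner `(x, y)` -/
def DFf (L : P2 → Finset ℕ) (x y : ℤ) : Prop :=
  L (x, y) ∪ L (x + 1, y + 1) = L (x + 1, y) ∪ L (x, y + 1)

/-- every unit square with lower left corner in the box satisfies the face condition -/
def DFb (L : P2 → Finset ℕ) (z : P2) (r : ℤ) : Prop :=
  ∀ x y : ℤ, InB z r (x, y) → DFf L x y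

/-! ### The torus -/

/-- the vertices of the torus -/
abbrev TV (m n : ℕ) := ZMod m × ZMod n

/-- neighbours on the torus -/
def nbT {m n : ℕ} (v : TV m n) : Finset (TV m n) :=
  {(v.1 + 1, v.2), (v.1 - 1, v.2), (v.1, v.2 + 1), (v.1, v.2 - 1)}

/-- the torus grid -/
def TG (m n : ℕ) : SimpleGraph (TV m n) where
  Adj u v := u ≠ v ∧ (v = (u.1 + 1, u.2) ∨ v = (u.1 - 1, u.2) ∨ v = (u.1, u.2 + 1) ∨ v = (u.1, u.2 - 1))
  symm := by
    refine ⟨?_⟩
    rintro u v ⟨h, h1⟩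
    refine ⟨h.symm, ?_⟩
    rcases h1 with h1 | h1 | h1 | h1
    · right; left; rw [h1]; simp
    · left; rw [h1]; simp
    · right; right; right; rw [h1]; simp
    · right; right; left; rw [h1]; simp
  loopless := ⟨fun v h => h.1 rfl⟩

/-- chart around `z` -/
def ch {m n : ℕ} (z : TV m n) (p : P2) : TV m n := (z.1 + (p.1 : ZMod m), z.2 + (p.2 : ZMod n))

/-! ### Foliations -/

/-- A foliated graph: `σ` moves one step along the leaves (the layers of `δ`), `N v` and `H v` are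
the two out-neighbours of `v`; both are adjacent to `σ v`. -/
structure Fol (V : Type*) (m : ℕ) where
  G : SimpleGraph V
  δ : V → ZMod m
  σ : Equiv.Perm V
  N : V → V
  H : V → V
  hσ : ∀ v, δ (σ v) = δ v
  hd : ∀ v, (δ (N v) = δ v + 1 ∧ δ (H v) = δ v - 1) ∨ (δ (N v) = δ v - 1 ∧ δ (H v) = δ v + 1)
  adjN : ∀ v, G.Adj v (N v)
  adjH : ∀ v, G.Adj v (H v)
  cover : ∀ u v, G.Adj u v → v = N u ∨ v = H u ∨ u = N v ∨ u = H v
  retN : ∀ v, G.Adj (N v) (σ v)
  retH : ∀ v, G.Adj (H v) (σ v)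
  orb : ∀ u v, δ u = δ v → ∃ k : ℕ, σ^[k] u = v

/-- the leaf of `v` is completely tame -/
def Fol.Full {V : Type*} {m : ℕ} (F : Fol V m) (T : V → Prop) (v : V) : Prop :=
  ∀ k : ℕ, T (F.σ^[k] v)

/-- `rep` chooses a representative for every maximal run of tame vertices on a leaf. -/
structure Cls {V : Type*} {m : ℕ} (F : Fol V m) (T U : V → Prop) (rep : V → V) : Prop where
  disj : ∀ v, T v → ¬ U v
  hδ : ∀ v, F.δ (rep v) = F.δ v
  step : ∀ v, T v → T (F.σ v) → rep (F.σ v) = rep v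
  top : ∀ v w, ¬ (T v ∧ T (F.σ v)) → ¬ (T w ∧ T (F.σ w)) → rep v = rep w → v = w

/-- the quotient graph on representatives -/
def QG {V : Type*} {m : ℕ} (F : Fol V m) (U : V → Prop) (rep : V → V) : SimpleGraph V where
  Adj a b := a ≠ b ∧ ∃ u v, ¬ U u ∧ ¬ U v ∧ rep u = a ∧ rep v = b ∧ F.G.Adj u v
  symm := by
    refine ⟨?_⟩
    rintro a b ⟨h, u, v, hu, hv, ha, hb, h1⟩
    exact ⟨h.symm, v, u, hv, hu, hb, ha, h1.symm⟩
  loopless := ⟨fun v h => h.1 rfl⟩

open Classical in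
/-- number of out-edges of `v` whose head lies in a class of `X` -/
noncomputable def outX {V : Type*} {m : ℕ} (F : Fol V m) (U : V → Prop) (rep : V → V)
    (X : Finset V) (v : V) : ℕ :=
  (if ¬ U (F.N v) ∧ rep (F.N v) ∈ X then 1 else 0) +
  (if ¬ U (F.H v) ∧ rep (F.H v) ∈ X then 1 else 0)

/-- direction of the leaves in row `t`: east in the first `A` rows, west in the others -/
def sg {n : ℕ} (A : ℕ) (t : ZMod n) : ℤ := if t.val < A then 1 else -1

/-! ### Private boxes -/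

open Classical in
/-- Credit of `Y` inside the box of radius `ρ`: vertical boundary edges and horizontal boundary
edges in normal rows count once; in a turn row only the edges in direction `ε` count, twice. -/
noncomputable def crB (ρ : ℤ) (τ : ℤ → Prop) (ε : ℤ → ℤ) (Y : Finset P2) : ℕ :=
  ∑ v ∈ Y,
    ((if InB (0, 0) ρ (v.1, v.2 + 1) ∧ (v.1, v.2 + 1) ∉ Y then 1 else 0) +
     (if InB (0, 0) ρ (v.1, v.2 - 1) ∧ (v.1, v.2 - 1) ∉ Y then 1 else 0) +
     (if τ v.2 then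
        2 * (if InB (0, 0) ρ (v.1 + ε v.2, v.2) ∧ (v.1 + ε v.2, v.2) ∉ Y then 1 else 0)
      else
        (if InB (0, 0) ρ (v.1 + 1, v.2) ∧ (v.1 + 1, v.2) ∉ Y then 1 else 0) +
        (if InB (0, 0) ρ (v.1 - 1, v.2) ∧ (v.1 - 1, v.2) ∉ Y then 1 else 0)))

/-! ### Configurations and the world -/

/-- A family of far-apart spots on the torus such that the lists are constant around every vertex
outside the boxes of radius `R1`. -/
structure Cfg (m n : ℕ) (L : TV m n → Finset ℕ) (R ρ R1 : ℕ) where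
  S : Finset (TV m n)
  U : TV m n → Finset P2
  φ : TV m n → P2 → ℕ
  spot : ∀ z ∈ S, Spot (fun p => L (ch z p)) (U z) (φ z)
  inR : ∀ z ∈ S, ∀ u ∈ U z, InB (0, 0) R u
  sep : ∀ z ∈ S, ∀ z' ∈ S, z ≠ z' → ∀ p p', InB (0, 0) ρ p → InB (0, 0) ρ p' → ch z p ≠ ch z' p'
  tame : ∀ v, (∀ z ∈ S, ∀ p, InB (0, 0) R1 p → ch z p ≠ v) →
    L v = L (v.1 + 1, v.2) ∧ L v = L (v.1 - 1, v.2) ∧ L v = L (v.1, v.2 + 1) ∧
      L v = L (v.1, v.2 - 1)

namespace Cfg

variable {m n : ℕ} {L : TV m n → Finset ℕ} {R ρ R1 : ℕ}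

/-- the precoloured vertices -/
def Us (c : Cfg m n L R ρ R1) (v : TV m n) : Prop := ∃ z ∈ c.S, ∃ u ∈ c.U z, ch z u = v

/-- the tame vertices -/
def Ts (c : Cfg m n L R ρ R1) (v : TV m n) : Prop :=
  ∀ z ∈ c.S, ∀ p, InB (0, 0) R1 p → ch z p ≠ v

open Classical in
/-- the precolouring -/
noncomputable def Phi (c : Cfg m n L R ρ R1) (v : TV m n) : ℕ :=
  if h : ∃ z u, z ∈ c.S ∧ u ∈ c.U z ∧ ch z u = v then c.φ h.choose h.choose_spec.choose else 0

open Classical in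
/-- the remaining lists -/
noncomputable def L1 (c : Cfg m n L R ρ R1) (v : TV m n) : Finset ℕ :=
  L v \ ((nbT v).filter (fun w => c.Us w)).image c.Phi

/-- number of lost colours -/
noncomputable def ls (c : Cfg m n L R ρ R1) (v : TV m n) : ℕ := 3 - (c.L1 v).card

end Cfg

/-- The whole situation: torus, foliations, spots, representatives. -/
structure World (m n : ℕ) [NeZero m] [NeZero n] (R ρ R1 : ℕ) where
  A : ℕ
  L : TV m n → Finset ℕ
  hL : ∀ v, (L v).card = 3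
  cfg : Cfg m n L R ρ R1
  F : Fol (TV m n) m
  F' : Fol (TV m n) m
  hG : F.G = TG m n
  hG' : F'.G = TG m n
  hδ : F'.δ = F.δ
  hσ : F'.σ = F.σ.symm
  eσ : ∀ v, F.σ v = (v.1 + (sg A v.2 : ZMod m), v.2 + 1)
  eN : ∀ v, F.N v = (v.1, v.2 + 1)
  eH : ∀ v, F.H v = (v.1 + (sg A v.2 : ZMod m), v.2)
  eN' : ∀ v, F'.N v = (v.1, v.2 - 1)
  eH' : ∀ v, F'.H v = (v.1 - (sg A (v.2 - 1) : ZMod m), v.2)
  rep : TV m n → TV m n
  hC : Cls F cfg.Ts cfg.Us rep
  hC' : Cls F' cfg.Ts cfg.Us rep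
  hw : ∀ v, ¬ cfg.Ts v → rep v = v
  hrr : ∀ v, rep (rep v) = rep v
  htop : ∀ v, ¬ F.Full cfg.Ts v → ¬ (cfg.Ts (rep v) ∧ cfg.Ts (F.σ (rep v)))
  hTT : ∀ v, cfg.Ts v → cfg.Ts (rep v)
  hrun : ∀ v, cfg.Ts v → ∃ k : ℕ, (∀ i ≤ k, cfg.Ts (F.σ^[i] v)) ∧ rep v = F.σ^[k] v

/-- the constants are good: `ρ` works for `R` in the private box lemma -/
def GoodC (R ρ R1 : ℕ) : Prop :=
  R + 4 < ρ ∧ ρ + 4 ≤ R1 ∧
    ∀ (L : P2 → Finset ℕ) (_ : ∀ v, (L v).card = 3) (U : Finset P2) (φ : P2 → ℕ)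
      (_ : Spot L U φ) (_ : ∀ u ∈ U, InB (0, 0) R u)
      (τ : ℤ → Prop) (ε : ℤ → ℤ) (_ : ∀ y, ε y = 1 ∨ ε y = -1)
      (_ : ∃ t1 t2 : ℤ, ∀ y : ℤ, |y| ≤ ρ → τ y → y = t1 ∨ y = t2)
      (Y : Finset P2) (_ : ∀ v ∈ Y, InB (0, 0) ρ v) (_ : Disjoint Y U),
      2 * ∑ v ∈ Y, lost L U φ v ≤ crB ρ τ ε Y ∧
      (Y.Nonempty → crB ρ τ ε Y ≤ 2 * ∑ v ∈ Y, lost L U φ v →
        ∃ Y' ⊆ Y, Y'.Nonempty ∧ (∀ v ∈ Y', InB (0, 0) (ρ - 2) v) ∧
          ∀ v ∈ Y', ∀ w ∈ nb v, w ∈ Y → w ∈ Y')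

section
variable {m n : ℕ} [NeZero m] [NeZero n] {R ρ R1 : ℕ}

/-- the quotient graph -/
def World.Q (W : World m n R ρ R1) : SimpleGraph (TV m n) := QG W.F W.cfg.Us W.rep

open Classical in
/-- the ground set: representatives of the classes of vertices that are not precoloured -/
noncomputable def World.Rs (W : World m n R ρ R1) : Finset (TV m n) :=
  univ.filter (fun a => ¬ W.cfg.Us a ∧ W.rep a = a)

open Classical in
/-- the credit of a wild vertex minus twice its losses -/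
noncomputable def World.cr (W : World m n R ρ R1) (X : Finset (TV m n)) (a : TV m n) : ℤ :=
  4 - (outX W.F W.cfg.Us W.rep X a : ℤ) - (outX W.F' W.cfg.Us W.rep X a : ℤ)
    - 2 * (W.cfg.ls a : ℤ)

open Classical in
/-- the vertices of `X` in the private box of `z`, in the chart -/
noncomputable def World.Yz (_ : World m n R ρ R1) (X : Finset (TV m n)) (z : TV m n) : Finset P2 :=
  (Finset.Icc (-(ρ : ℤ)) ρ ×ˢ Finset.Icc (-(ρ : ℤ)) ρ).filter (fun p => ch z p ∈ X)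

end

/-! ### Diagonals -/

/-- the straight diagonal segment with `k + 1` vertices starting at `(x, y)` in direction
`(1, e)` -/
def dg (e x y : ℤ) (k : ℕ) : Finset P2 := (range (k + 1)).image (fun i : ℕ => (x + i, y + e * i))

/-- the defect at `q` of the pair `p, p'` -/
def dfc (L : P2 → Finset ℕ) (p p' q : P2) : ℕ := (L q \ (L p ∪ L p')).card

/-- the automorphisms of the plane grid that we need -/
def IsAut (g : P2 → P2) : Prop := Function.Bijective g ∧ ∀ v, (nb v).image g = nb (g v)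

end TorGrid
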