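import Pool.Agent.Lib.MP_caf32e_co.Defs

/-! Row F1: the retention bound for abstract foliated graphs. -/

namespace TorGrid

open Finset

section F1

variable {V : Type*} {m : ℕ} (F : Fol V m) {T U : V → Prop} {rep : V → V}

private lemma f1_delta_iter (k : ℕ) (v : V) : F.δ (F.σ^[k] v) = F.δ v := by
  induction k generalizing v with
  | zero => rfl
  | succ k ih =>
    rw [Function.iterate_succ_apply, ih, F.hσ]

private lemma f1_full_iter {v : V} (h : F.Full T v) (k : ℕ) : F.Full T (F.σ^[k] v) := by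
  intro j
  have := h (j + k)
  rwa [Function.iterate_add_apply] at this

private lemma f1_full_leaf {v w : V} (h : F.Full T v) (hd : F.δ v = F.δ w) : F.Full T w := by
  obtain ⟨k, rfl⟩ := F.orb v w hd
  exact f1_full_iter F h k

private lemma f1_rep_iter (hC : Cls F T U rep) {v : V} (h : F.Full T v) (k : ℕ) :
    rep (F.σ^[k] v) = rep v := by
  induction k with
  | zero => rfl
  | succ k ih =>
    rw [Function.iterate_succ_apply', hC.step _ (h k) ?_, ih]
    have := h (k + 1)
    rwa [Function.iterate_succ_apply'] at this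

private lemma f1_rep_leaf (hC : Cls F T U rep) {v w : V} (h : F.Full T v)
    (hd : F.δ v = F.δ w) : rep w = rep v := by
  obtain ⟨k, rfl⟩ := F.orb v w hd
  exact f1_rep_iter F hC h k

private lemma f1_adj_delta {u w : V} (h : F.G.Adj u w) : F.δ w = F.δ u + 1 ∨ F.δ w = F.δ u - 1 := by
  rcases F.cover u w h with rfl | rfl | rfl | rfl
  · rcases F.hd u with ⟨h1, h2⟩ | ⟨h1, h2⟩
    · exact Or.inl h1
    · exact Or.inr h1
  · rcases F.hd u with ⟨h1, h2⟩ | ⟨h1, h2⟩
    · exact Or.inr h2
    · exact Or.inl h2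
  · rcases F.hd w with ⟨h1, h2⟩ | ⟨h1, h2⟩
    · right; rw [h1]; ring
    · left; rw [h1]; ring
  · rcases F.hd w with ⟨h1, h2⟩ | ⟨h1, h2⟩
    · left; rw [h2]; ring
    · right; rw [h2]; ring

/-- the out-neighbour selected by a Boolean -/
private def f1_o (q : V × Bool) : V := if q.2 then F.N q.1 else F.H q.1

/-- a vertex with a top at distance `k` -/
private def f1_top (T : V → Prop) (k : ℕ) (u : V) : Prop :=
  ¬ (T (F.σ^[k] u) ∧ T (F.σ (F.σ^[k] u)))

/-- walking to the top inside the class -/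
private lemma f1_walk (hC : Cls F T U rep) : ∀ (k : ℕ) (u : V), f1_top F T k u → ¬ U u →
    ∃ v, ¬ (T v ∧ T (F.σ v)) ∧ ¬ U v ∧ rep v = rep u ∧ F.δ v = F.δ u := by
  intro k
  induction k with
  | zero =>
    intro u h hu
    exact ⟨u, h, hu, rfl, rfl⟩
  | succ k ih =>
    intro u h hu
    by_cases ht : T u ∧ T (F.σ u)
    · obtain ⟨v, h1, h2, h3, h4⟩ := ih (F.σ u) h (hC.disj _ ht.2)
      exact ⟨v, h1, h2, h3.trans (hC.step u ht.1 ht.2), h4.trans (F.hσ u)⟩
    · exact ⟨u, ht, hu, rfl, rfl⟩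

private lemma f1_exists_top {u : V} (h : ¬ F.Full T u) : ∃ k, f1_top F T k u := by
  unfold Fol.Full at h
  push Not at h
  obtain ⟨k, hk⟩ := h
  exact ⟨k, fun h => hk h.1⟩

private lemma f1_adj_symm {u w : V} (h : F.G.Adj u w) : F.G.Adj w u := h.symm

/-- the witness for an edge between two classes with tops -/
private lemma f1_wit (hC : Cls F T U rep) : ∀ (n i j : ℕ) (u w : V), i + j = n →
    f1_top F T i u → f1_top F T j w → ¬ U u → ¬ U w → F.G.Adj u w →
    ∃ q : V × Bool, ¬ (T q.1 ∧ T (F.σ q.1)) ∧ ¬ U q.1 ∧ ¬ U (f1_o F q) ∧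
      ((rep q.1 = rep u ∧ rep (f1_o F q) = rep w) ∨ (rep q.1 = rep w ∧ rep (f1_o F q) = rep u)) := by
  intro n
  induction n using Nat.strong_induction_on with
  | _ n ih =>
    intro i j u w hij hi hj hu hw hadj
    -- one oriented step
    have step : ∀ (i j : ℕ) (u w : V) (b : Bool), i + j = n → f1_top F T i u → f1_top F T j w →
        ¬ U u → ¬ U w → w = f1_o F (u, b) →
        ∃ q : V × Bool, ¬ (T q.1 ∧ T (F.σ q.1)) ∧ ¬ U q.1 ∧ ¬ U (f1_o F q) ∧
          ((rep q.1 = rep u ∧ rep (f1_o F q) = rep w) ∨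
            (rep q.1 = rep w ∧ rep (f1_o F q) = rep u)) := by
      intro i j u w b hij hi hj hu hw ho
      by_cases ht : T u ∧ T (F.σ u)
      · obtain _ | i := i
        · exact absurd ht hi
        · have hadj' : F.G.Adj (F.σ u) w := by
            rw [ho]
            cases b
            · exact (F.retH u).symm
            · exact (F.retN u).symm
          have hrep := hC.step u ht.1 ht.2
          have := ih (i + j) (by omega) i j (F.σ u) w rfl hi hj (hC.disj _ ht.2) hw hadj'
          rwa [hrep] at this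
      · exact ⟨(u, b), ht, hu, ho ▸ hw, Or.inl ⟨rfl, by rw [ho]⟩⟩
    rcases F.cover u w hadj with h | h | h | h
    · exact step i j u w true hij hi hj hu hw (by simp [f1_o, h])
    · exact step i j u w false hij hi hj hu hw (by simp [f1_o, h])
    · obtain ⟨q, h1, h2, h3, h4⟩ := step j i w u true (by omega) hj hi hw hu (by simp [f1_o, h])
      exact ⟨q, h1, h2, h3, h4.symm⟩
    · obtain ⟨q, h1, h2, h3, h4⟩ := step j i w u false (by omega) hj hi hw hu (by simp [f1_o, h])
      exact ⟨q, h1, h2, h3, h4.symm⟩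

/-- the witness for an edge between a full class and a class with a top -/
private lemma f1_wit_full (hC : Cls F T U rep) {u w : V} (hf : F.Full T u) (hw' : ¬ F.Full T w)
    (hw : ¬ U w) (hd : F.δ u = F.δ w + 1 ∨ F.δ u = F.δ w - 1) :
    ∃ q : V × Bool, ¬ (T q.1 ∧ T (F.σ q.1)) ∧ ¬ U q.1 ∧ ¬ U (f1_o F q) ∧
      rep q.1 = rep w ∧ rep (f1_o F q) = rep u := by
  obtain ⟨k, hk⟩ := f1_exists_top F hw'
  obtain ⟨v, h1, h2, h3, h4⟩ := f1_walk F hC k w hk hw
  have key : ∀ z, F.δ z = F.δ u → ¬ U z ∧ rep z = rep u := by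
    intro z hz
    refine ⟨?_, f1_rep_leaf F hC hf hz.symm⟩
    exact hC.disj _ (f1_full_leaf F hf hz.symm 0)
  rcases hd with hd | hd <;> rcases F.hd v with ⟨h5, h6⟩ | ⟨h5, h6⟩
  · have := key (F.N v) (by rw [h5, h4, hd])
    exact ⟨(v, true), h1, h2, this.1, h3, this.2⟩
  · have := key (F.H v) (by rw [h6, h4, hd])
    exact ⟨(v, false), h1, h2, this.1, h3, this.2⟩
  · have := key (F.H v) (by rw [h6, h4, hd])
    exact ⟨(v, false), h1, h2, this.1, h3, this.2⟩
  · have := key (F.N v) (by rw [h5, h4, hd])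
    exact ⟨(v, true), h1, h2, this.1, h3, this.2⟩

end F1

open Classical in
/-- F1. Retention bound. -/
theorem ret_bound {V : Type*} [Fintype V] [DecidableEq V] {m : ℕ} (F : Fol V m)
    (T U : V → Prop) (rep : V → V) (hC : Cls F T U rep) (X : Finset V) :
    dIn (QG F U rep) X ≤
      2 * ∑ v ∈ univ.filter (fun v => ¬ U v ∧ ¬ (T v ∧ T (F.σ v)) ∧ rep v ∈ X), outX F U rep X v
      + 2 * (X.filter (fun a => F.Full T a)).card := by
  set tops := univ.filter (fun v => ¬ U v ∧ ¬ (T v ∧ T (F.σ v)) ∧ rep v ∈ X) with htops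
  set W : Finset (V × Bool) := (tops ×ˢ (univ : Finset Bool)).filter
    (fun q => ¬ U (f1_o F q) ∧ rep (f1_o F q) ∈ X) with hW
  have hWc : W.card = ∑ v ∈ tops, outX F U rep X v := by
    rw [hW, card_filter, sum_product]
    apply sum_congr rfl
    intro v _
    rw [Fintype.sum_bool]
    unfold outX f1_o
    simp only [if_true, if_false, Bool.false_eq_true]
    congr!
  have hdin : dIn (QG F U rep) X =
      ((X ×ˢ X).filter (fun p => (QG F U rep).Adj p.1 p.2)).card := rfl
  set S := (X ×ˢ X).filter (fun p => (QG F U rep).Adj p.1 p.2) with hS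
  have hsplit : S.card = (S.filter (fun p => F.Full T p.1 ∧ F.Full T p.2)).card +
      (S.filter (fun p => ¬ (F.Full T p.1 ∧ F.Full T p.2))).card :=
    (card_filter_add_card_filter_not _).symm
  have h1 : (S.filter (fun p => F.Full T p.1 ∧ F.Full T p.2)).card ≤
      2 * (X.filter (fun a => F.Full T a)).card := by
    have h2 : (S.filter (fun p => F.Full T p.1 ∧ F.Full T p.2)).card ≤
        ((X.filter (fun a => F.Full T a)) ×ˢ (univ : Finset Bool)).card := by
      apply card_le_card_of_injOn (fun p => (p.1, decide (F.δ p.2 = F.δ p.1 + 1)))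
      · intro p hp
        simp only [coe_filter, Set.mem_ofPred_eq, hS, mem_filter, mem_product] at hp
        simp only [coe_product, coe_filter, coe_univ, Set.mem_prod, Set.mem_ofPred_eq,
          Set.mem_univ, and_true]
        exact ⟨hp.1.1.1, hp.2.1⟩
      · rintro ⟨a, b⟩ hp ⟨a', b'⟩ hp' heq
        simp only [coe_filter, Set.mem_ofPred_eq, hS, mem_filter, mem_product] at hp hp'
        simp only [Prod.mk.injEq, decide_eq_decide] at heq
        obtain ⟨rfl, heq⟩ := heq
        obtain ⟨⟨-, hne, u, w, hu, hw, ha, hb, hadj⟩, hfa, hfb⟩ := hp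
        obtain ⟨⟨-, hne', u', w', hu', hw', ha', hb', hadj'⟩, -, hfb'⟩ := hp'
        have e1 := f1_adj_delta F hadj
        have e2 := f1_adj_delta F hadj'
        rw [← hC.hδ w, ← hC.hδ u, ha, hb] at e1
        rw [← hC.hδ w', ← hC.hδ u', ha', hb'] at e2
        have hbb : F.δ b = F.δ b' := by
          by_cases hc : F.δ b = F.δ a + 1
          · rw [hc, heq.1 hc]
          · have hc' : ¬ F.δ b' = F.δ a + 1 := fun h => hc (heq.2 h)
            rw [e1.resolve_left hc, e2.resolve_left hc']
        have hww : F.δ w = F.δ w' := by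
          rw [← hC.hδ w, ← hC.hδ w', hb, hb', hbb]
        have hfw : F.Full T w := f1_full_leaf F hfb (by rw [← hC.hδ w, hb])
        have := f1_rep_leaf F hC hfw hww
        rw [hb, hb'] at this
        rw [this]
    rw [card_product, card_univ, Fintype.card_bool] at h2
    omega
  have h2 : (S.filter (fun p => ¬ (F.Full T p.1 ∧ F.Full T p.2))).card ≤ 2 * W.card := by
    have hsub : S.filter (fun p => ¬ (F.Full T p.1 ∧ F.Full T p.2)) ⊆
        (W ×ˢ (univ : Finset Bool)).image
          (fun r => if r.2 then (rep r.1.1, rep (f1_o F r.1)) else (rep (f1_o F r.1), rep r.1.1)) := by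
      rintro ⟨a, b⟩ hp
      simp only [hS, mem_filter, mem_product] at hp
      obtain ⟨⟨⟨haX, hbX⟩, hne, u, w, hu, hw, ha, hb, hadj⟩, hnf⟩ := hp
      have hq : ∃ q : V × Bool, ¬ (T q.1 ∧ T (F.σ q.1)) ∧ ¬ U q.1 ∧ ¬ U (f1_o F q) ∧
          ((rep q.1 = rep u ∧ rep (f1_o F q) = rep w) ∨
            (rep q.1 = rep w ∧ rep (f1_o F q) = rep u)) := by
        by_cases hfu : F.Full T u
        · have hfw : ¬ F.Full T w := by
            intro hfw
            apply hnf
            exact ⟨f1_full_leaf F hfu (by rw [← ha, hC.hδ]),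
              f1_full_leaf F hfw (by rw [← hb, hC.hδ])⟩
          obtain ⟨q, q1, q2, q3, q4, q5⟩ := f1_wit_full F hC hfu hfw hw (by
            rcases f1_adj_delta F hadj.symm with h | h
            · exact Or.inl h
            · exact Or.inr h)
          exact ⟨q, q1, q2, q3, Or.inr ⟨q4, q5⟩⟩
        · by_cases hfw : F.Full T w
          · obtain ⟨q, q1, q2, q3, q4, q5⟩ := f1_wit_full F hC hfw hfu hu (f1_adj_delta F hadj)
            exact ⟨q, q1, q2, q3, Or.inl ⟨q4, q5⟩⟩
          · obtain ⟨i, hi⟩ := f1_exists_top F hfu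
            obtain ⟨j, hj⟩ := f1_exists_top F hfw
            exact f1_wit F hC (i + j) i j u w rfl hi hj hu hw hadj
      obtain ⟨q, q1, q2, q3, q4⟩ := hq
      rw [ha, hb] at q4
      rw [mem_image]
      rcases q4 with ⟨q4, q5⟩ | ⟨q4, q5⟩
      · refine ⟨(q, true), ?_, by simp [q4, q5]⟩
        simp only [mem_product, mem_univ, and_true, hW, htops, mem_filter, true_and]
        exact ⟨⟨q2, q1, q4 ▸ haX⟩, q3, q5 ▸ hbX⟩
      · refine ⟨(q, false), ?_, by simp [q4, q5]⟩
        simp only [mem_product, mem_univ, and_true, hW, htops, mem_filter, true_and]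
        exact ⟨⟨q2, q1, q4 ▸ hbX⟩, q3, q5 ▸ haX⟩
    have h3 := card_le_card hsub
    have h4 := card_image_le (s := W ×ˢ (univ : Finset Bool)) (f :=
      (fun r => if r.2 then (rep r.1.1, rep (f1_o F r.1)) else (rep (f1_o F r.1), rep r.1.1)))
    rw [card_product, card_univ, Fintype.card_bool] at h4
    omega
  rw [hdin, hsplit, ← hWc]
  omega

end TorGrid
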