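import Pool.Agent.Lib.MP_caf32e_co.Defs
import Pool.Agent.Lib.MP_caf32e_co.F1

/-! Row F2: the star inequality. -/

set_option autoImplicit false

namespace TorGrid

open Finset

theorem f2_full_of {V : Type*} {m : ℕ} (F : Fol V m) (T : V → Prop) (v w : V)
    (h : F.Full T v) (hd : F.δ v = F.δ w) : F.Full T w := by
  intro k
  obtain ⟨j, hj⟩ := F.orb v w hd
  rw [← hj, ← Function.iterate_add_apply]
  exact h (k + j)

theorem f2_delta {V : Type*} {m : ℕ} (F : Fol V m) (k : ℕ) (v : V) :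
    F.δ (F.σ^[k] v) = F.δ v := by
  induction k with
  | zero => rfl
  | succ k ih => rw [Function.iterate_succ_apply', F.hσ, ih]

theorem f2_full_iff {V : Type*} {m : ℕ} (F : Fol V m) (T : V → Prop) (v : V) :
    F.Full T v ↔ ∀ w, F.δ v = F.δ w → T w := by
  constructor
  · intro h w hw
    exact f2_full_of F T v w h hw 0
  · intro h k
    exact h _ (f2_delta F k v).symm

theorem f2_full_symm {V : Type*} {m : ℕ} (F F' : Fol V m) (hδ : F'.δ = F.δ) (T : V → Prop)
    (v : V) : F'.Full T v ↔ F.Full T v := by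
  rw [f2_full_iff, f2_full_iff, hδ]

theorem f2_QG {V : Type*} {m : ℕ} (F F' : Fol V m) (hG : F'.G = F.G) (U : V → Prop)
    (rep : V → V) : QG F' U rep = QG F U rep := by
  ext a b
  simp only [QG, hG]

open Classical in
/-- F2. The star inequality. -/
theorem star {V : Type*} [Fintype V] [DecidableEq V] {m : ℕ} (F F' : Fol V m)
    (hG : F'.G = F.G) (hδ : F'.δ = F.δ) (hσ : F'.σ = F.σ.symm)
    (T U : V → Prop) (rep : V → V) (hC : Cls F T U rep) (hC' : Cls F' T U rep)
    (hw : ∀ v, ¬ T v → rep v = v)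
    (L1 : V → Finset ℕ) (l : V → ℕ) (hl : ∀ v, (L1 v).card + l v = 3) (hlT : ∀ v, T v → l v = 0)
    (X : Finset V) (hX : ∀ a ∈ X, ¬ U a ∧ rep a = a)
    (htop : ∀ a ∈ X, ¬ F.Full T a → ¬ (T a ∧ T (F.σ a))) :
    (∑ a ∈ X.filter (fun a => ¬ T a),
        (4 - (outX F U rep X a : ℤ) - (outX F' U rep X a : ℤ) - 2 * (l a : ℤ))) +
      (∑ a ∈ X.filter (fun a => T a ∧ ¬ F.Full T a), (2 - (outX F U rep X a : ℤ))) +
      2 * ((X.filter (fun a => F.Full T a)).card : ℤ) ≤ h2 (QG F U rep) L1 X := by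
  have hFT : ∀ a, F.Full T a → T a := fun a h => h 0
  have h1 := ret_bound F T U rep hC X
  have h2' := ret_bound F' T U rep hC' X
  rw [f2_QG F F' hG U rep] at h2'
  have hfull : (X.filter (fun a => F'.Full T a)) = (X.filter (fun a => F.Full T a)) := by
    ext a
    rw [Finset.mem_filter, Finset.mem_filter, f2_full_symm F F' hδ T a]
  rw [hfull] at h2'
  -- tops
  have hA : ∑ v ∈ univ.filter (fun v => ¬ U v ∧ ¬ (T v ∧ T (F.σ v)) ∧ rep v ∈ X), outX F U rep X v
      ≤ ∑ a ∈ X.filter (fun a => ¬ F.Full T a), outX F U rep X a := by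
    apply Finset.sum_le_sum_of_subset
    intro v hv
    rw [Finset.mem_filter] at hv
    obtain ⟨-, -, hvt, hvX⟩ := hv
    have hnf : ¬ F.Full T v := by
      intro hf
      apply hvt
      exact ⟨hf 0, hf 1⟩
    have hnf' : ¬ F.Full T (rep v) := fun hf => hnf (f2_full_of F T _ _ hf (hC.hδ v))
    have h3 := hC.top v (rep v) hvt (htop _ hvX hnf') (hX _ hvX).2.symm
    rw [Finset.mem_filter]
    rw [← h3] at hvX
    exact ⟨hvX, hnf⟩
  -- bottoms
  have hB : ∑ v ∈ univ.filter (fun v => ¬ U v ∧ ¬ (T v ∧ T (F'.σ v)) ∧ rep v ∈ X),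
      outX F' U rep X v ≤ ∑ a ∈ X.filter (fun a => ¬ T a), outX F' U rep X a +
        2 * (X.filter (fun a => T a ∧ ¬ F.Full T a)).card := by
    set Bt := univ.filter (fun v => ¬ U v ∧ ¬ (T v ∧ T (F'.σ v)) ∧ rep v ∈ X) with hBt
    rw [← Finset.sum_filter_add_sum_filter_not Bt (fun v => ¬ T v)]
    apply Nat.add_le_add
    · apply Finset.sum_le_sum_of_subset
      intro v hv
      rw [Finset.mem_filter, hBt, Finset.mem_filter] at hv
      rw [Finset.mem_filter]
      have := hv.1.2.2.2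
      rw [hw v hv.2] at this
      exact ⟨this, hv.2⟩
    · have hle : ∀ v ∈ Bt.filter (fun v => ¬ ¬ T v), outX F' U rep X v ≤ 2 := by
        intro v _
        unfold outX
        split_ifs <;> omega
      refine (Finset.sum_le_sum hle).trans ?_
      rw [Finset.sum_const, smul_eq_mul, mul_comm]
      apply Nat.mul_le_mul_left
      apply Finset.card_le_card_of_injOn rep
      · intro v hv
        rw [Finset.mem_coe, Finset.mem_filter, hBt, Finset.mem_filter] at hv
        obtain ⟨⟨-, -, hvb, hvX⟩, hvT⟩ := hv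
        have hvT' : T v := not_not.1 hvT
        rw [Finset.mem_coe, Finset.mem_filter]
        have hnf : ¬ F.Full T v := by
          intro hf
          apply hvb
          refine ⟨hvT', ?_⟩
          exact (f2_full_iff F T v).1 hf _ (by rw [← hδ]; exact (F'.hσ v).symm)
        refine ⟨hvX, ?_, fun hf => hnf (f2_full_of F T _ _ hf (hC.hδ v))⟩
        by_contra hnT
        have h3 := hC'.top v (rep v) hvb (fun hc => hnT hc.1) (hX _ hvX).2.symm
        rw [← h3] at hnT
        exact hnT hvT'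
      · intro v hv w hw' hvw
        rw [Finset.mem_coe, Finset.mem_filter, hBt, Finset.mem_filter] at hv hw'
        exact hC'.top v w hv.1.2.2.1 hw'.1.2.2.1 hvw
  -- splitting the sum over X
  have hsplit1 : ∀ g : V → ℤ, ∑ a ∈ X, g a = ∑ a ∈ X.filter (fun a => ¬ T a), g a +
      (∑ a ∈ X.filter (fun a => T a ∧ ¬ F.Full T a), g a +
        ∑ a ∈ X.filter (fun a => F.Full T a), g a) := by
    intro g
    rw [← Finset.sum_filter_add_sum_filter_not X (fun a => ¬ T a)]
    congr 1
    rw [← Finset.sum_filter_add_sum_filter_not (X.filter (fun a => ¬ ¬ T a))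
      (fun a => ¬ F.Full T a)]
    congr 1
    · apply Finset.sum_congr _ (fun _ _ => rfl)
      ext a
      simp only [Finset.mem_filter, not_not]
      tauto
    · apply Finset.sum_congr _ (fun _ _ => rfl)
      ext a
      simp only [Finset.mem_filter, not_not]
      constructor
      · rintro ⟨⟨ha, -⟩, hf⟩
        exact ⟨ha, hf⟩
      · rintro ⟨ha, hf⟩
        exact ⟨⟨ha, hFT a hf⟩, hf⟩
  have hsplit2 : ∑ a ∈ X.filter (fun a => ¬ F.Full T a), (outX F U rep X a : ℤ) =
      ∑ a ∈ X.filter (fun a => ¬ T a), (outX F U rep X a : ℤ) +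
      ∑ a ∈ X.filter (fun a => T a ∧ ¬ F.Full T a), (outX F U rep X a : ℤ) := by
    rw [← Finset.sum_filter_add_sum_filter_not (X.filter (fun a => ¬ F.Full T a)) (fun a => ¬ T a)]
    congr 1
    · apply Finset.sum_congr _ (fun _ _ => rfl)
      ext a
      simp only [Finset.mem_filter]
      constructor
      · rintro ⟨⟨ha, -⟩, ht⟩
        exact ⟨ha, ht⟩
      · rintro ⟨ha, ht⟩
        exact ⟨⟨ha, fun hf => ht (hFT a hf)⟩, ht⟩
    · apply Finset.sum_congr _ (fun _ _ => rfl)
      ext a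
      simp only [Finset.mem_filter, not_not]
      tauto
  have hlz : ∀ a, (((L1 a).card : ℕ) : ℤ) = 3 - (l a : ℤ) := by
    intro a
    have := hl a
    omega
  unfold h2
  rw [hsplit1 (fun v => 2 * ((L1 v).card : ℤ) - 2)]
  have e1 : ∑ a ∈ X.filter (fun a => ¬ T a), (2 * ((L1 a).card : ℤ) - 2) =
      ∑ a ∈ X.filter (fun a => ¬ T a), (4 - 2 * (l a : ℤ)) := by
    apply Finset.sum_congr rfl
    intro a _
    rw [hlz]; ring
  have e2 : ∑ a ∈ X.filter (fun a => T a ∧ ¬ F.Full T a), (2 * ((L1 a).card : ℤ) - 2) =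
      4 * ((X.filter (fun a => T a ∧ ¬ F.Full T a)).card : ℤ) := by
    rw [Finset.sum_congr rfl (g := fun _ => (4 : ℤ))]
    · rw [Finset.sum_const, nsmul_eq_mul, mul_comm]
    · intro a ha
      rw [hlz, hlT a (Finset.mem_filter.1 ha).2.1]
      norm_num
  have e3 : ∑ a ∈ X.filter (fun a => F.Full T a), (2 * ((L1 a).card : ℤ) - 2) =
      4 * ((X.filter (fun a => F.Full T a)).card : ℤ) := by
    rw [Finset.sum_congr rfl (g := fun _ => (4 : ℤ))]
    · rw [Finset.sum_const, nsmul_eq_mul, mul_comm]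
    · intro a ha
      rw [hlz, hlT a (hFT a (Finset.mem_filter.1 ha).2)]
      norm_num
  rw [e1, e2, e3]
  have e4 : ∑ a ∈ X.filter (fun a => ¬ T a),
      (4 - (outX F U rep X a : ℤ) - (outX F' U rep X a : ℤ) - 2 * (l a : ℤ)) =
      ∑ a ∈ X.filter (fun a => ¬ T a), (4 - 2 * (l a : ℤ)) -
      ∑ a ∈ X.filter (fun a => ¬ T a), (outX F U rep X a : ℤ) -
      ∑ a ∈ X.filter (fun a => ¬ T a), (outX F' U rep X a : ℤ) := by
    rw [← Finset.sum_sub_distrib, ← Finset.sum_sub_distrib]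
    apply Finset.sum_congr rfl
    intro a _
    ring
  have e5 : ∑ a ∈ X.filter (fun a => T a ∧ ¬ F.Full T a), (2 - (outX F U rep X a : ℤ)) =
      2 * ((X.filter (fun a => T a ∧ ¬ F.Full T a)).card : ℤ) -
      ∑ a ∈ X.filter (fun a => T a ∧ ¬ F.Full T a), (outX F U rep X a : ℤ) := by
    rw [Finset.sum_sub_distrib, Finset.sum_const, nsmul_eq_mul, mul_comm]
  rw [e4, e5]
  have i1 : (dIn (QG F U rep) X : ℤ) ≤
      2 * ∑ a ∈ X.filter (fun a => ¬ F.Full T a), (outX F U rep X a : ℤ) +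
      2 * ((X.filter (fun a => F.Full T a)).card : ℤ) := by
    have := h1.trans (Nat.add_le_add_right (Nat.mul_le_mul_left 2 hA) _)
    exact_mod_cast this
  have i2 : (dIn (QG F U rep) X : ℤ) ≤
      2 * (∑ a ∈ X.filter (fun a => ¬ T a), (outX F' U rep X a : ℤ) +
        2 * ((X.filter (fun a => T a ∧ ¬ F.Full T a)).card : ℤ)) +
      2 * ((X.filter (fun a => F.Full T a)).card : ℤ) := by
    have := h2'.trans (Nat.add_le_add_right (Nat.mul_le_mul_left 2 hB) _)
    exact_mod_cast this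
  rw [hsplit2] at i1
  linarith

end TorGrid
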