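import Pool.Agent.Lib.MP_caf32e_co.Defs

/-! Row F3: existence of representatives. -/

set_option autoImplicit false

namespace TorGrid

open Finset

theorem f3_iter_succ {V : Type*} {m : ℕ} (F : Fol V m) (k : ℕ) (v : V) :
    F.σ^[k + 1] v = F.σ (F.σ^[k] v) := Function.iterate_succ_apply' _ _ _

theorem f3_delta {V : Type*} {m : ℕ} (F : Fol V m) (k : ℕ) (v : V) :
    F.δ (F.σ^[k] v) = F.δ v := by
  induction k with
  | zero => rfl
  | succ k ih => rw [f3_iter_succ, F.hσ, ih]

theorem f3_full_of {V : Type*} {m : ℕ} (F : Fol V m) (T : V → Prop) (v w : V)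
    (h : F.Full T v) (hd : F.δ v = F.δ w) : F.Full T w := by
  intro k
  obtain ⟨j, hj⟩ := F.orb v w hd
  rw [← hj, ← Function.iterate_add_apply]
  exact h (k + j)

/-- F3. Existence of representatives. -/
theorem cls_exists {V : Type*} [Fintype V] {m : ℕ} (F F' : Fol V m)
    (hG : F'.G = F.G) (hδ : F'.δ = F.δ) (hσ : F'.σ = F.σ.symm)
    (T U : V → Prop) (disj : ∀ v, T v → ¬ U v) (base : ZMod m → V)
    (hbase : ∀ v, F.δ (base (F.δ v)) = F.δ v) :
    ∃ rep : V → V, Cls F T U rep ∧ Cls F' T U rep ∧ (∀ v, ¬ T v → rep v = v) ∧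
      (∀ v, rep (rep v) = rep v) ∧
      (∀ v, ¬ F.Full T v → ¬ (T (rep v) ∧ T (F.σ (rep v)))) ∧
      (∀ v, T v → T (rep v)) ∧
      (∀ v, T v → ∃ k : ℕ, (∀ i ≤ k, T (F.σ^[i] v)) ∧ rep v = F.σ^[k] v) := by
  classical
  let top : V → Prop := fun w => ¬ (T w ∧ T (F.σ w))
  -- existence of a top above a vertex
  have hnt : ∀ v, (¬ ∃ k, top (F.σ^[k] v)) → F.Full T v := by
    intro v h k
    by_contra hk
    exact h ⟨k, fun hc => hk hc.1⟩
  have hft : ∀ v, F.Full T v → ¬ ∃ k, top (F.σ^[k] v) := by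
    rintro v h ⟨k, hk⟩
    apply hk
    refine ⟨h k, ?_⟩
    rw [← f3_iter_succ]
    exact h (k + 1)
  let rep : V → V := fun v =>
    if h : ∃ k, top (F.σ^[k] v) then F.σ^[Nat.find h] v else base (F.δ v)
  have hrep1 : ∀ v (h : ∃ k, top (F.σ^[k] v)), rep v = F.σ^[Nat.find h] v := by
    intro v h
    simp only [rep, dif_pos h]
  have hrep2 : ∀ v, (¬ ∃ k, top (F.σ^[k] v)) → rep v = base (F.δ v) := by
    intro v h
    simp only [rep, dif_neg h]
  have hlow : ∀ v (h : ∃ k, top (F.σ^[k] v)) (i : ℕ), i < Nat.find h →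
      T (F.σ^[i] v) ∧ T (F.σ^[i + 1] v) := by
    intro v h i hi
    have h1 := Nat.find_min h hi
    have h2 : T (F.σ^[i] v) ∧ T (F.σ (F.σ^[i] v)) := not_not.1 h1
    rw [f3_iter_succ]
    exact h2
  have htop0 : ∀ v, top v → rep v = v := by
    intro v hv
    have h : ∃ k, top (F.σ^[k] v) := ⟨0, hv⟩
    have h0 : Nat.find h = 0 := (Nat.find_eq_zero h).2 hv
    rw [hrep1 v h, h0]
    rfl
  have hall : ∀ v (h : ∃ k, top (F.σ^[k] v)), T v → ∀ i ≤ Nat.find h, T (F.σ^[i] v) := by
    intro v h hTv i hi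
    rcases Nat.eq_zero_or_pos i with h0 | h0
    · rw [h0]; exact hTv
    · obtain ⟨j, rfl⟩ : ∃ j, i = j + 1 := ⟨i - 1, by omega⟩
      exact (hlow v h j (by omega)).2
  have hrun : ∀ v, T v → ∃ k : ℕ, (∀ i ≤ k, T (F.σ^[i] v)) ∧ rep v = F.σ^[k] v := by
    intro v hTv
    by_cases h : ∃ k, top (F.σ^[k] v)
    · exact ⟨Nat.find h, hall v h hTv, hrep1 v h⟩
    · obtain ⟨k, hk⟩ := F.orb v (base (F.δ v)) (hbase v).symm
      exact ⟨k, fun i _ => hnt v h i, by rw [hrep2 v h, hk]⟩
  have hTT : ∀ v, T v → T (rep v) := by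
    intro v hTv
    obtain ⟨k, h1, h2⟩ := hrun v hTv
    rw [h2]
    exact h1 k le_rfl
  have hdel : ∀ v, F.δ (rep v) = F.δ v := by
    intro v
    by_cases h : ∃ k, top (F.σ^[k] v)
    · rw [hrep1 v h, f3_delta]
    · rw [hrep2 v h, hbase]
  have hstep : ∀ v, T v → T (F.σ v) → rep (F.σ v) = rep v := by
    intro v hTv hTs
    by_cases h : ∃ k, top (F.σ^[k] v)
    · have hpos : 0 < Nat.find h := by
        rw [Nat.pos_iff_ne_zero]
        intro h0
        have := (Nat.find_eq_zero h).1 h0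
        exact this ⟨hTv, hTs⟩
      obtain ⟨j, hj⟩ : ∃ j, Nat.find h = j + 1 := ⟨Nat.find h - 1, by omega⟩
      have hs : ∃ k, top (F.σ^[k] (F.σ v)) := by
        refine ⟨j, ?_⟩
        rw [← Function.iterate_succ_apply, ← Nat.succ_eq_add_one] at *
        have := Nat.find_spec h
        rw [hj] at this
        exact this
      have hfs : Nat.find hs = j := by
        rw [Nat.find_eq_iff]
        constructor
        · have := Nat.find_spec h
          rw [hj] at this
          exact this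
        · intro i hi
          have h3 := Nat.find_min h (m := i + 1) (by omega)
          exact h3
      rw [hrep1 v h, hrep1 _ hs, hfs, hj]
      rfl
    · have hs : ¬ ∃ k, top (F.σ^[k] (F.σ v)) := by
        apply hft
        exact f3_full_of F T v (F.σ v) (hnt v h) (F.hσ v).symm
      rw [hrep2 v h, hrep2 _ hs, F.hσ]
  have hmain : ∀ (v w : V) (k l : ℕ), k ≤ l → (∀ i ≤ l, T (F.σ^[i] w) ∨ l = 0) →
      F.σ^[k] v = F.σ^[l] w → ¬ (T v ∧ T (F.σ.symm v)) → v = w := by
    intro v w k l hkl hT heq hbot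
    obtain ⟨j, rfl⟩ := Nat.exists_eq_add_of_le hkl
    rw [Function.iterate_add_apply] at heq
    have hinj : Function.Injective (F.σ^[k]) := F.σ.injective.iterate k
    have h1 := hinj heq
    rcases Nat.eq_zero_or_pos j with h0 | h0
    · rw [h0] at h1
      exact h1
    · exfalso
      obtain ⟨i, rfl⟩ : ∃ i, j = i + 1 := ⟨j - 1, by omega⟩
      apply hbot
      constructor
      · rw [h1]
        rcases hT (i + 1) (by omega) with h2 | h2
        · exact h2
        · omega
      · rw [h1, f3_iter_succ, Equiv.symm_apply_apply]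
        rcases hT i (by omega) with h2 | h2
        · exact h2
        · omega
  have hnotfull : ∀ v, ¬ (T v ∧ T (F.σ.symm v)) → ∃ k, top (F.σ^[k] v) := by
    intro v hv
    by_contra h
    apply hv
    have hF := hnt v h
    refine ⟨hF 0, ?_⟩
    have hd : F.δ v = F.δ (F.σ.symm v) := by
      have := F.hσ (F.σ.symm v)
      rw [Equiv.apply_symm_apply] at this
      exact this
    obtain ⟨k, hk⟩ := F.orb v (F.σ.symm v) hd
    rw [← hk]
    exact hF k
  refine ⟨rep, ⟨disj, hdel, hstep, ?_⟩, ⟨disj, ?_, ?_, ?_⟩, ?_, ?_, ?_, hTT, hrun⟩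
  · intro v w hv hw h
    rw [htop0 v hv, htop0 w hw] at h
    exact h
  · intro v
    rw [hδ]
    exact hdel v
  · intro v hTv hTs
    rw [hσ] at hTs ⊢
    have := hstep (F.σ.symm v) hTs (by rw [Equiv.apply_symm_apply]; exact hTv)
    rw [Equiv.apply_symm_apply] at this
    exact this.symm
  · intro v w hv hw h
    rw [hσ] at hv hw
    have h1 := hnotfull v hv
    have h2 := hnotfull w hw
    rw [hrep1 v h1, hrep1 w h2] at h
    have hTor : ∀ (u : V) (hu : ∃ k, top (F.σ^[k] u)), ∀ i ≤ Nat.find hu,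
        T (F.σ^[i] u) ∨ Nat.find hu = 0 := by
      intro u hu i hi
      rcases Nat.eq_zero_or_pos (Nat.find hu) with h0 | h0
      · exact Or.inr h0
      · left
        exact hall u hu (hlow u hu 0 h0).1 i hi
    rcases le_total (Nat.find h1) (Nat.find h2) with hle | hle
    · exact hmain v w _ _ hle (hTor w h2) h hv
    · exact (hmain w v _ _ hle (hTor v h1) h.symm hw).symm
  · intro v hv
    exact htop0 v (fun hc => hv hc.1)
  · intro v
    by_cases h : ∃ k, top (F.σ^[k] v)
    · apply htop0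
      rw [hrep1 v h]
      exact Nat.find_spec h
    · have hF := hnt v h
      have hd : F.δ v = F.δ (base (F.δ v)) := (hbase v).symm
      have hFb := f3_full_of F T v (base (F.δ v)) hF hd
      rw [hrep2 v h, hrep2 _ (hft _ hFb), hbase]
  · intro v hv
    have h : ∃ k, top (F.σ^[k] v) := by
      by_contra hc
      exact hv (hnt v hc)
    rw [hrep1 v h]
    exact Nat.find_spec h

end TorGrid
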