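import Pool.Agent.Lib.MP_caf32e_co.Defs

/-! Row K1: kernels of bipartite digraphs. -/

namespace TorGrid

open Finset

/-- K1. Every bipartite digraph (on a finite set) has a kernel. -/
theorem kernel_exists {V : Type*} [DecidableEq V] (A : V → Prop) (R : V → V → Prop)
    (hR : ∀ u v, R u v → (A u ↔ ¬ A v)) (S : Finset V) :
    ∃ K ⊆ S, (∀ u ∈ K, ∀ v ∈ K, ¬ R u v) ∧ ∀ u ∈ S, u ∉ K → ∃ v ∈ K, R u v := by
  classical
  induction S using Finset.strongInduction with
  | H S ih =>
    by_cases h : ∃ v ∈ S, ∀ w ∈ S, ¬ R v w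
    · obtain ⟨v, hv, hw⟩ := h
      have hsub : S.filter (fun u => u ≠ v ∧ ¬ R u v) ⊂ S := by
        rw [Finset.filter_ssubset]
        exact ⟨v, hv, fun h => h.1 rfl⟩
      obtain ⟨K, hK, hind, hdom⟩ := ih _ hsub
      have hKS : ∀ u ∈ K, u ∈ S ∧ u ≠ v ∧ ¬ R u v := by
        intro u hu
        have := Finset.mem_filter.1 (hK hu)
        exact ⟨this.1, this.2.1, this.2.2⟩
      refine ⟨insert v K, ?_, ?_, ?_⟩
      · intro u hu
        rcases Finset.mem_insert.1 hu with rfl | hu
        · exact hv
        · exact (hKS u hu).1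
      · intro u hu w hw'
        rcases Finset.mem_insert.1 hu with hu1 | hu1
        · rcases Finset.mem_insert.1 hw' with hw1 | hw1
          · rw [hu1, hw1]
            exact hw _ hv
          · rw [hu1]
            exact hw _ (hKS w hw1).1
        · rcases Finset.mem_insert.1 hw' with hw1 | hw1
          · rw [hw1]
            exact (hKS u hu1).2.2
          · exact hind u hu1 w hw1
      · intro u hu hnu
        rw [Finset.mem_insert, not_or] at hnu
        by_cases huv : R u v
        · exact ⟨v, Finset.mem_insert_self _ _, huv⟩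
        · obtain ⟨w, hwK, hRw⟩ := hdom u (Finset.mem_filter.2 ⟨hu, hnu.1, huv⟩) hnu.2
          exact ⟨w, Finset.mem_insert_of_mem hwK, hRw⟩
    · push Not at h
      refine ⟨S.filter A, Finset.filter_subset _ _, ?_, ?_⟩
      · intro u hu v hv hRuv
        exact ((hR u v hRuv).1 (Finset.mem_filter.1 hu).2) (Finset.mem_filter.1 hv).2
      · intro u hu hnu
        obtain ⟨w, hwS, hRw⟩ := h u hu
        have hnA : ¬ A u := fun hA => hnu (Finset.mem_filter.2 ⟨hu, hA⟩)
        have hAw : A w := by
          by_contra hAw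
          exact hnA ((hR u w hRw).2 hAw)
        exact ⟨w, Finset.mem_filter.2 ⟨hwS, hAw⟩, hRw⟩

end TorGrid
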