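import Pool.Agent.Lib.MP_caf32e_co.K4

/-! Row K5: the criticality lemma. -/

namespace TorGrid

open Finset

open Classical in
private lemma k5_dIn_eq {V : Type*} [DecidableEq V] (G : SimpleGraph V) (X : Finset V) :
    dIn G X = ∑ v ∈ X, (X.filter (fun w => G.Adj v w)).card := by
  unfold dIn
  rw [card_filter, sum_product]
  apply sum_congr rfl
  intro v _
  rw [card_filter]

open Classical in
private lemma k5_cross {V : Type*} [DecidableEq V] (G : SimpleGraph V) (Y W : Finset V) :
    ∑ v ∈ Y, (W.filter (fun w => G.Adj v w)).card =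
      ∑ v ∈ W, (Y.filter (fun w => G.Adj v w)).card := by
  simp only [card_filter]
  rw [sum_comm]
  apply sum_congr rfl
  intro v _
  apply sum_congr rfl
  intro w _
  simp only [G.adj_comm v w]

open Classical in
private lemma k5_dIn_union {V : Type*} [DecidableEq V] (G : SimpleGraph V) {Y W : Finset V}
    (h : Disjoint Y W) :
    dIn G (Y ∪ W) = dIn G Y + dIn G W + 2 * ∑ v ∈ W, (Y.filter (fun w => G.Adj v w)).card := by
  have h1 : ∀ v, ((Y ∪ W).filter (fun w => G.Adj v w)).card =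
      (Y.filter (fun w => G.Adj v w)).card + (W.filter (fun w => G.Adj v w)).card := by
    intro v
    rw [filter_union, card_union_of_disjoint (disjoint_filter_filter h)]
  rw [k5_dIn_eq, k5_dIn_eq, k5_dIn_eq, sum_union h]
  simp only [h1, sum_add_distrib]
  have h2 := k5_cross G Y W
  omega

/-- One step: precolour `Y`; some `W` outside lowers the surplus. -/
private lemma k5_step {V : Type*} [DecidableEq V] (G : SimpleGraph V) (m : ℕ) (hm : 3 ≤ m)
    (δ : V → ZMod m) (hom : ∀ u v, G.Adj u v → δ v = δ u + 1 ∨ δ v = δ u - 1)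
    (L : V → Finset ℕ) (X : Finset V) (hX : ¬ ColOn G L X) (d : ZMod m) (Y : Finset V)
    (_hYX : Y ⊆ X) (hY : ColOn G L Y) (hd : ∀ v ∈ X, δ v = d → v ∈ Y) :
    ∃ W ⊆ X \ Y, W.Nonempty ∧ h2 G L (Y ∪ W) < h2 G L Y := by
  classical
  have : NeZero m := ⟨by omega⟩
  obtain ⟨ψ, hψ1, hψ2⟩ := hY
  let L' : V → Finset ℕ := fun v => L v \ (Y.filter (fun w => G.Adj v w)).image ψ
  -- not colourable
  have hnc : ¬ ColOn G L' (X \ Y) := by
    rintro ⟨c, hc1, hc2⟩
    apply hX
    refine ⟨fun v => if v ∈ Y then ψ v else c v, ?_, ?_⟩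
    · intro v hv
      by_cases hvY : v ∈ Y
      · simp only [hvY, if_true]; exact hψ1 v hvY
      · simp only [hvY, if_false]
        exact (mem_sdiff.1 (hc1 v (mem_sdiff.2 ⟨hv, hvY⟩))).1
    · intro u hu v hv huv
      by_cases huY : u ∈ Y <;> by_cases hvY : v ∈ Y
      · simp only [huY, hvY, if_true]; exact hψ2 u huY v hvY huv
      · simp only [huY, hvY, if_true, if_false]
        have h1 := (mem_sdiff.1 (hc1 v (mem_sdiff.2 ⟨hv, hvY⟩))).2
        intro h
        apply h1
        rw [← h]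
        exact mem_image_of_mem _ (mem_filter.2 ⟨huY, huv.symm⟩)
      · simp only [huY, hvY, if_true, if_false]
        have h1 := (mem_sdiff.1 (hc1 u (mem_sdiff.2 ⟨hu, huY⟩))).2
        intro h
        apply h1
        rw [h]
        exact mem_image_of_mem _ (mem_filter.2 ⟨hvY, huv⟩)
      · simp only [huY, hvY, if_false]
        exact hc2 u (mem_sdiff.2 ⟨hu, huY⟩) v (mem_sdiff.2 ⟨hv, hvY⟩) huv
  -- bipartite
  have key : ∀ a : ZMod m, a + 1 ≠ 0 → (a + 1).val = a.val + 1 := by
    intro a ha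
    have h1 := ZMod.val_lt a
    by_contra h2
    have h3 : a.val = m - 1 := by
      by_contra h6
      apply h2
      rw [ZMod.val_add, ZMod.val_one_eq_one_mod, Nat.mod_eq_of_lt (by omega : 1 < m),
        Nat.mod_eq_of_lt (by omega)]
    apply ha
    have h4 : ((a.val : ℕ) : ZMod m) = a := ZMod.natCast_zmod_val a
    rw [← h4, h3]
    have h5 : ((m - 1 : ℕ) : ZMod m) + 1 = ((m - 1 + 1 : ℕ) : ZMod m) := by push_cast; rfl
    rw [h5, show m - 1 + 1 = m by omega]
    exact ZMod.natCast_self m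
  have hbip : ∀ u ∈ X \ Y, ∀ v ∈ X \ Y, G.Adj u v →
      ((fun w => Even (δ w - d).val) u ↔ ¬ (fun w => Even (δ w - d).val) v) := by
    intro u hu v hv huv
    have hu' : δ u - d ≠ 0 := by
      intro h
      exact (mem_sdiff.1 hu).2 (hd u (mem_sdiff.1 hu).1 (sub_eq_zero.1 h))
    have hv' : δ v - d ≠ 0 := by
      intro h
      exact (mem_sdiff.1 hv).2 (hd v (mem_sdiff.1 hv).1 (sub_eq_zero.1 h))
    show Even (δ u - d).val ↔ ¬ Even (δ v - d).val
    rcases hom u v huv with h | h
    · have h1 : δ v - d = (δ u - d) + 1 := by rw [h]; ring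
      have h2 := key (δ u - d) (by rw [← h1]; exact hv')
      rw [h1, h2, Nat.even_add_one, not_not]
    · have h1 : δ u - d = (δ v - d) + 1 := by rw [h]; ring
      have h2 := key (δ v - d) (by rw [← h1]; exact hu')
      rw [h1, h2, Nat.even_add_one]
  -- a bad set
  have hW : ∃ W ⊆ X \ Y, h2 G L' W < 0 := by
    by_contra hcon
    push Not at hcon
    exact hnc (bip_col G _ L' (X \ Y) hbip hcon)
  obtain ⟨W, hWs, hWn⟩ := hW
  refine ⟨W, hWs, ?_, ?_⟩
  · rw [nonempty_iff_ne_empty]
    rintro rfl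
    simp [h2, dIn] at hWn
  · have hdis : Disjoint Y W := by
      rw [Finset.disjoint_left]
      intro v hv hvW
      exact (mem_sdiff.1 (hWs hvW)).2 hv
    have h3 : ∀ v ∈ W, (2 * ((L v).card : ℤ) - 2) ≤ (2 * ((L' v).card : ℤ) - 2) +
        2 * ((Y.filter (fun w => G.Adj v w)).card : ℤ) := by
      intro v _
      have h4 : (L v).card ≤ (L' v).card + (Y.filter (fun w => G.Adj v w)).card := by
        have h5 := card_le_card_sdiff_add_card (s := L v)
          (t := (Y.filter (fun w => G.Adj v w)).image ψ)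
        have h6 : ((Y.filter (fun w => G.Adj v w)).image ψ).card ≤
          (Y.filter (fun w => G.Adj v w)).card := card_image_le
        show (L v).card ≤ (L v \ (Y.filter (fun w => G.Adj v w)).image ψ).card + _
        omega
      have h4' : ((L v).card : ℤ) ≤ (L' v).card + (Y.filter (fun w => G.Adj v w)).card := by
        exact_mod_cast h4
      linarith
    have h7 := sum_le_sum h3
    rw [sum_add_distrib, ← mul_sum] at h7
    unfold h2 at hWn ⊢
    rw [sum_union hdis, k5_dIn_union G hdis]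
    push_cast
    linarith

/-- Iterating the step. -/
private lemma k5_iter {V : Type*} [DecidableEq V] (G : SimpleGraph V) (m : ℕ) (hm : 3 ≤ m)
    (δ : V → ZMod m) (hom : ∀ u v, G.Adj u v → δ v = δ u + 1 ∨ δ v = δ u - 1)
    (L : V → Finset ℕ) (X : Finset V) (hX : ¬ ColOn G L X)
    (hmin : ∀ Y, Y ⊂ X → ColOn G L Y) (d : ZMod m) :
    ∀ (n : ℕ) (Y : Finset V), (X \ Y).card ≤ n → Y ⊆ X → (∀ v ∈ X, δ v = d → v ∈ Y) →
      h2 G L X ≤ h2 G L Y ∧ (Y ≠ X → h2 G L X < h2 G L Y) := by
  intro n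
  induction n with
  | zero =>
    intro Y hn hYX _
    have h1 : X \ Y = ∅ := card_eq_zero.1 (by omega)
    have h2 : Y = X := subset_antisymm hYX (sdiff_eq_empty_iff_subset.1 h1)
    subst h2
    exact ⟨le_rfl, fun h => absurd rfl h⟩
  | succ n ih =>
    intro Y hn hYX hd
    by_cases hne : Y = X
    · subst hne
      exact ⟨le_rfl, fun h => absurd rfl h⟩
    · have hss : Y ⊂ X := lt_of_le_of_ne hYX hne
      obtain ⟨W, hWs, hWne, hlt⟩ := k5_step G m hm δ hom L X hX d Y hYX (hmin Y hss) hd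
      have h1 : (X \ (Y ∪ W)).card ≤ n := by
        obtain ⟨w, hw⟩ := hWne
        have h2 : X \ (Y ∪ W) ⊂ X \ Y := by
          refine ⟨sdiff_subset_sdiff subset_rfl subset_union_left, fun h => ?_⟩
          have h3 := mem_sdiff.1 (h (hWs hw))
          exact h3.2 (mem_union_right _ hw)
        have := card_lt_card h2
        omega
      have h2 := ih (Y ∪ W) h1 (union_subset hYX (hWs.trans sdiff_subset))
        (fun v hv hvd => mem_union_left _ (hd v hv hvd))
      have h3 := lt_of_le_of_lt h2.1 hlt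
      exact ⟨h3.le, fun _ => h3⟩

/-- K5. The criticality lemma. -/
theorem crit {V : Type*} [DecidableEq V] (G : SimpleGraph V) (m : ℕ) (hm : 3 ≤ m)
    (δ : V → ZMod m) (hom : ∀ u v, G.Adj u v → δ v = δ u + 1 ∨ δ v = δ u - 1)
    (L : V → Finset ℕ) (hL : ∀ v, (L v).card ≤ 3) (R : Finset V) (C : ℕ) (hC : 4 * C ≤ m)
    (H : ∀ X ⊆ R, X.Nonempty → ¬ ColOn G L X → (∀ Y, Y ⊂ X → ColOn G L Y) →
      (X.card : ℤ) ≤ C * h2 G L X) :
    ColOn G L R := by
  classical
  have : NeZero m := ⟨by omega⟩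
  by_contra hR
  -- a minimal set
  obtain ⟨X, hXm⟩ := (R.powerset.filter (fun X => ¬ ColOn G L X)).exists_minimal
    ⟨R, by simp [hR]⟩
  have hX1 : X ⊆ R ∧ ¬ ColOn G L X := by
    have := hXm.prop
    simpa using this
  have hmin : ∀ Y, Y ⊂ X → ColOn G L Y := by
    intro Y hY
    by_contra hc
    have h1 : Y ∈ R.powerset.filter (fun X => ¬ ColOn G L X) := by
      simp only [mem_filter, mem_powerset]
      exact ⟨hY.subset.trans hX1.1, hc⟩
    exact hY.not_subset (hXm.le_of_le h1 hY.subset)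
  have hXne : X.Nonempty := by
    rw [nonempty_iff_ne_empty]
    rintro rfl
    exact hX1.2 ⟨fun _ => 0, by simp, by simp⟩
  have hcard := H X hX1.1 hXne hX1.2 hmin
  -- pigeonhole
  have hpig : ∃ d : ZMod m, m * (X.filter (fun v => δ v = d)).card ≤ X.card := by
    by_contra hc
    push Not at hc
    have h1 : X.card = ∑ d : ZMod m, (X.filter (fun v => δ v = d)).card :=
      card_eq_sum_card_fiberwise (fun v _ => mem_coe.2 (mem_univ (δ v)))
    have h2 : ∑ _d : ZMod m, X.card < ∑ d : ZMod m, m * (X.filter (fun v => δ v = d)).card :=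
      sum_lt_sum_of_nonempty ⟨0, mem_univ _⟩ (fun d _ => hc d)
    rw [← mul_sum, ← h1, sum_const, card_univ, ZMod.card, smul_eq_mul] at h2
    exact lt_irrefl _ h2
  obtain ⟨d, hd⟩ := hpig
  set Y0 := X.filter (fun v => δ v = d) with hY0
  have hXpos : 0 < X.card := card_pos.2 hXne
  have hYne : Y0 ≠ X := by
    intro h
    rw [h] at hd
    have : 3 * X.card ≤ m * X.card := Nat.mul_le_mul_right _ hm
    omega
  have h1 := (k5_iter G m hm δ hom L X hX1.2 hmin d (X \ Y0).card Y0 le_rfl (filter_subset _ _)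
    (fun v hv hvd => mem_filter.2 ⟨hv, hvd⟩)).2 hYne
  -- the layer has no edges
  have h2 : h2 G L Y0 ≤ 4 * (Y0.card : ℤ) := by
    have h3 : ∑ v ∈ Y0, (2 * ((L v).card : ℤ) - 2) ≤ ∑ v ∈ Y0, (4 : ℤ) := by
      apply sum_le_sum
      intro v _
      have h4 : ((L v).card : ℤ) ≤ 3 := by exact_mod_cast hL v
      linarith
    rw [sum_const, nsmul_eq_mul] at h3
    unfold TorGrid.h2
    have h5 : (0 : ℤ) ≤ (dIn G Y0 : ℤ) := by positivity
    linarith
  have h6 : (C : ℤ) * (4 * (Y0.card : ℤ)) ≤ X.card := by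
    have h7 : 4 * C * Y0.card ≤ m * Y0.card := Nat.mul_le_mul_right _ hC
    have h8 : 4 * C * Y0.card ≤ X.card := h7.trans hd
    have h9 : ((4 * C * Y0.card : ℕ) : ℤ) ≤ (X.card : ℤ) := by exact_mod_cast h8
    push_cast at h9
    linarith
  have hXpos' : (0 : ℤ) < X.card := by exact_mod_cast hXpos
  rcases Nat.eq_zero_or_pos C with h0 | h0
  · rw [h0, Nat.cast_zero, zero_mul] at hcard
    linarith
  · have h0' : (0 : ℤ) < C := by exact_mod_cast h0
    have h7 : (C : ℤ) * TorGrid.h2 G L X < C * (4 * (Y0.card : ℤ)) := by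
      apply mul_lt_mul_of_pos_left _ h0'
      linarith
    linarith

end TorGrid
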