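import Pool.Agent.Lib.MP_caf32e_co.Defs

/-! Row P2: frames in the private box. -/

namespace TorGrid

open Finset

private theorem P2_step (P : ℤ → Prop) (n : ℕ) : ∀ x1 x2 : ℤ, P x1 → ¬ P x2 →
    (x1 - x2).natAbs ≤ n → ∃ x x' : ℤ, P x ∧ ¬ P x' ∧ (x' = x + 1 ∨ x' = x - 1) ∧
      (x1 ≤ x' ∨ x2 ≤ x') ∧ (x' ≤ x1 ∨ x' ≤ x2) := by
  induction n with
  | zero =>
    intro x1 x2 h1 h2 h
    exfalso
    have h3 : x1 = x2 := by omega
    rw [h3] at h1
    exact h2 h1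
  | succ n ih =>
    intro x1 x2 h1 h2 h
    rcases lt_trichotomy x1 x2 with h3 | h3 | h3
    · by_cases h4 : P (x1 + 1)
      · obtain ⟨x, x', a1, a2, a3, a4, a5⟩ := ih (x1 + 1) x2 h4 h2 (by omega)
        exact ⟨x, x', a1, a2, a3, by omega, by omega⟩
      · exact ⟨x1, x1 + 1, h1, h4, Or.inl rfl, by omega, by omega⟩
    · rw [h3] at h1
      exact absurd h1 h2
    · by_cases h4 : P (x1 - 1)
      · obtain ⟨x, x', a1, a2, a3, a4, a5⟩ := ih (x1 - 1) x2 h4 h2 (by omega)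
        exact ⟨x, x', a1, a2, a3, by omega, by omega⟩
      · exact ⟨x1, x1 - 1, h1, h4, Or.inr rfl, by omega, by omega⟩

private theorem P2_sum (S : Finset ℤ) (Y : Finset P2) (k : P2 → ℤ) (h : P2 → ℕ) :
    ∑ r ∈ S, ∑ v ∈ Y, (if k v = r then h v else 0) ≤ ∑ v ∈ Y, h v := by
  rw [Finset.sum_comm]
  refine Finset.sum_le_sum fun v _ => ?_
  rw [Finset.sum_ite_eq]
  split_ifs
  · exact le_rfl
  · exact Nat.zero_le _

/-- P2. Frames: if the credit is at most `M` then some frame of radius `r`, `a < r < ρ - 1`, is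
completely inside `Y` or completely outside `Y`, and its rows are no turn rows. -/
theorem frame_exists (a M ρ : ℕ) (hρ : a + M + 8 ≤ ρ) (τ : ℤ → Prop) (ε : ℤ → ℤ)
    (hτ : ∃ t1 t2 : ℤ, ∀ y : ℤ, |y| ≤ ρ → τ y → y = t1 ∨ y = t2)
    (Y : Finset P2) (hY : ∀ v ∈ Y, InB (0, 0) ρ v) (hM : crB ρ τ ε Y ≤ M) :
    ∃ r : ℤ, a < r ∧ r + 1 < ρ ∧ ¬ τ r ∧ ¬ τ (-r) ∧
      ((∀ v : P2, InB (0, 0) ρ v → (|v.1| = r ∨ |v.2| = r) → v ∈ Y) ∨
       (∀ v : P2, InB (0, 0) ρ v → (|v.1| = r ∨ |v.2| = r) → v ∉ Y)) := by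
  classical
  obtain ⟨t1, t2, ht⟩ := hτ
  by_contra hcon
  push Not at hcon
  -- the radii that are not killed by turn rows
  obtain ⟨S, hS⟩ : ∃ S : Finset ℤ, S = (Finset.Icc ((a : ℤ) + 1) ((ρ : ℤ) - 2)) \ {|t1|, |t2|} :=
    ⟨_, rfl⟩
  have hcard : M + 1 ≤ S.card := by
    have h1 : (Finset.Icc ((a : ℤ) + 1) ((ρ : ℤ) - 2)).card - ({|t1|, |t2|} : Finset ℤ).card ≤
        S.card := by
      rw [hS]
      exact Finset.le_card_sdiff _ _
    have h2 : ({|t1|, |t2|} : Finset ℤ).card ≤ 2 := Finset.card_le_two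
    have h3 : (Finset.Icc ((a : ℤ) + 1) ((ρ : ℤ) - 2)).card = ρ - 2 - a := by
      rw [Int.card_Icc]
      omega
    omega
  obtain ⟨ver, hver⟩ : ∃ ver : P2 → ℕ, ver = fun v =>
      ((if InB (0, 0) ρ (v.1, v.2 + 1) ∧ (v.1, v.2 + 1) ∉ Y then 1 else 0) +
       (if InB (0, 0) ρ (v.1, v.2 - 1) ∧ (v.1, v.2 - 1) ∉ Y then 1 else 0)) := ⟨_, rfl⟩
  obtain ⟨hor, hhor⟩ : ∃ hor : P2 → ℕ, hor = fun v =>
      (if τ v.2 then
        2 * (if InB (0, 0) ρ (v.1 + ε v.2, v.2) ∧ (v.1 + ε v.2, v.2) ∉ Y then 1 else 0)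
      else
        (if InB (0, 0) ρ (v.1 + 1, v.2) ∧ (v.1 + 1, v.2) ∉ Y then 1 else 0) +
        (if InB (0, 0) ρ (v.1 - 1, v.2) ∧ (v.1 - 1, v.2) ∉ Y then 1 else 0)) := ⟨_, rfl⟩
  have hcr : crB ρ τ ε Y = ∑ v ∈ Y, ver v + ∑ v ∈ Y, hor v := by
    rw [← Finset.sum_add_distrib, hver, hhor]
    rfl
  have h1 := P2_sum S Y (fun v => |v.1|) ver
  have h2 := P2_sum S Y (fun v => |v.2|) hor
  have key : ∀ r ∈ S, 1 ≤ ∑ v ∈ Y, (if |v.1| = r then ver v else 0) +
      ∑ v ∈ Y, (if |v.2| = r then hor v else 0) := by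
    intro r hr
    by_contra h0
    have h3 : ∑ v ∈ Y, (if |v.1| = r then ver v else 0) = 0 := by omega
    have h4 : ∑ v ∈ Y, (if |v.2| = r then hor v else 0) = 0 := by omega
    rw [Finset.sum_eq_zero_iff] at h3 h4
    rw [hS, mem_sdiff, mem_Icc, mem_insert, mem_singleton] at hr
    obtain ⟨⟨hr1, hr2⟩, hr3⟩ := hr
    have hr0 : |r| = r := abs_of_nonneg (by omega)
    have hτr : ∀ y : ℤ, |y| = r → ¬ τ y := by
      intro y hy hty
      rcases ht y (by omega) hty with h5 | h5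
      · exact hr3 (Or.inl (by rw [← h5, hy]))
      · exact hr3 (Or.inr (by rw [← h5, hy]))
    -- rows are pure
    have hrow : ∀ y : ℤ, |y| = r → ∀ x1 x2 : ℤ, |x1| ≤ ρ → |x2| ≤ ρ → (x1, y) ∈ Y →
        (x2, y) ∈ Y := by
      intro y hy x1 x2 hx1 hx2 hin
      by_contra hout
      obtain ⟨x, x', a1, a2, a3, a4, a5⟩ := P2_step (fun x => (x, y) ∈ Y) _ x1 x2 hin hout le_rfl
      have h5 := h4 (x, y) a1
      have h6 : InB (0, 0) ρ (x', y) := by
        unfold InB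
        simp only [sub_zero]
        refine ⟨?_, by omega⟩
        rw [abs_le] at hx1 hx2 ⊢
        omega
      rw [if_pos (by exact hy), hhor] at h5
      simp only [if_neg (hτr y hy)] at h5
      rcases a3 with a3 | a3
      · rw [a3] at h6 a2
        simp only [h6, a2, not_false_eq_true, and_self, if_true] at h5
        omega
      · rw [a3] at h6 a2
        simp only [h6, a2, not_false_eq_true, and_self, if_true] at h5
        omega
    have hcol : ∀ x : ℤ, |x| = r → ∀ y1 y2 : ℤ, |y1| ≤ ρ → |y2| ≤ ρ → (x, y1) ∈ Y →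
        (x, y2) ∈ Y := by
      intro x hx y1 y2 hy1 hy2 hin
      by_contra hout
      obtain ⟨y, y', a1, a2, a3, a4, a5⟩ := P2_step (fun y => (x, y) ∈ Y) _ y1 y2 hin hout le_rfl
      have h5 := h3 (x, y) a1
      have h6 : InB (0, 0) ρ (x, y') := by
        unfold InB
        simp only [sub_zero]
        refine ⟨by omega, ?_⟩
        rw [abs_le] at hy1 hy2 ⊢
        omega
      rw [if_pos (by exact hx), hver] at h5
      simp only at h5
      rcases a3 with a3 | a3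
      · rw [a3] at h6 a2
        simp only [h6, a2, not_false_eq_true, and_self, if_true] at h5
        omega
      · rw [a3] at h6 a2
        simp only [h6, a2, not_false_eq_true, and_self, if_true] at h5
        omega
    have hrρ : |r| ≤ (ρ : ℤ) := by omega
    have hiff : ∀ v : P2, InB (0, 0) ρ v → (|v.1| = r ∨ |v.2| = r) → (v ∈ Y ↔ (r, r) ∈ Y) := by
      rintro ⟨v1, v2⟩ hv hv'
      unfold InB at hv
      simp only [sub_zero] at hv hv'
      obtain ⟨hv1, hv2⟩ := hv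
      rcases hv' with hv' | hv'
      · constructor
        · intro h
          exact hrow r hr0 v1 r hv1 hrρ (hcol v1 hv' v2 r hv2 hrρ h)
        · intro h
          exact hcol v1 hv' r v2 hrρ hv2 (hrow r hr0 r v1 hrρ hv1 h)
      · constructor
        · intro h
          exact hcol r hr0 v2 r hv2 hrρ (hrow v2 hv' v1 r hv1 hrρ h)
        · intro h
          exact hrow v2 hv' r v1 hrρ hv1 (hcol r hr0 r v2 hrρ hv2 h)
    obtain ⟨⟨v, hv1, hv2, hv3⟩, ⟨w, hw1, hw2, hw3⟩⟩ := hcon r (by omega) (by omega)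
      (hτr r hr0) (hτr (-r) (by rw [abs_neg, hr0]))
    exact hv3 ((hiff v hv1 hv2).2 ((hiff w hw1 hw2).1 hw3))
  have h5 : S.card ≤ ∑ r ∈ S, (∑ v ∈ Y, (if |v.1| = r then ver v else 0) +
      ∑ v ∈ Y, (if |v.2| = r then hor v else 0)) := by
    calc S.card = ∑ r ∈ S, 1 := by simp
      _ ≤ _ := Finset.sum_le_sum key
  rw [Finset.sum_add_distrib] at h5
  omega

end TorGrid
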