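import Pool.Agent.Lib.MP_caf32e_co.Defs
import Pool.Agent.Lib.MP_caf32e_co.P2

/-! Row P3: the private box lemma. -/

namespace TorGrid

open Finset

private theorem P3_swap (s s' : P2 → P2) (h : ∀ v, s' (s v) = v) (h' : ∀ v, s (s' v) = v)
    (w : P2 → ℕ) (Z Y : Finset P2) :
    ∑ v ∈ Z, (if s v ∈ Y then w (s v) else 0) = ∑ u ∈ Y, (if s' u ∈ Z then w u else 0) := by
  rw [← Finset.sum_filter, ← Finset.sum_filter]
  refine Finset.sum_nbij' s s' ?_ ?_ ?_ ?_ ?_
  · intro v hv
    rw [mem_filter] at hv ⊢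
    exact ⟨hv.2, by rw [h]; exact hv.1⟩
  · intro v hv
    rw [mem_filter] at hv ⊢
    exact ⟨hv.2, by rw [h']; exact hv.1⟩
  · intro v _; exact h v
  · intro v _; exact h' v
  · intro v _; rfl

open Classical in
private theorem P3_bal (S : Finset P2) (p : ℤ → Prop) :
    ∑ v ∈ S, (if p v.2 ∧ (v.1 + 1, v.2) ∉ S then 1 else 0) =
      ∑ v ∈ S, (if p v.2 ∧ (v.1 - 1, v.2) ∉ S then 1 else 0) := by
  have h := P3_swap (fun v => (v.1 + 1, v.2)) (fun v => (v.1 - 1, v.2)) (by intro v; simp)
    (by intro v; simp) (fun v => if p v.2 then 1 else 0) S S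
  have h1 : ∑ v ∈ S, (if p v.2 ∧ (v.1 + 1, v.2) ∉ S then 1 else 0) +
      ∑ v ∈ S, (if (v.1 + 1, v.2) ∈ S then (if p v.2 then 1 else 0) else 0) =
        ∑ v ∈ S, (if p v.2 then 1 else 0) := by
    rw [← Finset.sum_add_distrib]
    refine Finset.sum_congr rfl fun v _ => ?_
    by_cases h1 : p v.2 <;> by_cases h2 : (v.1 + 1, v.2) ∈ S <;> simp [h1, h2]
  have h2 : ∑ v ∈ S, (if p v.2 ∧ (v.1 - 1, v.2) ∉ S then 1 else 0) +
      ∑ v ∈ S, (if (v.1 - 1, v.2) ∈ S then (if p v.2 then 1 else 0) else 0) =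
        ∑ v ∈ S, (if p v.2 then 1 else 0) := by
    rw [← Finset.sum_add_distrib]
    refine Finset.sum_congr rfl fun v _ => ?_
    by_cases h1 : p v.2 <;> by_cases h2 : (v.1 - 1, v.2) ∈ S <;> simp [h1, h2]
  simp only at h
  omega

open Classical in
private theorem P3_bal2 (S : Finset P2) (τ : ℤ → Prop) (ε : ℤ → ℤ)
    (hε : ∀ y, ε y = 1 ∨ ε y = -1) :
    ∑ v ∈ S, ((if (v.1 + 1, v.2) ∉ S then 1 else 0) + (if (v.1 - 1, v.2) ∉ S then 1 else 0)) =
      ∑ v ∈ S, (if τ v.2 then 2 * (if (v.1 + ε v.2, v.2) ∉ S then 1 else 0) else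
        (if (v.1 + 1, v.2) ∉ S then 1 else 0) + (if (v.1 - 1, v.2) ∉ S then 1 else 0)) := by
  have h1 : ∑ v ∈ S, (if (τ v.2 ∧ ε v.2 = 1) ∧ (v.1 + 1, v.2) ∉ S then 1 else 0) =
      ∑ v ∈ S, (if (τ v.2 ∧ ε v.2 = 1) ∧ (v.1 - 1, v.2) ∉ S then 1 else 0) := by
    convert P3_bal S (fun y => τ y ∧ ε y = 1)
  have h2 : ∑ v ∈ S, (if (τ v.2 ∧ ε v.2 = -1) ∧ (v.1 + 1, v.2) ∉ S then 1 else 0) =
      ∑ v ∈ S, (if (τ v.2 ∧ ε v.2 = -1) ∧ (v.1 - 1, v.2) ∉ S then 1 else 0) := by
    convert P3_bal S (fun y => τ y ∧ ε y = -1)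
  have h3 : ∑ v ∈ S, ((if (v.1 + 1, v.2) ∉ S then 1 else 0) +
        (if (v.1 - 1, v.2) ∉ S then 1 else 0)) +
      ∑ v ∈ S, (if (τ v.2 ∧ ε v.2 = 1) ∧ (v.1 + 1, v.2) ∉ S then 1 else 0) +
      ∑ v ∈ S, (if (τ v.2 ∧ ε v.2 = -1) ∧ (v.1 - 1, v.2) ∉ S then 1 else 0) =
      ∑ v ∈ S, (if τ v.2 then 2 * (if (v.1 + ε v.2, v.2) ∉ S then 1 else 0) else
        (if (v.1 + 1, v.2) ∉ S then 1 else 0) + (if (v.1 - 1, v.2) ∉ S then 1 else 0)) +
      ∑ v ∈ S, (if (τ v.2 ∧ ε v.2 = 1) ∧ (v.1 - 1, v.2) ∉ S then 1 else 0) +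
      ∑ v ∈ S, (if (τ v.2 ∧ ε v.2 = -1) ∧ (v.1 + 1, v.2) ∉ S then 1 else 0) := by
    rw [← Finset.sum_add_distrib, ← Finset.sum_add_distrib, ← Finset.sum_add_distrib,
      ← Finset.sum_add_distrib]
    refine Finset.sum_congr rfl fun v _ => ?_
    by_cases ht : τ v.2
    · rcases hε v.2 with he | he
      · rw [he]
        by_cases h4 : (v.1 + 1, v.2) ∈ S <;> by_cases h5 : (v.1 - 1, v.2) ∈ S <;>
          simp [ht, h4, h5]
      · rw [he, ← sub_eq_add_neg]
        by_cases h4 : (v.1 + 1, v.2) ∈ S <;> by_cases h5 : (v.1 - 1, v.2) ∈ S <;>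
          simp [ht, h4, h5]
    · simp [ht]
  omega

open Classical in
private theorem P3_card (v : P2) (Z : Finset P2) :
    ((nb v) \ Z).card = (if (v.1, v.2 + 1) ∉ Z then 1 else 0) +
      (if (v.1, v.2 - 1) ∉ Z then 1 else 0) +
      ((if (v.1 + 1, v.2) ∉ Z then 1 else 0) + (if (v.1 - 1, v.2) ∉ Z then 1 else 0)) := by
  rw [Finset.sdiff_eq_filter, Finset.card_filter]
  unfold nb
  rw [Finset.sum_insert, Finset.sum_insert, Finset.sum_insert, Finset.sum_singleton]
  · ring
  · simp only [mem_singleton, Prod.mk.injEq]; omega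
  · simp only [mem_insert, mem_singleton, Prod.mk.injEq]; omega
  · simp only [mem_insert, mem_singleton, Prod.mk.injEq]; omega

open Classical in
private theorem P3_bd (Z : Finset P2) (τ : ℤ → Prop) (ε : ℤ → ℤ)
    (hε : ∀ y, ε y = 1 ∨ ε y = -1) :
    bd Z = ∑ v ∈ Z, ((if (v.1, v.2 + 1) ∉ Z then 1 else 0) +
      (if (v.1, v.2 - 1) ∉ Z then 1 else 0) +
      (if τ v.2 then 2 * (if (v.1 + ε v.2, v.2) ∉ Z then 1 else 0) else
        (if (v.1 + 1, v.2) ∉ Z then 1 else 0) + (if (v.1 - 1, v.2) ∉ Z then 1 else 0))) := by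
  unfold bd
  rw [Finset.sum_congr rfl fun v _ => P3_card v Z, Finset.sum_add_distrib,
    P3_bal2 Z τ ε hε, ← Finset.sum_add_distrib]

private theorem P3_nb_symm {u v : P2} (h : u ∈ nb v) : v ∈ nb u := by
  unfold nb at h ⊢
  simp only [mem_insert, mem_singleton] at h ⊢
  rcases h with h | h | h | h <;> rw [h] <;> simp

private theorem P3_lost_zero {L : P2 → Finset ℕ} {U : Finset P2} {φ : P2 → ℕ} {v : P2}
    (h : v ∉ U.biUnion nb) : lost L U φ v = 0 := by
  unfold lost
  have : nb v ∩ U = ∅ := by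
    rw [Finset.eq_empty_iff_forall_notMem]
    intro u hu
    rw [mem_inter] at hu
    exact h (mem_biUnion.2 ⟨u, hu.2, P3_nb_symm hu.1⟩)
  rw [this]
  simp

private theorem P3_nbU {U : Finset P2} {R : ℕ} (hU : ∀ u ∈ U, InB (0, 0) R u) {v : P2}
    (h : v ∈ U.biUnion nb) : |v.1| ≤ R + 1 ∧ |v.2| ≤ R + 1 := by
  obtain ⟨u, hu, hv⟩ := mem_biUnion.1 h
  have h1 := hU u hu
  unfold InB at h1
  simp only [sub_zero] at h1
  unfold nb at hv
  simp only [mem_insert, mem_singleton] at hv
  obtain ⟨h1, h2⟩ := h1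
  rw [abs_le] at h1 h2 ⊢
  rw [abs_le]
  rcases hv with hv | hv | hv | hv <;> rw [hv] <;> simp only <;> omega

private theorem P3_lost_sum {L : P2 → Finset ℕ} (hL : ∀ v, (L v).card = 3) {U : Finset P2}
    {φ : P2 → ℕ} {R : ℕ} (hU : ∀ u ∈ U, InB (0, 0) R u) (Y : Finset P2) :
    2 * ∑ v ∈ Y, lost L U φ v ≤ 6 * (2 * R + 3) ^ 2 := by
  classical
  have h1 : ∑ v ∈ Y, lost L U φ v ≤
      ∑ v ∈ (Finset.Icc (-(R + 1 : ℤ)) (R + 1) ×ˢ Finset.Icc (-(R + 1 : ℤ)) (R + 1)), 3 := by
    calc ∑ v ∈ Y, lost L U φ v ≤ ∑ v ∈ Y.filter (fun v => v ∈ U.biUnion nb), 3 := by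
          rw [Finset.sum_filter]
          refine Finset.sum_le_sum fun v _ => ?_
          by_cases h : v ∈ U.biUnion nb
          · rw [if_pos h]
            unfold lost
            rw [← hL v]
            exact Finset.card_le_card Finset.inter_subset_right
          · rw [P3_lost_zero h]
            exact Nat.zero_le _
      _ ≤ _ := by
          refine Finset.sum_le_sum_of_subset ?_
          intro v hv
          rw [mem_filter] at hv
          have h2 := P3_nbU hU hv.2
          rw [abs_le, abs_le] at h2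
          rw [mem_product, mem_Icc, mem_Icc]
          omega
  rw [Finset.sum_const, Finset.card_product, Int.card_Icc] at h1
  have h3 : (((R : ℤ) + 1 + 1 - -(R + 1 : ℤ)).toNat) = 2 * R + 3 := by omega
  rw [h3, smul_eq_mul] at h1
  nlinarith

/-- P3. The private box lemma. -/
theorem private_box (R : ℕ) : ∃ ρ : ℕ, R + 4 < ρ ∧
    ∀ (L : P2 → Finset ℕ) (_ : ∀ v, (L v).card = 3) (U : Finset P2) (φ : P2 → ℕ)
      (_ : Spot L U φ) (_ : ∀ u ∈ U, InB (0, 0) R u)
      (τ : ℤ → Prop) (ε : ℤ → ℤ) (_ : ∀ y, ε y = 1 ∨ ε y = -1)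
      (_ : ∃ t1 t2 : ℤ, ∀ y : ℤ, |y| ≤ ρ → τ y → y = t1 ∨ y = t2)
      (Y : Finset P2) (_ : ∀ v ∈ Y, InB (0, 0) ρ v) (_ : Disjoint Y U),
      2 * ∑ v ∈ Y, lost L U φ v ≤ crB ρ τ ε Y ∧
      (Y.Nonempty → crB ρ τ ε Y ≤ 2 * ∑ v ∈ Y, lost L U φ v →
        ∃ Y' ⊆ Y, Y'.Nonempty ∧ (∀ v ∈ Y', InB (0, 0) (ρ - 2) v) ∧
          ∀ v ∈ Y', ∀ w ∈ nb v, w ∈ Y → w ∈ Y') := by
  classical
  refine ⟨R + 6 * (2 * R + 3) ^ 2 + 10, by omega, ?_⟩
  intro L hL U φ hS hU τ ε hε hτ Y hY hYU
  have hls := P3_lost_sum hL (φ := φ) hU Y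
  set ρ : ℕ := R + 6 * (2 * R + 3) ^ 2 + 10 with hρ
  by_cases hM : crB ρ τ ε Y ≤ 6 * (2 * R + 3) ^ 2
  swap
  · exact ⟨by omega, fun _ h => absurd (h.trans hls) hM⟩
  obtain ⟨r, hr1, hr2, -, -, hfr⟩ := frame_exists (R + 1) (6 * (2 * R + 3) ^ 2) ρ (by omega)
    τ ε hτ Y hY hM
  have hr1' : (R : ℤ) + 1 < r := by exact_mod_cast hr1
  clear hr1 hM hls
  rcases hfr with hfr | hfr
  · -- frame inside `Y`
    obtain ⟨Z, hZ⟩ : ∃ Z : Finset P2, ∀ v : P2, v ∈ Z ↔ (|v.1| < r ∧ |v.2| < r) ∧ v ∉ Y := by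
      refine ⟨(Finset.Icc (-r + 1) (r - 1) ×ˢ Finset.Icc (-r + 1) (r - 1)) \ Y, fun v => ?_⟩
      rw [mem_sdiff, mem_product, mem_Icc, mem_Icc, abs_lt, abs_lt]
      constructor
      · rintro ⟨h1, h2⟩
        exact ⟨by omega, h2⟩
      · rintro ⟨h1, h2⟩
        exact ⟨by omega, h2⟩
    have hUZ : U ⊆ Z := by
      intro u hu
      rw [hZ]
      have h1 := hU u hu
      unfold InB at h1
      simp only [sub_zero] at h1
      exact ⟨⟨by omega, by omega⟩, fun h => (Finset.disjoint_left.1 hYU h) hu⟩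
    have key : ∀ v ∈ Z, ∀ w ∈ nb v, (w ∉ Z ↔ w ∈ Y) := by
      intro v hv w hw
      rw [hZ] at hv
      have h1 : |w.1| ≤ r ∧ |w.2| ≤ r := by
        obtain ⟨⟨h1, h2⟩, -⟩ := hv
        unfold nb at hw
        simp only [mem_insert, mem_singleton] at hw
        rw [abs_lt] at h1 h2
        rw [abs_le, abs_le]
        rcases hw with hw | hw | hw | hw <;> rw [hw] <;> simp only <;> omega
      constructor
      · intro h2
        rw [hZ] at h2
        by_contra h3
        apply h2
        refine ⟨?_, h3⟩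
        by_contra h4
        apply h3
        apply hfr w
        · unfold InB
          simp only [sub_zero]
          omega
        · omega
      · intro h2 h3
        rw [hZ] at h3
        exact h3.2 h2
    have hbd : bd Z ≤ crB ρ τ ε Y := by
      rw [P3_bd Z τ (fun y => - ε y) (fun y => by rcases hε y with h | h <;> rw [h] <;> simp)]
      have e1 : ∀ v ∈ Z, ((if (v.1, v.2 + 1) ∉ Z then 1 else 0) +
          (if (v.1, v.2 - 1) ∉ Z then 1 else 0) +
          (if τ v.2 then 2 * (if (v.1 + - ε v.2, v.2) ∉ Z then 1 else 0) else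
            (if (v.1 + 1, v.2) ∉ Z then 1 else 0) + (if (v.1 - 1, v.2) ∉ Z then 1 else 0))) =
          ((if (v.1, v.2 + 1) ∈ Y then 1 else 0) +
          (if (v.1, v.2 - 1) ∈ Y then 1 else 0)) +
          ((if (v.1 - ε v.2, v.2) ∈ Y then (if τ v.2 then 2 else 0) else 0) +
            ((if (v.1 + 1, v.2) ∈ Y then (if τ v.2 then 0 else 1) else 0) +
            (if (v.1 - 1, v.2) ∈ Y then (if τ v.2 then 0 else 1) else 0))) := by
        intro v hv
        have k1 := key v hv (v.1, v.2 + 1) (by simp [nb])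
        have k2 := key v hv (v.1, v.2 - 1) (by simp [nb])
        have k3 := key v hv (v.1 + 1, v.2) (by simp [nb])
        have k4 := key v hv (v.1 - 1, v.2) (by simp [nb])
        have k5 := key v hv (v.1 - ε v.2, v.2) (by
          rcases hε v.2 with h | h <;> rw [h] <;> simp [nb])
        rw [← sub_eq_add_neg]
        simp only [k1, k2, k3, k4, k5]
        by_cases ht : τ v.2 <;> simp [ht]
      rw [Finset.sum_congr rfl e1]
      simp only [Finset.sum_add_distrib]
      have s1 := P3_swap (fun v => (v.1, v.2 + 1)) (fun v => (v.1, v.2 - 1)) (by intro v; simp)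
        (by intro v; simp) (fun _ => 1) Z Y
      have s2 := P3_swap (fun v => (v.1, v.2 - 1)) (fun v => (v.1, v.2 + 1)) (by intro v; simp)
        (by intro v; simp) (fun _ => 1) Z Y
      have s3 := P3_swap (fun v => (v.1 - ε v.2, v.2)) (fun v => (v.1 + ε v.2, v.2))
        (by intro v; simp) (by intro v; simp) (fun v => if τ v.2 then 2 else 0) Z Y
      have s4 := P3_swap (fun v => (v.1 + 1, v.2)) (fun v => (v.1 - 1, v.2))
        (by intro v; simp) (by intro v; simp) (fun v => if τ v.2 then 0 else 1) Z Y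
      have s5 := P3_swap (fun v => (v.1 - 1, v.2)) (fun v => (v.1 + 1, v.2))
        (by intro v; simp) (by intro v; simp) (fun v => if τ v.2 then 0 else 1) Z Y
      simp only at s1 s2 s3 s4 s5
      rw [s1, s2, s3, s4, s5, ← Finset.sum_add_distrib, ← Finset.sum_add_distrib,
        ← Finset.sum_add_distrib, ← Finset.sum_add_distrib]
      unfold crB
      refine Finset.sum_le_sum fun u _ => ?_
      have hin : ∀ w : P2, w ∈ Z → InB (0, 0) ρ w ∧ w ∉ Y := by
        intro w hw
        rw [hZ] at hw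
        refine ⟨?_, hw.2⟩
        unfold InB
        simp only [sub_zero]
        omega
      have m : ∀ (w : P2), (if w ∈ Z then (1 : ℕ) else 0) ≤
          (if InB (0, 0) ρ w ∧ w ∉ Y then 1 else 0) := by
        intro w
        by_cases hw : w ∈ Z
        · rw [if_pos hw, if_pos (hin w hw)]
        · rw [if_neg hw]; exact Nat.zero_le _
      have m1 := m (u.1, u.2 + 1)
      have m2 := m (u.1, u.2 - 1)
      have m3 := m (u.1 + ε u.2, u.2)
      have m4 := m (u.1 + 1, u.2)
      have m5 := m (u.1 - 1, u.2)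
      by_cases ht : τ u.2
      · simp only [ht, if_true, ite_self, add_zero]
        have m6 : (if (u.1 + ε u.2, u.2) ∈ Z then 2 else 0) =
            2 * (if (u.1 + ε u.2, u.2) ∈ Z then (1 : ℕ) else 0) := by
          by_cases hw : (u.1 + ε u.2, u.2) ∈ Z <;> simp [hw]
        omega
      · simp only [ht, if_false, ite_self, zero_add]
        omega
    have hlost : ∑ v ∈ Y, lost L U φ v ≤ ∑ v ∈ (U.biUnion nb) \ Z, lost L U φ v := by
      calc ∑ v ∈ Y, lost L U φ v = ∑ v ∈ Y.filter (fun v => v ∈ U.biUnion nb), lost L U φ v := by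
            rw [Finset.sum_filter]
            refine Finset.sum_congr rfl fun v _ => ?_
            by_cases h : v ∈ U.biUnion nb
            · rw [if_pos h]
            · rw [if_neg h, P3_lost_zero h]
        _ ≤ _ := by
            refine Finset.sum_le_sum_of_subset ?_
            intro v hv
            rw [mem_filter] at hv
            rw [mem_sdiff]
            exact ⟨hv.2, fun h => ((hZ v).1 h).2 hv.1⟩
    have h1 := hS.S1 Z hUZ
    exact ⟨by omega, fun _ h => by omega⟩
  · -- frame outside `Y`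
    obtain ⟨Y1, hY1⟩ : ∃ Y1 : Finset P2, ∀ v : P2, v ∈ Y1 ↔ v ∈ Y ∧ (|v.1| < r ∧ |v.2| < r) := by
      exact ⟨Y.filter (fun v => |v.1| < r ∧ |v.2| < r), fun v => mem_filter⟩
    have hsub : Y1 ⊆ Y := fun v hv => ((hY1 v).1 hv).1
    have near : ∀ v ∈ Y1, ∀ w ∈ nb v, |w.1| ≤ r ∧ |w.2| ≤ r := by
      intro v hv w hw
      rw [hY1] at hv
      obtain ⟨-, h1, h2⟩ := hv
      unfold nb at hw
      simp only [mem_insert, mem_singleton] at hw
      rw [abs_lt] at h1 h2
      rw [abs_le, abs_le]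
      rcases hw with hw | hw | hw | hw <;> rw [hw] <;> simp only <;> omega
    have key : ∀ v ∈ Y1, ∀ w ∈ nb v, (w ∈ Y ↔ w ∈ Y1) := by
      intro v hv w hw
      have h1 := near v hv w hw
      constructor
      · intro h2
        rw [hY1]
        refine ⟨h2, ?_⟩
        by_contra h3
        refine hfr w (hY w h2) ?_ h2
        omega
      · intro h2
        exact hsub h2
    have hbd : bd Y1 ≤ crB ρ τ ε Y := by
      rw [P3_bd Y1 τ ε hε]
      unfold crB
      refine le_trans (Finset.sum_le_sum ?_) (Finset.sum_le_sum_of_subset hsub)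
      intro v hv
      have q : ∀ w ∈ nb v, (if w ∉ Y1 then (1 : ℕ) else 0) =
          (if InB (0, 0) ρ w ∧ w ∉ Y then 1 else 0) := by
        intro w hw
        have h1 := near v hv w hw
        have h2 : InB (0, 0) ρ w := by
          unfold InB
          simp only [sub_zero]
          omega
        have h3 := key v hv w hw
        simp only [h2, true_and, h3]
      have k1 := q (v.1, v.2 + 1) (by simp [nb])
      have k2 := q (v.1, v.2 - 1) (by simp [nb])
      have k3 := q (v.1 + 1, v.2) (by simp [nb])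
      have k4 := q (v.1 - 1, v.2) (by simp [nb])
      have k5 := q (v.1 + ε v.2, v.2) (by
        rcases hε v.2 with h | h <;> rw [h] <;> simp [nb, sub_eq_add_neg])
      rw [k1, k2, k3, k4, k5]
    have hlost : ∑ v ∈ Y, lost L U φ v = ∑ v ∈ Y1, lost L U φ v := by
      symm
      refine Finset.sum_subset hsub fun v hv hv1 => P3_lost_zero fun h => hv1 ?_
      have h1 := P3_nbU hU h
      rw [hY1]
      exact ⟨hv, by omega, by omega⟩
    have hdis : Disjoint Y1 U := Finset.disjoint_of_subset_left hsub hYU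
    have h1 := hS.S2 Y1 hdis
    refine ⟨by omega, fun hne hle => ?_⟩
    by_cases hne1 : Y1.Nonempty
    · refine ⟨Y1, hsub, hne1, ?_, ?_⟩
      · intro v hv
        rw [hY1] at hv
        unfold InB
        simp only [sub_zero]
        omega
      · intro v hv w hw hwY
        exact (key v hv w hw).1 hwY
    · exfalso
      rw [Finset.not_nonempty_iff_eq_empty] at hne1
      rw [hlost, hne1] at hle
      simp only [Finset.sum_empty, mul_zero, Nat.le_zero_eq] at hle
      unfold crB at hle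
      rw [Finset.sum_eq_zero_iff] at hle
      obtain ⟨v, hv⟩ := hne
      -- `Y` is closed under vertical moves in the box
      have hvB := hY v hv
      unfold InB at hvB
      simp only [sub_zero] at hvB
      have up : ∀ y : ℤ, (v.1, y) ∈ Y → y + 1 ≤ ρ → (v.1, y + 1) ∈ Y := by
        intro y hy hy1
        have h2 := hle (v.1, y) hy
        have h3 := hY _ hy
        unfold InB at h3
        simp only [sub_zero, abs_le] at h3
        by_contra h4
        have h5 : InB (0, 0) ρ (v.1, y + 1) := by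
          unfold InB
          simp only [sub_zero, abs_le]
          omega
        simp only [h4, h5, not_false_eq_true, and_self, if_true] at h2
        omega
      have down : ∀ y : ℤ, (v.1, y) ∈ Y → -(ρ : ℤ) ≤ y - 1 → (v.1, y - 1) ∈ Y := by
        intro y hy hy1
        have h2 := hle (v.1, y) hy
        have h3 := hY _ hy
        unfold InB at h3
        simp only [sub_zero, abs_le] at h3
        by_contra h4
        have h5 : InB (0, 0) ρ (v.1, y - 1) := by
          unfold InB
          simp only [sub_zero, abs_le]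
          omega
        simp only [h4, h5, not_false_eq_true, and_self, if_true] at h2
        omega
      have hall : (v.1, r) ∈ Y := by
        rcases le_total v.2 r with h2 | h2
        · have : ∀ k : ℕ, v.2 + k ≤ r → (v.1, v.2 + k) ∈ Y := by
            intro k
            induction k with
            | zero => intro _; simpa using hv
            | succ k ih =>
              intro hk
              have h3 := up (v.2 + k) (ih (by push_cast at hk; omega)) (by push_cast at hk; omega)
              rw [add_assoc] at h3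
              simpa using h3
          have h3 := this (r - v.2).toNat (by omega)
          have h4 : v.2 + ((r - v.2).toNat : ℤ) = r := by omega
          rwa [h4] at h3
        · have : ∀ k : ℕ, r ≤ v.2 - k → (v.1, v.2 - k) ∈ Y := by
            intro k
            induction k with
            | zero => intro _; simpa using hv
            | succ k ih =>
              intro hk
              have h3 := down (v.2 - k) (ih (by push_cast at hk; omega))
                (by push_cast at hk; omega)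
              rw [sub_sub] at h3
              simpa using h3
          have h3 := this (v.2 - r).toNat (by omega)
          have h4 : v.2 - ((v.2 - r).toNat : ℤ) = r := by omega
          rwa [h4] at h3
      refine hfr (v.1, r) (hY _ hall) (Or.inr ?_) hall
      simp only
      exact abs_of_nonneg (by omega)

end TorGrid
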