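import Pool.Agent.Lib.MP_caf32e_co.Defs

/-! Row W9: existence of a configuration from the local lemma. -/

namespace TorGrid

open Finset

/-- W9. Existence of a configuration from the local lemma. -/
theorem cfg_exists (R ρ : ℕ) (hρ : R + 4 < ρ)
    (hloc : ∀ L : P2 → Finset ℕ, (∀ v, (L v).card = 3) → NoSp L (0, 0) R →
      L (0, 0) = L (1, 0) ∧ L (0, 0) = L (-1, 0) ∧ L (0, 0) = L (0, 1) ∧ L (0, 0) = L (0, -1))
    (m n : ℕ) [NeZero m] [NeZero n] (L : TV m n → Finset ℕ) (hL : ∀ v, (L v).card = 3) :
    Nonempty (Cfg m n L R ρ (2 * ρ)) := by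
  classical
  -- the candidates
  let P : TV m n → Prop := fun z =>
    ∃ (U : Finset P2) (φ : P2 → ℕ), (∀ u ∈ U, InB (0, 0) R u) ∧ Spot (fun p => L (ch z p)) U φ
  -- good families
  let Gd : Finset (TV m n) → Prop := fun S =>
    (∀ z ∈ S, P z) ∧
    ∀ z ∈ S, ∀ z' ∈ S, z ≠ z' → ∀ p p', InB (0, 0) ρ p → InB (0, 0) ρ p' → ch z p ≠ ch z' p'
  have hne : ((univ : Finset (Finset (TV m n))).filter Gd).Nonempty :=
    ⟨∅, by simp [Gd]⟩
  obtain ⟨S, hS, hmax⟩ := exists_max_image _ (fun S => S.card) hne
  rw [mem_filter] at hS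
  obtain ⟨-, hSP, hSsep⟩ := hS
  have hex : ∀ z, ∃ (U : Finset P2) (φ : P2 → ℕ), z ∈ S →
      (∀ u ∈ U, InB (0, 0) R u) ∧ Spot (fun p => L (ch z p)) U φ := by
    intro z
    by_cases hz : z ∈ S
    · obtain ⟨U, φ, h⟩ := hSP z hz
      exact ⟨U, φ, fun _ => h⟩
    · exact ⟨∅, fun _ => 0, fun h => absurd h hz⟩
  choose U φ hUφ using hex
  have htame : ∀ v, (∀ z ∈ S, ∀ p, InB (0, 0) ((2 * ρ : ℕ) : ℤ) p → ch z p ≠ v) →
      L v = L (v.1 + 1, v.2) ∧ L v = L (v.1 - 1, v.2) ∧ L v = L (v.1, v.2 + 1) ∧
      L v = L (v.1, v.2 - 1) := by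
    intro v hv
    have hvS : v ∉ S := by
      intro h
      refine hv v h (0, 0) ?_ ?_
      · constructor <;> simp
      · simp [ch]
    have hno : NoSp (fun p => L (ch v p)) (0, 0) R := by
      intro U0 φ0 hU0 hsp
      have hPv : P v := ⟨U0, φ0, hU0, hsp⟩
      -- the family with v added is not good
      have hbad : ∃ z ∈ S, ∃ p p', InB (0, 0) ρ p ∧ InB (0, 0) ρ p' ∧ ch v p = ch z p' := by
        by_contra hcon
        push Not at hcon
        have hG : Gd (insert v S) := by
          refine ⟨?_, ?_⟩
          · intro z hz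
            rcases mem_insert.1 hz with rfl | hz
            · exact hPv
            · exact hSP z hz
          · intro z hz z' hz' hzz p p' hp hp'
            rcases mem_insert.1 hz with h1 | h1 <;> rcases mem_insert.1 hz' with h2 | h2
            · exact absurd (h1.trans h2.symm) hzz
            · rw [h1]
              exact hcon z' h2 p p' hp hp'
            · rw [h2]
              exact (hcon z h1 p' p hp' hp).symm
            · exact hSsep z h1 z' h2 hzz p p' hp hp'
        have h3 := hmax (insert v S) (mem_filter.2 ⟨mem_univ _, hG⟩)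
        simp only [card_insert_of_notMem hvS] at h3
        omega
      obtain ⟨z, hz, p, p', hp, hp', hpp⟩ := hbad
      refine hv z hz (p' - p) ?_ ?_
      · obtain ⟨a1, a2⟩ := hp
        obtain ⟨b1, b2⟩ := hp'
        simp only [sub_zero] at a1 a2 b1 b2
        rw [abs_le] at a1 a2 b1 b2
        constructor
        · simp only [sub_zero, Prod.fst_sub]
          rw [abs_le]
          push_cast
          constructor <;> linarith [a1.1, a1.2, b1.1, b1.2]
        · simp only [sub_zero, Prod.snd_sub]
          rw [abs_le]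
          push_cast
          constructor <;> linarith [a2.1, a2.2, b2.1, b2.2]
      · have e1 := congrArg Prod.fst hpp
        have e2 := congrArg Prod.snd hpp
        simp only [ch] at e1 e2
        ext
        · simp only [ch, Prod.fst_sub, Int.cast_sub]
          rw [← add_sub_assoc, ← e1]
          ring
        · simp only [ch, Prod.snd_sub, Int.cast_sub]
          rw [← add_sub_assoc, ← e2]
          ring
    have h4 := hloc (fun p => L (ch v p)) (fun p => hL _) hno
    simpa [ch, sub_eq_add_neg] using h4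
  exact ⟨{ S := S, U := U, φ := φ
           spot := fun z hz => (hUφ z hz).2
           inR := fun z hz => (hUφ z hz).1
           sep := hSsep
           tame := htame }⟩

end TorGrid
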