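import Pool.Agent.Lib.MP_caf32e_co.T1
import Pool.Agent.Lib.MP_caf32e_co.F3
import Pool.Agent.Lib.MP_caf32e_co.W9

/-! Row W10: existence of the world. -/

namespace TorGrid

open Finset

/-- W10. Existence of the world. -/
theorem world_exists (R ρ : ℕ) (hρ : R + 4 < ρ)
    (hloc : ∀ L : P2 → Finset ℕ, (∀ v, (L v).card = 3) → NoSp L (0, 0) R →
      L (0, 0) = L (1, 0) ∧ L (0, 0) = L (-1, 0) ∧ L (0, 0) = L (0, 1) ∧ L (0, 0) = L (0, -1))
    (m n A : ℕ) [NeZero m] [NeZero n] (hm : 16 * (ρ + 4) ≤ m) (hn : 16 * (ρ + 4) ≤ n) (hA : A ≤ n)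
    (hd : (m : ℤ) ∣ 2 * (A : ℤ) - n) (L : TV m n → Finset ℕ) (hL : ∀ v, (L v).card = 3) :
    ∃ W : World m n R ρ (2 * ρ), W.L = L := by
  obtain ⟨c⟩ := cfg_exists R ρ hρ hloc m n L hL
  obtain ⟨F, F', hG, hG', hδ, hσ, eσ, eN, eH, eN', eH', hb⟩ :=
    fol_torus m n A (by omega) (by omega) hA hd
  have disj : ∀ v, c.Ts v → ¬ c.Us v := by
    rintro v hT ⟨z, hz, u, hu, huv⟩
    refine hT z hz u ?_ huv
    have h1 := c.inR z hz u hu
    refine ⟨h1.1.trans ?_, h1.2.trans ?_⟩ <;> push_cast <;> omega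
  obtain ⟨rep, hC, hC', hw, hrr, htop, hTT, hrun⟩ :=
    cls_exists F F' (hG'.trans hG.symm) hδ hσ c.Ts c.Us disj (fun x => (x, 0))
      (fun v => hb (F.δ v))
  exact ⟨{ A := A, L := L, hL := hL, cfg := c, F := F, F' := F', hG := hG, hG' := hG', hδ := hδ,
           hσ := hσ, eσ := eσ, eN := eN, eH := eH, eN' := eN', eH' := eH', rep := rep, hC := hC,
           hC' := hC', hw := hw, hrr := hrr, htop := htop, hTT := hTT, hrun := hrun }, rfl⟩

end TorGrid
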