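import Pool.Agent.Lib.MP_caf32e_co.W8
import Pool.Agent.Lib.MP_caf32e_co.W10
import Pool.Agent.Lib.MP_caf32e_co.P3
import Pool.Agent.Lib.MP_caf32e_co.G3
import Pool.Agent.Lib.MP_caf32e_co.K4

/-! Rows M1, M2: one odd side; both sides even. -/

namespace TorGrid

open Finset

/-- M1. The case with one odd side: `m` odd and (`n` even or `m ≤ n`). -/
theorem torus_odd : ∃ N : ℕ, ∀ m n : ℕ, N ≤ m → N ≤ n → Odd m → (Even n ∨ m ≤ n) →
    ∀ L : TV m n → Finset ℕ, (∀ v, (L v).card = 3) →
      ∃ c : TV m n → ℕ, (∀ v, c v ∈ L v) ∧ ∀ u v, (TG m n).Adj u v → c u ≠ c v := by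
  obtain ⟨R, hloc⟩ := local_lemma
  obtain ⟨ρ, hρ, hbox⟩ := private_box R
  have hg : GoodC R ρ (2 * ρ) := ⟨hρ, by omega, hbox⟩
  obtain ⟨N0, hN0⟩ := World.colour hg
  refine ⟨max N0 (16 * (ρ + 4)), ?_⟩
  intro m n hm hn om hcase L hL
  have hm0 : N0 ≤ m := (le_max_left _ _).trans hm
  have hn0 : N0 ≤ n := (le_max_left _ _).trans hn
  have hm1 : 16 * (ρ + 4) ≤ m := (le_max_right _ _).trans hm
  have hn1 : 16 * (ρ + 4) ≤ n := (le_max_right _ _).trans hn
  have : NeZero m := ⟨by omega⟩
  have : NeZero n := ⟨by omega⟩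
  obtain ⟨A, hA, hd⟩ : ∃ A : ℕ, A ≤ n ∧ (m : ℤ) ∣ 2 * (A : ℤ) - n := by
    rcases Nat.even_or_odd n with en | on
    · obtain ⟨k, hk⟩ := en
      refine ⟨k, by omega, 0, ?_⟩
      rw [hk]
      push_cast
      ring
    · have hmn : m ≤ n := by
        rcases hcase with h | h
        · exact absurd h (Nat.not_even_iff_odd.2 on)
        · exact h
      obtain ⟨a, ha⟩ := om
      obtain ⟨b, hb⟩ := on
      refine ⟨a + b + 1, by omega, 1, ?_⟩
      rw [hb, ha]
      push_cast
      ring
  obtain ⟨W, hW⟩ := world_exists R ρ hρ hloc m n A hm1 hn1 hA hd L hL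
  obtain ⟨c, hc1, hc2⟩ := hN0 m n W hm0 hn0
  refine ⟨c, ?_, hc2⟩
  intro v
  have := hc1 v
  rw [hW] at this
  exact this

/-- the parity of a vertex of an even torus -/
private def m2par {m n : ℕ} (hm : 2 ∣ m) (hn : 2 ∣ n) (v : TV m n) : ZMod 2 :=
  ZMod.castHom hm (ZMod 2) v.1 + ZMod.castHom hn (ZMod 2) v.2

private theorem m2par_adj {m n : ℕ} (hm : 2 ∣ m) (hn : 2 ∣ n) (u v : TV m n)
    (h : (TG m n).Adj u v) : m2par hm hn v = m2par hm hn u + 1 := by
  have e : (-1 : ZMod 2) = 1 := by decide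
  rcases h.2 with h | h | h | h
  · rw [h]
    unfold m2par
    simp only [map_add, map_one]
    ring
  · rw [h]
    unfold m2par
    simp only [map_sub, map_one]
    rw [sub_eq_add_neg, e]
    ring
  · rw [h]
    unfold m2par
    simp only [map_add, map_one]
    ring
  · rw [h]
    unfold m2par
    simp only [map_sub, map_one]
    rw [sub_eq_add_neg, e]
    ring

/-- M2. Both sides even. -/
theorem torus_even (m n : ℕ) (hm : 3 ≤ m) (hn : 3 ≤ n) (em : Even m) (en : Even n)
    (L : TV m n → Finset ℕ) (hL : ∀ v, (L v).card = 3) :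
      ∃ c : TV m n → ℕ, (∀ v, c v ∈ L v) ∧ ∀ u v, (TG m n).Adj u v → c u ≠ c v := by
  classical
  have : NeZero m := ⟨by omega⟩
  have : NeZero n := ⟨by omega⟩
  have hm2 : 2 ∣ m := em.two_dvd
  have hn2 : 2 ∣ n := en.two_dvd
  have key : ColOn (TG m n) L (univ : Finset (TV m n)) := by
    refine bip_col (TG m n) (fun v => m2par hm2 hn2 v = 0) L univ ?_ ?_
    · intro u _ v _ huv
      have e := m2par_adj hm2 hn2 u v huv
      rw [e]
      generalize m2par hm2 hn2 u = x
      revert x
      decide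
    · intro W _
      have hd : dIn (TG m n) W ≤ W.card * 4 := by
        unfold dIn
        have hsub : (W ×ˢ W).filter (fun p => (TG m n).Adj p.1 p.2) ⊆
            W.biUnion (fun u => (nbT u).image (fun w => (u, w))) := by
          rintro ⟨u, w⟩ h
          rw [mem_filter, mem_product] at h
          rw [mem_biUnion]
          refine ⟨u, h.1.1, mem_image.2 ⟨w, ?_, rfl⟩⟩
          unfold nbT
          simp only [mem_insert, mem_singleton]
          exact h.2.2
        refine (card_le_card hsub).trans ?_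
        refine card_biUnion_le_card_mul W _ 4 ?_
        intro u _
        refine card_image_le.trans ?_
        unfold nbT
        exact card_le_four
      unfold h2
      have hs : ∑ v ∈ W, (2 * ((L v).card : ℤ) - 2) = 4 * (W.card : ℤ) := by
        rw [sum_congr rfl (g := fun _ => (4 : ℤ))]
        · rw [sum_const, nsmul_eq_mul]
          ring
        · intro v _
          rw [hL v]
          norm_num
      rw [hs]
      have : (dIn (TG m n) W : ℤ) ≤ (W.card : ℤ) * 4 := by exact_mod_cast hd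
      linarith
  obtain ⟨c, h1, h2'⟩ := key
  exact ⟨c, fun v => h1 v (mem_univ _), fun u v h => h2' u (mem_univ _) v (mem_univ _) h⟩

end TorGrid
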