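import Pool.Agent.Lib.MP_caf32e_co.M12

/-! Rows M3, M4: all cases; the statement with Mathlib's cycle graphs and box product. -/

namespace TorGrid

open Finset

/-- exchange of the two coordinates -/
private theorem m34_swap {m n : ℕ} (u v : TV m n) (h : (TG m n).Adj u v) :
    (TG n m).Adj (u.2, u.1) (v.2, v.1) := by
  refine ⟨?_, ?_⟩
  · intro h1
    apply h.1
    rw [Prod.mk.injEq] at h1
    exact Prod.ext h1.2 h1.1
  · rcases h.2 with h1 | h1 | h1 | h1
    · right; right; left; rw [h1]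
    · right; right; right; rw [h1]
    · left; rw [h1]
    · right; left; rw [h1]

/-- M3. All cases. -/
theorem torus_all : ∃ N : ℕ, ∀ m n : ℕ, N ≤ m → N ≤ n →
    ∀ L : TV m n → Finset ℕ, (∀ v, 3 ≤ (L v).card) →
      ∃ c : TV m n → ℕ, (∀ v, c v ∈ L v) ∧ ∀ u v, (TG m n).Adj u v → c u ≠ c v := by
  obtain ⟨N, hN⟩ := torus_odd
  refine ⟨max N 3, ?_⟩
  -- lists with exactly three colours
  have key : ∀ m n : ℕ, max N 3 ≤ m → max N 3 ≤ n → ∀ L : TV m n → Finset ℕ,
      (∀ v, (L v).card = 3) →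
      ∃ c : TV m n → ℕ, (∀ v, c v ∈ L v) ∧ ∀ u v, (TG m n).Adj u v → c u ≠ c v := by
    intro m n hm hn L hL
    have hm0 : N ≤ m := (le_max_left _ _).trans hm
    have hn0 : N ≤ n := (le_max_left _ _).trans hn
    have hm3 : 3 ≤ m := (le_max_right _ _).trans hm
    have hn3 : 3 ≤ n := (le_max_right _ _).trans hn
    -- the swapped case
    have hswap : Odd n → (Even m ∨ n ≤ m) →
        ∃ c : TV m n → ℕ, (∀ v, c v ∈ L v) ∧ ∀ u v, (TG m n).Adj u v → c u ≠ c v := by
      intro h1 h2
      obtain ⟨c, hc1, hc2⟩ := hN n m hn0 hm0 h1 h2 (fun v => L (v.2, v.1)) (fun v => hL _)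
      exact ⟨fun v => c (v.2, v.1), fun v => hc1 (v.2, v.1),
        fun u v huv => hc2 _ _ (m34_swap u v huv)⟩
    rcases Nat.even_or_odd m with em | om
    · rcases Nat.even_or_odd n with en | on
      · exact torus_even m n hm3 hn3 em en L hL
      · exact hswap on (Or.inl em)
    · rcases Nat.even_or_odd n with en | on
      · exact hN m n hm0 hn0 om (Or.inl en) L hL
      · rcases le_total m n with h | h
        · exact hN m n hm0 hn0 om (Or.inr h) L hL
        · exact hswap on (Or.inr h)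
  intro m n hm hn L hL
  have hsub : ∀ v, ∃ t ⊆ L v, t.card = 3 := fun v => Finset.exists_subset_card_eq (hL v)
  choose t ht1 ht2 using hsub
  obtain ⟨c, hc1, hc2⟩ := key m n hm hn t ht2
  exact ⟨c, fun v => ht1 v (hc1 v), hc2⟩

/-- adjacency in the product of two cycles -/
private theorem m34_adj {m n : ℕ} (u v : Fin (m + 2) × Fin (n + 2))
    (h : (SimpleGraph.cycleGraph (m + 2) □ SimpleGraph.cycleGraph (n + 2)).Adj u v) :
    (TG (m + 2) (n + 2)).Adj u v := by
  refine ⟨?_, ?_⟩
  · intro huv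
    subst huv
    exact SimpleGraph.irrefl _ h
  · rw [SimpleGraph.boxProd_adj] at h
    rcases h with ⟨h1, h2⟩ | ⟨h1, h2⟩
    · rw [SimpleGraph.cycleGraph_adj] at h1
      rcases h1 with h1 | h1
      · right; left
        refine Prod.ext ?_ h2.symm
        show v.1 = u.1 - 1
        rw [← h1]
        abel
      · left
        refine Prod.ext ?_ h2.symm
        show v.1 = u.1 + 1
        rw [← h1]
        abel
    · rw [SimpleGraph.cycleGraph_adj] at h1
      rcases h1 with h1 | h1
      · right; right; right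
        refine Prod.ext h2.symm ?_
        show v.2 = u.2 - 1
        rw [← h1]
        abel
      · right; right; left
        refine Prod.ext h2.symm ?_
        show v.2 = u.2 + 1
        rw [← h1]
        abel

/-- M4. The hand-in, with Mathlib's cycle graphs and box product. -/
theorem torus_mathlib : ∃ N : ℕ, ∀ m n : ℕ, N ≤ m → N ≤ n →
    ∀ (α : Type) (L : Fin m × Fin n → Finset α), (∀ v, 3 ≤ (L v).card) →
      ∃ c : Fin m × Fin n → α, (∀ v, c v ∈ L v) ∧
        ∀ u v, (SimpleGraph.cycleGraph m □ SimpleGraph.cycleGraph n).Adj u v → c u ≠ c v := by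
  classical
  obtain ⟨N, hN⟩ := torus_all
  refine ⟨N + 2, ?_⟩
  intro m n hm hn α L hL
  obtain ⟨m, rfl⟩ : ∃ k, m = k + 2 := ⟨m - 2, by omega⟩
  obtain ⟨n, rfl⟩ : ∃ k, n = k + 2 := ⟨n - 2, by omega⟩
  -- names of the colours
  set S : Finset α := (univ : Finset (Fin (m + 2) × Fin (n + 2))).biUnion L with hS
  obtain ⟨f, hf⟩ : ∃ f : α → ℕ, ∀ a ∈ S, ∀ b ∈ S, f a = f b → a = b := by
    refine ⟨fun a => S.toList.idxOf a, ?_⟩
    intro a ha b hb hab
    exact (List.idxOf_inj (Finset.mem_toList.mpr ha)).mp hab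
  have hLS : ∀ v, ∀ a ∈ L v, a ∈ S := by
    intro v a ha
    rw [hS, mem_biUnion]
    exact ⟨v, mem_univ _, ha⟩
  obtain ⟨c, hc1, hc2⟩ := hN (m + 2) (n + 2) (by omega) (by omega)
    (fun v : TV (m + 2) (n + 2) => (L v).image f) (by
      intro v
      rw [card_image_of_injOn]
      · exact hL v
      · intro a ha b hb hab
        exact hf a (hLS v a ha) b (hLS v b hb) hab)
  have hex : ∀ v : Fin (m + 2) × Fin (n + 2), ∃ a ∈ L v, f a = c v := by
    intro v
    exact mem_image.mp (hc1 v)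
  choose d hd1 hd2 using hex
  refine ⟨d, hd1, ?_⟩
  intro u v huv heq
  apply hc2 u v (m34_adj u v huv)
  rw [← hd2, ← hd2, heq]

end TorGrid
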