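import Pool.Agent.Lib.MP_caf32e_co.Defs

/-! Row P1. -/

namespace TorGrid

open Finset

/-- P1. In a finite set of integers as many elements have no right neighbour as no left one. -/
theorem row_balance (Z : Finset ℤ) :
    (Z.filter (fun x => x + 1 ∉ Z)).card = (Z.filter (fun x => x - 1 ∉ Z)).card := by
  have h1 : (Z.filter (fun x => x + 1 ∈ Z)).card = (Z.filter (fun x => x - 1 ∈ Z)).card := by
    apply Finset.card_bij (fun x _ => x + 1)
    · intro a ha
      simp only [mem_filter] at ha ⊢
      exact ⟨ha.2, by simpa using ha.1⟩
    · intro a _ b _ h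
      simpa using h
    · intro b hb
      simp only [mem_filter] at hb
      exact ⟨b - 1, by simp [hb.1, hb.2], by simp⟩
  have h2 := Finset.card_filter_add_card_filter_not (s := Z) (fun x => x + 1 ∈ Z)
  have h3 := Finset.card_filter_add_card_filter_not (s := Z) (fun x => x - 1 ∈ Z)
  omega

end TorGrid
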