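import Pool.Agent.Lib.MP_caf32e_co.CertDefs
import Pool.Agent.Lib.MP_caf32e_co.D1

/-! Row S1 (helper90): soundness of spot types. -/

namespace TorGrid

open Finset

theorem S1_cells_mem (F : Flo) (v : P2) : v ∈ F.cells ↔
    (F.x0 ≤ v.1 ∧ v.1 < F.x0 + F.w ∧ F.y0 ≤ v.2 ∧ v.2 < F.y0 + F.hh) := by
  unfold Flo.cells
  simp only [List.mem_flatMap, List.mem_range, List.mem_map]
  constructor
  · rintro ⟨i, hi, j, hj, rfl⟩
    simp only
    omega
  · rintro ⟨h1, h2, h3, h4⟩
    refine ⟨(v.1 - F.x0).toNat, by omega, (v.2 - F.y0).toNat, by omega, ?_⟩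
    apply Prod.ext
    · simp only; omega
    · simp only; omega

theorem S1_cells_nodup (F : Flo) : F.cells.Nodup := by
  unfold Flo.cells
  rw [List.nodup_flatMap]
  constructor
  · intro i _
    refine List.Nodup.map ?_ List.nodup_range
    intro a b hab
    simp only [Prod.mk.injEq] at hab
    omega
  · refine List.Pairwise.imp ?_ (List.nodup_range (n := F.w))
    intro a b hab
    rw [Function.onFun, List.disjoint_left]
    intro v hv hv'
    simp only [List.mem_map, List.mem_range] at hv hv'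
    obtain ⟨j, _, rfl⟩ := hv
    obtain ⟨j', _, h2⟩ := hv'
    simp only [Prod.mk.injEq] at h2
    omega

theorem S1_getD_mem {α : Type*} (l : List α) (i : ℕ) (d : α) : l.getD i d ∈ l ∨ l.getD i d = d := by
  by_cases h : i < l.length
  · left
    rw [List.getD_eq_getElem _ _ h]
    exact List.getElem_mem h
  · right
    exact List.getD_eq_default _ _ (by omega)

theorem S1_clamp_bd (l : List ℤ) (hl : ∀ a ∈ l, -1 ≤ a ∧ a ≤ 1) (i : ℤ) :
    -1 ≤ clampGet l i ∧ clampGet l i ≤ 1 := by
  unfold clampGet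
  rcases S1_getD_mem l (min i.toNat (l.length - 1)) 0 with h | h
  · exact hl _ h
  · rw [h]; omega

structure S1_FOk (F : Flo) : Prop where
  hl : F.h.length = F.hh
  gl : F.g.length = F.w
  hr : ∀ r ∈ F.h, r.length = F.w + 1 ∧ ∀ a ∈ r, -1 ≤ a ∧ a ≤ 1
  gr : ∀ r ∈ F.g, r.length = F.hh + 1 ∧ ∀ a ∈ r, -1 ≤ a ∧ a ≤ 1

theorem S1_FOk_of (F : Flo) (h : F.ok = true) : S1_FOk F := by
  simp only [Flo.ok, Bool.and_eq_true, decide_eq_true_eq, List.all_eq_true] at h
  obtain ⟨⟨⟨h1, h2⟩, h3⟩, h4⟩ := h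
  exact ⟨h1, h2, h3, h4⟩

theorem S1_fh_bd (F : Flo) (h : S1_FOk F) (v : P2) : -1 ≤ F.fh v ∧ F.fh v ≤ 1 := by
  unfold Flo.fh
  split_ifs
  · apply S1_clamp_bd
    rcases S1_getD_mem F.h (v.2 - F.y0).toNat [] with h1 | h1
    · exact (h.hr _ h1).2
    · rw [h1]; intro a ha; exact absurd ha List.not_mem_nil
  · omega

theorem S1_fg_bd (F : Flo) (h : S1_FOk F) (v : P2) : -1 ≤ F.fg v ∧ F.fg v ≤ 1 := by
  unfold Flo.fg
  split_ifs
  · apply S1_clamp_bd
    rcases S1_getD_mem F.g (v.1 - F.x0).toNat [] with h1 | h1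
    · exact (h.gr _ h1).2
    · rw [h1]; intro a ha; exact absurd ha List.not_mem_nil
  · omega

theorem S1_div_out (F : Flo) (h : S1_FOk F) (v : P2) (hv : v ∉ F.cells) : F.div v = 0 := by
  rw [S1_cells_mem] at hv
  have e1 : F.fh v = F.fh (v.1 - 1, v.2) := by
    unfold Flo.fh
    simp only
    by_cases hy : 0 ≤ v.2 - F.y0 ∧ v.2 - F.y0 < F.hh
    · rw [if_pos hy, if_pos hy]
      have hj : (v.2 - F.y0).toNat < F.h.length := by rw [h.hl]; omega
      have hm : F.h.getD (v.2 - F.y0).toNat [] ∈ F.h := by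
        rw [List.getD_eq_getElem _ _ hj]; exact List.getElem_mem hj
      have hlen := (h.hr _ hm).1
      unfold clampGet
      rw [hlen]
      congr 1
      omega
    · rw [if_neg hy, if_neg hy]
  have e2 : F.fg v = F.fg (v.1, v.2 - 1) := by
    unfold Flo.fg
    simp only
    by_cases hx : 0 ≤ v.1 - F.x0 ∧ v.1 - F.x0 < F.w
    · rw [if_pos hx, if_pos hx]
      have hj : (v.1 - F.x0).toNat < F.g.length := by rw [h.gl]; omega
      have hm : F.g.getD (v.1 - F.x0).toNat [] ∈ F.g := by
        rw [List.getD_eq_getElem _ _ hj]; exact List.getElem_mem hj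
      have hlen := (h.gr _ hm).1
      unfold clampGet
      rw [hlen]
      congr 1
      omega
    · rw [if_neg hx, if_neg hx]
  unfold Flo.div
  rw [e1, e2]
  ring

/-- the antisymmetric flow -/
def S1_flow (F : Flo) (v w : P2) : ℤ :=
  if w = (v.1 + 1, v.2) then F.fh v
  else if v = (w.1 + 1, w.2) then - F.fh w
  else if w = (v.1, v.2 + 1) then F.fg v
  else if v = (w.1, w.2 + 1) then - F.fg w
  else 0

theorem S1_flow_anti (F : Flo) (v w : P2) : S1_flow F v w = - S1_flow F w v := by
  obtain ⟨a, b⟩ := v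
  obtain ⟨c, d⟩ := w
  unfold S1_flow
  simp only [Prod.mk.injEq]
  split_ifs <;> omega

theorem S1_flow_le (F : Flo) (h : S1_FOk F) (v w : P2) : S1_flow F v w ≤ 1 := by
  unfold S1_flow
  have h1 := S1_fh_bd F h v
  have h2 := S1_fh_bd F h w
  have h3 := S1_fg_bd F h v
  have h4 := S1_fg_bd F h w
  split_ifs <;> omega

theorem S1_sum_nb (F : Flo) (v : P2) : ∑ w ∈ nb v, S1_flow F v w = F.div v := by
  obtain ⟨a, b⟩ := v
  unfold nb
  rw [Finset.sum_insert, Finset.sum_insert, Finset.sum_insert, Finset.sum_singleton]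
  · unfold S1_flow Flo.div
    simp only [Prod.mk.injEq]
    have e1 : ¬ (a = a + 1) := by omega
    have e2 : ¬ (a - 1 = a + 1) := by omega
    have e3 : ¬ (b = b + 1) := by omega
    have e4 : ¬ (b - 1 = b + 1) := by omega
    simp only [e1, e2, e3, e4, if_true, if_false, and_true, and_false, true_and, false_and,
      sub_add_cancel]
    ring
  · simp only [mem_singleton, Prod.mk.injEq]; omega
  · simp only [mem_insert, mem_singleton, Prod.mk.injEq]; omega
  · simp only [mem_insert, mem_singleton, Prod.mk.injEq]; omega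

theorem S1_div_le (F : Flo) (h : S1_FOk F) (X : Finset P2) : ∑ v ∈ X, F.div v ≤ (bd X : ℤ) := by
  have := flow_bound (S1_flow F) (S1_flow_anti F) (S1_flow_le F h) X
  rw [Finset.sum_congr rfl (fun v _ => S1_sum_nb F v)] at this
  exact this

theorem S1_adjb (p q : P2) : adjb p q = true ↔ p ∈ nb q := by
  obtain ⟨a, b⟩ := p
  obtain ⟨c, d⟩ := q
  simp only [adjb, nb, Bool.or_eq_true, Bool.and_eq_true, decide_eq_true_eq, mem_insert,
    mem_singleton, Prod.mk.injEq]
  omega

theorem S1_inU (p : Pat) (v : P2) : inU p v = true ↔ v ∈ (p.P.map Prod.snd).toFinset := by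
  unfold inU
  simp only [List.any_eq_true, decide_eq_true_eq, List.mem_toFinset, List.mem_map]

/-- the colour of a position -/
def S1_col (p : Pat) (v : P2) : ℕ := ((p.P.find? (fun a => decide (a.2 = v))).map Prod.fst).getD 0

theorem S1_col_eq (p : Pat) (hn : (p.P.map Prod.snd).Nodup) (a : Lt) (ha : a ∈ p.P) :
    S1_col p a.2 = a.1 := by
  unfold S1_col
  cases hf : p.P.find? (fun b => decide (b.2 = a.2)) with
  | none =>
    rw [List.find?_eq_none] at hf
    exact absurd (by simp) (hf a ha)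
  | some b =>
    have hb := List.mem_of_find?_eq_some hf
    have hb2 : b.2 = a.2 := by
      have := List.find?_some hf
      simpa using this
    have : b = a := List.inj_on_of_nodup_map hn hb ha hb2
    rw [this]
    rfl

theorem S1_lost_le (p : Pat) (hn : (p.P.map Prod.snd).Nodup) (L : P2 → Finset ℕ) (f : ℕ → ℕ)
    (hocc : Occ L f p) (v : P2) :
    lost L (p.P.map Prod.snd).toFinset (fun u => f (S1_col p u)) v ≤ lm p v := by
  unfold lost lm
  have hsub : ((((nb v) ∩ (p.P.map Prod.snd).toFinset).image (fun u => f (S1_col p u))) ∩ (L v)) ⊆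
      ((((((p.P.filter (fun a => adjb a.2 v)).map Prod.fst).dedup).filter
        (fun k => !decide ((k, v) ∈ p.N))).map f).toFinset) := by
    intro c hc
    rw [mem_inter, mem_image] at hc
    obtain ⟨⟨u, hu, rfl⟩, hcL⟩ := hc
    rw [mem_inter, List.mem_toFinset, List.mem_map] at hu
    obtain ⟨hnb, a, ha, rfl⟩ := hu
    rw [S1_col_eq p hn a ha] at hcL ⊢
    rw [List.mem_toFinset, List.mem_map]
    refine ⟨a.1, ?_, rfl⟩
    rw [List.mem_filter, List.mem_dedup, List.mem_map]
    refine ⟨⟨a, ?_, rfl⟩, ?_⟩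
    · rw [List.mem_filter]
      exact ⟨ha, (S1_adjb _ _).2 hnb⟩
    · simp only [Bool.not_eq_true', decide_eq_false_iff_not]
      intro hN
      exact hocc.2 _ hN hcL
  refine (Finset.card_le_card hsub).trans ((List.toFinset_card_le _).trans ?_)
  rw [List.length_map]

/-- S1. Spot types are sound. -/
theorem stype_sound (t : SType) (h : t.ok = true) (df : Bool) : Imp df 60 t.p := by
  intro L hL hno _ f hf hocc
  simp only [SType.ok, Bool.and_eq_true, decide_eq_true_eq, List.all_eq_true, Bool.or_eq_true,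
    Bool.not_eq_true', decide_eq_false_iff_not] at h
  obtain ⟨⟨⟨⟨⟨⟨⟨⟨⟨hp, hF1⟩, hF2⟩, hsame⟩, hnd⟩, hmar⟩, hprop⟩, hc1⟩, hs1⟩, hc2⟩ := h
  have hok1 := S1_FOk_of _ hF1
  have hok2 := S1_FOk_of _ hF2
  have hcells : t.F2.cells = t.F1.cells := by
    unfold Flo.cells
    rw [hsame.1, hsame.2.1, hsame.2.2.1, hsame.2.2.2]
  simp only [Pat.ok, Bool.and_eq_true, decide_eq_true_eq, List.all_eq_true] at hp
  set U : Finset P2 := (t.p.P.map Prod.snd).toFinset with hU
  set φ : P2 → ℕ := fun u => f (S1_col t.p u) with hφ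
  have hlost : ∀ v, lost L U φ v ≤ lm t.p v := fun v => S1_lost_le t.p hnd L f hocc v
  have hlm : ∀ v, v ∉ t.F1.cells → lm t.p v = 0 := by
    intro v hv
    unfold lm
    have : t.p.P.filter (fun a => adjb a.2 v) = [] := by
      rw [List.filter_eq_nil_iff]
      intro a ha hadj
      rw [S1_adjb] at hadj
      have hm := hmar a ha
      apply hv
      rw [S1_cells_mem]
      obtain ⟨k, x, y⟩ := a
      obtain ⟨c, d⟩ := v
      simp only [nb, mem_insert, mem_singleton, Prod.mk.injEq] at hadj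
      simp only at hm ⊢
      omega
    rw [this]
    rfl
  have hmemU : ∀ u ∈ U, ∃ a ∈ t.p.P, a.2 = u ∧ φ u = f a.1 := by
    intro u hu
    rw [hU, List.mem_toFinset, List.mem_map] at hu
    obtain ⟨a, ha, rfl⟩ := hu
    refine ⟨a, ha, rfl, ?_⟩
    show f (S1_col t.p a.2) = f a.1
    rw [S1_col_eq t.p hnd a ha]
  refine hno U φ ?_ ?_
  · intro u hu
    obtain ⟨a, ha, rfl, _⟩ := hmemU u hu
    have h1 := hp.1 a ha
    unfold InB
    simp only [sub_zero]
    constructor
    · rw [abs_le]; push_cast; omega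
    · rw [abs_le]; push_cast; omega
  · refine ⟨?_, ?_, ?_, ?_⟩
    · intro u hu
      obtain ⟨a, ha, rfl, h2⟩ := hmemU u hu
      rw [h2]
      exact hocc.1 a ha
    · intro u hu v hv huv
      obtain ⟨a, ha, rfl, h2⟩ := hmemU u hu
      obtain ⟨b, hb, rfl, h3⟩ := hmemU v hv
      rw [h2, h3]
      intro he
      have := hf a.1 (hp.1 a ha).1.1.1.1 b.1 (hp.1 b hb).1.1.1.1 he
      rcases hprop a ha b hb with h4 | h4
      · have h5 : adjb a.2 b.2 = true := (S1_adjb _ _).2 ((D1_nb_symm _ _).1 huv)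
        rw [h4] at h5
        exact Bool.noConfusion h5
      · exact h4 this
    · intro Z hZ
      have hb := S1_div_le t.F1 hok1 Z
      have hsplit : ∑ v ∈ Z, t.F1.div v = ∑ v ∈ Z \ U, t.F1.div v + ∑ v ∈ U, t.F1.div v :=
        (Finset.sum_sdiff hZ).symm
      have hUsum : ∑ v ∈ U, t.F1.div v = ((t.p.P.map Prod.snd).map (fun v => t.F1.div v)).sum := by
        rw [hU, List.sum_toFinset _ hnd]
      have hCsum : (((t.F1.cells.filter (fun v => !inU t.p v)).map
          (fun v => (lm t.p v : ℤ))).sum) = ∑ v ∈ t.F1.cells.toFinset \ U, (lm t.p v : ℤ) := by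
        rw [← List.sum_toFinset _ ((S1_cells_nodup t.F1).filter _)]
        apply Finset.sum_congr _ (fun _ _ => rfl)
        ext v
        rw [List.mem_toFinset, List.mem_filter, mem_sdiff, List.mem_toFinset, hU, ← S1_inU]
        simp
      have h1 : ∀ v ∈ Z \ U, -(2 * (lm t.p v : ℤ)) ≤ t.F1.div v := by
        intro v hv
        rw [mem_sdiff] at hv
        by_cases hc : v ∈ t.F1.cells
        · rcases hc1 v hc with h5 | h5
          · exact absurd ((S1_inU _ _).1 h5) hv.2
          · exact h5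
        · rw [S1_div_out _ hok1 _ hc, hlm v hc]; simp
      have h2 : -(2 * ∑ v ∈ Z \ U, (lm t.p v : ℤ)) ≤ ∑ v ∈ Z \ U, t.F1.div v := by
        rw [Finset.mul_sum, ← Finset.sum_neg_distrib]
        exact Finset.sum_le_sum h1
      have h3 : ∑ v ∈ (U.biUnion nb) \ Z, (lm t.p v : ℤ) + ∑ v ∈ Z \ U, (lm t.p v : ℤ) ≤
          ∑ v ∈ t.F1.cells.toFinset \ U, (lm t.p v : ℤ) := by
        rw [← Finset.sum_union]
        · have : ∑ v ∈ ((U.biUnion nb) \ Z) ∪ (Z \ U), (lm t.p v : ℤ) =
              ∑ v ∈ (((U.biUnion nb) \ Z) ∪ (Z \ U)).filter (fun v => v ∈ t.F1.cells),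
                (lm t.p v : ℤ) := by
            rw [Finset.sum_filter]
            apply Finset.sum_congr rfl
            intro v _
            split_ifs with hc
            · rfl
            · rw [hlm v hc]; rfl
          rw [this]
          apply Finset.sum_le_sum_of_subset_of_nonneg
          · intro v hv
            rw [mem_filter, mem_union, mem_sdiff, mem_sdiff] at hv
            rw [mem_sdiff, List.mem_toFinset]
            refine ⟨hv.2, ?_⟩
            rcases hv.1 with h5 | h5
            · exact fun h6 => h5.2 (hZ h6)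
            · exact h5.2
          · intro v _ _
            exact Int.natCast_nonneg _
        · rw [Finset.disjoint_left]
          intro v hv hv'
          exact (mem_sdiff.1 hv).2 (mem_sdiff.1 hv').1
      have h4 : ∑ v ∈ (U.biUnion nb) \ Z, (lost L U φ v : ℤ) ≤
          ∑ v ∈ (U.biUnion nb) \ Z, (lm t.p v : ℤ) :=
        Finset.sum_le_sum (fun v _ => by exact_mod_cast hlost v)
      rw [hCsum, ← hUsum] at hs1
      have : (2 : ℤ) + 2 * ∑ v ∈ (U.biUnion nb) \ Z, (lost L U φ v : ℤ) ≤ (bd Z : ℤ) := by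
        linarith
      exact_mod_cast this
    · intro X hX
      have hb := S1_div_le t.F2 hok2 X
      have h1 : ∀ v ∈ X, 2 * (lost L U φ v : ℤ) ≤ t.F2.div v := by
        intro v hv
        have hvU : v ∉ U := Finset.disjoint_left.1 hX hv
        have h0 : (lost L U φ v : ℤ) ≤ (lm t.p v : ℤ) := by exact_mod_cast hlost v
        by_cases hc : v ∈ t.F1.cells
        · rcases hc2 v (by rw [hcells]; exact hc) with h5 | h5
          · exact absurd ((S1_inU _ _).1 h5) hvU
          · linarith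
        · rw [S1_div_out _ hok2 _ (by rw [hcells]; exact hc)]
          rw [hlm v hc] at h0
          have : (0 : ℤ) ≤ (lost L U φ v : ℤ) := Int.natCast_nonneg _
          push_cast at h0
          linarith
      have h2 : 2 * ∑ v ∈ X, (lost L U φ v : ℤ) ≤ ∑ v ∈ X, t.F2.div v := by
        rw [Finset.mul_sum]
        exact Finset.sum_le_sum h1
      have : 2 * ∑ v ∈ X, (lost L U φ v : ℤ) ≤ (bd X : ℤ) := h2.trans hb
      exact_mod_cast this

end TorGrid
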