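import Pool.Agent.Lib.MP_caf32e_co.CertDefs
import Pool.Agent.Lib.MP_caf32e_co.G0

/-! Row S2: transformations of impossible patterns. -/

namespace TorGrid

private theorem S2_isAut (t : Tf) : IsAut t.ap := by
  obtain ⟨s, dx, dy, c⟩ := t
  refine ⟨⟨?_, ?_⟩, ?_⟩
  · rintro ⟨a, b⟩ ⟨a', b'⟩ h
    simp only [Tf.ap] at h
    split_ifs at h <;> simp only [Prod.mk.injEq] at h ⊢ <;> omega
  · rintro ⟨a, b⟩
    by_cases h1 : s % 2 = 1 <;> by_cases h2 : (s / 2) % 2 = 1 <;> by_cases h4 : (s / 4) % 2 = 1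
    · refine ⟨(-(b - dy), -(a - dx)), ?_⟩
      simp only [Tf.ap, h1, h2, h4, if_true, Prod.mk.injEq]; omega
    · refine ⟨(-(a - dx), -(b - dy)), ?_⟩
      simp only [Tf.ap, h1, h2, h4, if_true, if_false, Prod.mk.injEq]; omega
    · refine ⟨(-(b - dy), (a - dx)), ?_⟩
      simp only [Tf.ap, h1, h2, h4, if_true, if_false, Prod.mk.injEq]; omega
    · refine ⟨(-(a - dx), (b - dy)), ?_⟩
      simp only [Tf.ap, h1, h2, h4, if_true, if_false, Prod.mk.injEq]; omega
    · refine ⟨((b - dy), -(a - dx)), ?_⟩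
      simp only [Tf.ap, h1, h2, h4, if_true, if_false, Prod.mk.injEq]; omega
    · refine ⟨((a - dx), -(b - dy)), ?_⟩
      simp only [Tf.ap, h1, h2, h4, if_true, if_false, Prod.mk.injEq]; omega
    · refine ⟨((b - dy), (a - dx)), ?_⟩
      simp only [Tf.ap, h1, h2, h4, if_true, if_false, Prod.mk.injEq]; omega
    · refine ⟨((a - dx), (b - dy)), ?_⟩
      simp only [Tf.ap, h1, h2, h4, if_true, if_false, Prod.mk.injEq]; omega
  · rintro ⟨a, b⟩
    ext ⟨w1, w2⟩
    by_cases h1 : s % 2 = 1 <;> by_cases h2 : (s / 2) % 2 = 1 <;> by_cases h4 : (s / 4) % 2 = 1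
    all_goals
      simp only [Tf.ap, nb, Finset.image_insert, Finset.image_singleton, Finset.mem_insert,
        Finset.mem_singleton, Prod.mk.injEq, h1, h2, h4, if_true, if_false]
      omega

private theorem S2_bound (t : Tf) (ht : t.ok = true) (r : ℕ) (v : P2)
    (hv : InB (0, 0) (r : ℤ) v) : InB (0, 0) ((r + 40 : ℕ) : ℤ) (t.ap v) := by
  obtain ⟨s, dx, dy, c⟩ := t
  unfold Tf.ok at ht
  simp only [Bool.and_eq_true, decide_eq_true_eq] at ht
  obtain ⟨⟨⟨⟨-, h1⟩, h2⟩, h3⟩, h4⟩ := ht
  obtain ⟨a, b⟩ := v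
  unfold InB at hv ⊢
  simp only [sub_zero] at hv ⊢
  have ha := abs_le.1 hv.1
  have hb := abs_le.1 hv.2
  unfold Tf.ap
  split_ifs <;> exact ⟨abs_le.2 ⟨by push_cast; omega, by push_cast; omega⟩,
    abs_le.2 ⟨by push_cast; omega, by push_cast; omega⟩⟩

/-- the face condition is transported -/
private theorem S2_face (t : Tf) (ht : t.ok = true) (L : P2 → Finset ℕ) (r : ℕ)
    (hD : DFb L (0, 0) ((r + 40 : ℕ) : ℤ)) : DFb (fun v => L (t.ap v)) (0, 0) (r : ℤ) := by
  obtain ⟨s, dx, dy, c⟩ := t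
  unfold Tf.ok at ht
  simp only [Bool.and_eq_true, decide_eq_true_eq] at ht
  obtain ⟨⟨⟨⟨-, h1⟩, h2⟩, h3⟩, h4⟩ := ht
  intro x y hxy
  unfold InB at hxy
  simp only [sub_zero] at hxy
  have ha := abs_le.1 hxy.1
  have hb := abs_le.1 hxy.2
  have hD' : ∀ X Y : ℤ, -((r : ℤ) + 31) ≤ X → X ≤ r + 31 → -((r : ℤ) + 31) ≤ Y → Y ≤ r + 31 →
      L (X, Y) ∪ L (X + 1, Y + 1) = L (X + 1, Y) ∪ L (X, Y + 1) := by
    intro X Y a1 a2 a3 a4
    apply hD X Y
    unfold InB
    simp only [sub_zero]
    exact ⟨abs_le.2 ⟨by push_cast; omega, by push_cast; omega⟩,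
      abs_le.2 ⟨by push_cast; omega, by push_cast; omega⟩⟩
  unfold DFf
  by_cases k1 : s % 2 = 1 <;> by_cases k2 : (s / 2) % 2 = 1 <;> by_cases k4 : (s / 4) % 2 = 1
  all_goals simp only [Tf.ap, k1, k2, k4, if_true, if_false]
  · have := hD' (-y - 1 + dx) (-x - 1 + dy) (by omega) (by omega) (by omega) (by omega)
    rw [Finset.union_comm (L (-y - 1 + dx, -x - 1 + dy))] at this
    convert this using 4 <;> ring
  · have := hD' (-x - 1 + dx) (-y - 1 + dy) (by omega) (by omega) (by omega) (by omega)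
    rw [Finset.union_comm (L (-x - 1 + dx, -y - 1 + dy)),
      Finset.union_comm (L (-x - 1 + dx + 1, -y - 1 + dy))] at this
    convert this using 4 <;> ring
  · have := (hD' (y + dx) (-x - 1 + dy) (by omega) (by omega) (by omega) (by omega)).symm
    rw [Finset.union_comm (L (y + dx + 1, -x - 1 + dy))] at this
    convert this using 4 <;> ring
  · have := (hD' (-x - 1 + dx) (y + dy) (by omega) (by omega) (by omega) (by omega)).symm
    convert this using 4 <;> ring
  · have := (hD' (-y - 1 + dx) (x + dy) (by omega) (by omega) (by omega) (by omega)).symm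
    rw [Finset.union_comm (L (-y - 1 + dx, x + dy))] at this
    convert this using 4 <;> ring
  · have := (hD' (x + dx) (-y - 1 + dy) (by omega) (by omega) (by omega) (by omega)).symm
    rw [Finset.union_comm (L (x + dx, -y - 1 + dy)),
      Finset.union_comm (L (x + dx + 1, -y - 1 + dy))] at this
    convert this using 4 <;> ring
  · have := hD' (y + dx) (x + dy) (by omega) (by omega) (by omega) (by omega)
    rw [Finset.union_comm (L (y + dx + 1, x + dy))] at this
    convert this using 4 <;> ring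
  · have := hD' (x + dx) (y + dy) (by omega) (by omega) (by omega) (by omega)
    convert this using 4 <;> ring

theorem imp_map (df : Bool) (r : ℕ) (p : Pat) (hp : p.ok = true) (h : Imp df r p) (t : Tf)
    (ht : t.ok = true) : Imp df (r + 40) (p.map t) := by
  intro L hL hns hdf f hf hocc
  refine h (fun v => L (t.ap v)) (fun v => hL _) ?_ ?_ (fun k => f (t.col k)) ?_ ?_
  · intro U φ hU hS
    refine hns (U.image t.ap) _ ?_ (spot_aut t.ap (S2_isAut t) L U φ hS)
    intro u hu
    obtain ⟨u', hu', rfl⟩ := Finset.mem_image.1 hu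
    exact S2_bound t ht r u' (hU u' hu')
  · intro h1
    exact S2_face t ht L r (hdf h1)
  · intro i hi j hj hij
    unfold Tf.ok at ht
    simp only [Bool.and_eq_true, decide_eq_true_eq] at ht
    obtain ⟨⟨⟨⟨⟨⟨hlen, hall⟩, hnd⟩, -⟩, -⟩, -⟩, -⟩ := ht
    have hcol : ∀ k, k < 4 → t.col k < 4 := by
      intro k hk
      have hk' : k < t.c.length := by omega
      have h1 : t.col k = t.c[k] := by
        unfold Tf.col
        simp [List.getD_eq_getElem?_getD, List.getElem?_eq_getElem hk']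
      rw [h1]
      rw [List.all_eq_true] at hall
      have := hall (t.c[k]) (List.getElem_mem hk')
      simpa using this
    have h2 := hf _ (hcol i hi) _ (hcol j hj) hij
    have hi' : i < t.c.length := by omega
    have hj' : j < t.c.length := by omega
    have e1 : t.col i = t.c[i] := by
      unfold Tf.col
      simp [List.getD_eq_getElem?_getD, List.getElem?_eq_getElem hi']
    have e2 : t.col j = t.c[j] := by
      unfold Tf.col
      simp [List.getD_eq_getElem?_getD, List.getElem?_eq_getElem hj']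
    rw [e1, e2] at h2
    exact (List.Nodup.getElem_inj_iff hnd).1 h2
  · obtain ⟨o1, o2⟩ := hocc
    constructor
    · intro a ha
      exact o1 (t.col a.1, t.ap a.2) (List.mem_map.2 ⟨a, ha, rfl⟩)
    · intro a ha
      exact o2 (t.col a.1, t.ap a.2) (List.mem_map.2 ⟨a, ha, rfl⟩)

theorem imp_mono (df : Bool) (r r' : ℕ) (hr : r ≤ r') (p : Pat) (h : Imp df r p) : Imp df r' p := by
  intro L hL hns hdf f hf
  have hin : ∀ v, InB (0, 0) (r : ℤ) v → InB (0, 0) (r' : ℤ) v := by
    intro v hv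
    unfold InB at hv ⊢
    exact ⟨hv.1.trans (by exact_mod_cast hr), hv.2.trans (by exact_mod_cast hr)⟩
  refine h L hL ?_ ?_ f hf
  · intro U φ hU
    exact hns U φ (fun u hu => hin u (hU u hu))
  · intro h1 x y hxy
    exact hdf h1 x y (hin _ hxy)

end TorGrid
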