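import Pool.Agent.Lib.MP_caf32e_co.S2
import Pool.Agent.Lib.MP_caf32e_co.S5

/-! Row S6. -/

namespace TorGrid

/-- S6. Soundness of a list of lemmas. -/
theorem checkAll_sound (df : Bool) (tbl : List Pat) (ls : List Lem) (h : checkAll df tbl ls = true)
    (r : ℕ) (hr : 60 ≤ r) (htbl : ∀ p ∈ tbl, p.ok = true ∧ Imp df r p) :
    ∃ r' : ℕ, ∀ l ∈ ls, Imp df r' l.pat := by
  induction ls generalizing tbl r with
  | nil => exact ⟨0, fun l hl => absurd hl (by simp)⟩
  | cons l rest ih =>
    simp only [checkAll, Bool.and_eq_true] at h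
    have h1 : Imp df (r + 40) l.pat := lem_sound tbl df r hr htbl l h.1
    have h2 : l.pat.ok = true := by
      have h3 := h.1
      simp only [Lem.ok, Bool.and_eq_true] at h3
      exact h3.1.1.2
    obtain ⟨r', hr'⟩ := ih (tbl ++ [l.pat]) h.2 (r + 40) (by omega) (by
      intro p hp
      rcases List.mem_append.1 hp with hp | hp
      · exact ⟨(htbl p hp).1, imp_mono df r (r + 40) (by omega) p (htbl p hp).2⟩
      · rw [List.mem_singleton] at hp
        subst hp
        exact ⟨h2, h1⟩)
    refine ⟨max r' (r + 40), ?_⟩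
    intro l' hl'
    rcases List.mem_cons.1 hl' with rfl | hl'
    · exact imp_mono df (r + 40) _ (le_max_right _ _) _ h1
    · exact imp_mono df r' _ (le_max_left _ _) _ (hr' l' hl')

end TorGrid
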