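import Pool.Agent.Lib.MP_caf32e_co.Defs

/-! Row T1: the folded foliation of the torus. -/

namespace TorGrid

open Finset

section T1

private def t1pos (m : ℕ) {n : ℕ} (A : ℕ) (t : ZMod n) : ZMod m :=
  (((if t.val ≤ A then (t.val : ℤ) else 2 * (A : ℤ) - t.val) : ℤ) : ZMod m)

private theorem t1_sg_cases {n : ℕ} (A : ℕ) (t : ZMod n) : sg A t = 1 ∨ sg A t = -1 := by
  unfold sg
  split_ifs
  · exact Or.inl rfl
  · exact Or.inr rfl

private theorem t1pos_zero (m n A : ℕ) [NeZero n] : t1pos m A (0 : ZMod n) = 0 := by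
  unfold t1pos
  simp

private theorem t1pos_succ (m n A : ℕ) [NeZero m] [NeZero n] (hn : 3 ≤ n) (hA : A ≤ n)
    (hd : (m : ℤ) ∣ 2 * (A : ℤ) - n) (t : ZMod n) :
    t1pos m A (t + 1) = t1pos m A t + ((sg A t : ℤ) : ZMod m) := by
  have hlt : t.val < n := ZMod.val_lt t
  have h1 : (1 : ZMod n).val = 1 := by
    rw [ZMod.val_one'']
    omega
  by_cases h : t.val + 1 < n
  · have hv : (t + 1).val = t.val + 1 := by
      rw [ZMod.val_add, h1, Nat.mod_eq_of_lt h]
    unfold t1pos sg
    rw [hv, ← Int.cast_add]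
    congr 1
    push_cast
    split_ifs <;> omega
  · have hv0 : t.val + 1 = n := by omega
    have hz : t + 1 = 0 := by
      have : (t + 1).val = 0 := by
        rw [ZMod.val_add, h1, hv0, Nat.mod_self]
      exact (ZMod.val_eq_zero _).1 this
    rw [hz, t1pos_zero]
    unfold t1pos sg
    rw [← Int.cast_add]
    symm
    rw [ZMod.intCast_zmod_eq_zero_iff_dvd]
    have e : ((if t.val ≤ A then (t.val : ℤ) else 2 * (A : ℤ) - t.val) +
        (if t.val < A then 1 else -1)) = 2 * (A : ℤ) - n := by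
      split_ifs <;> omega
    rw [e]
    exact hd

private theorem t1_one_ne {k : ℕ} (hk : 3 ≤ k) : (1 : ZMod k) ≠ 0 := by
  have : Fact (1 < k) := ⟨by omega⟩
  exact one_ne_zero

private theorem t1_adj_h {m n : ℕ} (hm : 3 ≤ m) (x : ZMod m) (t : ZMod n) (s : ℤ)
    (hs : s = 1 ∨ s = -1) : (TG m n).Adj (x, t) (x + (s : ZMod m), t) := by
  have h1 := t1_one_ne hm
  rcases hs with rfl | rfl
  · refine ⟨?_, Or.inl ?_⟩
    · intro h
      have := congrArg Prod.fst h
      simp at this
      exact h1 this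
    · simp
  · refine ⟨?_, Or.inr (Or.inl ?_)⟩
    · intro h
      have := congrArg Prod.fst h
      simp at this
      exact h1 this
    · simp [sub_eq_add_neg]

private theorem t1_adj_v {m n : ℕ} (hn : 3 ≤ n) (x : ZMod m) (t : ZMod n) :
    (TG m n).Adj (x, t) (x, t + 1) := by
  have h1 := t1_one_ne hn
  refine ⟨?_, Or.inr (Or.inr (Or.inl rfl))⟩
  intro h
  have := congrArg Prod.snd h
  simp at this
  exact h1 this

private def t1σ (m n A : ℕ) : Equiv.Perm (TV m n) where
  toFun v := (v.1 + ((sg A v.2 : ℤ) : ZMod m), v.2 + 1)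
  invFun v := (v.1 - ((sg A (v.2 - 1) : ℤ) : ZMod m), v.2 - 1)
  left_inv v := by simp
  right_inv v := by simp

private theorem t1σ_iter (m n A : ℕ) (k : ℕ) (v : TV m n) :
    ((t1σ m n A)^[k] v).2 = v.2 + k := by
  induction k with
  | zero => simp
  | succ k ih =>
    rw [Function.iterate_succ_apply']
    have : ∀ w : TV m n, (t1σ m n A w).2 = w.2 + 1 := fun w => rfl
    rw [this, ih]
    push_cast
    ring

private theorem t1σs_iter (m n A : ℕ) (k : ℕ) (v : TV m n) :
    ((t1σ m n A).symm^[k] v).2 = v.2 - k := by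
  induction k with
  | zero => simp
  | succ k ih =>
    rw [Function.iterate_succ_apply']
    have : ∀ w : TV m n, ((t1σ m n A).symm w).2 = w.2 - 1 := fun w => rfl
    rw [this, ih]
    push_cast
    ring

/-- T1. The forward and the backward foliation. -/
theorem fol_torus (m n A : ℕ) [NeZero m] [NeZero n] (hm : 3 ≤ m) (hn : 3 ≤ n) (hA : A ≤ n)
    (hd : (m : ℤ) ∣ 2 * (A : ℤ) - n) :
    ∃ F F' : Fol (TV m n) m, F.G = TG m n ∧ F'.G = TG m n ∧ F'.δ = F.δ ∧ F'.σ = F.σ.symm ∧
      (∀ v, F.σ v = (v.1 + (sg A v.2 : ZMod m), v.2 + 1)) ∧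
      (∀ v, F.N v = (v.1, v.2 + 1)) ∧
      (∀ v, F.H v = (v.1 + (sg A v.2 : ZMod m), v.2)) ∧
      (∀ v, F'.N v = (v.1, v.2 - 1)) ∧
      (∀ v, F'.H v = (v.1 - (sg A (v.2 - 1) : ZMod m), v.2)) ∧
      (∀ x : ZMod m, F.δ (x, 0) = x) := by
  have hps := t1pos_succ m n A hn hA hd
  have hpp : ∀ t : ZMod n, t1pos m A t = t1pos m A (t - 1) + ((sg A (t - 1) : ℤ) : ZMod m) := by
    intro t
    have := hps (t - 1)
    rwa [sub_add_cancel] at this
  have hδσ : ∀ v : TV m n, (t1σ m n A v).1 - t1pos m A (t1σ m n A v).2 = v.1 - t1pos m A v.2 := by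
    intro v
    show v.1 + ((sg A v.2 : ℤ) : ZMod m) - t1pos m A (v.2 + 1) = v.1 - t1pos m A v.2
    rw [hps]
    ring
  have hδσs : ∀ v : TV m n, ((t1σ m n A).symm v).1 - t1pos m A ((t1σ m n A).symm v).2 =
      v.1 - t1pos m A v.2 := by
    intro v
    have := hδσ ((t1σ m n A).symm v)
    rw [Equiv.apply_symm_apply] at this
    exact this.symm
  have hadjsymm : ∀ u v : TV m n, (TG m n).Adj u v → (TG m n).Adj v u := fun u v h => h.symm
  refine ⟨{ G := TG m n, δ := fun v => v.1 - t1pos m A v.2, σ := t1σ m n A,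
            N := fun v => (v.1, v.2 + 1), H := fun v => (v.1 + ((sg A v.2 : ℤ) : ZMod m), v.2),
            hσ := hδσ, hd := ?_, adjN := ?_, adjH := ?_, cover := ?_, retN := ?_, retH := ?_,
            orb := ?_ },
          { G := TG m n, δ := fun v => v.1 - t1pos m A v.2, σ := (t1σ m n A).symm,
            N := fun v => (v.1, v.2 - 1), H := fun v => (v.1 - ((sg A (v.2 - 1) : ℤ) : ZMod m), v.2),
            hσ := hδσs, hd := ?_, adjN := ?_, adjH := ?_, cover := ?_, retN := ?_, retH := ?_,
            orb := ?_ },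
          rfl, rfl, rfl, rfl, fun v => rfl, fun v => rfl, fun v => rfl, fun v => rfl,
          fun v => rfl, ?_⟩
  · intro v
    show (v.1 - t1pos m A (v.2 + 1) = v.1 - t1pos m A v.2 + 1 ∧
        v.1 + ((sg A v.2 : ℤ) : ZMod m) - t1pos m A v.2 = v.1 - t1pos m A v.2 - 1) ∨
      (v.1 - t1pos m A (v.2 + 1) = v.1 - t1pos m A v.2 - 1 ∧
        v.1 + ((sg A v.2 : ℤ) : ZMod m) - t1pos m A v.2 = v.1 - t1pos m A v.2 + 1)
    rw [hps]
    rcases t1_sg_cases A v.2 with h | h
    · right
      rw [h]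
      push_cast
      constructor <;> ring
    · left
      rw [h]
      push_cast
      constructor <;> ring
  · intro v
    exact t1_adj_v hn v.1 v.2
  · intro v
    exact t1_adj_h hm v.1 v.2 _ (t1_sg_cases A v.2)
  · rintro u v ⟨-, h⟩
    rcases h with h | h | h | h
    · rcases t1_sg_cases A u.2 with hs | hs
      · right; left
        rw [h, hs]
        simp
      · right; right; right
        rw [h]
        show u = (u.1 + 1 + ((sg A u.2 : ℤ) : ZMod m), u.2)
        rw [hs]
        simp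
    · rcases t1_sg_cases A u.2 with hs | hs
      · right; right; right
        rw [h]
        show u = (u.1 - 1 + ((sg A u.2 : ℤ) : ZMod m), u.2)
        rw [hs]
        simp
      · right; left
        rw [h, hs]
        simp [sub_eq_add_neg]
    · left
      exact h
    · right; right; left
      rw [h]
      simp
  · intro v
    exact t1_adj_h hm v.1 (v.2 + 1) _ (t1_sg_cases A v.2)
  · intro v
    exact t1_adj_v hn (v.1 + ((sg A v.2 : ℤ) : ZMod m)) v.2
  · intro u v huv
    refine ⟨(v.2 - u.2).val, ?_⟩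
    have h2 : ((t1σ m n A)^[(v.2 - u.2).val] u).2 = v.2 := by
      rw [t1σ_iter, ZMod.natCast_zmod_val]
      ring
    have hδ : ∀ k : ℕ, ((t1σ m n A)^[k] u).1 - t1pos m A ((t1σ m n A)^[k] u).2 =
        u.1 - t1pos m A u.2 := by
      intro k
      induction k with
      | zero => rfl
      | succ k ih => rw [Function.iterate_succ_apply', hδσ, ih]
    have h1 := hδ (v.2 - u.2).val
    rw [h2] at h1
    have huv' : u.1 - t1pos m A u.2 = v.1 - t1pos m A v.2 := huv
    rw [huv'] at h1
    exact Prod.ext (sub_left_injective h1) h2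
  · intro v
    show (v.1 - t1pos m A (v.2 - 1) = v.1 - t1pos m A v.2 + 1 ∧
        v.1 - ((sg A (v.2 - 1) : ℤ) : ZMod m) - t1pos m A v.2 = v.1 - t1pos m A v.2 - 1) ∨
      (v.1 - t1pos m A (v.2 - 1) = v.1 - t1pos m A v.2 - 1 ∧
        v.1 - ((sg A (v.2 - 1) : ℤ) : ZMod m) - t1pos m A v.2 = v.1 - t1pos m A v.2 + 1)
    rw [hpp v.2]
    rcases t1_sg_cases A (v.2 - 1) with h | h
    · left
      rw [h]
      push_cast
      constructor <;> ring
    · right
      rw [h]
      push_cast
      constructor <;> ring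
  · intro v
    have := t1_adj_v (m := m) hn v.1 (v.2 - 1)
    rw [sub_add_cancel] at this
    exact hadjsymm _ _ this
  · intro v
    have hs : -(sg A (v.2 - 1)) = 1 ∨ -(sg A (v.2 - 1)) = -1 := by
      rcases t1_sg_cases A (v.2 - 1) with h | h <;> rw [h] <;> simp
    have := t1_adj_h (n := n) hm v.1 v.2 _ hs
    rw [Int.cast_neg, ← sub_eq_add_neg] at this
    exact this
  · rintro u v ⟨-, h⟩
    rcases h with h | h | h | h
    · rcases t1_sg_cases A (u.2 - 1) with hs | hs
      · right; right; right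
        rw [h]
        show u = (u.1 + 1 - ((sg A (u.2 - 1) : ℤ) : ZMod m), u.2)
        rw [hs]
        simp
      · right; left
        rw [h, hs]
        simp
    · rcases t1_sg_cases A (u.2 - 1) with hs | hs
      · right; left
        rw [h, hs]
        simp
      · right; right; right
        rw [h]
        show u = (u.1 - 1 - ((sg A (u.2 - 1) : ℤ) : ZMod m), u.2)
        rw [hs]
        simp
    · right; right; left
      rw [h]
      simp
    · left
      exact h
  · intro v
    have hs : -(sg A (v.2 - 1)) = 1 ∨ -(sg A (v.2 - 1)) = -1 := by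
      rcases t1_sg_cases A (v.2 - 1) with h | h <;> rw [h] <;> simp
    have := t1_adj_h (n := n) hm v.1 (v.2 - 1) _ hs
    rw [Int.cast_neg, ← sub_eq_add_neg] at this
    exact this
  · intro v
    have := t1_adj_v (m := m) hn (v.1 - ((sg A (v.2 - 1) : ℤ) : ZMod m)) (v.2 - 1)
    rw [sub_add_cancel] at this
    exact hadjsymm _ _ this
  · intro u v huv
    refine ⟨(u.2 - v.2).val, ?_⟩
    have h2 : ((t1σ m n A).symm^[(u.2 - v.2).val] u).2 = v.2 := by
      rw [t1σs_iter, ZMod.natCast_zmod_val]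
      ring
    have hδ : ∀ k : ℕ, ((t1σ m n A).symm^[k] u).1 - t1pos m A ((t1σ m n A).symm^[k] u).2 =
        u.1 - t1pos m A u.2 := by
      intro k
      induction k with
      | zero => rfl
      | succ k ih => rw [Function.iterate_succ_apply', hδσs, ih]
    have h1 := hδ (u.2 - v.2).val
    rw [h2] at h1
    have huv' : u.1 - t1pos m A u.2 = v.1 - t1pos m A v.2 := huv
    rw [huv'] at h1
    exact Prod.ext (sub_left_injective h1) h2
  · intro x
    show x - t1pos m A (0 : ZMod n) = x
    rw [t1pos_zero, sub_zero]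

end T1

end TorGrid
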