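import Pool.Agent.Lib.MP_caf32e_co.Defs

/-! Row W0. -/

namespace TorGrid

open Finset

/-- chart is injective on boxes -/
theorem ch_inj {m n : ℕ} (r : ℕ) (hm : 2 * r < m) (hn : 2 * r < n) (z : TV m n) (p q : P2)
    (hp : InB (0, 0) r p) (hq : InB (0, 0) r q) (h : ch z p = ch z q) : p = q := by
  have key : ∀ (k : ℕ) (a b : ℤ), 2 * r < k → |a| ≤ r → |b| ≤ r → (a : ZMod k) = (b : ZMod k) →
      a = b := by
    intro k a b hk ha hb hab
    rw [ZMod.intCast_eq_intCast_iff_dvd_sub] at hab
    obtain ⟨t, ht⟩ := hab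
    rw [abs_le] at ha hb
    have h1 : t = 0 := by
      by_contra ht0
      rcases lt_or_gt_of_ne ht0 with h2 | h2
      · have : (k : ℤ) * t ≤ -k := by nlinarith
        omega
      · have : (k : ℤ) ≤ k * t := by nlinarith
        omega
    rw [h1] at ht
    simp only [mul_zero] at ht
    omega
  simp only [ch, Prod.mk.injEq, add_right_inj] at h
  have hp1 : |p.1| ≤ r := by simpa using hp.1
  have hp2 : |p.2| ≤ r := by simpa using hp.2
  have hq1 : |q.1| ≤ r := by simpa using hq.1
  have hq2 : |q.2| ≤ r := by simpa using hq.2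
  exact Prod.ext (key m _ _ hm hp1 hq1 h.1) (key n _ _ hn hp2 hq2 h.2)

end TorGrid
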