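import Pool.Agent.Lib.MP_caf32e_co.W0

/-! Row W1: basic facts about the precolouring. -/

namespace TorGrid

open Finset

lemma w1_InB {r s : ℤ} {p : P2} (h : InB (0, 0) r p) (hrs : r ≤ s) : InB (0, 0) s p :=
  ⟨h.1.trans hrs, h.2.trans hrs⟩

lemma w1_InB_nb {r s : ℤ} {p q : P2} (h : InB (0, 0) r p) (hq : q ∈ nb p) (hrs : r + 1 ≤ s) :
    InB (0, 0) s q := by
  obtain ⟨h1, h2⟩ := h
  simp only [nb, mem_insert, mem_singleton] at hq
  rw [abs_le] at h1 h2
  simp only [sub_zero] at h1 h2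
  unfold InB
  simp only [sub_zero]
  rcases hq with rfl | rfl | rfl | rfl <;> constructor <;> rw [abs_le] <;> constructor <;>
    simp only <;> linarith [h1.1, h1.2, h2.1, h2.2]

lemma w1_nbT {m n : ℕ} (z : TV m n) (p : P2) : nbT (ch z p) = (nb p).image (ch z) := by
  simp only [nbT, nb, ch, image_insert, image_singleton, Int.cast_add, Int.cast_sub,
    Int.cast_one, add_assoc, add_sub_assoc]

lemma w1_nbT_symm {m n : ℕ} {v w : TV m n} (h : w ∈ nbT v) : v ∈ nbT w := by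
  simp only [nbT, mem_insert, mem_singleton] at h ⊢
  rcases h with rfl | rfl | rfl | rfl
  · right; left; simp
  · left; simp
  · right; right; right; simp
  · right; right; left; simp

lemma w1_adj {m n : ℕ} {u v : TV m n} (h : (TG m n).Adj u v) : v ∈ nbT u := by
  have := h.2
  simp only [nbT, mem_insert, mem_singleton]
  exact this

lemma w1_nb_symm {p q : P2} (h : q ∈ nb p) : p ∈ nb q := by
  simp only [nb, mem_insert, mem_singleton] at h ⊢
  rcases h with rfl | rfl | rfl | rfl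
  · right; left; simp
  · left; simp
  · right; right; right; simp
  · right; right; left; simp

/-- W1. Basic facts about the precolouring. -/
theorem cfg_basic {m n : ℕ} {L : TV m n → Finset ℕ} (hL : ∀ v, (L v).card = 3) {R ρ R1 : ℕ}
    (c : Cfg m n L R ρ R1) (h1 : R + 4 < ρ) (h2 : ρ + 4 ≤ R1) (hm : 4 * (R1 + 4) ≤ m)
    (hn : 4 * (R1 + 4) ≤ n) :
    (∀ v, c.Ts v → ¬ c.Us v) ∧
    (∀ z ∈ c.S, ∀ u ∈ c.U z, c.Phi (ch z u) = c.φ z u) ∧
    (∀ z ∈ c.S, ∀ p, InB (0, 0) ρ p → (c.Us (ch z p) ↔ p ∈ c.U z)) ∧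
    (∀ z ∈ c.S, ∀ p, InB (0, 0) ρ p → p ∉ c.U z →
      (c.L1 (ch z p)).card + lost (fun q => L (ch z q)) (c.U z) (c.φ z) p = 3) ∧
    (∀ v, (∀ z ∈ c.S, ∀ p, InB (0, 0) (ρ : ℤ) p → ch z p ≠ v) → c.L1 v = L v) ∧
    (∀ v, c.Ts v → c.L1 v = L v) ∧
    (∀ v, c.Us v → c.Phi v ∈ L v) ∧
    (∀ u v, c.Us u → c.Us v → (TG m n).Adj u v → c.Phi u ≠ c.Phi v) := by
  classical
  have hRρ : (R : ℤ) + 1 ≤ ρ := by exact_mod_cast (by omega : R + 1 ≤ ρ)
  have hRρ' : (R : ℤ) ≤ ρ := by exact_mod_cast (by omega : R ≤ ρ)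
  have hρR1 : (ρ : ℤ) ≤ R1 := by exact_mod_cast (by omega : ρ ≤ R1)
  have inj : ∀ (z : TV m n) (p q : P2), InB (0, 0) ((ρ : ℤ) + 1) p → InB (0, 0) ((ρ : ℤ) + 1) q →
      ch z p = ch z q → p = q := by
    intro z p q hp hq h
    refine ch_inj (ρ + 1) (by omega) (by omega) z p q ?_ ?_ h
    · exact w1_InB hp (by push_cast; exact le_rfl)
    · exact w1_InB hq (by push_cast; exact le_rfl)
  -- a precoloured vertex which is equal or adjacent to a vertex of the private box of `z`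
  have key : ∀ z ∈ c.S, ∀ p, InB (0, 0) ρ p → ∀ q, (q = p ∨ q ∈ nb p) → ∀ z' ∈ c.S,
      ∀ u' ∈ c.U z', ch z' u' = ch z q → z' = z ∧ u' = q := by
    intro z hz p hp q hq z' hz' u' hu' h
    have hu1 := c.inR z' hz' u' hu'
    have hzz : z' = z := by
      by_contra hne
      rcases hq with rfl | hq
      · exact c.sep z' hz' z hz hne u' q (w1_InB hu1 hRρ') hp h
      · have h3 : ch z p ∈ nbT (ch z' u') := by
          rw [h]
          exact w1_nbT_symm (by rw [w1_nbT]; exact mem_image_of_mem _ hq)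
        rw [w1_nbT] at h3
        obtain ⟨u'', hu'', h4⟩ := mem_image.1 h3
        exact c.sep z' hz' z hz hne u'' p (w1_InB_nb hu1 hu'' hRρ) hp h4
    subst hzz
    refine ⟨rfl, inj z' u' q (w1_InB hu1 (by linarith)) ?_ h⟩
    rcases hq with rfl | hq
    · exact w1_InB hp (by linarith)
    · exact w1_InB_nb hp hq le_rfl
  have A2 : ∀ z ∈ c.S, ∀ u ∈ c.U z, c.Phi (ch z u) = c.φ z u := by
    intro z hz u hu
    have hex : ∃ z' u', z' ∈ c.S ∧ u' ∈ c.U z' ∧ ch z' u' = ch z u := ⟨z, u, hz, hu, rfl⟩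
    have h3 := hex.choose_spec.choose_spec
    have h4 := key z hz u (w1_InB (c.inR z hz u hu) hRρ') u (Or.inl rfl) _ h3.1 _ h3.2.1 h3.2.2
    unfold Cfg.Phi
    rw [dif_pos hex]
    rw [h4.2]
    congr 1
    exact h4.1
  have A3' : ∀ z ∈ c.S, ∀ p, InB (0, 0) ρ p → ∀ q, (q = p ∨ q ∈ nb p) →
      (c.Us (ch z q) ↔ q ∈ c.U z) := by
    intro z hz p hp q hq
    constructor
    · rintro ⟨z', hz', u', hu', h⟩
      obtain ⟨rfl, rfl⟩ := key z hz p hp q hq z' hz' u' hu' h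
      exact hu'
    · intro h
      exact ⟨z, hz, q, h, rfl⟩
  have A5 : ∀ v, (∀ z ∈ c.S, ∀ p, InB (0, 0) (ρ : ℤ) p → ch z p ≠ v) → c.L1 v = L v := by
    intro v hv
    have : (nbT v).filter (fun w => c.Us w) = ∅ := by
      rw [filter_eq_empty_iff]
      rintro w hw ⟨z, hz, u, hu, rfl⟩
      have h3 := w1_nbT_symm hw
      rw [w1_nbT] at h3
      obtain ⟨u', hu', h4⟩ := mem_image.1 h3
      exact hv z hz u' (w1_InB_nb (c.inR z hz u hu) hu' hRρ) h4
    unfold Cfg.L1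
    rw [this]
    simp
  refine ⟨?_, A2, fun z hz p hp => A3' z hz p hp p (Or.inl rfl), ?_, A5, ?_, ?_, ?_⟩
  · rintro v hT ⟨z, hz, u, hu, rfl⟩
    exact hT z hz u (w1_InB (c.inR z hz u hu) (by linarith)) rfl
  · intro z hz p hp _
    have hA : ((nbT (ch z p)).filter (fun w => c.Us w)).image c.Phi =
        ((nb p) ∩ (c.U z)).image (c.φ z) := by
      ext x
      simp only [mem_image, mem_filter, mem_inter]
      constructor
      · rintro ⟨w, ⟨hw, hU⟩, rfl⟩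
        rw [w1_nbT] at hw
        obtain ⟨q, hq, rfl⟩ := mem_image.1 hw
        have h3 := (A3' z hz p hp q (Or.inr hq)).1 hU
        exact ⟨q, ⟨hq, h3⟩, (A2 z hz q h3).symm⟩
      · rintro ⟨q, ⟨hq, hU⟩, rfl⟩
        refine ⟨ch z q, ⟨?_, ?_⟩, A2 z hz q hU⟩
        · rw [w1_nbT]; exact mem_image_of_mem _ hq
        · exact (A3' z hz p hp q (Or.inr hq)).2 hU
    unfold Cfg.L1 lost
    rw [hA, ← hL (ch z p)]
    have h5 := card_sdiff_add_card_inter (L (ch z p)) (((nb p) ∩ (c.U z)).image (c.φ z))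
    rw [inter_comm (L (ch z p))] at h5
    exact h5
  · intro v hT
    exact A5 v fun z hz p hp => hT z hz p (w1_InB hp hρR1)
  · rintro v ⟨z, hz, u, hu, rfl⟩
    rw [A2 z hz u hu]
    exact (c.spot z hz).mem u hu
  · rintro u v ⟨z, hz, a, ha, rfl⟩ ⟨z', hz', b, hb, rfl⟩ hadj
    have h3 := w1_adj hadj
    rw [w1_nbT] at h3
    obtain ⟨q, hq, h4⟩ := mem_image.1 h3
    obtain ⟨rfl, rfl⟩ := key z hz a (w1_InB (c.inR z hz a ha) hRρ') q (Or.inr hq) z' hz' b hb
      h4.symm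
    rw [A2 _ hz a ha, A2 _ hz' b hb]
    exact (c.spot _ hz).prop a ha b hb hq

end TorGrid
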