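import Pool.Agent.Lib.MP_caf32e_co.W1

/-! Row W3: the private box inequality in the world. -/

namespace TorGrid

open Finset

private theorem W3_sg (A : ℕ) {n : ℕ} (t : ZMod n) : sg A t = 1 ∨ sg A t = -1 := by
  unfold sg
  split_ifs <;> simp

/-- if the direction changes between the rows `t - 1` and `t` then `t = 0` or `t.val = A` -/
private theorem W3_turn {n : ℕ} [NeZero n] (hn : 1 < n) (A : ℕ) (t : ZMod n)
    (h : sg A (t - 1) ≠ sg A t) : t = 0 ∨ t.val = A := by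
  by_contra hcon
  push Not at hcon
  obtain ⟨h0, hA⟩ := hcon
  have h1 : t.val ≠ 0 := fun h => h0 ((ZMod.val_eq_zero t).1 h)
  have hone : (1 : ZMod n).val = 1 := by
    rw [ZMod.val_one_eq_one_mod]
    exact Nat.mod_eq_of_lt hn
  have hv : (t - 1).val = t.val - 1 := by
    rw [ZMod.val_sub (by rw [hone]; omega), hone]
  apply h
  unfold sg
  rw [hv]
  by_cases h2 : t.val < A
  · rw [if_pos h2, if_pos (by omega)]
  · rw [if_neg h2, if_neg (by omega)]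

private theorem W3_inj {n ρ : ℕ} (hn : 2 * ρ < n) (a : ZMod n) (y y' : ℤ) (hy : |y| ≤ ρ)
    (hy' : |y'| ≤ ρ) (h : a + (y : ZMod n) = a + (y' : ZMod n)) : y = y' := by
  have h1 : (y : ZMod n) = (y' : ZMod n) := add_left_cancel h
  rw [ZMod.intCast_eq_intCast_iff_dvd_sub] at h1
  have h2 : |y' - y| < n := by
    rw [abs_le] at hy hy'
    rw [abs_lt]
    constructor <;> omega
  have := Int.eq_zero_of_abs_lt_dvd h1 h2
  omega

private theorem W3_rows {n ρ : ℕ} [NeZero n] (A : ℕ) (hn1 : 1 < n) (hn : 2 * ρ < n) (a : ZMod n) :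
    ∃ t1 t2 : ℤ, ∀ y : ℤ, |y| ≤ ρ →
      sg A (a + (y : ZMod n) - 1) ≠ sg A (a + (y : ZMod n)) → y = t1 ∨ y = t2 := by
  classical
  refine ⟨if h : ∃ y : ℤ, |y| ≤ ρ ∧ a + (y : ZMod n) = 0 then h.choose else 0,
    if h : ∃ y : ℤ, |y| ≤ ρ ∧ (a + (y : ZMod n)).val = A then h.choose else 0, ?_⟩
  intro y hy ht
  rcases W3_turn hn1 A _ ht with h | h
  · left
    have hex : ∃ y : ℤ, |y| ≤ ρ ∧ a + (y : ZMod n) = 0 := ⟨y, hy, h⟩
    rw [dif_pos hex]
    exact W3_inj hn a _ _ hy hex.choose_spec.1 (by rw [h, hex.choose_spec.2])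
  · right
    have hex : ∃ y : ℤ, |y| ≤ ρ ∧ (a + (y : ZMod n)).val = A := ⟨y, hy, h⟩
    rw [dif_pos hex]
    refine W3_inj hn a _ _ hy hex.choose_spec.1 ?_
    exact ZMod.val_injective n (by rw [h, hex.choose_spec.2])

section
variable {m n : ℕ} [NeZero m] [NeZero n] {R ρ R1 : ℕ}

private theorem W3_mem (W : World m n R ρ R1) (X : Finset (TV m n)) (z : TV m n) (p : P2) :
    p ∈ W.Yz X z ↔ InB (0, 0) ρ p ∧ ch z p ∈ X := by
  unfold World.Yz InB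
  simp only [mem_filter, mem_product, mem_Icc, sub_zero, abs_le]

open Classical in
private theorem W3_term (W : World m n R ρ R1) (hρ : ρ ≤ R1) (X : Finset (TV m n)) (z : TV m n)
    (hz : z ∈ W.cfg.S) (q : P2) :
    (if ¬ W.cfg.Us (ch z q) ∧ W.rep (ch z q) ∈ X then 1 else 0 : ℕ) +
      (if InB (0, 0) ρ q ∧ q ∉ W.Yz X z then 1 else 0 : ℕ) ≤ 1 := by
  by_cases hq : InB (0, 0) ρ q ∧ q ∉ W.Yz X z
  · have hT : ¬ W.cfg.Ts (ch z q) := by
      intro h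
      refine h z hz q ?_ rfl
      exact ⟨hq.1.1.trans (by exact_mod_cast hρ), hq.1.2.trans (by exact_mod_cast hρ)⟩
    have h1 : W.rep (ch z q) = ch z q := W.hw _ hT
    have h2 : ch z q ∉ X := by
      intro h
      exact hq.2 ((W3_mem W X z q).2 ⟨hq.1, h⟩)
    rw [if_pos hq, if_neg]
    rw [h1]
    exact fun h => h2 h.2
  · rw [if_neg hq]
    split_ifs <;> simp

open Classical in
private theorem W3_vertex (W : World m n R ρ R1) (hρ : ρ ≤ R1) (X : Finset (TV m n)) (z : TV m n)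
    (hz : z ∈ W.cfg.S) (p : P2) :
    outX W.F W.cfg.Us W.rep X (ch z p) + outX W.F' W.cfg.Us W.rep X (ch z p) +
    ((if InB (0, 0) ρ (p.1, p.2 + 1) ∧ (p.1, p.2 + 1) ∉ W.Yz X z then 1 else 0) +
     (if InB (0, 0) ρ (p.1, p.2 - 1) ∧ (p.1, p.2 - 1) ∉ W.Yz X z then 1 else 0) +
     (if sg W.A (z.2 + (p.2 : ZMod n) - 1) ≠ sg W.A (z.2 + (p.2 : ZMod n)) then
        2 * (if InB (0, 0) ρ (p.1 + sg W.A (z.2 + (p.2 : ZMod n)), p.2) ∧
          (p.1 + sg W.A (z.2 + (p.2 : ZMod n)), p.2) ∉ W.Yz X z then 1 else 0)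
      else
        (if InB (0, 0) ρ (p.1 + 1, p.2) ∧ (p.1 + 1, p.2) ∉ W.Yz X z then 1 else 0) +
        (if InB (0, 0) ρ (p.1 - 1, p.2) ∧ (p.1 - 1, p.2) ∉ W.Yz X z then 1 else 0))) ≤ 4 := by
  have eN : W.F.N (ch z p) = ch z (p.1, p.2 + 1) := by
    rw [W.eN]
    unfold ch
    ext <;> push_cast <;> ring
  have eN' : W.F'.N (ch z p) = ch z (p.1, p.2 - 1) := by
    rw [W.eN']
    unfold ch
    ext <;> push_cast <;> ring
  have eH : W.F.H (ch z p) = ch z (p.1 + sg W.A (z.2 + (p.2 : ZMod n)), p.2) := by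
    rw [W.eH]
    unfold ch
    ext <;> push_cast <;> ring
  have eH' : W.F'.H (ch z p) = ch z (p.1 - sg W.A (z.2 + (p.2 : ZMod n) - 1), p.2) := by
    rw [W.eH']
    unfold ch
    ext <;> push_cast <;> ring
  have t1 := W3_term W hρ X z hz (p.1, p.2 + 1)
  have t2 := W3_term W hρ X z hz (p.1, p.2 - 1)
  have t3 := W3_term W hρ X z hz (p.1 + sg W.A (z.2 + (p.2 : ZMod n)), p.2)
  have t4 := W3_term W hρ X z hz (p.1 - sg W.A (z.2 + (p.2 : ZMod n) - 1), p.2)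
  rw [← eN] at t1
  rw [← eN'] at t2
  rw [← eH] at t3
  rw [← eH'] at t4
  have o1 : outX W.F W.cfg.Us W.rep X (ch z p) =
      (if ¬ W.cfg.Us (W.F.N (ch z p)) ∧ W.rep (W.F.N (ch z p)) ∈ X then 1 else 0) +
      (if ¬ W.cfg.Us (W.F.H (ch z p)) ∧ W.rep (W.F.H (ch z p)) ∈ X then 1 else 0) := by
    unfold outX
    congr
  have o2 : outX W.F' W.cfg.Us W.rep X (ch z p) =
      (if ¬ W.cfg.Us (W.F'.N (ch z p)) ∧ W.rep (W.F'.N (ch z p)) ∈ X then 1 else 0) +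
      (if ¬ W.cfg.Us (W.F'.H (ch z p)) ∧ W.rep (W.F'.H (ch z p)) ∈ X then 1 else 0) := by
    unfold outX
    congr
  rw [o1, o2]
  by_cases hτ : sg W.A (z.2 + (p.2 : ZMod n) - 1) ≠ sg W.A (z.2 + (p.2 : ZMod n))
  · rw [if_pos hτ]
    have hs : p.1 - sg W.A (z.2 + (p.2 : ZMod n) - 1) = p.1 + sg W.A (z.2 + (p.2 : ZMod n)) := by
      rcases W3_sg W.A (z.2 + (p.2 : ZMod n) - 1) with h1 | h1 <;>
      rcases W3_sg W.A (z.2 + (p.2 : ZMod n)) with h2 | h2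
      · exact absurd (h1.trans h2.symm) hτ
      · rw [h1, h2]; ring
      · rw [h1, h2]; ring
      · exact absurd (h1.trans h2.symm) hτ
    rw [hs] at t4
    omega
  · rw [if_neg hτ]
    push Not at hτ
    rw [hτ] at t4
    rcases W3_sg W.A (z.2 + (p.2 : ZMod n)) with h2 | h2
    · rw [h2] at t3 t4
      omega
    · rw [h2] at t3 t4
      rw [show p.1 + (-1 : ℤ) = p.1 - 1 by ring] at t3
      rw [show p.1 - (-1 : ℤ) = p.1 + 1 by ring] at t4
      omega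

open Classical in
/-- W3. In a private box the credit is non-negative; in the tight case there is an isolated part. -/
theorem World.pbox (W : World m n R ρ R1) (hg : GoodC R ρ R1) (hm : 4 * (R1 + 4) ≤ m)
    (hn : 4 * (R1 + 4) ≤ n) (X : Finset (TV m n)) (hX : X ⊆ W.Rs) (z : TV m n) (hz : z ∈ W.cfg.S) :
    0 ≤ ∑ p ∈ W.Yz X z, W.cr X (ch z p) ∧
    ((W.Yz X z).Nonempty → (∑ p ∈ W.Yz X z, W.cr X (ch z p)) ≤ 0 →
      ∃ Y' ⊆ W.Yz X z, Y'.Nonempty ∧ (∀ v ∈ Y', InB (0, 0) (ρ - 2) v) ∧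
          ∀ v ∈ Y', ∀ w ∈ nb v, w ∈ W.Yz X z → w ∈ Y') := by
  obtain ⟨h1, h2, hgood⟩ := hg
  obtain ⟨-, -, hUs, hls, -⟩ := cfg_basic W.hL W.cfg h1 h2 hm hn
  have hρ : ρ ≤ R1 := by omega
  have hdis : Disjoint (W.Yz X z) (W.cfg.U z) := by
    rw [Finset.disjoint_left]
    intro p hp hpU
    have h3 := ((W3_mem W X z p).1 hp).2
    have h4 := hX h3
    unfold World.Rs at h4
    rw [mem_filter] at h4
    exact h4.2.1 ⟨z, hz, p, hpU, rfl⟩
  have hin : ∀ v ∈ W.Yz X z, InB (0, 0) ρ v := fun v hv => ((W3_mem W X z v).1 hv).1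
  obtain ⟨g1, g2⟩ := hgood (fun p => W.L (ch z p)) (fun v => W.hL _) (W.cfg.U z) (W.cfg.φ z)
    (W.cfg.spot z hz) (W.cfg.inR z hz)
    (fun y => sg W.A (z.2 + (y : ZMod n) - 1) ≠ sg W.A (z.2 + (y : ZMod n)))
    (fun y => sg W.A (z.2 + (y : ZMod n))) (fun y => W3_sg _ _)
    (W3_rows W.A (by omega) (by omega) z.2) (W.Yz X z) hin hdis
  have hkey : (crB ρ (fun y => sg W.A (z.2 + (y : ZMod n) - 1) ≠ sg W.A (z.2 + (y : ZMod n)))
      (fun y => sg W.A (z.2 + (y : ZMod n))) (W.Yz X z) : ℤ)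
      - 2 * ((∑ v ∈ W.Yz X z, lost (fun p => W.L (ch z p)) (W.cfg.U z) (W.cfg.φ z) v : ℕ) : ℤ)
      ≤ ∑ p ∈ W.Yz X z, W.cr X (ch z p) := by
    unfold crB
    push_cast
    rw [Finset.mul_sum, ← Finset.sum_sub_distrib]
    refine Finset.sum_le_sum (fun p hp => ?_)
    have h3 := W3_vertex W hρ X z hz p
    have h4 := hls z hz p (hin p hp) (Finset.disjoint_left.1 hdis hp)
    have h5 : W.cfg.ls (ch z p)
        = lost (fun p => W.L (ch z p)) (W.cfg.U z) (W.cfg.φ z) p := by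
      unfold Cfg.ls
      omega
    unfold World.cr
    rw [h5]
    zify at h3
    linarith
  refine ⟨?_, ?_⟩
  · have : (2 * (∑ v ∈ W.Yz X z, lost (fun p => W.L (ch z p)) (W.cfg.U z) (W.cfg.φ z) v : ℕ) : ℤ)
        ≤ crB ρ (fun y => sg W.A (z.2 + (y : ZMod n) - 1) ≠ sg W.A (z.2 + (y : ZMod n)))
      (fun y => sg W.A (z.2 + (y : ZMod n))) (W.Yz X z) := by exact_mod_cast g1
    linarith
  · intro hne hle
    refine g2 hne ?_
    have : (crB ρ (fun y => sg W.A (z.2 + (y : ZMod n) - 1) ≠ sg W.A (z.2 + (y : ZMod n)))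
      (fun y => sg W.A (z.2 + (y : ZMod n))) (W.Yz X z) : ℤ)
      ≤ (2 * (∑ v ∈ W.Yz X z, lost (fun p => W.L (ch z p)) (W.cfg.U z) (W.cfg.φ z) v : ℕ) : ℤ) := by
      linarith
    exact_mod_cast this

end

end TorGrid
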