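import Pool.Agent.Lib.MP_caf32e_co.F2
import Pool.Agent.Lib.MP_caf32e_co.W0
import Pool.Agent.Lib.MP_caf32e_co.W1
import Pool.Agent.Lib.MP_caf32e_co.W3

/-! Row W2: the star inequality in the world and non-negativity of `h2`. -/

namespace TorGrid

open Finset

section
variable {m n : ℕ} [NeZero m] [NeZero n] {R ρ R1 : ℕ}

private theorem W2_out_le {V : Type*} {m : ℕ} (F : Fol V m) (U : V → Prop) (rep : V → V)
    (X : Finset V) (v : V) : outX F U rep X v ≤ 2 := by
  unfold outX
  split_ifs <;> omega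

private theorem W2_L1_sub {m n : ℕ} {L : TV m n → Finset ℕ} {R ρ R1 : ℕ}
    (c : Cfg m n L R ρ R1) (v : TV m n) : c.L1 v ⊆ L v := by
  classical
  unfold Cfg.L1
  exact sdiff_subset

open Classical in
/-- W2. The star inequality in the world. -/
theorem World.star (W : World m n R ρ R1) (hg : GoodC R ρ R1) (hm : 4 * (R1 + 4) ≤ m)
    (hn : 4 * (R1 + 4) ≤ n) (X : Finset (TV m n)) (hX : X ⊆ W.Rs) :
    (∑ a ∈ X.filter (fun a => ¬ W.cfg.Ts a), W.cr X a) +
      (∑ a ∈ X.filter (fun a => W.cfg.Ts a ∧ ¬ W.F.Full W.cfg.Ts a),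
        (2 - (outX W.F W.cfg.Us W.rep X a : ℤ))) +
      2 * ((X.filter (fun a => W.F.Full W.cfg.Ts a)).card : ℤ) ≤ h2 W.Q W.cfg.L1 X := by
  have hb := cfg_basic W.hL W.cfg hg.1 hg.2.1 hm hn
  have hXR : ∀ a ∈ X, ¬ W.cfg.Us a ∧ W.rep a = a := by
    intro a ha
    have := hX ha
    unfold World.Rs at this
    simpa using this
  have hcard : ∀ v, (W.cfg.L1 v).card ≤ 3 := fun v => by
    rw [← W.hL v]
    exact card_le_card (W2_L1_sub W.cfg v)
  have h := TorGrid.star W.F W.F' (W.hG'.trans W.hG.symm) W.hδ W.hσ W.cfg.Ts W.cfg.Us W.rep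
    W.hC W.hC' W.hw W.cfg.L1 W.cfg.ls
    (fun v => by
      have := hcard v
      unfold Cfg.ls
      omega)
    (fun v hv => by
      have h1 := hb.2.2.2.2.2.1 v hv
      unfold Cfg.ls
      rw [h1, W.hL v])
    X hXR
    (fun a ha hF => by
      have h1 := W.htop a hF
      rwa [(hXR a ha).2] at h1)
  unfold World.cr World.Q
  exact h

open Classical in
/-- W4. `h2` is non-negative on all sets of representatives. -/
theorem World.h2_nonneg (W : World m n R ρ R1) (hg : GoodC R ρ R1) (hm : 4 * (R1 + 4) ≤ m)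
    (hn : 4 * (R1 + 4) ≤ n) (X : Finset (TV m n)) (hX : X ⊆ W.Rs) : 0 ≤ h2 W.Q W.cfg.L1 X := by
  have hb := cfg_basic W.hL W.cfg hg.1 hg.2.1 hm hn
  have hρ : ρ + 4 ≤ R1 := hg.2.1
  refine le_trans ?_ (W.star hg hm hn X hX)
  have hA : 0 ≤ ∑ a ∈ X.filter (fun a => ¬ W.cfg.Ts a), W.cr X a := by
    set B := W.cfg.S.biUnion (fun z => (W.Yz X z).image (ch z)) with hBdef
    have hBA : B ⊆ X.filter (fun a => ¬ W.cfg.Ts a) := by
      intro a ha
      rw [hBdef, mem_biUnion] at ha
      obtain ⟨z, hz, ha⟩ := ha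
      rw [mem_image] at ha
      obtain ⟨p, hp, rfl⟩ := ha
      unfold World.Yz at hp
      rw [mem_filter, mem_product, mem_Icc, mem_Icc] at hp
      obtain ⟨⟨⟨h1, h2⟩, h3, h4⟩, h5⟩ := hp
      rw [mem_filter]
      refine ⟨h5, fun hT => hT z hz p ?_ rfl⟩
      constructor <;> simp only [sub_zero] <;> rw [abs_le] <;> constructor <;> omega
    rw [← sum_sdiff hBA]
    refine add_nonneg (sum_nonneg ?_) ?_
    · intro a ha
      rw [mem_sdiff] at ha
      have h1 : W.cfg.L1 a = W.L a := by
        refine hb.2.2.2.2.1 a ?_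
        intro z hz p hp hpa
        apply ha.2
        rw [hBdef, mem_biUnion]
        refine ⟨z, hz, ?_⟩
        rw [mem_image]
        refine ⟨p, ?_, hpa⟩
        unfold World.Yz
        obtain ⟨hp1, hp2⟩ := hp
        simp only [sub_zero, abs_le] at hp1 hp2
        rw [mem_filter, mem_product, mem_Icc, mem_Icc, hpa]
        exact ⟨⟨hp1, hp2⟩, (mem_filter.1 ha.1).1⟩
      have h2 : W.cfg.ls a = 0 := by
        unfold Cfg.ls
        rw [h1, W.hL a]
      have h3 := W2_out_le W.F W.cfg.Us W.rep X a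
      have h4 := W2_out_le W.F' W.cfg.Us W.rep X a
      unfold World.cr
      rw [h2]
      omega
    · rw [hBdef, sum_biUnion]
      · refine sum_nonneg ?_
        intro z hz
        rw [sum_image]
        · exact (W.pbox hg hm hn X hX z hz).1
        · intro p hp q hq hpq
          simp only [World.Yz, coe_filter, mem_product, mem_Icc, Set.mem_ofPred_eq] at hp hq
          refine ch_inj ρ (by omega) (by omega) z p q ?_ ?_ hpq
          · constructor <;> simp only [sub_zero, abs_le]
            · exact hp.1.1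
            · exact hp.1.2
          · constructor <;> simp only [sub_zero, abs_le]
            · exact hq.1.1
            · exact hq.1.2
      · intro z hz z' hz' hne
        rw [Function.onFun, disjoint_left]
        intro a ha ha'
        rw [mem_image] at ha ha'
        obtain ⟨p, hp, rfl⟩ := ha
        obtain ⟨q, hq, hqp⟩ := ha'
        unfold World.Yz at hp hq
        rw [mem_filter, mem_product, mem_Icc, mem_Icc] at hp hq
        refine W.cfg.sep z hz z' hz' hne p q ?_ ?_ hqp.symm
        · constructor <;> simp only [sub_zero, abs_le]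
          · exact hp.1.1
          · exact hp.1.2
        · constructor <;> simp only [sub_zero, abs_le]
          · exact hq.1.1
          · exact hq.1.2
  have hB : 0 ≤ ∑ a ∈ X.filter (fun a => W.cfg.Ts a ∧ ¬ W.F.Full W.cfg.Ts a),
        (2 - (outX W.F W.cfg.Us W.rep X a : ℤ)) := by
    refine sum_nonneg fun a _ => ?_
    have h3 := W2_out_le W.F W.cfg.Us W.rep X a
    omega
  positivity

end

end TorGrid
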