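import Pool.Agent.Lib.MP_caf32e_co.K4
import Pool.Agent.Lib.MP_caf32e_co.K6
import Pool.Agent.Lib.MP_caf32e_co.W2

/-! Row W4b: a critical set has positive credit in every private box it meets. -/

namespace TorGrid

open Finset

section
variable {m n : ℕ} [NeZero m] [NeZero n] {R ρ R1 : ℕ}

omit [NeZero m] [NeZero n] in
/-- a neighbour of `ch z p` on the torus is `ch z q` with `q ∈ nb p` -/
private theorem w4b_adj (z : TV m n) (p : P2) (v : TV m n) (h : (TG m n).Adj (ch z p) v) :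
    ∃ q ∈ nb p, v = ch z q := by
  obtain ⟨-, h | h | h | h⟩ := h
  · refine ⟨(p.1 + 1, p.2), by simp [nb], ?_⟩
    rw [h]; simp [ch, add_assoc]
  · refine ⟨(p.1 - 1, p.2), by simp [nb], ?_⟩
    rw [h]; simp [ch, add_sub_assoc]
  · refine ⟨(p.1, p.2 + 1), by simp [nb], ?_⟩
    rw [h]; simp [ch, add_assoc]
  · refine ⟨(p.1, p.2 - 1), by simp [nb], ?_⟩
    rw [h]; simp [ch, add_sub_assoc]

private theorem w4b_nb {r : ℤ} {p q : P2} (hp : InB (0, 0) r p) (hq : q ∈ nb p) :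
    InB (0, 0) (r + 1) q := by
  obtain ⟨h1, h2⟩ := hp
  simp only [nb, mem_insert, mem_singleton] at hq
  simp only [sub_zero, abs_le] at h1 h2
  rcases hq with rfl | rfl | rfl | rfl <;>
    exact ⟨by simp only [sub_zero, abs_le]; constructor <;> linarith [h1.1, h1.2],
      by simp only [sub_zero, abs_le]; constructor <;> linarith [h2.1, h2.2]⟩

private theorem w4b_par {p q : P2} (hq : q ∈ nb p) : Even (p.1 + p.2) ↔ ¬ Even (q.1 + q.2) := by
  simp only [nb, mem_insert, mem_singleton] at hq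
  rcases hq with rfl | rfl | rfl | rfl <;> simp only [Int.even_iff] <;> omega

private theorem w4b_mono {r s : ℤ} {p : P2} (h : InB (0, 0) r p) (hrs : r ≤ s) :
    InB (0, 0) s p := ⟨h.1.trans hrs, h.2.trans hrs⟩

private theorem w4b_mem (W : World m n R ρ R1) (X : Finset (TV m n)) (z : TV m n) (p : P2) :
    p ∈ W.Yz X z ↔ InB (0, 0) ρ p ∧ ch z p ∈ X := by
  unfold World.Yz InB
  simp only [mem_filter, mem_product, mem_Icc, sub_zero, abs_le]

/-- quotient neighbours of a vertex of a private box -/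
private theorem w4b_Q (W : World m n R ρ R1) (h2 : ρ + 4 ≤ R1) (z : TV m n) (hz : z ∈ W.cfg.S)
    (p : P2) (hp : InB (0, 0) (ρ : ℤ) p) (v : TV m n) (h : W.Q.Adj (ch z p) v) :
    ∃ q ∈ nb p, v = ch z q := by
  have hwild : ∀ q, InB (0, 0) ((ρ : ℤ) + 1) q → ¬ W.cfg.Ts (ch z q) := by
    intro q hq hT
    exact hT z hz q (w4b_mono hq (by exact_mod_cast (by omega : ρ + 1 ≤ R1))) rfl
  obtain ⟨-, u', v', -, -, hu, hv, ha⟩ := h
  have hu1 : ¬ W.cfg.Ts u' := by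
    intro hT
    have := W.hTT u' hT
    rw [hu] at this
    exact hwild p (w4b_mono hp (by linarith)) this
  have hu2 : u' = ch z p := by rw [← hu, W.hw u' hu1]
  rw [hu2, W.hG] at ha
  obtain ⟨q, hq, hv'⟩ := w4b_adj z p v' ha
  have hv1 : ¬ W.cfg.Ts v' := by
    rw [hv']
    exact hwild q (w4b_nb hp hq)
  refine ⟨q, hq, ?_⟩
  rw [← hv, W.hw v' hv1, hv']

open Classical in
/-- W4b. A critical set has positive credit in every private box it meets. -/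
theorem World.pbox_crit (W : World m n R ρ R1) (hg : GoodC R ρ R1) (hm : 4 * (R1 + 4) ≤ m)
    (hn : 4 * (R1 + 4) ≤ n) (X : Finset (TV m n)) (hX : X ⊆ W.Rs) (z : TV m n) (hz : z ∈ W.cfg.S)
    (hne : (W.Yz X z).Nonempty) (h1 : ¬ ColOn W.Q W.cfg.L1 X)
    (h2 : ∀ Y, Y ⊂ X → ColOn W.Q W.cfg.L1 Y) :
    1 ≤ ∑ p ∈ W.Yz X z, W.cr X (ch z p) := by
  by_contra hcon
  obtain ⟨Y', hY1, hY2, hY3, hY4⟩ := (W.pbox hg hm hn X hX z hz).2 hne (by omega)
  have hρ : ρ + 4 ≤ R1 := hg.2.1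
  have hin : ∀ p ∈ Y', InB (0, 0) (ρ : ℤ) p := fun p hp => w4b_mono (hY3 p hp) (by linarith)
  have hYX : Y'.image (ch z) ⊆ X := by
    intro v hv
    obtain ⟨p, hp, rfl⟩ := mem_image.1 hv
    exact ((w4b_mem W X z p).1 (hY1 hp)).2
  have hcl : ∀ u ∈ Y'.image (ch z), ∀ v ∈ X, W.Q.Adj u v → v ∈ Y'.image (ch z) := by
    intro u hu v hv ha
    obtain ⟨p, hp, rfl⟩ := mem_image.1 hu
    obtain ⟨q, hq, rfl⟩ := w4b_Q W hρ z hz p (hin p hp) v ha
    have hq1 : InB (0, 0) (ρ : ℤ) q := w4b_mono (w4b_nb (hY3 p hp) hq) (by linarith)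
    exact mem_image_of_mem _ (hY4 p hp q hq ((w4b_mem W X z q).2 ⟨hq1, hv⟩))
  have hYeq : Y'.image (ch z) = X :=
    crit_connected W.Q W.cfg.L1 X h1 h2 _ hYX (hY2.image _) hcl
  have hinj : ∀ p q, InB (0, 0) (ρ : ℤ) p → InB (0, 0) (ρ : ℤ) q → ch z p = ch z q → p = q :=
    fun p q hp hq h => ch_inj ρ (by omega) (by omega) z p q hp hq h
  apply h1
  refine bip_col W.Q (fun v => ∃ p, InB (0, 0) (ρ : ℤ) p ∧ ch z p = v ∧ Even (p.1 + p.2))
    W.cfg.L1 X ?_ fun Z hZ => W.h2_nonneg hg hm hn Z (hZ.trans hX)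
  intro u hu v hv ha
  rw [← hYeq] at hu hv
  obtain ⟨p, hp, rfl⟩ := mem_image.1 hu
  obtain ⟨q, hq, rfl⟩ := mem_image.1 hv
  obtain ⟨q', hq', hqq⟩ := w4b_Q W hρ z hz p (hin p hp) _ ha
  have hq1 : InB (0, 0) (ρ : ℤ) q' := w4b_mono (w4b_nb (hY3 p hp) hq') (by linarith)
  have hqe : q = q' := hinj q q' (hin q hq) hq1 hqq
  subst hqe
  have e1 : ∀ r, InB (0, 0) (ρ : ℤ) r →
      ((∃ p, InB (0, 0) (ρ : ℤ) p ∧ ch z p = ch z r ∧ Even (p.1 + p.2)) ↔ Even (r.1 + r.2)) := by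
    intro r hr
    constructor
    · rintro ⟨s, hs, hs1, hs2⟩
      rwa [hinj s r hs hr hs1] at hs2
    · intro h
      exact ⟨r, hr, rfl, h⟩
  rw [e1 p (hin p hp), e1 q (hin q hq)]
  exact w4b_par hq'

end

end TorGrid
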