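import Pool.Agent.Lib.MP_caf32e_co.Defs

/-! Row W5: walking inside a big box. -/

namespace TorGrid

open Finset

private theorem W5_walk (P : ℤ → Prop) (r : ℤ)
    (hup : ∀ t, |t| ≤ r → |t + 1| ≤ r → P t → P (t + 1))
    (hdn : ∀ t, |t| ≤ r → |t - 1| ≤ r → P t → P (t - 1))
    (a b : ℤ) (ha : |a| ≤ r) (hb : |b| ≤ r) (h : P a) : P b := by
  rcases le_total a b with hab | hab
  · have key : ∀ t, a ≤ t → t ≤ b → P t := by
      intro t hat
      induction t, hat using Int.leInduction with
      | base => exact fun _ => h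
      | succ t hat ih =>
        intro htb
        have h1 := abs_le.1 ha
        have h2 := abs_le.1 hb
        exact hup t (abs_le.2 ⟨by omega, by omega⟩) (abs_le.2 ⟨by omega, by omega⟩)
          (ih (by omega))
    exact key b hab le_rfl
  · have key : ∀ t, t ≤ a → b ≤ t → P t := by
      intro t hat
      induction t, hat using Int.leInductionDown with
      | base => exact fun _ => h
      | pred t hat ih =>
        intro htb
        have h1 := abs_le.1 ha
        have h2 := abs_le.1 hb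
        exact hdn t (abs_le.2 ⟨by omega, by omega⟩) (abs_le.2 ⟨by omega, by omega⟩)
          (ih (by omega))
    exact key b hab le_rfl

private theorem W5_sg_cases {n : ℕ} (A : ℕ) (t : ZMod n) : sg A t = 1 ∨ sg A t = -1 := by
  unfold sg; split_ifs
  · left; rfl
  · right; rfl

private theorem W5_turn {n : ℕ} [NeZero n] (hn : 1 < n) (A : ℕ) (s : ZMod n)
    (h : sg A s ≠ sg A (s - 1)) : s.val = 0 ∨ s.val = A := by
  by_cases h0 : s.val = 0
  · left; exact h0
  right
  have : Fact (1 < n) := ⟨hn⟩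
  have h1 : (1 : ZMod n).val ≤ s.val := by
    rw [ZMod.val_one]; omega
  have h2 : (s - 1).val = s.val - 1 := by
    rw [ZMod.val_sub h1, ZMod.val_one]
  unfold sg at h
  rw [h2] at h
  by_contra hA
  apply h
  by_cases h3 : s.val < A
  · rw [if_pos h3, if_pos (by omega)]
  · rw [if_neg h3, if_neg (by omega)]

private theorem W5_nonturn {n : ℕ} [NeZero n] (hn : 16 ≤ n) (A : ℕ) (t : ZMod n) :
    ∃ y : ℤ, 0 ≤ y ∧ y ≤ 2 ∧ sg A (t + (y : ZMod n)) = sg A (t + (y : ZMod n) - 1) := by
  by_contra hcon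
  push Not at hcon
  have h0 := W5_turn (by omega) A _ (hcon 0 le_rfl (by norm_num))
  have h1 := W5_turn (by omega) A _ (hcon 1 (by norm_num) (by norm_num))
  have h2 := W5_turn (by omega) A _ (hcon 2 (by norm_num) le_rfl)
  have hne1 : (1 : ZMod n) ≠ 0 := by
    intro h
    have h' : ((1 : ℕ) : ZMod n) = 0 := by exact_mod_cast h
    rw [ZMod.natCast_eq_zero_iff] at h'
    have := Nat.le_of_dvd (by norm_num) h'
    omega
  have hne2 : (2 : ZMod n) ≠ 0 := by
    intro h
    have h' : ((2 : ℕ) : ZMod n) = 0 := by exact_mod_cast h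
    rw [ZMod.natCast_eq_zero_iff] at h'
    have := Nat.le_of_dvd (by norm_num) h'
    omega
  have e01 : (t + ((0 : ℤ) : ZMod n)).val ≠ (t + ((1 : ℤ) : ZMod n)).val := by
    intro h
    have := ZMod.val_injective n h
    apply hne1
    push_cast at this
    have h3 : t + 0 = t + 1 := this
    exact (add_left_cancel h3).symm
  have e02 : (t + ((0 : ℤ) : ZMod n)).val ≠ (t + ((2 : ℤ) : ZMod n)).val := by
    intro h
    have := ZMod.val_injective n h
    apply hne2
    push_cast at this
    have h3 : t + 0 = t + 2 := this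
    exact (add_left_cancel h3).symm
  have e12 : (t + ((1 : ℤ) : ZMod n)).val ≠ (t + ((2 : ℤ) : ZMod n)).val := by
    intro h
    have := ZMod.val_injective n h
    apply hne1
    push_cast at this
    have h3 : t + 1 = t + 2 := this
    have h4 := add_left_cancel h3
    have h5 : (1 : ZMod n) = 1 + 1 := by rw [one_add_one_eq_two]; exact h4
    have h6 : (1 : ZMod n) + 0 = 1 + 1 := by rw [add_zero]; exact h5
    exact (add_left_cancel h6).symm
  rcases h0 with h0 | h0 <;> rcases h1 with h1 | h1 <;> rcases h2 with h2 | h2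
  · exact e01 (by rw [h0, h1])
  · exact e01 (by rw [h0, h1])
  · exact e02 (by rw [h0, h2])
  · exact e12 (by rw [h1, h2])
  · exact e12 (by rw [h1, h2])
  · exact e02 (by rw [h0, h2])
  · exact e01 (by rw [h0, h1])
  · exact e01 (by rw [h0, h1])

section
variable {m n : ℕ} [NeZero m] [NeZero n] {R ρ R1 : ℕ}

/-- outside the private boxes nothing is lost -/
private theorem W5_ls (W : World m n R ρ R1) (hRρ : R + 4 < ρ) (a : TV m n)
    (hp : ∀ z' ∈ W.cfg.S, ∀ q', InB (0, 0) (ρ : ℤ) q' → ch z' q' ≠ a) : W.cfg.ls a = 0 := by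
  classical
  have hemp : (nbT a).filter (fun w => W.cfg.Us w) = ∅ := by
    rw [Finset.filter_eq_empty_iff]
    rintro w hw ⟨z', hz', u, hu, hch⟩
    have hR := W.cfg.inR z' hz' u hu
    unfold InB at hR
    simp only [sub_zero] at hR
    have r1 := abs_le.1 hR.1
    have r2 := abs_le.1 hR.2
    have hin : ∀ dx dy : ℤ, |dx| ≤ 1 → |dy| ≤ 1 → InB (0, 0) (ρ : ℤ) (u.1 + dx, u.2 + dy) := by
      intro dx dy hx hy
      have x1 := abs_le.1 hx
      have y1 := abs_le.1 hy
      unfold InB
      simp only [sub_zero]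
      exact ⟨abs_le.2 ⟨by omega, by omega⟩, abs_le.2 ⟨by omega, by omega⟩⟩
    unfold nbT at hw
    simp only [Finset.mem_insert, Finset.mem_singleton] at hw
    unfold ch at hch
    rcases hw with hw | hw | hw | hw
    · refine hp z' hz' (u.1 + (-1), u.2 + 0) (hin _ _ (by simp) (by simp)) ?_
      rw [hw] at hch
      have h1 := congrArg Prod.fst hch
      have h2 := congrArg Prod.snd hch
      simp only at h1 h2
      unfold ch
      ext
      · push_cast; rw [← add_assoc, h1]; ring
      · push_cast; rw [← h2]; ring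
    · refine hp z' hz' (u.1 + 1, u.2 + 0) (hin _ _ (by simp) (by simp)) ?_
      rw [hw] at hch
      have h1 := congrArg Prod.fst hch
      have h2 := congrArg Prod.snd hch
      simp only at h1 h2
      unfold ch
      ext
      · push_cast; rw [← add_assoc, h1]; ring
      · push_cast; rw [← h2]; ring
    · refine hp z' hz' (u.1 + 0, u.2 + (-1)) (hin _ _ (by simp) (by simp)) ?_
      rw [hw] at hch
      have h1 := congrArg Prod.fst hch
      have h2 := congrArg Prod.snd hch
      simp only at h1 h2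
      unfold ch
      ext
      · push_cast; rw [← h1]; ring
      · push_cast; rw [← add_assoc, h2]; ring
    · refine hp z' hz' (u.1 + 0, u.2 + 1) (hin _ _ (by simp) (by simp)) ?_
      rw [hw] at hch
      have h1 := congrArg Prod.fst hch
      have h2 := congrArg Prod.snd hch
      simp only at h1 h2
      unfold ch
      ext
      · push_cast; rw [← h1]; ring
      · push_cast; rw [← add_assoc, h2]; ring
  have hL1 : W.cfg.L1 a = W.L a := by
    unfold Cfg.L1
    rw [hemp]
    simp
  unfold Cfg.ls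
  rw [hL1, W.hL]

theorem World.walk (W : World m n R ρ R1) (hg : GoodC R ρ R1) (hm : 4 * (R1 + 4) ≤ m)
    (hn : 4 * (R1 + 4) ≤ n) (X : Finset (TV m n)) (hX : X ⊆ W.Rs) (z : TV m n) (hz : z ∈ W.cfg.S)
    (p : P2) (hp : InB (0, 0) R1 p) (hpX : ch z p ∈ X) :
    ∃ q, InB (0, 0) R1 q ∧ ch z q ∈ X ∧
      ((∃ z' ∈ W.cfg.S, ∃ q', InB (0, 0) ρ q' ∧ ch z' q' = ch z q) ∨
       ((∀ z' ∈ W.cfg.S, ∀ q', InB (0, 0) (ρ : ℤ) q' → ch z' q' ≠ ch z q) ∧
          1 ≤ W.cr X (ch z q))) := by
  classical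
  by_contra hcon
  push Not at hcon
  obtain ⟨hg1, hg2, -⟩ := hg
  -- every vertex of X in the box has all out-neighbours in X
  have hcl : ∀ q, InB (0, 0) (R1 : ℤ) q → ch z q ∈ X →
      (∀ z' ∈ W.cfg.S, ∀ q', InB (0, 0) (ρ : ℤ) q' → ch z' q' ≠ ch z q) ∧
      (W.rep (W.F.N (ch z q)) ∈ X ∧ W.rep (W.F.H (ch z q)) ∈ X) ∧
      (W.rep (W.F'.N (ch z q)) ∈ X ∧ W.rep (W.F'.H (ch z q)) ∈ X) := by
    intro q hq hqX
    obtain ⟨h1, h2⟩ := hcon q hq hqX
    have h3 := h2 h1
    have hls := W5_ls W hg1 (ch z q) h1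
    unfold World.cr at h3
    rw [hls] at h3
    have key : 4 ≤ outX W.F W.cfg.Us W.rep X (ch z q) + outX W.F' W.cfg.Us W.rep X (ch z q) := by
      push_cast at h3
      omega
    refine ⟨h1, ?_⟩
    unfold outX at key
    have c1 : (¬ W.cfg.Us (W.F.N (ch z q)) ∧ W.rep (W.F.N (ch z q)) ∈ X) := by
      by_contra hh
      rw [if_neg hh] at key
      split_ifs at key <;> omega
    have c2 : (¬ W.cfg.Us (W.F.H (ch z q)) ∧ W.rep (W.F.H (ch z q)) ∈ X) := by
      by_contra hh
      rw [if_neg hh] at key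
      split_ifs at key <;> omega
    have c3 : (¬ W.cfg.Us (W.F'.N (ch z q)) ∧ W.rep (W.F'.N (ch z q)) ∈ X) := by
      by_contra hh
      rw [if_neg hh] at key
      split_ifs at key <;> omega
    have c4 : (¬ W.cfg.Us (W.F'.H (ch z q)) ∧ W.rep (W.F'.H (ch z q)) ∈ X) := by
      by_contra hh
      rw [if_neg hh] at key
      split_ifs at key <;> omega
    exact ⟨⟨c1.2, c2.2⟩, ⟨c3.2, c4.2⟩⟩
  -- representatives inside the box
  have hrep : ∀ q, InB (0, 0) (R1 : ℤ) q → W.rep (ch z q) = ch z q := by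
    intro q hq
    apply W.hw
    intro hT
    exact hT z hz q hq rfl
  -- vertical moves
  have hN : ∀ q : P2, W.F.N (ch z q) = ch z (q.1, q.2 + 1) := by
    intro q
    rw [W.eN]
    unfold ch
    ext
    · rfl
    · push_cast; ring
  have hN' : ∀ q : P2, W.F'.N (ch z q) = ch z (q.1, q.2 - 1) := by
    intro q
    rw [W.eN']
    unfold ch
    ext
    · rfl
    · push_cast; ring
  have hup : ∀ q : P2, InB (0, 0) (R1 : ℤ) q → InB (0, 0) (R1 : ℤ) (q.1, q.2 + 1) → ch z q ∈ X →
      ch z (q.1, q.2 + 1) ∈ X := by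
    intro q hq hq' hX
    have := (hcl q hq hX).2.1.1
    rwa [hN, hrep _ hq'] at this
  have hdn : ∀ q : P2, InB (0, 0) (R1 : ℤ) q → InB (0, 0) (R1 : ℤ) (q.1, q.2 - 1) → ch z q ∈ X →
      ch z (q.1, q.2 - 1) ∈ X := by
    intro q hq hq' hX
    have := (hcl q hq hX).2.2.1
    rwa [hN', hrep _ hq'] at this
  -- horizontal moves in a non-turn row
  have hhor : ∀ q : P2, sg W.A (z.2 + (q.2 : ZMod n)) = sg W.A (z.2 + (q.2 : ZMod n) - 1) →
      InB (0, 0) (R1 : ℤ) q → ch z q ∈ X →
      (InB (0, 0) (R1 : ℤ) (q.1 + 1, q.2) → ch z (q.1 + 1, q.2) ∈ X) ∧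
      (InB (0, 0) (R1 : ℤ) (q.1 - 1, q.2) → ch z (q.1 - 1, q.2) ∈ X) := by
    intro q hs hq hqX
    have hh := (hcl q hq hqX)
    have h1 := hh.2.1.2
    have h2 := hh.2.2.2
    rw [W.eH] at h1
    rw [W.eH'] at h2
    have e2 : (ch z q).2 = z.2 + (q.2 : ZMod n) := rfl
    have e1 : (ch z q).1 = z.1 + (q.1 : ZMod m) := rfl
    rw [e1, e2] at h1 h2
    rw [← hs] at h2
    rcases W5_sg_cases W.A (z.2 + (q.2 : ZMod n)) with hsg | hsg
    · rw [hsg] at h1 h2
      constructor
      · intro hq'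
        have e : (z.1 + (q.1 : ZMod m) + ((1 : ℤ) : ZMod m), z.2 + (q.2 : ZMod n))
            = ch z (q.1 + 1, q.2) := by
          unfold ch
          ext
          · push_cast; ring
          · rfl
        rw [e, hrep _ hq'] at h1
        exact h1
      · intro hq'
        have e : (z.1 + (q.1 : ZMod m) - ((1 : ℤ) : ZMod m), z.2 + (q.2 : ZMod n))
            = ch z (q.1 - 1, q.2) := by
          unfold ch
          ext
          · push_cast; ring
          · rfl
        rw [e, hrep _ hq'] at h2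
        exact h2
    · rw [hsg] at h1 h2
      constructor
      · intro hq'
        have e : (z.1 + (q.1 : ZMod m) - ((-1 : ℤ) : ZMod m), z.2 + (q.2 : ZMod n))
            = ch z (q.1 + 1, q.2) := by
          unfold ch
          ext
          · push_cast; ring
          · rfl
        rw [e, hrep _ hq'] at h2
        exact h2
      · intro hq'
        have e : (z.1 + (q.1 : ZMod m) + ((-1 : ℤ) : ZMod m), z.2 + (q.2 : ZMod n))
            = ch z (q.1 - 1, q.2) := by
          unfold ch
          ext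
          · push_cast; ring
          · rfl
        rw [e, hrep _ hq'] at h1
        exact h1
  obtain ⟨y0, hy0, hy2, hnt⟩ := W5_nonturn (n := n) (by omega) W.A z.2
  have hpb := hp
  unfold InB at hpb
  simp only [sub_zero] at hpb
  have hy0R : |y0| ≤ (R1 : ℤ) := abs_le.2 ⟨by omega, by omega⟩
  -- walk vertically
  have s1 : ch z (p.1, y0) ∈ X := by
    refine W5_walk (fun t => ch z (p.1, t) ∈ X) (R1 : ℤ) ?_ ?_ p.2 y0 hpb.2 hy0R hpX
    · intro t ht ht' hP
      exact hup (p.1, t) (by unfold InB; simp only [sub_zero]; exact ⟨hpb.1, ht⟩)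
        (by unfold InB; simp only [sub_zero]; exact ⟨hpb.1, ht'⟩) hP
    · intro t ht ht' hP
      exact hdn (p.1, t) (by unfold InB; simp only [sub_zero]; exact ⟨hpb.1, ht⟩)
        (by unfold InB; simp only [sub_zero]; exact ⟨hpb.1, ht'⟩) hP
  -- walk horizontally
  have s2 : ch z (0, y0) ∈ X := by
    refine W5_walk (fun t => ch z (t, y0) ∈ X) (R1 : ℤ) ?_ ?_ p.1 0 hpb.1 (by simp) s1
    · intro t ht ht' hP
      exact (hhor (t, y0) hnt (by unfold InB; simp only [sub_zero]; exact ⟨ht, hy0R⟩) hP).1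
        (by unfold InB; simp only [sub_zero]; exact ⟨ht', hy0R⟩)
    · intro t ht ht' hP
      exact (hhor (t, y0) hnt (by unfold InB; simp only [sub_zero]; exact ⟨ht, hy0R⟩) hP).2
        (by unfold InB; simp only [sub_zero]; exact ⟨ht', hy0R⟩)
  have hin1 : InB (0, 0) (R1 : ℤ) (0, y0) := by
    unfold InB; simp only [sub_zero]; exact ⟨by simp, hy0R⟩
  have hin2 : InB (0, 0) (ρ : ℤ) (0, y0) := by
    unfold InB; simp only [sub_zero]; exact ⟨by simp, abs_le.2 ⟨by omega, by omega⟩⟩
  exact (hcl (0, y0) hin1 s2).1 z hz (0, y0) hin2 rfl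

end

end TorGrid
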