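import Pool.Agent.Lib.MP_caf32e_co.Defs

/-! Row W6: the charge of a tame class. -/

namespace TorGrid

open Finset

private theorem W6_sg {n : ℕ} (A : ℕ) (t : ZMod n) : sg A t = 1 ∨ sg A t = -1 := by
  unfold sg; split_ifs
  · left; rfl
  · right; rfl

private theorem W6_shift {m n : ℕ} (z : TV m n) (p : P2) (s : ℤ) :
    ch z (p.1 + s, p.2) = ((ch z p).1 + (s : ZMod m), (ch z p).2) := by
  unfold ch
  ext
  · push_cast; ring
  · rfl

section
variable {m n : ℕ} [NeZero m] [NeZero n] {R ρ R1 : ℕ}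

/-- W6. Tame classes: own credit, or a wild vertex of `X` next to the top, or the class of `H a`
has credit. -/
theorem World.tame_charge (W : World m n R ρ R1) (hg : GoodC R ρ R1) (hm : 4 * (R1 + 4) ≤ m)
    (hn : 4 * (R1 + 4) ≤ n) (X : Finset (TV m n)) (hX : X ⊆ W.Rs) (a : TV m n) (ha : a ∈ X)
    (hT : W.cfg.Ts a) (hF : ¬ W.F.Full W.cfg.Ts a) :
    outX W.F W.cfg.Us W.rep X a ≤ 1 ∨
    (W.F.σ a ∈ X ∧ ¬ W.cfg.Ts (W.F.σ a)) ∨ (W.F.N a ∈ X ∧ ¬ W.cfg.Ts (W.F.N a)) ∨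
    (W.F.H a ∈ X ∧ ¬ W.cfg.Ts (W.F.H a)) ∨
    (W.F.H a ∈ X ∧ W.cfg.Ts (W.F.H a) ∧ ¬ W.F.Full W.cfg.Ts (W.F.H a) ∧
      outX W.F W.cfg.Us W.rep X (W.F.H a) ≤ 1) := by
  classical
  have hR1 : 1 ≤ R1 := by have := hg.2.1; omega
  have ha' := hX ha
  unfold World.Rs at ha'
  have hrep : W.rep a = a := (Finset.mem_filter.1 ha').2.2
  have hσw : ¬ W.cfg.Ts (W.F.σ a) := by
    have h := W.htop a hF
    rw [hrep] at h
    exact fun h' => h ⟨hT, h'⟩
  by_cases h1 : outX W.F W.cfg.Us W.rep X a ≤ 1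
  · exact Or.inl h1
  right
  by_cases h2 : W.F.σ a ∈ X
  · exact Or.inl ⟨h2, hσw⟩
  right
  have hN : W.rep (W.F.N a) ∈ X := by
    by_contra hcon
    apply h1
    unfold outX
    rw [if_neg (fun h => hcon h.2)]
    split_ifs <;> omega
  have hH : W.rep (W.F.H a) ∈ X := by
    by_contra hcon
    apply h1
    unfold outX
    rw [if_neg (c := ¬ W.cfg.Us (W.F.H a) ∧ W.rep (W.F.H a) ∈ X) (fun h => hcon h.2)]
    split_ifs <;> omega
  by_cases h3 : W.cfg.Ts (W.F.N a)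
  swap
  · left
    rw [W.hw _ h3] at hN
    exact ⟨hN, h3⟩
  right
  by_cases h4 : W.cfg.Ts (W.F.H a)
  swap
  · left
    rw [W.hw _ h4] at hH
    exact ⟨hH, h4⟩
  right
  -- the top `σ a` lies in a box
  have h5 : ∃ z ∈ W.cfg.S, ∃ p, InB (0, 0) (R1 : ℤ) p ∧ ch z p = W.F.σ a := by
    by_contra hcon
    apply hσw
    intro z hz p hp he
    exact hcon ⟨z, hz, p, hp, he⟩
  obtain ⟨z, hz, p, hp, he⟩ := h5
  set s : ℤ := sg W.A a.2 with hs
  have hs1 : s = 1 ∨ s = -1 := W6_sg _ _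
  have hp' := hp
  unfold InB at hp
  simp only [sub_zero] at hp
  have p1 := abs_le.1 hp.1
  have eN : ch z (p.1 + (-s), p.2) = W.F.N a := by
    rw [W6_shift, he, W.eσ, W.eN, ← hs]
    ext
    · push_cast; ring
    · rfl
  have eS : ch z (p.1 + s, p.2) = W.F.σ (W.F.H a) := by
    rw [W6_shift, he, W.eσ (W.F.H a), W.eσ, W.eH, ← hs]
  have hout : ¬ InB (0, 0) (R1 : ℤ) (p.1 + (-s), p.2) := fun h => h3 z hz _ h eN
  have hin : InB (0, 0) (R1 : ℤ) (p.1 + s, p.2) := by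
    unfold InB at hout ⊢
    simp only [sub_zero] at hout ⊢
    refine ⟨?_, hp.2⟩
    have h6 : ¬ |p.1 + -s| ≤ (R1 : ℤ) := fun h => hout ⟨h, hp.2⟩
    rw [abs_le] at h6 ⊢
    rcases hs1 with h | h <;> rw [h] at h6 ⊢ <;> constructor <;> by_contra hcon <;> apply h6 <;>
      constructor <;> omega
  have hwild : ¬ W.cfg.Ts (W.F.σ (W.F.H a)) := fun h => h z hz _ hin eS
  have hnf : ¬ W.F.Full W.cfg.Ts (W.F.H a) := fun h => hwild (h 1)
  have hrH : W.rep (W.F.H a) = W.F.H a := by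
    apply W.hC.top
    · exact W.htop _ hnf
    · exact fun h => hwild h.2
    · exact W.hrr _
  refine ⟨by rwa [hrH] at hH, h4, hnf, ?_⟩
  have eNH : W.F.N (W.F.H a) = W.F.σ a := by
    rw [W.eN, W.eH, W.eσ]
  unfold outX
  rw [if_neg (c := ¬ W.cfg.Us (W.F.N (W.F.H a)) ∧ W.rep (W.F.N (W.F.H a)) ∈ X) (by
    rw [eNH, W.hw _ hσw]
    exact fun h => h2 h.2)]
  split_ifs <;> omega

end

end TorGrid
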