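import Pool.Agent.Lib.MP_caf32e_co.W0
import Pool.Agent.Lib.MP_caf32e_co.W1
import Pool.Agent.Lib.MP_caf32e_co.W2
import Pool.Agent.Lib.MP_caf32e_co.W3
import Pool.Agent.Lib.MP_caf32e_co.W4b
import Pool.Agent.Lib.MP_caf32e_co.W5
import Pool.Agent.Lib.MP_caf32e_co.W6

/-! Row W7: the main inequality for critical sets. -/

namespace TorGrid

open Finset

/-- the box of radius `r` around the origin as a finite set -/
private noncomputable def w7B (r : ℕ) : Finset P2 :=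
  Finset.Icc (-(r : ℤ)) r ×ˢ Finset.Icc (-(r : ℤ)) r

private theorem w7B_mem (r : ℕ) (p : P2) : p ∈ w7B r ↔ InB (0, 0) r p := by
  simp only [w7B, mem_product, mem_Icc, InB, sub_zero, abs_le]

private theorem w7_outX_le {V : Type*} {m : ℕ} (F : Fol V m) (U : V → Prop) (rep : V → V)
    (X : Finset V) (v : V) : outX F U rep X v ≤ 2 := by
  unfold outX
  split_ifs <;> omega

/-- fibres bounded by a family of candidates -/
private theorem w7_card_le {α β γ : Type*} [DecidableEq α] (s : Finset α) (t : Finset β)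
    (b : Finset γ) (f : β → γ → α) (h : ∀ a ∈ s, ∃ y ∈ t, ∃ c ∈ b, f y c = a) :
    s.card ≤ t.card * b.card := by
  classical
  have h1 : s ⊆ (t ×ˢ b).image (fun q => f q.1 q.2) := by
    intro a ha
    obtain ⟨y, hy, c, hc, e⟩ := h a ha
    exact mem_image.2 ⟨(y, c), mem_product.2 ⟨hy, hc⟩, e⟩
  calc s.card ≤ ((t ×ˢ b).image (fun q => f q.1 q.2)).card := card_le_card h1
    _ ≤ (t ×ˢ b).card := card_image_le
    _ = t.card * b.card := card_product _ _

private theorem w7_back {m n : ℕ} (z a : TV m n) (p : P2) (h : ch z p = a) :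
    ch a (-p.1, -p.2) = z := by
  subst h
  unfold ch
  ext <;> simp

section
variable {m n : ℕ} [NeZero m] [NeZero n] {R ρ R1 : ℕ}

private theorem w7_Yz_mem (W : World m n R ρ R1) (X : Finset (TV m n)) (z : TV m n) (p : P2) :
    p ∈ W.Yz X z ↔ InB (0, 0) ρ p ∧ ch z p ∈ X := by
  classical
  have h := w7B_mem ρ p
  unfold w7B at h
  unfold World.Yz
  rw [mem_filter, h]

open Classical in
/-- sum over the wild vertices -/
private theorem w7_wild (W : World m n R ρ R1) (hg : GoodC R ρ R1) (hm : 4 * (R1 + 4) ≤ m)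
    (hn : 4 * (R1 + 4) ≤ n) (X : Finset (TV m n)) (hX : X ⊆ W.Rs)
    (h1 : ¬ ColOn W.Q W.cfg.L1 X) (h2 : ∀ Y, Y ⊂ X → ColOn W.Q W.cfg.L1 Y) :
    (((W.cfg.S.filter (fun z => (W.Yz X z).Nonempty)).card : ℤ) +
      ((X.filter (fun a => ¬ W.cfg.Ts a ∧
        (∀ z ∈ W.cfg.S, ∀ p, InB (0, 0) (ρ : ℤ) p → ch z p ≠ a) ∧
        1 ≤ W.cr X a)).card : ℤ)) ≤
      ∑ a ∈ X.filter (fun a => ¬ W.cfg.Ts a), W.cr X a := by
  have hρR : ρ + 4 ≤ R1 := hg.2.1
  set wild := X.filter (fun a => ¬ W.cfg.Ts a) with hwild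
  set B := W.cfg.S.biUnion (fun z => (W.Yz X z).image (ch z)) with hB
  have hBw : B ⊆ wild := by
    intro a ha
    rw [hB, mem_biUnion] at ha
    obtain ⟨z, hz, ha⟩ := ha
    rw [mem_image] at ha
    obtain ⟨p, hp, rfl⟩ := ha
    rw [w7_Yz_mem] at hp
    rw [hwild, mem_filter]
    refine ⟨hp.2, ?_⟩
    intro hT
    refine hT z hz p ?_ rfl
    obtain ⟨⟨ha, hb⟩, _⟩ := hp
    have : (ρ : ℤ) + 4 ≤ R1 := by exact_mod_cast hρR
    exact ⟨by linarith, by linarith⟩
  have hsplit : ∑ a ∈ wild, W.cr X a = ∑ a ∈ B, W.cr X a + ∑ a ∈ wild \ B, W.cr X a := by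
    rw [← sum_union (disjoint_sdiff), union_sdiff_of_subset hBw]
  have hBsum : ∑ a ∈ B, W.cr X a = ∑ z ∈ W.cfg.S, ∑ p ∈ W.Yz X z, W.cr X (ch z p) := by
    rw [hB, sum_biUnion]
    · refine sum_congr rfl ?_
      intro z _
      rw [sum_image]
      intro p hp q hq hpq
      have hp' := ((w7_Yz_mem W X z p).1 (mem_coe.1 hp)).1
      have hq' := ((w7_Yz_mem W X z q).1 (mem_coe.1 hq)).1
      exact ch_inj ρ (by omega) (by omega) z p q hp' hq' hpq
    · intro z hz z' hz' hne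
      rw [Function.onFun, disjoint_left]
      intro a ha ha'
      rw [mem_image] at ha ha'
      obtain ⟨p, hp, rfl⟩ := ha
      obtain ⟨p', hp', e⟩ := ha'
      exact W.cfg.sep z hz z' hz' hne p p' ((w7_Yz_mem W X z p).1 hp).1
        ((w7_Yz_mem W X z' p').1 hp').1 e.symm
  have hP : ((W.cfg.S.filter (fun z => (W.Yz X z).Nonempty)).card : ℤ) ≤
      ∑ z ∈ W.cfg.S, ∑ p ∈ W.Yz X z, W.cr X (ch z p) := by
    rw [card_filter]
    push_cast
    refine sum_le_sum ?_
    intro z hz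
    split_ifs with hne
    · exact World.pbox_crit W hg hm hn X hX z hz hne h1 h2
    · exact (World.pbox W hg hm hn X hX z hz).1
  have hout : ∀ a ∈ wild \ B, ∀ z ∈ W.cfg.S, ∀ p, InB (0, 0) (ρ : ℤ) p → ch z p ≠ a := by
    intro a ha z hz p hp e
    rw [mem_sdiff] at ha
    refine ha.2 ?_
    rw [hB, mem_biUnion]
    refine ⟨z, hz, mem_image.2 ⟨p, ?_, e⟩⟩
    rw [w7_Yz_mem]
    refine ⟨hp, ?_⟩
    rw [e]
    exact (mem_filter.1 ha.1).1
  have hbas := (cfg_basic W.hL W.cfg hg.1 hg.2.1 hm hn).2.2.2.2.1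
  have hcr0 : ∀ a ∈ wild \ B, 0 ≤ W.cr X a := by
    intro a ha
    have e := hbas a (hout a ha)
    have hls : W.cfg.ls a = 0 := by
      unfold Cfg.ls
      rw [e, W.hL a]
    unfold World.cr
    rw [hls]
    have i1 := w7_outX_le W.F W.cfg.Us W.rep X a
    have i2 := w7_outX_le W.F' W.cfg.Us W.rep X a
    push_cast
    omega
  have hQ : ((X.filter (fun a => ¬ W.cfg.Ts a ∧
        (∀ z ∈ W.cfg.S, ∀ p, InB (0, 0) (ρ : ℤ) p → ch z p ≠ a) ∧
        1 ≤ W.cr X a)).card : ℤ) ≤ ∑ a ∈ wild \ B, W.cr X a := by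
    have hsub : X.filter (fun a => ¬ W.cfg.Ts a ∧
        (∀ z ∈ W.cfg.S, ∀ p, InB (0, 0) (ρ : ℤ) p → ch z p ≠ a) ∧
        1 ≤ W.cr X a) ⊆ (wild \ B).filter (fun a => 1 ≤ W.cr X a) := by
      intro a ha
      rw [mem_filter] at ha
      rw [mem_filter, mem_sdiff, hwild, mem_filter]
      refine ⟨⟨⟨ha.1, ha.2.1⟩, ?_⟩, ha.2.2.2⟩
      intro hB'
      rw [hB, mem_biUnion] at hB'
      obtain ⟨z, hz, hb⟩ := hB'
      rw [mem_image] at hb
      obtain ⟨p, hp, e⟩ := hb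
      exact ha.2.2.1 z hz p ((w7_Yz_mem W X z p).1 hp).1 e
    have h3 : ((X.filter (fun a => ¬ W.cfg.Ts a ∧
        (∀ z ∈ W.cfg.S, ∀ p, InB (0, 0) (ρ : ℤ) p → ch z p ≠ a) ∧
        1 ≤ W.cr X a)).card : ℤ) ≤ (((wild \ B).filter (fun a => 1 ≤ W.cr X a)).card : ℤ) := by
      exact_mod_cast card_le_card hsub
    refine h3.trans ?_
    rw [card_filter]
    push_cast
    refine sum_le_sum ?_
    intro a ha
    split_ifs with hc
    · exact hc
    · exact hcr0 a ha
  rw [hsplit, hBsum]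
  linarith

open Classical in
/-- the wild vertices of `X` are controlled by the credit units -/
private theorem w7_wild_card (W : World m n R ρ R1) (hg : GoodC R ρ R1) (hm : 4 * (R1 + 4) ≤ m)
    (hn : 4 * (R1 + 4) ≤ n) (X : Finset (TV m n)) (hX : X ⊆ W.Rs) :
    (X.filter (fun a => ¬ W.cfg.Ts a)).card ≤
      ((W.cfg.S.filter (fun z => (W.Yz X z).Nonempty)).card +
      (X.filter (fun a => ¬ W.cfg.Ts a ∧
        (∀ z ∈ W.cfg.S, ∀ p, InB (0, 0) (ρ : ℤ) p → ch z p ≠ a) ∧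
        1 ≤ W.cr X a)).card) * ((w7B ρ).card * (w7B R1).card * (w7B R1).card) := by
  set P := W.cfg.S.filter (fun z => (W.Yz X z).Nonempty) with hP
  set Q := X.filter (fun a => ¬ W.cfg.Ts a ∧
        (∀ z ∈ W.cfg.S, ∀ p, InB (0, 0) (ρ : ℤ) p → ch z p ≠ a) ∧
        1 ≤ W.cr X a) with hQ
  have key : ∀ a ∈ X.filter (fun a => ¬ W.cfg.Ts a), ∃ y ∈ P ∪ Q, ∃ c ∈ (w7B ρ ×ˢ w7B R1) ×ˢ w7B R1,
      ch (ch (ch y c.1.1) (-c.1.2.1, -c.1.2.2)) c.2 = a := by
    intro a ha
    rw [mem_filter] at ha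
    obtain ⟨haX, hT⟩ := ha
    unfold Cfg.Ts at hT
    push Not at hT
    obtain ⟨z, hz, p, hp, e⟩ := hT
    obtain ⟨q, hq, hqX, h⟩ := World.walk W hg hm hn X hX z hz p hp (by rw [e]; exact haX)
    rcases h with ⟨z', hz', q', hq', e'⟩ | ⟨hno, hcr⟩
    · refine ⟨z', mem_union_left _ ?_, ((q', q), p), ?_, ?_⟩
      · rw [hP, mem_filter]
        refine ⟨hz', ⟨q', ?_⟩⟩
        rw [w7_Yz_mem]
        exact ⟨hq', by rw [e']; exact hqX⟩
      · simp only [mem_product, w7B_mem]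
        exact ⟨⟨hq', hq⟩, hp⟩
      · simp only
        rw [e', w7_back z _ q rfl, e]
    · refine ⟨ch z q, mem_union_right _ ?_, (((0, 0), q), p), ?_, ?_⟩
      · rw [hQ, mem_filter]
        refine ⟨hqX, ?_, hno, hcr⟩
        intro hT'
        exact hT' z hz q hq rfl
      · simp only [mem_product, w7B_mem]
        refine ⟨⟨?_, hq⟩, hp⟩
        simp [InB]
      · have e0 : ch (ch z q) (0, 0) = ch z q := by
          simp [ch]
        simp only
        rw [e0, w7_back z _ q rfl, e]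
  have h := w7_card_le _ _ _ (fun (y : TV m n) (c : (P2 × P2) × P2) =>
    ch (ch (ch y c.1.1) (-c.1.2.1, -c.1.2.2)) c.2) key
  rw [card_product, card_product] at h
  exact h.trans (Nat.mul_le_mul_right _ (card_union_le _ _))

open Classical in
/-- the tame vertices of `X` -/
private theorem w7_tame_card (W : World m n R ρ R1) (hg : GoodC R ρ R1) (hm : 4 * (R1 + 4) ≤ m)
    (hn : 4 * (R1 + 4) ≤ n) (X : Finset (TV m n)) (hX : X ⊆ W.Rs) :
    (X.filter (fun a => W.cfg.Ts a ∧ ¬ W.F.Full W.cfg.Ts a)).card ≤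
      2 * ((X.filter (fun a => W.cfg.Ts a ∧ ¬ W.F.Full W.cfg.Ts a)).filter
        (fun a => outX W.F W.cfg.Us W.rep X a ≤ 1)).card +
      3 * (X.filter (fun a => ¬ W.cfg.Ts a)).card := by
  set T0 := X.filter (fun a => W.cfg.Ts a ∧ ¬ W.F.Full W.cfg.Ts a) with hT0
  set T1 := T0.filter (fun a => outX W.F W.cfg.Us W.rep X a ≤ 1) with hT1
  set wild := X.filter (fun a => ¬ W.cfg.Ts a) with hwild
  have injN : ∀ a b, W.F.N a = W.F.N b → a = b := by
    intro a b h
    rw [W.eN, W.eN, Prod.mk.injEq] at h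
    exact Prod.ext h.1 (add_right_cancel h.2)
  have injH : ∀ a b, W.F.H a = W.F.H b → a = b := by
    intro a b h
    rw [W.eH, W.eH, Prod.mk.injEq] at h
    have h2 : a.2 = b.2 := h.2
    have h1 := h.1
    rw [h2] at h1
    exact Prod.ext (add_right_cancel h1) h2
  have injσ : ∀ a b, W.F.σ a = W.F.σ b → a = b := fun a b h => W.F.σ.injective h
  have pre : ∀ (g : TV m n → TV m n) (_ : ∀ a b, g a = g b → a = b) (s : Finset (TV m n)),
      (T0.filter (fun a => g a ∈ s)).card ≤ s.card := by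
    intro g hgi s
    refine card_le_card_of_injOn g ?_ ?_
    · intro a ha
      exact (mem_filter.1 (mem_coe.1 ha)).2
    · intro a _ b _ h
      exact hgi a b h
  have cov : T0 ⊆ ((T1 ∪ T0.filter (fun a => W.F.σ a ∈ wild)) ∪
      (T0.filter (fun a => W.F.N a ∈ wild) ∪ T0.filter (fun a => W.F.H a ∈ wild))) ∪
      T0.filter (fun a => W.F.H a ∈ T1) := by
    intro a ha
    have ha' := ha
    rw [hT0, mem_filter] at ha'
    rcases World.tame_charge W hg hm hn X hX a ha'.1 ha'.2.1 ha'.2.2 with h | h | h | h | h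
    · exact mem_union_left _ (mem_union_left _ (mem_union_left _ (mem_filter.2 ⟨ha, h⟩)))
    · exact mem_union_left _ (mem_union_left _ (mem_union_right _ (mem_filter.2
        ⟨ha, mem_filter.2 h⟩)))
    · exact mem_union_left _ (mem_union_right _ (mem_union_left _ (mem_filter.2
        ⟨ha, mem_filter.2 h⟩)))
    · exact mem_union_left _ (mem_union_right _ (mem_union_right _ (mem_filter.2
        ⟨ha, mem_filter.2 h⟩)))
    · refine mem_union_right _ (mem_filter.2 ⟨ha, ?_⟩)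
      rw [hT1, mem_filter, hT0, mem_filter]
      exact ⟨⟨h.1, h.2.1, h.2.2.1⟩, h.2.2.2⟩
  have c := card_le_card cov
  have u1 := card_union_le (((T1 ∪ T0.filter (fun a => W.F.σ a ∈ wild)) ∪
      (T0.filter (fun a => W.F.N a ∈ wild) ∪ T0.filter (fun a => W.F.H a ∈ wild))))
      (T0.filter (fun a => W.F.H a ∈ T1))
  have u2 := card_union_le (T1 ∪ T0.filter (fun a => W.F.σ a ∈ wild))
      (T0.filter (fun a => W.F.N a ∈ wild) ∪ T0.filter (fun a => W.F.H a ∈ wild))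
  have u3 := card_union_le T1 (T0.filter (fun a => W.F.σ a ∈ wild))
  have u4 := card_union_le (T0.filter (fun a => W.F.N a ∈ wild))
      (T0.filter (fun a => W.F.H a ∈ wild))
  have p1 := pre W.F.σ injσ wild
  have p2 := pre W.F.N injN wild
  have p3 := pre W.F.H injH wild
  have p4 := pre W.F.H injH T1
  omega

end

open Classical in
/-- W7. The main inequality for critical sets. -/
theorem World.MI {R ρ R1 : ℕ} (hg : GoodC R ρ R1) : ∃ C : ℕ, ∀ (m n : ℕ) [NeZero m] [NeZero n]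
    (W : World m n R ρ R1) (_ : 4 * (R1 + 4) ≤ m) (_ : 4 * (R1 + 4) ≤ n) (X : Finset (TV m n))
    (_ : X ⊆ W.Rs) (_ : ¬ ColOn W.Q W.cfg.L1 X) (_ : ∀ Y, Y ⊂ X → ColOn W.Q W.cfg.L1 Y),
    (X.card : ℤ) ≤ C * h2 W.Q W.cfg.L1 X := by
  refine ⟨4 * ((w7B ρ).card * (w7B R1).card * (w7B R1).card) + 2, ?_⟩
  intro m n _ _ W hm hn X hX h1 h2'
  set K := (w7B ρ).card * (w7B R1).card * (w7B R1).card with hK
  have A1 := World.star W hg hm hn X hX
  have A2 := w7_wild W hg hm hn X hX h1 h2'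
  have A3 := w7_wild_card W hg hm hn X hX
  have A4 := w7_tame_card W hg hm hn X hX
  set P := (W.cfg.S.filter (fun z => (W.Yz X z).Nonempty)).card with hP
  set Q := (X.filter (fun a => ¬ W.cfg.Ts a ∧
        (∀ z ∈ W.cfg.S, ∀ p, InB (0, 0) (ρ : ℤ) p → ch z p ≠ a) ∧
        1 ≤ W.cr X a)).card with hQ
  have A5 : (((X.filter (fun a => W.cfg.Ts a ∧ ¬ W.F.Full W.cfg.Ts a)).filter
        (fun a => outX W.F W.cfg.Us W.rep X a ≤ 1)).card : ℤ) ≤
      ∑ a ∈ X.filter (fun a => W.cfg.Ts a ∧ ¬ W.F.Full W.cfg.Ts a),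
        (2 - (outX W.F W.cfg.Us W.rep X a : ℤ)) := by
    rw [card_filter]
    push_cast
    refine sum_le_sum ?_
    intro a _
    have i1 := w7_outX_le W.F W.cfg.Us W.rep X a
    split_ifs with hc
    · omega
    · omega
  have A6 : X.card = (X.filter (fun a => ¬ W.cfg.Ts a)).card +
      ((X.filter (fun a => W.cfg.Ts a ∧ ¬ W.F.Full W.cfg.Ts a)).card +
      (X.filter (fun a => W.F.Full W.cfg.Ts a)).card) := by
    have e1 := card_filter_add_card_filter_not (s := X) (fun a => W.cfg.Ts a)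
    have e2 := card_filter_add_card_filter_not (s := X.filter (fun a => W.cfg.Ts a))
      (fun a => ¬ W.F.Full W.cfg.Ts a)
    rw [filter_filter, filter_filter] at e2
    have e3 : X.filter (fun a => W.cfg.Ts a ∧ ¬ ¬ W.F.Full W.cfg.Ts a) =
        X.filter (fun a => W.F.Full W.cfg.Ts a) := by
      refine filter_congr ?_
      intro a _
      constructor
      · intro h
        exact not_not.1 h.2
      · intro h
        exact ⟨h 0, not_not.2 h⟩
    rw [e3] at e2
    omega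
  set w := (X.filter (fun a => ¬ W.cfg.Ts a)).card with hw
  set t := (X.filter (fun a => W.cfg.Ts a ∧ ¬ W.F.Full W.cfg.Ts a)).card with ht
  set t1 := ((X.filter (fun a => W.cfg.Ts a ∧ ¬ W.F.Full W.cfg.Ts a)).filter
        (fun a => outX W.F W.cfg.Us W.rep X a ≤ 1)).card with ht1
  set f := (X.filter (fun a => W.F.Full W.cfg.Ts a)).card with hf
  have B1 : ((P : ℤ) + Q) + t1 + 2 * f ≤ h2 W.Q W.cfg.L1 X := by linarith
  have B2 : X.card ≤ (4 * K + 2) * (P + Q + t1 + 2 * f) := by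
    have A3' : w ≤ (P + Q) * K := A3
    have A4' : t ≤ 2 * t1 + 3 * w := A4
    have : w + (t + f) ≤ 4 * ((P + Q) * K) + 2 * t1 + f := by linarith
    rw [A6]
    refine this.trans ?_
    nlinarith [Nat.zero_le (K * t1), Nat.zero_le (K * f), Nat.zero_le P, Nat.zero_le Q]
  have B3 : (X.card : ℤ) ≤ (4 * (K : ℤ) + 2) * ((P : ℤ) + Q + t1 + 2 * f) := by
    exact_mod_cast B2
  refine B3.trans ?_
  push_cast
  exact mul_le_mul_of_nonneg_left B1 (by positivity)

end TorGrid
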