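import Pool.Agent.Lib.MP_caf32e_co.K5
import Pool.Agent.Lib.MP_caf32e_co.W1
import Pool.Agent.Lib.MP_caf32e_co.W7

namespace TorGrid

open Finset

/-- a neighbour of a precoloured vertex is not tame -/
private theorem W8_not_tame {m n : ℕ} {L : TV m n → Finset ℕ} {R ρ R1 : ℕ}
    (c : Cfg m n L R ρ R1) (h1 : R + 1 ≤ R1) (u v : TV m n) (hu : c.Us u)
    (hadj : (TG m n).Adj u v) : ¬ c.Ts v := by
  obtain ⟨z, hz, p, hp, rfl⟩ := hu
  intro hT
  have hR := c.inR z hz p hp
  unfold InB at hR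
  simp only [sub_zero] at hR
  obtain ⟨ha, hb⟩ := hR
  rw [abs_le] at ha hb
  have h1' : (R : ℤ) + 1 ≤ R1 := by exact_mod_cast h1
  obtain ⟨_, h | h | h | h⟩ := hadj
  · refine hT z hz (p.1 + 1, p.2) ?_ ?_
    · unfold InB
      simp only [sub_zero]
      exact ⟨abs_le.mpr ⟨by linarith, by linarith⟩, abs_le.mpr ⟨by linarith, by linarith⟩⟩
    · rw [h]; simp only [ch]; ext <;> push_cast <;> ring
  · refine hT z hz (p.1 - 1, p.2) ?_ ?_
    · unfold InB
      simp only [sub_zero]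
      exact ⟨abs_le.mpr ⟨by linarith, by linarith⟩, abs_le.mpr ⟨by linarith, by linarith⟩⟩
    · rw [h]; simp only [ch]; ext <;> push_cast <;> ring
  · refine hT z hz (p.1, p.2 + 1) ?_ ?_
    · unfold InB
      simp only [sub_zero]
      exact ⟨abs_le.mpr ⟨by linarith, by linarith⟩, abs_le.mpr ⟨by linarith, by linarith⟩⟩
    · rw [h]; simp only [ch]; ext <;> push_cast <;> ring
  · refine hT z hz (p.1, p.2 - 1) ?_ ?_
    · unfold InB
      simp only [sub_zero]
      exact ⟨abs_le.mpr ⟨by linarith, by linarith⟩, abs_le.mpr ⟨by linarith, by linarith⟩⟩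
    · rw [h]; simp only [ch]; ext <;> push_cast <;> ring

section
variable {m n : ℕ} [NeZero m] [NeZero n] {R ρ R1 : ℕ}

private theorem W8_step (W : World m n R ρ R1) (w : TV m n) (h1 : W.cfg.Ts w)
    (h2 : W.cfg.Ts (W.F.σ w)) : W.L (W.F.σ w) = W.L w := by
  have hw := W.cfg.tame w h1
  have hs := W.cfg.tame _ h2
  rw [W.eσ w] at hs ⊢
  obtain ⟨a1, a2, a3, a4⟩ := hs
  simp only at a1 a2 a3 a4
  rw [hw.2.2.1]
  unfold sg at a1 a2 ⊢
  split_ifs at a1 a2 ⊢ with h
  · rw [a2]; congr 1; ext <;> push_cast <;> simp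
  · rw [a1]; congr 1; ext <;> push_cast <;> simp

private theorem W8_run (W : World m n R ρ R1) (v : TV m n) (k : ℕ)
    (h : ∀ i ≤ k, W.cfg.Ts (W.F.σ^[i] v)) : W.L (W.F.σ^[k] v) = W.L v := by
  induction k with
  | zero => rfl
  | succ k ih =>
    rw [Function.iterate_succ_apply']
    rw [W8_step W _ (h k (by omega)) (by have := h (k + 1) le_rfl; rwa [Function.iterate_succ_apply'] at this)]
    exact ih (fun i hi => h i (by omega))

private theorem W8_delta (W : World m n R ρ R1) (u v : TV m n) (h : W.F.G.Adj u v) :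
    W.F.δ v = W.F.δ u + 1 ∨ W.F.δ v = W.F.δ u - 1 := by
  rcases W.F.cover u v h with h | h | h | h
  · rcases W.F.hd u with hh | hh
    · left; rw [h]; exact hh.1
    · right; rw [h]; exact hh.1
  · rcases W.F.hd u with hh | hh
    · right; rw [h]; exact hh.2
    · left; rw [h]; exact hh.2
  · rcases W.F.hd v with hh | hh
    · right; rw [h, hh.1]; ring
    · left; rw [h, hh.1]; ring
  · rcases W.F.hd v with hh | hh
    · left; rw [h, hh.2]; ring
    · right; rw [h, hh.2]; ring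

open Classical in
theorem World.colour (hg : GoodC R ρ R1) : ∃ N0 : ℕ, ∀ (m n : ℕ) [NeZero m] [NeZero n]
    (W : World m n R ρ R1) (_ : N0 ≤ m) (_ : N0 ≤ n),
    ∃ c : TV m n → ℕ, (∀ v, c v ∈ W.L v) ∧ ∀ u v, (TG m n).Adj u v → c u ≠ c v := by
  obtain ⟨C, hC⟩ := World.MI hg
  refine ⟨4 * (R1 + 4) + 4 * C, ?_⟩
  intro m n _ _ W hm hn
  have hm4 : 4 * (R1 + 4) ≤ m := by omega
  have hn4 : 4 * (R1 + 4) ≤ n := by omega
  have hm3 : 3 ≤ m := by omega
  obtain ⟨b1, b2, b3, b4, b5, b6, b7, b8⟩ := cfg_basic W.hL W.cfg hg.1 hg.2.1 hm4 hn4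
  have hhom : ∀ u v, W.Q.Adj u v → W.F.δ v = W.F.δ u + 1 ∨ W.F.δ v = W.F.δ u - 1 := by
    rintro u v ⟨_, u', v', _, _, hu, hv, hadj⟩
    have := W8_delta W u' v' hadj
    rw [← hu, ← hv, W.hC.hδ, W.hC.hδ]
    exact this
  have hL1 : ∀ v, W.cfg.L1 v ⊆ W.L v := fun v => Finset.sdiff_subset
  have hcol : ColOn W.Q W.cfg.L1 W.Rs := by
    refine crit W.Q m hm3 W.F.δ hhom W.cfg.L1 ?_ W.Rs C (by omega) ?_
    · intro v
      rw [← W.hL v]
      exact Finset.card_le_card (hL1 v)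
    · intro X hX _ h1 h2
      exact hC m n W hm4 hn4 X hX h1 h2
  obtain ⟨c, hc1, hc2⟩ := hcol
  have hrepU : ∀ v, ¬ W.cfg.Us v → W.rep v ∈ W.Rs := by
    intro v hv
    unfold World.Rs
    rw [Finset.mem_filter]
    refine ⟨Finset.mem_univ _, ?_, W.hrr v⟩
    by_cases hT : W.cfg.Ts v
    · exact b1 _ (W.hTT v hT)
    · rw [W.hw v hT]; exact hv
  have hlist : ∀ v, ¬ W.cfg.Us v → c (W.rep v) ∈ W.L v := by
    intro v hv
    have h1 := hc1 _ (hrepU v hv)
    have h2 := hL1 _ h1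
    by_cases hT : W.cfg.Ts v
    · obtain ⟨k, hk, hk2⟩ := W.hrun v hT
      have h3 := W8_run W v k hk
      rw [← hk2] at h3
      rwa [h3] at h2
    · have h4 := W.hw v hT
      rw [h4] at h2 ⊢
      exact h2
  have hmixed : ∀ u v, W.cfg.Us u → ¬ W.cfg.Us v → (TG m n).Adj u v →
      W.cfg.Phi u ≠ c (W.rep v) := by
    intro u v hu hv hadj heq
    have hT : ¬ W.cfg.Ts v := W8_not_tame W.cfg (by have := hg.1; have := hg.2.1; omega) u v hu hadj
    have hr := hrepU v hv
    rw [W.hw v hT] at hr heq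
    have h1 := hc1 v hr
    unfold Cfg.L1 at h1
    rw [Finset.mem_sdiff] at h1
    apply h1.2
    rw [Finset.mem_image]
    refine ⟨u, ?_, heq⟩
    rw [Finset.mem_filter]
    refine ⟨?_, hu⟩
    have hadj' := (SimpleGraph.Adj.symm hadj).2
    unfold nbT
    simp only [Finset.mem_insert, Finset.mem_singleton]
    exact hadj'
  refine ⟨fun v => if W.cfg.Us v then W.cfg.Phi v else c (W.rep v), ?_, ?_⟩
  · intro v
    by_cases hv : W.cfg.Us v
    · simp only [if_pos hv]; exact b7 v hv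
    · simp only [if_neg hv]; exact hlist v hv
  · intro u v hadj
    by_cases hu : W.cfg.Us u <;> by_cases hv : W.cfg.Us v
    · simp only [if_pos hu, if_pos hv]; exact b8 u v hu hv hadj
    · simp only [if_pos hu, if_neg hv]; exact hmixed u v hu hv hadj
    · simp only [if_neg hu, if_pos hv]
      exact (hmixed v u hv hu (SimpleGraph.Adj.symm hadj)).symm
    · simp only [if_neg hu, if_neg hv]
      refine hc2 _ (hrepU u hu) _ (hrepU v hv) ?_
      have hadjF : W.F.G.Adj u v := by rw [W.hG]; exact hadj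
      refine ⟨?_, u, v, hu, hv, rfl, rfl, hadjF⟩
      intro heq
      have h1 := W8_delta W u v hadjF
      have h2 : W.F.δ (W.rep u) = W.F.δ (W.rep v) := by rw [heq]
      rw [W.hC.hδ, W.hC.hδ] at h2
      rw [← h2] at h1
      have hne : (1 : ZMod m) ≠ 0 := by
        have : Fact (1 < m) := ⟨by omega⟩
        exact one_ne_zero
      rcases h1 with h1 | h1
      · exact hne (by linear_combination -h1)
      · exact hne (by linear_combination h1)

end

end TorGrid
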